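import Pool.Agent.FibReg.Defs

/-!
# Basic lemmas: valuation of values of polynomials, coefficientwise derivations, chain rule
-/

open MvPolynomial

namespace FibReg

universe u

section Val

variable {K : Type u} [Field K]

theorem v_mul (x y : HS K) : (x * y).orderTop = x.orderTop + y.orderTop :=
  HahnSeries.orderTop_mul x y

theorem v_pow (x : HS K) (n : ℕ) : (x ^ n).orderTop = n • x.orderTop := by
  induction n with
  | zero => simp
  | succ n ih => rw [pow_succ, v_mul, ih, succ_nsmul]

theorem v_prod {α : Type*} (s : Finset α) (f : α → HS K) :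
    (∏ i ∈ s, f i).orderTop = ∑ i ∈ s, (f i).orderTop := by
  classical
  induction s using Finset.induction_on with
  | empty => simp
  | insert a s ha ih => rw [Finset.prod_insert ha, Finset.sum_insert ha, v_mul, ih]

theorem le_v_add {q : WithTop ℚ} {x y : HS K} (hx : q ≤ x.orderTop) (hy : q ≤ y.orderTop) :
    q ≤ (x + y).orderTop :=
  le_trans (le_min hx hy) HahnSeries.min_orderTop_le_orderTop_add

theorem lt_v_add {q : WithTop ℚ} {x y : HS K} (hx : q < x.orderTop) (hy : q < y.orderTop) :
    q < (x + y).orderTop :=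
  lt_of_lt_of_le (lt_min hx hy) HahnSeries.min_orderTop_le_orderTop_add

theorem v_neg (x : HS K) : (-x).orderTop = x.orderTop := HahnSeries.orderTop_neg

theorem le_v_sub {q : WithTop ℚ} {x y : HS K} (hx : q ≤ x.orderTop) (hy : q ≤ y.orderTop) :
    q ≤ (x - y).orderTop :=
  le_trans (le_min hx hy) HahnSeries.min_orderTop_le_orderTop_sub

theorem lt_v_sub {q : WithTop ℚ} {x y : HS K} (hx : q < x.orderTop) (hy : q < y.orderTop) :
    q < (x - y).orderTop :=
  lt_of_lt_of_le (lt_min hx hy) HahnSeries.min_orderTop_le_orderTop_sub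

theorem le_v_sum {α : Type*} {s : Finset α} {f : α → HS K} {q : WithTop ℚ}
    (h : ∀ i ∈ s, q ≤ (f i).orderTop) : q ≤ (∑ i ∈ s, f i).orderTop := by
  classical
  induction s using Finset.induction_on with
  | empty => simp
  | insert a s ha ih =>
    rw [Finset.sum_insert ha]
    exact le_v_add (h a (Finset.mem_insert_self a s))
      (ih fun i hi => h i (Finset.mem_insert_of_mem hi))

theorem lt_v_sum {α : Type*} {s : Finset α} {f : α → HS K} {q : WithTop ℚ} (hq : q < ⊤)
    (h : ∀ i ∈ s, q < (f i).orderTop) : q < (∑ i ∈ s, f i).orderTop := by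
  classical
  induction s using Finset.induction_on with
  | empty => simpa using hq
  | insert a s ha ih =>
    rw [Finset.sum_insert ha]
    exact lt_v_add (h a (Finset.mem_insert_self a s))
      (ih fun i hi => h i (Finset.mem_insert_of_mem hi))

theorem le_v_mul_left {q : WithTop ℚ} {x y : HS K} (hx : 0 ≤ x.orderTop) (hy : q ≤ y.orderTop) :
    q ≤ (x * y).orderTop := by
  rw [v_mul]
  calc q = 0 + q := (zero_add q).symm
    _ ≤ _ := add_le_add hx hy

theorem lt_v_mul_left {q : WithTop ℚ} {x y : HS K} (hx : 0 ≤ x.orderTop) (hy : q < y.orderTop) :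
    q < (x * y).orderTop := by
  rw [v_mul]
  calc q < y.orderTop := hy
    _ = 0 + y.orderTop := (zero_add _).symm
    _ ≤ _ := add_le_add hx le_rfl

theorem v_nonneg_mul {x y : HS K} (hx : 0 ≤ x.orderTop) (hy : 0 ≤ y.orderTop) :
    0 ≤ (x * y).orderTop := le_v_mul_left hx hy

theorem v_nonneg_pow {x : HS K} (hx : 0 ≤ x.orderTop) (n : ℕ) : 0 ≤ (x ^ n).orderTop := by
  rw [v_pow]
  exact nsmul_nonneg hx n

theorem v_nonneg_prod {α : Type*} {s : Finset α} {f : α → HS K}
    (h : ∀ i ∈ s, 0 ≤ (f i).orderTop) : 0 ≤ (∏ i ∈ s, f i).orderTop := by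
  rw [v_prod]
  exact Finset.sum_nonneg h

/-- the multiplication by an integral element at the exponent `q` when the other factor has
valuation at least `q`. -/
theorem coeff_mul_of_le {x y : HS K} {q : ℚ} (hx : 0 ≤ x.orderTop)
    (hy : (q : WithTop ℚ) ≤ y.orderTop) : (x * y).coeff q = x.coeff 0 * y.coeff q := by
  classical
  rw [HahnSeries.coeff_mul]
  have hx' : ∀ j : ℚ, j < 0 → x.coeff j = 0 := fun j hj =>
    HahnSeries.coeff_eq_zero_of_lt_orderTop (lt_of_lt_of_le (by exact_mod_cast hj) hx)
  have hy' : ∀ j : ℚ, j < q → y.coeff j = 0 := fun j hj =>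
    HahnSeries.coeff_eq_zero_of_lt_orderTop (lt_of_lt_of_le (by exact_mod_cast hj) hy)
  by_cases hmem : (0, q) ∈ Finset.antidiagonal x.isPWO_support y.isPWO_support q
  · rw [Finset.sum_eq_single_of_mem (0, q) hmem]
    rintro ⟨i, j⟩ hij hne
    simp only [Finset.mem_antidiagonal] at hij
    by_cases hi : i < 0
    · rw [hx' i hi, zero_mul]
    · have hi' : i ≠ 0 := by
        rintro rfl
        apply hne
        have : j = q := by linarith [hij.2.2]
        rw [this]
      have : j < q := by
        have h0 : 0 < i := lt_of_le_of_ne (not_lt.1 hi) (Ne.symm hi')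
        linarith [hij.2.2]
      rw [hy' j this, mul_zero]
  · have h0 : x.coeff 0 * y.coeff q = 0 := by
      by_contra hne
      apply hmem
      simp only [Finset.mem_antidiagonal, HahnSeries.mem_support]
      exact ⟨left_ne_zero_of_mul hne, right_ne_zero_of_mul hne, by ring⟩
    rw [h0]
    apply Finset.sum_eq_zero
    rintro ⟨i, j⟩ hij
    have hij' := hij
    simp only [Finset.mem_antidiagonal] at hij
    by_cases hi : i < 0
    · rw [hx' i hi, zero_mul]
    · have hi' : i ≠ 0 := by
        rintro rfl
        apply hmem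
        have : j = q := by linarith [hij.2.2]
        rw [this] at hij'
        exact hij'
      have : j < q := by
        have h0 : 0 < i := lt_of_le_of_ne (not_lt.1 hi) (Ne.symm hi')
        linarith [hij.2.2]
      rw [hy' j this, mul_zero]

/-- The ring of integral elements of `HS K`. -/
def intRing (K : Type u) [Field K] : Subring (HS K) where
  carrier := {x | 0 ≤ x.orderTop}
  mul_mem' := fun hx hy => v_nonneg_mul hx hy
  one_mem' := by simp
  add_mem' := fun hx hy => le_v_add hx hy
  zero_mem' := by simp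
  neg_mem' := by
    intro x hx
    show 0 ≤ (-x).orderTop
    rw [v_neg]
    exact hx

theorem mem_intRing {x : HS K} : x ∈ intRing K ↔ 0 ≤ x.orderTop := Iff.rfl

/-- The residue map: the coefficient at `0`. -/
def res (K : Type u) [Field K] : intRing K →+* K where
  toFun x := (x : HS K).coeff 0
  map_one' := by simp
  map_mul' := by
    rintro ⟨x, hx⟩ ⟨y, hy⟩
    exact coeff_mul_of_le hx (by exact_mod_cast hy)
  map_zero' := by simp
  map_add' := by
    rintro ⟨x, hx⟩ ⟨y, hy⟩
    exact HahnSeries.coeff_add

theorem res_apply (x : intRing K) : res K x = (x : HS K).coeff 0 := rfl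

theorem coeff_zero_mul {x y : HS K} (hx : 0 ≤ x.orderTop) (hy : 0 ≤ y.orderTop) :
    (x * y).coeff 0 = x.coeff 0 * y.coeff 0 :=
  coeff_mul_of_le hx (by exact_mod_cast hy)

theorem pos_iff_of_nonneg {x : HS K} (hx : 0 ≤ x.orderTop) :
    0 < x.orderTop ↔ x.coeff 0 = 0 := by
  constructor
  · intro h
    exact HahnSeries.coeff_eq_zero_of_lt_orderTop (by exact_mod_cast h)
  · intro h
    refine lt_of_le_of_ne hx ?_
    intro h0
    exact HahnSeries.coeff_orderTop_ne (x := x) (g := 0) (by exact_mod_cast h0.symm) h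

theorem v_eq_zero_of_coeff_ne {x : HS K} (hx : 0 ≤ x.orderTop) (h : x.coeff 0 ≠ 0) :
    x.orderTop = 0 :=
  le_antisymm (not_lt.1 fun h' => h ((pos_iff_of_nonneg hx).1 h')) hx

theorem v_C_nonneg (a : K) : 0 ≤ (HahnSeries.C a : HS K).orderTop := by
  exact_mod_cast (HahnSeries.orderTop_single_le (a := (0 : ℚ)) (r := a))

theorem v_algebraMap_nonneg {F : Type*} [Field F] [Algebra F K] (a : F) :
    0 ≤ (algebraMap F (HS K) a).orderTop := by
  rw [HahnSeries.algebraMap_apply]
  exact v_C_nonneg _

theorem coeff_algebraMap {F : Type*} [Field F] [Algebra F K] (a : F) (q : ℚ) :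
    (algebraMap F (HS K) a).coeff q = if q = 0 then algebraMap F K a else 0 := by
  classical
  rw [HahnSeries.algebraMap_apply]
  show (HahnSeries.single 0 (algebraMap F K a)).coeff q = _
  rw [HahnSeries.coeff_single]
  split_ifs <;> simp_all

theorem coeff_zero_algebraMap {F : Type*} [Field F] [Algebra F K] (a : F) :
    (algebraMap F (HS K) a).coeff 0 = algebraMap F K a := by
  rw [coeff_algebraMap, if_pos rfl]

theorem v_algebraMap_of_ne {F : Type*} [Field F] [Algebra F K] {a : F} (ha : a ≠ 0) :
    (algebraMap F (HS K) a).orderTop = 0 := by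
  apply v_eq_zero_of_coeff_ne (v_algebraMap_nonneg a)
  rw [coeff_zero_algebraMap]
  exact fun h => ha ((algebraMap F K).injective (by rw [h, map_zero]))

end Val

section Eval

variable {F K : Type u} [Field F] [Field K] [Algebra F K] {ι : Type*}

theorem aeval_map_HS (ξ : ι → HS K) (h : MvPolynomial ι F) :
    aeval ξ (map (algebraMap F K) h) = aeval ξ h :=
  aeval_map_algebraMap K ξ h

theorem v_aeval_nonneg {ξ : ι → HS K} (hξ : ∀ i, 0 ≤ (ξ i).orderTop) (h : MvPolynomial ι F) :
    0 ≤ (aeval ξ h).orderTop := by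
  induction h using MvPolynomial.induction_on with
  | C a =>
    rw [algHom_C]
    exact v_algebraMap_nonneg a
  | add p q hp hq =>
    rw [map_add]
    exact le_v_add hp hq
  | mul_X p i hp =>
    rw [map_mul, aeval_X]
    exact v_nonneg_mul hp (hξ i)

/-- The residue of the value of a polynomial at an integral point. -/
theorem coeff_zero_aeval {ξ : ι → HS K} (hξ : ∀ i, 0 ≤ (ξ i).orderTop) (h : MvPolynomial ι F) :
    (aeval ξ h).coeff 0 = aeval (fun i => (ξ i).coeff 0) h := by
  induction h using MvPolynomial.induction_on with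
  | C a =>
    rw [algHom_C, algHom_C, coeff_zero_algebraMap]
  | add p q hp hq =>
    rw [map_add, map_add, HahnSeries.coeff_add, hp, hq]
  | mul_X p i hp =>
    rw [map_mul, map_mul, aeval_X, aeval_X, coeff_zero_mul (v_aeval_nonneg hξ p) (hξ i), hp]

theorem coeff_zero_aeval_of_pos {ξ : ι → HS K} (hξ : ∀ i, 0 < (ξ i).orderTop)
    (h : MvPolynomial ι F) :
    (aeval ξ h).coeff 0 = algebraMap F K (eval 0 h) := by
  rw [coeff_zero_aeval (fun i => (hξ i).le)]
  have : (fun i => (ξ i).coeff 0) = fun i => algebraMap F K ((0 : ι → F) i) := by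
    funext i
    rw [(pos_iff_of_nonneg (hξ i).le).1 (hξ i)]
    simp
  rw [this]
  have h2 := MvPolynomial.aeval_algebraMap_apply (A := F) K (0 : ι → F) h
  rw [show (algebraMap F K ∘ (0 : ι → F)) = fun i => algebraMap F K ((0 : ι → F) i) from rfl] at h2
  rw [h2]
  rfl

theorem v_aeval_pos {ξ : ι → HS K} (hξ : ∀ i, 0 < (ξ i).orderTop)
    {h : MvPolynomial ι F} (h0 : eval 0 h = 0) : 0 < (aeval ξ h).orderTop := by
  rw [pos_iff_of_nonneg (v_aeval_nonneg (fun i => (hξ i).le) h), coeff_zero_aeval_of_pos hξ, h0,
    map_zero]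

theorem v_aeval_zero {ξ : ι → HS K} (hξ : ∀ i, 0 < (ξ i).orderTop)
    {h : MvPolynomial ι F} (h0 : eval 0 h ≠ 0) : (aeval ξ h).orderTop = 0 := by
  apply v_eq_zero_of_coeff_ne (v_aeval_nonneg (fun i => (hξ i).le) h)
  rw [coeff_zero_aeval_of_pos hξ]
  exact fun h' => h0 ((algebraMap F K).injective (by rw [h', map_zero]))

theorem mem_arcIdeal {ξ : ι → HS K} (hξ : ∀ i, 0 ≤ (ξ i).orderTop) {h : MvPolynomial ι F} :
    h ∈ arcIdeal F ξ ↔ 1 ≤ (aeval ξ h).orderTop := by
  constructor
  · intro hh
    have := hh 1
    rwa [one_mul] at this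
  · intro hh g
    rw [map_mul]
    exact le_v_mul_left (v_aeval_nonneg hξ g) hh

end Eval

section Der

variable {K : Type u} [Field K]

/-- The coefficientwise extension of an additive map. -/
noncomputable def coeffMap (D : ℚ → K →+ K) : HS K →+ HS K where
  toFun x :=
    { coeff := fun q => D q (x.coeff q)
      isPWO_support' := x.isPWO_support.mono (by
        intro q hq
        rw [Function.mem_support] at hq
        rw [HahnSeries.mem_support]
        intro h
        exact hq (by rw [h, map_zero])) }
  map_zero' := by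
    ext q
    simp
  map_add' x y := by
    ext q
    simp

theorem coeffMap_coeff (D : ℚ → K →+ K) (x : HS K) (q : ℚ) :
    (coeffMap D x).coeff q = D q (x.coeff q) := rfl

theorem le_v_coeffMap (D : ℚ → K →+ K) (x : HS K) : x.orderTop ≤ (coeffMap D x).orderTop := by
  rw [HahnSeries.le_orderTop_iff_forall]
  intro j hj
  rw [coeffMap_coeff, HahnSeries.coeff_eq_zero_of_lt_orderTop hj, map_zero]

theorem coeffMap_mul (D : ℚ → K →+ K)
    (hD : ∀ p q a b, D (p + q) (a * b) = a * D q b + b * D p a) (x y : HS K) :
    coeffMap D (x * y) = x * coeffMap D y + y * coeffMap D x := by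
  classical
  have hx : (coeffMap D x).support ⊆ x.support := by
    intro q hq
    rw [HahnSeries.mem_support] at hq ⊢
    intro h
    exact hq (by rw [coeffMap_coeff, h, map_zero])
  have hy : (coeffMap D y).support ⊆ y.support := by
    intro q hq
    rw [HahnSeries.mem_support] at hq ⊢
    intro h
    exact hq (by rw [coeffMap_coeff, h, map_zero])
  ext q
  rw [coeffMap_coeff, HahnSeries.coeff_add, HahnSeries.coeff_mul, mul_comm y,
    HahnSeries.coeff_mul_right' y.isPWO_support hy, HahnSeries.coeff_mul_left' x.isPWO_support hx,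
    map_sum, ← Finset.sum_add_distrib]
  refine Finset.sum_congr rfl ?_
  rintro ⟨i, j⟩ hij
  simp only [Finset.mem_antidiagonal] at hij
  rw [← hij.2.2, hD, coeffMap_coeff, coeffMap_coeff]
  ring

/-- The coefficientwise extension of a derivation of `K` to `HS K`. -/
noncomputable def hahnDer (D : Derivation ℤ K K) : Derivation ℤ (HS K) (HS K) :=
  Derivation.mk' (coeffMap fun _ => (D : K →+ K)).toIntLinearMap (by
    intro x y
    exact coeffMap_mul _ (fun p q a b => by
      show D (a * b) = a * D b + b * D a
      rw [Derivation.leibniz]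
      rfl) x y)

theorem hahnDer_coeff (D : Derivation ℤ K K) (x : HS K) (q : ℚ) :
    (hahnDer D x).coeff q = D (x.coeff q) := rfl

theorem le_v_hahnDer (D : Derivation ℤ K K) (x : HS K) :
    x.orderTop ≤ (hahnDer D x).orderTop := le_v_coeffMap _ x

theorem hahnDer_single (D : Derivation ℤ K K) (q : ℚ) (a : K) :
    hahnDer D (HahnSeries.single q a) = HahnSeries.single q (D a) := by
  classical
  ext j
  rw [hahnDer_coeff, HahnSeries.coeff_single, HahnSeries.coeff_single]
  split_ifs
  · rfl
  · rw [map_zero]

theorem hahnDer_C (D : Derivation ℤ K K) (a : K) :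
    hahnDer D (HahnSeries.C a) = HahnSeries.C (D a) := hahnDer_single D 0 a

theorem hahnDer_algebraMap {F : Type*} [Field F] [Algebra F K] (D : Derivation ℤ K K) (a : F) :
    hahnDer D (algebraMap F (HS K) a) = HahnSeries.C (D (algebraMap F K a)) := by
  rw [HahnSeries.algebraMap_apply, hahnDer_C]

/-- The Euler derivation `λ d/dλ`: multiplication of coefficients by the exponents. -/
noncomputable def theta (K : Type u) [Field K] [CharZero K] : Derivation ℤ (HS K) (HS K) :=
  Derivation.mk' (coeffMap fun q => (AddMonoidHom.mulLeft (q : K))).toIntLinearMap (by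
    intro x y
    exact coeffMap_mul _ (fun p q a b => by
      show ((p + q : ℚ) : K) * (a * b) = a * ((q : K) * b) + b * ((p : K) * a)
      push_cast
      ring) x y)

theorem theta_coeff [CharZero K] (x : HS K) (q : ℚ) :
    (theta K x).coeff q = (q : K) * x.coeff q := rfl

theorem le_v_theta [CharZero K] (x : HS K) :
    x.orderTop ≤ (theta K x).orderTop := le_v_coeffMap _ x

theorem theta_algebraMap [CharZero K] {F : Type*} [Field F] [Algebra F K] (a : F) :
    theta K (algebraMap F (HS K) a) = 0 := by
  ext q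
  rw [theta_coeff, coeff_algebraMap]
  split_ifs with h
  · rw [h]
    simp
  · simp

/-- Chain rule for derivations killing the coefficients. -/
theorem chain_rule {R S : Type*} [CommRing R] [CommRing S] [Algebra R S] {ι : Type*} [Fintype ι]
    (D : Derivation ℤ S S) (hD : ∀ a : R, D (algebraMap R S a) = 0) (ξ : ι → S)
    (h : MvPolynomial ι R) :
    D (aeval ξ h) = ∑ j, aeval ξ (pderiv j h) * D (ξ j) := by
  classical
  induction h using MvPolynomial.induction_on with
  | C a =>
    rw [algHom_C, hD]
    simp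
  | add p q hp hq =>
    rw [map_add, map_add, hp, hq, ← Finset.sum_add_distrib]
    refine Finset.sum_congr rfl fun j _ => ?_
    rw [map_add, map_add]
    ring
  | mul_X p i hp =>
    rw [map_mul, Derivation.leibniz, hp, aeval_X]
    have : ∀ j, aeval ξ (pderiv j (p * X i)) * D (ξ j) =
        ξ i * (aeval ξ (pderiv j p) * D (ξ j)) + (if j = i then aeval ξ p * D (ξ i) else 0) := by
      intro j
      rw [Derivation.leibniz, pderiv_X, smul_eq_mul, smul_eq_mul, map_add, map_mul, map_mul,
        aeval_X]
      by_cases hji : j = i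
      · subst hji
        rw [if_pos rfl, Pi.single_eq_same, map_one]
        ring
      · rw [if_neg hji, Pi.single_eq_of_ne (Ne.symm hji), map_zero]
        ring
    rw [Finset.sum_congr rfl fun j _ => this j, Finset.sum_add_distrib, ← Finset.mul_sum,
      Finset.sum_ite_eq' Finset.univ i, if_pos (Finset.mem_univ i), smul_eq_mul, smul_eq_mul]
    ring

end Der

end FibReg
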