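import Pool.Agent.FibReg.Defs

/-!
# Module Center: a general center of projection misses the variety
-/

open MvPolynomial

namespace FibReg

universe u

/-- chain rule for a derivation killing the coefficients -/
theorem center_chain {k F : Type*} [Field k] [Field F] [Algebra k F] {ι : Type*} [Fintype ι]
    (D : Derivation ℤ F F) (hD : ∀ a : k, D (algebraMap k F a) = 0) (x : ι → F)
    (G : MvPolynomial ι k) :
    D (aeval x G) = ∑ j, aeval x (pderiv j G) * D (x j) := by
  classical
  induction G using MvPolynomial.induction_on with
  | C a => simp [hD]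
  | add p q hp hq =>
    simp only [map_add, hp, hq, add_mul, Finset.sum_add_distrib]
  | mul_X p i hp =>
    rw [map_mul, Derivation.leibniz, hp, aeval_X]
    have h1 : ∀ j, aeval x (pderiv j (p * X i)) * D (x j) =
        (x i) * (aeval x (pderiv j p) * D (x j)) + (if j = i then aeval x p * D (x i) else 0) := by
      intro j
      rw [Derivation.leibniz, map_add, smul_eq_mul, smul_eq_mul, map_mul, map_mul, aeval_X,
        pderiv_X]
      by_cases h : j = i
      · subst h
        simp
        ring
      · rw [Pi.single_eq_of_ne (by exact fun e => h e.symm), if_neg h]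
        simp
        ring
    rw [Finset.sum_congr rfl fun j _ => h1 j, Finset.sum_add_distrib, ← Finset.mul_sum]
    simp [smul_eq_mul]
    ring

theorem generic_center {k F : Type u} [Field k] [Field F] [Algebra k F] [IsAlgClosed F]
    {ι κ : Type} [Fintype ι] [DecidableEq ι] [Fintype κ] [DecidableEq κ]
    (n q : ℕ) (hι : Fintype.card ι = n + 1 + q) (hκ : n + 1 < Fintype.card κ)
    (P : Ideal (MvPolynomial ι k))
    (A : κ → ι → F) (D : κ → ι → Derivation ℤ F F)
    (hDk : ∀ i m (a : k), D i m (algebraMap k F a) = 0)
    (hDA : ∀ i m j l, D i m (A j l) = if j = i ∧ l = m then 1 else 0)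
    (hsm : ∀ x : ι → F, x ≠ 0 → (∀ G ∈ P, aeval x G = 0) → MinorAt q P x) :
    ∃ M : ℕ, ∀ m, X m ^ M ∈ affIdeal (extIdeal F P) A 0 := by
  set I := affIdeal (extIdeal F P) A 0 with hI
  have key : ∀ x : ι → F, (∀ G ∈ I, aeval x G = 0) → x = 0 := by
    intro x hx
    by_contra hx0
    have hP : ∀ G ∈ P, aeval x G = 0 := by
      intro G hG
      have h1 : map (algebraMap k F) G ∈ I :=
        Ideal.mem_sup_left (Ideal.mem_map_of_mem _ hG)
      have h2 := hx _ h1
      rwa [aeval_map_algebraMap] at h2
    have hL : ∀ i, ∑ l, A i l * x l = 0 := by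
      intro i
      have h1 : lin A i - C ((0 : κ → F) i) ∈ I :=
        Ideal.mem_sup_right (Ideal.subset_span ⟨i, rfl⟩)
      have h2 := hx _ h1
      simpa [lin] using h2
    obtain ⟨m, hm⟩ : ∃ m, x m ≠ 0 := by
      by_contra hcon
      push Not at hcon
      exact hx0 (funext hcon)
    obtain ⟨G, js, hG, hdet⟩ := hsm x hx0 hP
    set N : Matrix (Fin q) ι F := Matrix.of fun l j => aeval x (pderiv j (G l)) with hN
    have hv : ∀ i, N.mulVec (fun l => D i m (x l)) = 0 := by
      intro i
      funext l
      have h1 := center_chain (D i m) (hDk i m) x (G l)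
      rw [hP _ (hG l), map_zero] at h1
      simpa [Matrix.mulVec, dotProduct, hN] using h1.symm
    have hA : ∀ i j, ∑ l, A j l * D i m (x l) = if j = i then - x m else 0 := by
      intro i j
      have h1 := congrArg (D i m) (hL j)
      rw [map_zero, map_sum] at h1
      simp only [Derivation.leibniz, hDA, smul_eq_mul] at h1
      rw [Finset.sum_add_distrib] at h1
      have h2 : ∑ l, x l * (if j = i ∧ l = m then (1 : F) else 0) = if j = i then x m else 0 := by
        by_cases h : j = i
        · simp [h]
        · simp [h]
      rw [h2] at h1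
      by_cases h : j = i
      · rw [if_pos h] at h1 ⊢
        linear_combination h1
      · rw [if_neg h] at h1 ⊢
        linear_combination h1
    -- dimension count
    have hrank : Module.finrank F (LinearMap.range N.mulVecLin) = q := by
      have hsurj : Function.Surjective N.mulVecLin := by
        intro w
        have hu : IsUnit (N.submatrix id js).det := by
          rw [isUnit_iff_ne_zero]; exact hdet
        refine ⟨fun j => ∑ s, if js s = j then ((N.submatrix id js)⁻¹.mulVec w) s else 0, ?_⟩
        have h1 : N.mulVec (fun j => ∑ s, if js s = j then ((N.submatrix id js)⁻¹.mulVec w) s else 0) =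
            (N.submatrix id js).mulVec ((N.submatrix id js)⁻¹.mulVec w) := by
          funext l
          simp only [Matrix.mulVec, dotProduct, Matrix.submatrix_apply, id, Finset.mul_sum]
          rw [Finset.sum_comm]
          refine Finset.sum_congr rfl fun s _ => ?_
          simp [Finset.mul_sum]
        rw [Matrix.mulVecLin_apply, h1, Matrix.mulVec_mulVec, Matrix.mul_nonsing_inv _ hu,
          Matrix.one_mulVec]
      rw [LinearMap.range_eq_top.mpr hsurj, finrank_top]
      simp
    have hker : Module.finrank F (LinearMap.ker N.mulVecLin) = n + 1 := by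
      have h1 := LinearMap.finrank_range_add_finrank_ker N.mulVecLin
      rw [hrank, Module.finrank_fintype_fun_eq_card, hι] at h1
      omega
    set B : (LinearMap.ker N.mulVecLin) →ₗ[F] (κ → F) :=
      (Matrix.of A).mulVecLin.comp (LinearMap.ker N.mulVecLin).subtype with hB
    have hBsurj : Function.Surjective B := by
      rw [← LinearMap.range_eq_top, eq_top_iff]
      intro w _
      have h1 : w = ∑ i, w i • (Pi.single i (1 : F) : κ → F) := by
        funext j
        simp [Finset.sum_apply, Pi.single_apply]
      rw [h1]
      refine Submodule.sum_mem _ fun i _ => Submodule.smul_mem _ _ ?_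
      refine ⟨⟨fun l => (- (x m)⁻¹) * D i m (x l), ?_⟩, ?_⟩
      · rw [LinearMap.mem_ker, Matrix.mulVecLin_apply]
        have h2 : (fun l => (- (x m)⁻¹) * D i m (x l)) = (- (x m)⁻¹) • (fun l => D i m (x l)) := by
          funext l; simp
        rw [h2, Matrix.mulVec_smul, hv i, smul_zero]
      · funext j
        simp only [hB, LinearMap.comp_apply, Submodule.subtype_apply, Matrix.mulVecLin_apply,
          Matrix.mulVec, dotProduct, Matrix.of_apply]
        have h2 : ∑ l, A j l * (- (x m)⁻¹ * D i m (x l)) = - (x m)⁻¹ * ∑ l, A j l * D i m (x l) := by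
          rw [Finset.mul_sum]
          exact Finset.sum_congr rfl fun l _ => by ring
        rw [h2, hA i j, Pi.single_apply]
        by_cases h : j = i
        · rw [if_pos h, if_pos h]; field_simp
        · rw [if_neg h, if_neg h]; simp
    have h3 := LinearMap.finrank_le_finrank_of_surjective hBsurj
    rw [hker, Module.finrank_fintype_fun_eq_card] at h3
    omega
  -- Nullstellensatz
  have hrad : ∀ m : ι, (X m : MvPolynomial ι F) ∈ I.radical := by
    intro m
    rw [← MvPolynomial.vanishingIdeal_zeroLocus_eq_radical (K := F) I]
    rw [MvPolynomial.mem_vanishingIdeal_iff]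
    intro x hx
    rw [MvPolynomial.mem_zeroLocus_iff] at hx
    rw [key x hx]
    simp
  choose e he using hrad
  refine ⟨∑ m, e m, fun m => ?_⟩
  exact Ideal.pow_mem_of_pow_mem _ (he m) (Finset.single_le_sum (fun _ _ => Nat.zero_le _) (Finset.mem_univ m))

end FibReg
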