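import Pool.Agent.FibReg.StatementDefs

/-!
# Regularity of fibres of general linear projections: common definitions

`HS K` is the Hahn series field `K((λ^ℚ))`; its valuation is `HahnSeries.orderTop`
(with values in `WithTop ℚ`), `λ = single 1 1`.
-/

open MvPolynomial

namespace FibReg

universe u

/-- The Hahn series field `K((λ^ℚ))`. -/
abbrev HS (K : Type u) [Field K] : Type u := HahnSeries ℚ K

/-- The standard algebra structure of `HS K` (Mathlib has a second, competing instance
`HahnSeries.powerSeriesAlgebra`, which would otherwise be found first). -/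
noncomputable instance (priority := 20000) instAlgebraHS {F K : Type*} [Field F] [Field K] [Algebra F K] :
    Algebra F (HahnSeries ℚ K) :=
  HahnSeries.instAlgebra

noncomputable instance (priority := 20000) instIntAlgebraHS {K : Type*} [Field K] :
    Algebra ℤ (HahnSeries ℚ K) :=
  Ring.toIntAlgebra _

instance instScalarTowerHS {F K : Type*} [Field F] [Field K] [Algebra F K] :
    IsScalarTower F K (HahnSeries ℚ K) :=
  IsScalarTower.of_algebraMap_eq fun a => by
    rw [HahnSeries.algebraMap_apply, HahnSeries.algebraMap_apply]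
    rfl

theorem algebraMap_HS {F K : Type*} [Field F] [Field K] [Algebra F K] (a : F) :
    algebraMap F (HahnSeries ℚ K) a = HahnSeries.C (algebraMap F K a) := rfl

/-- The Jacobian determinant `det (∂ f_i / ∂ x_j)`. -/
noncomputable def jac {R : Type*} [CommRing R] {ι : Type*} [Fintype ι] [DecidableEq ι]
    (f : ι → MvPolynomial ι R) : MvPolynomial ι R :=
  Matrix.det (Matrix.of fun i j => pderiv j (f i))

/-- The linear part at the origin of a family of polynomials. -/
noncomputable def linPart {R : Type*} [CommRing R] {ι : Type*}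
    (z : ι → MvPolynomial ι R) : Matrix ι ι R :=
  Matrix.of fun k j => eval 0 (pderiv j (z k))

/-- The ideal of polynomials `h` over `F` whose value at the arc `ξ` is divisible by `λ`.  (For
integral `ξ` it is `{h | 1 ≤ v (h(ξ))}`, see `mem_arcIdeal`.) -/
noncomputable def arcIdeal (F : Type*) {K : Type u} [Field F] [Field K] [Algebra F K]
    {ι : Type*} (ξ : ι → HS K) : Ideal (MvPolynomial ι F) where
  carrier := {h | ∀ g : MvPolynomial ι F, 1 ≤ (aeval ξ (g * h)).orderTop}
  zero_mem' := by
    intro g
    simp
  add_mem' := by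
    intro a b ha hb g
    rw [mul_add, map_add]
    exact le_trans (le_min (ha g) (hb g)) HahnSeries.min_orderTop_le_orderTop_add
  smul_mem' := by
    intro a b hb g
    have h := hb (g * a)
    rw [smul_eq_mul, ← mul_assoc]
    exact h

/-- The generic system `f_i = ∑_j c_{ij} ψ_j + x_i ^ D` over `K`. -/
noncomputable def sysPoly {F K : Type*} [Field F] [Field K] [Algebra F K] {ι J : Type*} [Fintype J]
    (ψ : J → MvPolynomial ι F) (cc : ι → J → K) (D : ℕ) (i : ι) : MvPolynomial ι K :=
  (∑ j, C (cc i j) * map (algebraMap F K) (ψ j)) + X i ^ D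

/-- Translation `h(X) ↦ h(X + x)`. -/
noncomputable def shift {F : Type*} [Field F] {ι : Type*} (x : ι → F) :
    MvPolynomial ι F →ₐ[F] MvPolynomial ι F :=
  aeval fun i => X i + C (x i)

/-- Data of generic constants `cc`, `uu` in `K` over `F` together with dual derivations. -/
structure GenericData (F K : Type*) [Field F] [Field K] [Algebra F K] (ι J : Type*)
    [DecidableEq ι] [DecidableEq J] where
  cc : ι → J → K
  uu : ι → K
  Dc : ι → J → Derivation ℤ K K
  Du : ι → Derivation ℤ K K
  Dc_F : ∀ i j (a : F), Dc i j (algebraMap F K a) = 0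
  Du_F : ∀ i (a : F), Du i (algebraMap F K a) = 0
  Dc_cc : ∀ i j i' j', Dc i j (cc i' j') = if i' = i ∧ j' = j then 1 else 0
  Du_cc : ∀ l i j, Du l (cc i j) = 0
  Du_uu : ∀ l i, Du l (uu i) = if i = l then 1 else 0

/-- `ξ` is a solution of the system `f_i (ξ) = λ u_i`. -/
def IsSol {K : Type u} [Field K] {ι : Type*} (f : ι → MvPolynomial ι K) (uu : ι → K)
    (ξ : ι → HS K) : Prop :=
  ∀ i, aeval ξ (f i) = HahnSeries.single (1 : ℚ) (uu i)

/-- The ideal of a point. -/
noncomputable def pointIdeal {F : Type*} [Field F] {ι : Type*} (x : ι → F) :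
    Ideal (MvPolynomial ι F) :=
  Ideal.span (Set.range fun i => X i - C (x i))

/-- Extension of an ideal of polynomials to a bigger field of coefficients. -/
noncomputable def extIdeal {k : Type*} (F : Type*) [Field k] [Field F] [Algebra k F] {ι : Type*}
    (P : Ideal (MvPolynomial ι k)) : Ideal (MvPolynomial ι F) :=
  P.map (MvPolynomial.map (algebraMap k F))

/-- The ideal `P + (L_i - p_i)` of the affine scheme `{x ∈ cone(X) : A x = p}`. -/
noncomputable def affIdeal {F : Type*} [Field F] {ι κ : Type*}
    [Fintype ι] (P : Ideal (MvPolynomial ι F)) (A : κ → ι → F) (p : κ → F) :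
    Ideal (MvPolynomial ι F) :=
  P ⊔ Ideal.span (Set.range fun i => lin A i - C (p i))

/-- Jacobian condition: some `q × q` minor of the Jacobian of elements of `P` does not vanish at
`x`. -/
def MinorAt {k F : Type*} [Field k] [Field F] [Algebra k F] {ι : Type*} (q : ℕ)
    (P : Ideal (MvPolynomial ι k)) (x : ι → F) : Prop :=
  ∃ (G : Fin q → MvPolynomial ι k) (js : Fin q → ι), (∀ l, G l ∈ P) ∧
    Matrix.det (Matrix.of fun l s => aeval x (pderiv (js s) (G l))) ≠ 0

end FibReg
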