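import Pool.Agent.FibReg.Defs

/-!
# Extension of derivations (characteristic zero)
-/

open MvPolynomial

namespace FibReg

universe u

/-- Dual numbers over `L`, without any algebra structure over other rings. -/
def DerExtDual (L : Type*) : Type _ := TrivSqZeroExt L L

noncomputable instance DerExtDual.instCommRing (L : Type*) [CommRing L] :
    CommRing (DerExtDual L) :=
  inferInstanceAs (CommRing (TrivSqZeroExt L L))

/-- First component. -/
def DerExtDual.fst {L : Type*} (x : DerExtDual L) : L := TrivSqZeroExt.fst (R := L) (M := L) x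

/-- Second component. -/
def DerExtDual.snd {L : Type*} (x : DerExtDual L) : L := TrivSqZeroExt.snd (R := L) (M := L) x

/-- Pair. -/
def DerExtDual.mk {L : Type*} (x y : L) : DerExtDual L := ((x, y) : L × L)

theorem DerExtDual.ext' {L : Type*} {x y : DerExtDual L} (h1 : x.fst = y.fst)
    (h2 : x.snd = y.snd) : x = y :=
  TrivSqZeroExt.ext h1 h2

@[simp] theorem DerExtDual.fst_mk {L : Type*} (x y : L) : (DerExtDual.mk x y).fst = x := rfl

@[simp] theorem DerExtDual.snd_mk {L : Type*} (x y : L) : (DerExtDual.mk x y).snd = y := rfl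

section

variable {L : Type*} [CommRing L]

@[simp] theorem DerExtDual.fst_mul (x y : DerExtDual L) : (x * y).fst = x.fst * y.fst :=
  TrivSqZeroExt.fst_mul (R := L) (M := L) x y

@[simp] theorem DerExtDual.snd_mul (x y : DerExtDual L) :
    (x * y).snd = x.fst * y.snd + y.fst * x.snd := by
  have h := TrivSqZeroExt.snd_mul (R := L) (M := L) x y
  simp only [smul_eq_mul, MulOpposite.smul_eq_mul_unop, MulOpposite.unop_op] at h
  have h' : (x * y).snd = x.fst * y.snd + x.snd * y.fst := h
  rw [h', mul_comm x.snd]

@[simp] theorem DerExtDual.fst_add (x y : DerExtDual L) : (x + y).fst = x.fst + y.fst := rfl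

@[simp] theorem DerExtDual.snd_add (x y : DerExtDual L) : (x + y).snd = x.snd + y.snd := rfl

@[simp] theorem DerExtDual.fst_zero : (0 : DerExtDual L).fst = 0 := rfl

@[simp] theorem DerExtDual.snd_zero : (0 : DerExtDual L).snd = 0 := rfl

@[simp] theorem DerExtDual.fst_one : (1 : DerExtDual L).fst = 1 := rfl

@[simp] theorem DerExtDual.snd_one : (1 : DerExtDual L).snd = 0 := rfl

end

/-- The first projection. -/
def DerExtDual.fstHom (L : Type*) [CommRing L] : DerExtDual L →+* L where
  toFun x := x.fst
  map_one' := rfl
  map_mul' x y := by simp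
  map_zero' := rfl
  map_add' x y := rfl

/-- The ring homomorphism attached to a derivation. -/
noncomputable def DerExtDual.ofDer {R L : Type*} [CommRing R] [CommRing L] [Algebra R L]
    (δ : Derivation ℤ R L) : R →+* DerExtDual L where
  toFun r := DerExtDual.mk (algebraMap R L r) (δ r)
  map_one' := DerExtDual.ext' (by simp) (by simp)
  map_mul' x y := DerExtDual.ext' (by simp) (by simp [Algebra.smul_def])
  map_zero' := DerExtDual.ext' (by simp) (by simp)
  map_add' x y := DerExtDual.ext' (by simp) (by simp)

theorem derExt_extend {R L : Type*} [CommRing R] [CommRing L] [Algebra R L]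
    [Algebra.FormallySmooth R L] (δ : Derivation ℤ R L) :
    ∃ D : Derivation ℤ L L, ∀ r, D (algebraMap R L r) = δ r := by
  let _ : Algebra R (DerExtDual L) := (DerExtDual.ofDer δ).toAlgebra
  let g : DerExtDual L →ₐ[R] L :=
    { DerExtDual.fstHom L with
      commutes' := fun r => rfl }
  have hgf : ∀ x, g x = x.fst := fun x => rfl
  have hg : Function.Surjective g := fun x => ⟨DerExtDual.mk x 0, rfl⟩
  have hgk : IsNilpotent (RingHom.ker (g : DerExtDual L →+* L)) := by
    refine ⟨2, ?_⟩
    rw [pow_two, Ideal.zero_eq_bot, eq_bot_iff, Ideal.mul_le]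
    intro x hx y hy
    have hx' : x.fst = 0 := hx
    have hy' : y.fst = 0 := hy
    rw [Ideal.mem_bot]
    exact DerExtDual.ext' (by simp [hx']) (by simp [hx', hy'])
  let φ : L →ₐ[R] DerExtDual L :=
    Algebra.FormallySmooth.liftOfSurjective (AlgHom.id R L) g hg hgk
  have hφ : ∀ x, (φ x).fst = x := fun x =>
    Algebra.FormallySmooth.liftOfSurjective_apply (AlgHom.id R L) g hg hgk x
  let D0 : L →+ L :=
    { toFun := fun x => (φ x).snd
      map_zero' := by rw [map_zero, DerExtDual.snd_zero]
      map_add' := fun x y => by rw [map_add, DerExtDual.snd_add] }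
  refine ⟨Derivation.mk' D0.toIntLinearMap ?_, ?_⟩
  · intro x y
    change (φ (x * y)).snd = x * (φ y).snd + y * (φ x).snd
    rw [map_mul, DerExtDual.snd_mul, hφ, hφ]
  · intro r
    change (φ (algebraMap R L r)).snd = _
    rw [φ.commutes r]
    rfl

/-- Every extension of fields of characteristic zero is formally smooth. -/
theorem derExt_formallySmooth (E F : Type*) [Field E] [Field F] [Algebra E F] [CharZero E] :
    Algebra.FormallySmooth E F := by
  obtain ⟨s, hs⟩ := exists_isTranscendenceBasis E F
  have halg := hs.isAlgebraic_field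
  exact Algebra.FormallySmooth.of_algebraicIndependent_of_isSeparable hs.1

open scoped IntermediateField.algebraAdjoinAdjoin in
theorem exists_dual_derivation {k F : Type u} [Field k] [Field F] [Algebra k F] [CharZero k]
    {σ : Type*} {a : σ → F} (ha : AlgebraicIndependent k a) (s : σ) :
    ∃ D : Derivation ℤ F F, (∀ b : k, D (algebraMap k F b) = 0) ∧ D (a s) = 1 ∧
      ∀ t, t ≠ s → D (a t) = 0 := by
  classical
  let A0 := Algebra.adjoin k (Set.range a)
  let E := IntermediateField.adjoin k (Set.range a)
  have h1 : Algebra.FormallySmooth A0 E := .of_isLocalization (nonZeroDivisors _)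
  have h2 : Algebra.FormallySmooth E F := derExt_formallySmooth _ _
  have h3 : Algebra.FormallySmooth A0 F := .comp A0 E F
  let e : MvPolynomial σ k ≃ₐ[k] A0 := ha.aevalEquiv
  have he : ∀ p, (algebraMap A0 F (e p)) = aeval a p := fun p => by
    exact ha.algebraMap_aevalEquiv p
  let d0 : A0 →+ F :=
    { toFun := fun x => aeval a (pderiv s (e.symm x))
      map_zero' := by simp
      map_add' := fun x y => by simp }
  let δ : Derivation ℤ A0 F := Derivation.mk' d0.toIntLinearMap (by
    intro x y
    change aeval a (pderiv s (e.symm (x * y))) = x • aeval a (pderiv s (e.symm y)) +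
      y • aeval a (pderiv s (e.symm x))
    have hx : aeval a (e.symm x) = algebraMap A0 F x := by rw [← he, AlgEquiv.apply_symm_apply]
    have hy : aeval a (e.symm y) = algebraMap A0 F y := by rw [← he, AlgEquiv.apply_symm_apply]
    rw [map_mul, Derivation.leibniz, map_add, smul_eq_mul, smul_eq_mul, map_mul, map_mul,
      hx, hy, Algebra.smul_def, Algebra.smul_def])
  obtain ⟨D, hD⟩ := derExt_extend (R := A0) (L := F) δ
  have hDp : ∀ p : MvPolynomial σ k, D (aeval a p) = aeval a (pderiv s p) := fun p => by
    rw [← he, hD]
    change aeval a (pderiv s (e.symm (e p))) = _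
    rw [AlgEquiv.symm_apply_apply]
  refine ⟨D, fun b => ?_, ?_, fun t ht => ?_⟩
  · have := hDp (C b)
    simpa using this
  · have := hDp (X s)
    simpa using this
  · have := hDp (X t)
    simpa [pderiv_X_of_ne ht] using this

theorem exists_generic_extension (F : Type u) [Field F] [CharZero F] (τ : Type) [Finite τ] :
    ∃ (K : Type u) (_ : Field K) (_ : Algebra F K) (c : τ → K), IsAlgClosed K ∧
      (∀ t, ∃ D : Derivation ℤ K K, (∀ a, D (algebraMap F K a) = 0) ∧ D (c t) = 1 ∧
        ∀ s, s ≠ t → D (c s) = 0) ∧
      (∀ δ : Derivation ℤ F F, ∃ D : Derivation ℤ K K,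
        (∀ a, D (algebraMap F K a) = algebraMap F K (δ a))) := by
  classical
  let R := MvPolynomial τ F
  let K := AlgebraicClosure (FractionRing R)
  have hinj : Function.Injective (algebraMap R K) := by
    rw [IsScalarTower.algebraMap_eq R (FractionRing R) K]
    exact (FaithfulSMul.algebraMap_injective (FractionRing R) K).comp
      (IsFractionRing.injective R (FractionRing R))
  have hF : Algebra.FormallySmooth F K := derExt_formallySmooth F K
  refine ⟨K, inferInstance, inferInstance, fun t => algebraMap R K (X t), inferInstance, ?_, ?_⟩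
  · intro t
    have hc : AlgebraicIndependent F (fun t => algebraMap R K (X t)) := by
      rw [algebraicIndependent_iff_injective_aeval]
      have : (aeval (fun t => algebraMap R K (X t)) : R →ₐ[F] K) =
          IsScalarTower.toAlgHom F R K := by
        ext i
        simp [R]
      rw [this]
      exact hinj
    exact exists_dual_derivation hc t
  · intro δ
    obtain ⟨D, hD⟩ := derExt_extend (R := F) (L := K) ((Algebra.linearMap F K).compDer δ)
    exact ⟨D, fun a => by rw [hD]; rfl⟩

end FibReg
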