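import Pool.Agent.FibReg.Defs

/-!
# Module Division (MP_9e4267_ag)

Division by a system `f_i = X_i ^ D + (lower total degree)` over an arbitrary commutative ring.
-/

open MvPolynomial

namespace FibReg

namespace Division

variable {A : Type*} [CommRing A] {ι : Type*}

/-- polynomials all of whose monomials have degree `< n` -/
def low (A : Type*) [CommRing A] (ι : Type*) (n : ℕ) : Submodule A (MvPolynomial ι A) where
  carrier := {p | ∀ m : ι →₀ ℕ, n ≤ m.degree → coeff m p = 0}
  zero_mem' := fun m _ => by simp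
  add_mem' := fun {a b} ha hb m hm => by rw [coeff_add, ha m hm, hb m hm, add_zero]
  smul_mem' := fun c a ha m hm => by rw [coeff_smul, ha m hm, smul_zero]

theorem mem_low {n : ℕ} {p : MvPolynomial ι A} :
    p ∈ low A ι n ↔ ∀ m : ι →₀ ℕ, n ≤ m.degree → coeff m p = 0 := Iff.rfl

theorem low_mono {n m : ℕ} (h : n ≤ m) : low A ι n ≤ low A ι m :=
  fun _ hp d hd => hp d (h.trans hd)

theorem eq_zero_of_low_zero {p : MvPolynomial ι A} (h : p ∈ low A ι 0) : p = 0 := by
  ext m
  rw [h m (Nat.zero_le _), coeff_zero]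

theorem mem_low_totalDegree (p : MvPolynomial ι A) : p ∈ low A ι (p.totalDegree + 1) := by
  intro m hm
  apply coeff_eq_zero_of_totalDegree_lt
  rw [Finsupp.degree_apply] at hm
  omega

theorem low_mul {a b : ℕ} {p q : MvPolynomial ι A} (hp : p ∈ low A ι a)
    (hq : q ∈ low A ι (b + 1)) : p * q ∈ low A ι (a + b) := by
  classical
  intro m hm
  rw [coeff_mul]
  apply Finset.sum_eq_zero
  intro x hx
  rw [Finset.HasAntidiagonal.mem_antidiagonal] at hx
  have hdeg : x.1.degree + x.2.degree = m.degree := by rw [← hx, map_add]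
  by_cases h1 : a ≤ x.1.degree
  · rw [hp _ h1, zero_mul]
  · have h2 : b + 1 ≤ x.2.degree := by omega
    rw [hq _ h2, mul_zero]

theorem monomial_mem_low (g : ι →₀ ℕ) (c : A) : monomial g c ∈ low A ι (g.degree + 1) := by
  classical
  intro m hm
  rw [coeff_monomial, if_neg]
  rintro rfl
  omega

/-- `p` is `X ^ g` plus terms of degree `< |g|` -/
def Lead (p : MvPolynomial ι A) (g : ι →₀ ℕ) : Prop := p - monomial g 1 ∈ low A ι g.degree

theorem Lead.mul {p q : MvPolynomial ι A} {g h : ι →₀ ℕ} (hp : Lead p g) (hq : Lead q h) :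
    Lead (p * q) (g + h) := by
  have hq' : q ∈ low A ι (h.degree + 1) := by
    have := (low A ι (h.degree + 1)).add_mem (low_mono (Nat.le_succ _) hq) (monomial_mem_low h 1)
    rwa [sub_add_cancel] at this
  have e : p * q - monomial (g + h) 1
      = (p - monomial g 1) * q + (q - monomial h 1) * monomial g 1 := by
    have : (monomial (g + h) (1 : A)) = monomial g 1 * monomial h 1 := by
      rw [monomial_mul, one_mul]
    rw [this]
    ring
  unfold Lead
  rw [e, map_add]
  refine (low A ι _).add_mem (low_mul hp hq') ?_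
  rw [add_comm]
  exact low_mul hq (monomial_mem_low g 1)

theorem lead_one : Lead (1 : MvPolynomial ι A) 0 := by
  unfold Lead
  have : (1 : MvPolynomial ι A) - monomial 0 1 = 0 := by
    rw [sub_eq_zero]; rfl
  rw [this]
  exact Submodule.zero_mem _

theorem Lead.pow {p : MvPolynomial ι A} {g : ι →₀ ℕ} (hp : Lead p g) (n : ℕ) :
    Lead (p ^ n) (n • g) := by
  induction n with
  | zero => simpa using (lead_one (A := A) (ι := ι))
  | succ n ih => rw [pow_succ, succ_nsmul]; exact ih.mul hp

theorem lead_prod {α : Type*} (s : Finset α) (p : α → MvPolynomial ι A) (g : α → ι →₀ ℕ)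
    (h : ∀ a ∈ s, Lead (p a) (g a)) : Lead (∏ a ∈ s, p a) (∑ a ∈ s, g a) := by
  classical
  induction s using Finset.induction_on with
  | empty => simpa using (lead_one (A := A) (ι := ι))
  | insert a s ha ih =>
    rw [Finset.prod_insert ha, Finset.sum_insert ha]
    exact (h a (Finset.mem_insert_self _ _)).mul
      (ih fun b hb => h b (Finset.mem_insert_of_mem hb))

theorem lead_X (i : ι) : Lead (X i : MvPolynomial ι A) (Finsupp.single i 1) := by
  unfold Lead
  have : (X i : MvPolynomial ι A) - monomial (Finsupp.single i 1) 1 = 0 := by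
    rw [sub_eq_zero]; rfl
  rw [this]
  exact Submodule.zero_mem _

theorem lead_f {D : ℕ} {f : ι → MvPolynomial ι A} {i : ι}
    (hf : (f i - X i ^ D).totalDegree < D) : Lead (f i) (Finsupp.single i D) := by
  unfold Lead
  intro m hm
  rw [Finsupp.degree_single] at hm
  rw [← X_pow_eq_monomial]
  apply coeff_eq_zero_of_totalDegree_lt
  rw [Finsupp.degree_apply] at hm
  omega

variable [Fintype ι]

/-- the normal basis element `∏ f_i ^ (g_i / D) X_i ^ (g_i % D)` -/
noncomputable def nb (D : ℕ) (f : ι → MvPolynomial ι A) (g : ι →₀ ℕ) : MvPolynomial ι A :=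
  ∏ i, (f i ^ (g i / D) * X i ^ (g i % D))

theorem lead_nb {D : ℕ} {f : ι → MvPolynomial ι A}
    (hf : ∀ i, (f i - X i ^ D).totalDegree < D) (g : ι →₀ ℕ) : Lead (nb D f g) g := by
  classical
  have h := lead_prod Finset.univ (fun i => f i ^ (g i / D) * X i ^ (g i % D))
    (fun i => (g i / D) • Finsupp.single i D + (g i % D) • Finsupp.single i 1)
    (fun i _ => ((lead_f (hf i)).pow _).mul ((lead_X i).pow _))
  have e : (∑ i, ((g i / D) • Finsupp.single i D + (g i % D) • Finsupp.single i 1)) = g := by
    have : ∀ i, ((g i / D) • Finsupp.single i D + (g i % D) • Finsupp.single i 1)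
        = Finsupp.single i (g i) := by
      intro i
      rw [Finsupp.smul_single, Finsupp.smul_single, ← Finsupp.single_add]
      congr 1
      rw [smul_eq_mul, smul_eq_mul, mul_one]
      exact Nat.div_add_mod' (g i) D
    rw [Finset.sum_congr rfl fun i _ => this i]
    exact Finsupp.univ_sum_single g
  rw [e] at h
  exact h

theorem nb_add_single {D : ℕ} (hD : D ≠ 0) (f : ι → MvPolynomial ι A) (g : ι →₀ ℕ) (i : ι) :
    nb D f (g + Finsupp.single i D) = f i * nb D f g := by
  classical
  unfold nb
  have h : ∀ j, f j ^ ((g + Finsupp.single i D) j / D) * X j ^ ((g + Finsupp.single i D) j % D)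
      = (if j = i then f j else 1) * (f j ^ (g j / D) * X j ^ (g j % D)) := by
    intro j
    rw [Finsupp.add_apply]
    by_cases hj : j = i
    · subst hj
      rw [Finsupp.single_eq_same, Nat.add_div_right _ (Nat.pos_of_ne_zero hD), Nat.add_mod_right,
        if_pos rfl, pow_succ]
      ring
    · rw [Finsupp.single_eq_of_ne hj, add_zero, if_neg hj, one_mul]
  rw [Finset.prod_congr rfl fun j _ => h j, Finset.prod_mul_distrib, Finset.prod_ite_eq']
  simp

theorem nb_reduced {D : ℕ} (f : ι → MvPolynomial ι A) (g : ι →₀ ℕ) (hg : ∀ i, g i < D) :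
    nb D f g = monomial g 1 := by
  classical
  unfold nb
  have h : ∀ i, f i ^ (g i / D) * X i ^ (g i % D) = (X i : MvPolynomial ι A) ^ (g i) := by
    intro i
    rw [Nat.div_eq_of_lt (hg i), Nat.mod_eq_of_lt (hg i), pow_zero, one_mul]
  rw [Finset.prod_congr rfl fun j _ => h j, monomial_eq, C_1, one_mul, Finsupp.prod_fintype]
  intro i
  rw [pow_zero]

/-- the `A`-linear map `X ^ g ↦ nb g` -/
noncomputable def T (D : ℕ) (f : ι → MvPolynomial ι A) :
    MvPolynomial ι A →ₗ[A] MvPolynomial ι A :=
  (basisMonomials ι A).constr A (nb D f)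

theorem T_monomial (D : ℕ) (f : ι → MvPolynomial ι A) (g : ι →₀ ℕ) (c : A) :
    T D f (monomial g c) = c • nb D f g := by
  have h : monomial g c = c • (basisMonomials ι A) g := by
    rw [coe_basisMonomials, smul_monomial, smul_eq_mul, mul_one]
  rw [h, map_smul, T, Module.Basis.constr_basis]

theorem T_apply (D : ℕ) (f : ι → MvPolynomial ι A) (p : MvPolynomial ι A) :
    T D f p = ∑ g ∈ p.support, coeff g p • nb D f g := by
  conv_lhs => rw [p.as_sum]
  rw [map_sum]
  exact Finset.sum_congr rfl fun g _ => T_monomial D f g _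

theorem T_sub_mem {D : ℕ} {f : ι → MvPolynomial ι A}
    (hf : ∀ i, (f i - X i ^ D).totalDegree < D) {n : ℕ} {p : MvPolynomial ι A}
    (hp : p ∈ low A ι (n + 1)) : T D f p - p ∈ low A ι n := by
  classical
  have e : T D f p - p = ∑ g ∈ p.support, coeff g p • (nb D f g - monomial g 1) := by
    have h1 : p = ∑ g ∈ p.support, coeff g p • monomial g (1 : A) := by
      conv_lhs => rw [p.as_sum]
      refine Finset.sum_congr rfl fun g _ => ?_
      rw [smul_monomial, smul_eq_mul, mul_one]
    conv_lhs => rw [T_apply]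
    conv_lhs => enter [2]; rw [h1]
    rw [← Finset.sum_sub_distrib]
    exact Finset.sum_congr rfl fun g _ => (smul_sub _ _ _).symm
  rw [e]
  refine Submodule.sum_mem _ fun g hg => Submodule.smul_mem _ _ ?_
  have hdeg : g.degree ≤ n := by
    by_contra hc
    rw [mem_support_iff] at hg
    exact hg (hp g (by omega))
  exact low_mono hdeg (lead_nb hf g)

theorem T_injective {D : ℕ} {f : ι → MvPolynomial ι A}
    (hf : ∀ i, (f i - X i ^ D).totalDegree < D) : Function.Injective (T D f) := by
  have key : ∀ n, ∀ p ∈ low A ι n, T D f p = 0 → p = 0 := by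
    intro n
    induction n with
    | zero => intro p hp _; exact eq_zero_of_low_zero hp
    | succ n ih =>
      intro p hp hT
      have h := T_sub_mem hf hp
      rw [hT, zero_sub] at h
      exact ih p (by simpa using Submodule.neg_mem _ h) hT
  rw [← LinearMap.ker_eq_bot, LinearMap.ker_eq_bot']
  intro p hp
  exact key _ p (mem_low_totalDegree p) hp

theorem T_surjective {D : ℕ} {f : ι → MvPolynomial ι A}
    (hf : ∀ i, (f i - X i ^ D).totalDegree < D) : Function.Surjective (T D f) := by
  have key : ∀ n, ∀ p ∈ low A ι n, p ∈ LinearMap.range (T D f) := by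
    intro n
    induction n with
    | zero => intro p hp; rw [eq_zero_of_low_zero hp]; exact Submodule.zero_mem _
    | succ n ih =>
      intro p hp
      have h := ih _ (T_sub_mem hf hp)
      have h2 : T D f p ∈ LinearMap.range (T D f) := ⟨p, rfl⟩
      have := Submodule.sub_mem _ h2 h
      rwa [sub_sub_cancel] at this
  intro p
  exact key _ p (mem_low_totalDegree p)

/-- polynomials supported on nonreduced exponents -/
def nonred (A : Type*) [CommRing A] (ι : Type*) (D : ℕ) : Submodule A (MvPolynomial ι A) where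
  carrier := {p | ∀ m : ι →₀ ℕ, (∀ i, m i < D) → coeff m p = 0}
  zero_mem' := fun m _ => by simp
  add_mem' := fun {a b} ha hb m hm => by rw [coeff_add, ha m hm, hb m hm, add_zero]
  smul_mem' := fun c a ha m hm => by rw [coeff_smul, ha m hm, smul_zero]

/-- `f_i * T p = T (X_i ^ D * p)` -/
theorem T_mul {D : ℕ} (hD : D ≠ 0) (f : ι → MvPolynomial ι A) (i : ι) (p : MvPolynomial ι A) :
    T D f (monomial (Finsupp.single i D) 1 * p) = f i * T D f p := by
  induction p using MvPolynomial.induction_on' with
  | monomial g c =>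
    rw [monomial_mul, one_mul, T_monomial, T_monomial, add_comm, nb_add_single hD,
      mul_smul_comm]
  | add p q hp hq => rw [mul_add, map_add, map_add, mul_add, hp, hq]

theorem mem_span_iff {D : ℕ} (hD : D ≠ 0) {f : ι → MvPolynomial ι A}
    (hf : ∀ i, (f i - X i ^ D).totalDegree < D) (p : MvPolynomial ι A) :
    T D f p ∈ Ideal.span (Set.range f) ↔ p ∈ nonred A ι D := by
  classical
  constructor
  · intro h
    rw [Ideal.mem_span_range_iff_exists_fun] at h
    obtain ⟨c, hc⟩ := h
    choose d hd using fun i => T_surjective hf (c i)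
    have e : T D f (∑ i, monomial (Finsupp.single i D) 1 * d i) = T D f p := by
      rw [map_sum, ← hc]
      refine Finset.sum_congr rfl fun i _ => ?_
      rw [T_mul hD, hd, mul_comm]
    rw [← T_injective hf e]
    refine Submodule.sum_mem _ fun i _ => ?_
    intro m hm
    rw [coeff_monomial_mul', if_neg]
    intro hle
    have := hle i
    rw [Finsupp.single_eq_same] at this
    exact absurd (hm i) (by omega)
  · intro h
    rw [T_apply]
    refine Submodule.sum_mem _ fun g hg => ?_
    have hex : ∃ i, D ≤ g i := by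
      by_contra hc
      push Not at hc
      rw [mem_support_iff] at hg
      exact hg (h g hc)
    obtain ⟨i, hi⟩ := hex
    have hg' : g = (g - Finsupp.single i D) + Finsupp.single i D := by
      rw [tsub_add_cancel_of_le]
      rw [Finsupp.single_le_iff]
      exact hi
    rw [hg', nb_add_single hD, Algebra.smul_def]
    exact Ideal.mul_mem_left _ _ (Ideal.mul_mem_right _ _ (Ideal.subset_span ⟨i, rfl⟩))

theorem T_map {B : Type*} [CommRing B] (φ : A →+* B) (D : ℕ) (f : ι → MvPolynomial ι A)
    (p : MvPolynomial ι A) :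
    map φ (T D f p) = T D (fun i => map φ (f i)) (map φ p) := by
  induction p using MvPolynomial.induction_on' with
  | monomial g c =>
    rw [T_monomial, map_monomial, T_monomial, smul_eq_C_mul, map_mul, map_C, smul_eq_C_mul]
    congr 1
    unfold nb
    rw [map_prod]
    exact Finset.prod_congr rfl fun i _ => by rw [map_mul, map_pow, map_pow, map_X]
  | add p q hp hq => rw [map_add, map_add, map_add, map_add, hp, hq]

end Division

open Division in
theorem mem_span_of_map_mem {A B : Type*} [CommRing A] [CommRing B] (φ : A →+* B)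
    (hφ : Function.Injective φ) {ι : Type*} [Finite ι] (D : ℕ) (f : ι → MvPolynomial ι A)
    (hf : ∀ i, (f i - X i ^ D).totalDegree < D) (H : MvPolynomial ι A)
    (hH : map φ H ∈ Ideal.span (Set.range fun i => map φ (f i))) :
    H ∈ Ideal.span (Set.range f) := by
  classical
  have := Fintype.ofFinite ι
  -- without loss of generality `D ≠ 0`
  obtain ⟨D, hD, hf⟩ : ∃ D : ℕ, D ≠ 0 ∧ ∀ i, (f i - X i ^ D).totalDegree < D := by
    by_cases h0 : D = 0
    · exact ⟨1, one_ne_zero, fun i => absurd (hf i) (by omega)⟩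
    · exact ⟨D, h0, hf⟩
  have hf' : ∀ i, (map φ (f i) - X i ^ D).totalDegree < D := by
    intro i
    have e : map φ (f i) - X i ^ D = map φ (f i - X i ^ D) := by
      rw [map_sub, map_pow, map_X]
    rw [e]
    exact lt_of_le_of_lt (Finset.sup_mono (support_map_subset φ _)) (hf i)
  obtain ⟨p, rfl⟩ := T_surjective hf H
  rw [T_map] at hH
  rw [mem_span_iff hD hf]
  rw [mem_span_iff hD hf'] at hH
  intro m hm
  have := hH m hm
  rw [coeff_map] at this
  exact (map_eq_zero_iff φ hφ).1 this

open Division in
theorem finite_quotient_span {A : Type*} [CommRing A] {ι : Type*} [Finite ι] (D : ℕ)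
    (f : ι → MvPolynomial ι A) (hf : ∀ i, (f i - X i ^ D).totalDegree < D) :
    Module.Finite A (MvPolynomial ι A ⧸ Ideal.span (Set.range f)) := by
  classical
  have := Fintype.ofFinite ι
  obtain ⟨D, hD, hf⟩ : ∃ D : ℕ, D ≠ 0 ∧ ∀ i, (f i - X i ^ D).totalDegree < D := by
    by_cases h0 : D = 0
    · exact ⟨1, one_ne_zero, fun i => absurd (hf i) (by omega)⟩
    · exact ⟨D, h0, hf⟩
  have hfin : ({m : ι →₀ ℕ | ∀ i, m i < D}).Finite := by
    have h1 : (Set.range fun g : ι → Fin D =>
        (Finsupp.equivFunOnFinite.symm fun i => (g i : ℕ) : ι →₀ ℕ)).Finite :=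
      Set.finite_range _
    refine h1.subset ?_
    intro m hm
    refine ⟨fun i => ⟨m i, hm i⟩, ?_⟩
    ext i
    rfl
  refine ⟨⟨(hfin.toFinset).image fun m => Ideal.Quotient.mk _ (monomial m (1 : A)), ?_⟩⟩
  rw [eq_top_iff]
  rintro x -
  obtain ⟨q, rfl⟩ := Ideal.Quotient.mk_surjective x
  obtain ⟨p, rfl⟩ := T_surjective hf q
  rw [T_apply, map_sum]
  refine Submodule.sum_mem _ fun g _ => ?_
  have hs : (Ideal.Quotient.mk (Ideal.span (Set.range f))) (coeff g p • nb D f g)
      = coeff g p • (Ideal.Quotient.mk (Ideal.span (Set.range f))) (nb D f g) := rfl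
  rw [hs]
  refine Submodule.smul_mem _ _ ?_
  by_cases hg : ∀ i, g i < D
  · rw [nb_reduced f g hg]
    refine Submodule.subset_span ?_
    rw [Finset.mem_coe, Finset.mem_image]
    exact ⟨g, by simpa using hg, rfl⟩
  · have hmem : nb D f g ∈ Ideal.span (Set.range f) := by
      have h := (mem_span_iff hD hf (monomial g 1)).2 (by
        intro m hm
        rw [coeff_monomial, if_neg]
        rintro rfl
        exact hg hm)
      rwa [T_monomial, one_smul] at h
    rw [Ideal.Quotient.eq_zero_iff_mem.2 hmem]
    exact Submodule.zero_mem _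

end FibReg
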