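import Pool.Agent.FibReg.Defs

/-!
# Module LowDeg: low degree representatives, Chinese remainder, finiteness of the affine fibre
-/

open MvPolynomial

namespace FibReg

/-- Modulo the ideal of a point a polynomial is its value. -/
theorem lowDeg_sub_eval_mem {F : Type*} [Field F] {ι : Type*} (y : ι → F)
    (h : MvPolynomial ι F) : h - C (eval y h) ∈ pointIdeal y := by
  have key : ∀ h : MvPolynomial ι F,
      Ideal.Quotient.mk (pointIdeal y) h = Ideal.Quotient.mk (pointIdeal y) (C (eval y h)) := by
    intro h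
    induction h using MvPolynomial.induction_on with
    | C a => simp
    | add p q hp hq => rw [map_add, hp, hq, map_add, map_add, map_add]
    | mul_X p i hp =>
      rw [map_mul, hp, map_mul (eval y), map_mul C, map_mul, eval_X]
      congr 1
      rw [Ideal.Quotient.eq]
      exact Ideal.subset_span ⟨i, rfl⟩
  rw [← Ideal.Quotient.eq]
  exact key h

/-- Every polynomial has a representative of degree `< N` modulo `J`. -/
def LowDegGood {F : Type*} [Field F] {ι : Type*} (J : Ideal (MvPolynomial ι F)) (N : ℕ) : Prop :=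
  ∀ h : MvPolynomial ι F, ∃ g : MvPolynomial ι F, (g = 0 ∨ g.totalDegree < N) ∧ h - g ∈ J

theorem lowDegGood_top {F : Type*} [Field F] {ι : Type*} :
    LowDegGood (⊤ : Ideal (MvPolynomial ι F)) 0 :=
  fun _ => ⟨0, Or.inl rfl, trivial⟩

theorem lowDegGood_step {F : Type*} [Field F] {ι : Type*} [Fintype ι] (y : ι → F)
    {J : Ideal (MvPolynomial ι F)} {N : ℕ} (hJ : LowDegGood J N) :
    LowDegGood (pointIdeal y * J) (N + 1) := by
  intro h
  have hmem := lowDeg_sub_eval_mem y h
  rw [pointIdeal, Ideal.mem_span_range_iff_exists_fun] at hmem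
  obtain ⟨c, hc⟩ := hmem
  choose g hg1 hg2 using fun i => hJ (c i)
  refine ⟨C (eval y h) + ∑ i, (X i - C (y i)) * g i, Or.inr ?_, ?_⟩
  · refine Nat.lt_succ_of_le ((totalDegree_add _ _).trans (max_le ?_ ?_))
    · rw [totalDegree_C]; exact Nat.zero_le _
    · refine totalDegree_finsetSum_le fun i _ => ?_
      rcases hg1 i with h0 | hlt
      · rw [h0, mul_zero, totalDegree_zero]; exact Nat.zero_le _
      · refine (totalDegree_mul _ _).trans ?_
        have h1 : (X i - C (y i) : MvPolynomial ι F).totalDegree ≤ 1 := by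
          refine (totalDegree_sub _ _).trans (max_le ?_ ?_)
          · rw [totalDegree_X]
          · rw [totalDegree_C]; exact Nat.zero_le _
        omega
  · have : h - (C (eval y h) + ∑ i, (X i - C (y i)) * g i)
        = ∑ i, (X i - C (y i)) * (c i - g i) := by
      rw [← sub_sub, ← hc, ← Finset.sum_sub_distrib]
      exact Finset.sum_congr rfl fun i _ => by ring
    rw [this]
    exact Ideal.sum_mem _ fun i _ =>
      Ideal.mul_mem_mul (Ideal.subset_span ⟨i, rfl⟩) (hg2 i)

theorem lowDegGood_pow {F : Type*} [Field F] {ι : Type*} [Fintype ι] (y : ι → F)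
    {J : Ideal (MvPolynomial ι F)} {N : ℕ} (hJ : LowDegGood J N) (n : ℕ) :
    LowDegGood (pointIdeal y ^ n * J) (n + N) := by
  induction n with
  | zero => simpa using hJ
  | succ n ih =>
    have := lowDegGood_step y ih
    rw [pow_succ', mul_assoc]
    rwa [show n + 1 + N = n + N + 1 by ring]

theorem exists_low_degree {F : Type*} [Field F] {ι : Type*} [Fintype ι] {V : Type*} [Fintype V]
    (x : V → ι → F) (L : V → ℕ) (I : Ideal (MvPolynomial ι F))
    (hI : ∏ v, pointIdeal (x v) ^ L v ≤ I) (h : MvPolynomial ι F) :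
    ∃ g : MvPolynomial ι F, g.totalDegree ≤ (∑ v, L v) - 1 ∧ h - g ∈ I := by
  classical
  have key : ∀ s : Finset V, LowDegGood (∏ v ∈ s, pointIdeal (x v) ^ L v) (∑ v ∈ s, L v) := by
    intro s
    induction s using Finset.induction_on with
    | empty => simpa using lowDegGood_top
    | insert a s ha ih =>
      rw [Finset.prod_insert ha, Finset.sum_insert ha]
      exact lowDegGood_pow (x a) ih (L a)
  obtain ⟨g, hg, hmem⟩ := key Finset.univ h
  refine ⟨g, ?_, hI hmem⟩
  rcases hg with h0 | hlt
  · rw [h0, totalDegree_zero]; exact Nat.zero_le _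
  · omega

theorem finrank_iInf_ideal {F R : Type*} [Field F] [CommRing R] [Algebra F R] {V : Type*}
    [Fintype V] (a : V → Ideal R) (hcop : Pairwise fun v w => IsCoprime (a v) (a w))
    (hfin : ∀ v, Module.Finite F (R ⧸ a v)) :
    Module.finrank F (R ⧸ ⨅ v, a v) = ∑ v, Module.finrank F (R ⧸ a v) := by
  classical
  let e := Ideal.quotientInfRingEquivPiQuotient a hcop
  let e' : (R ⧸ ⨅ v, a v) ≃ₐ[F] (∀ v, R ⧸ a v) :=
    AlgEquiv.ofRingEquiv (f := e) (fun c => rfl)
  rw [LinearEquiv.finrank_eq e'.toLinearEquiv]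
  exact Module.finrank_pi_fintype F

theorem lowDeg_component_mul {F : Type*} [Field F] {ι : Type*} (c l : MvPolynomial ι F)
    (hl : l.IsHomogeneous 1) (M : ℕ) :
    homogeneousComponent (M + 1) (c * l) = homogeneousComponent M c * l := by
  have h1 : c * l = ∑ j ∈ Finset.range (c.totalDegree + 1), homogeneousComponent j c * l := by
    rw [← Finset.sum_mul, sum_homogeneousComponent]
  have h2 : ∀ j, homogeneousComponent (M + 1) (homogeneousComponent j c * l)
      = if j = M then homogeneousComponent M c * l else 0 := by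
    intro j
    have h3 : (homogeneousComponent j c * l).IsHomogeneous (j + 1) :=
      (homogeneousComponent_isHomogeneous j c).mul hl
    rw [homogeneousComponent_of_mem h3]
    by_cases hj : j = M
    · subst hj; simp
    · rw [if_neg hj, if_neg (by omega)]
  rw [h1, map_sum, Finset.sum_congr rfl fun j _ => h2 j, Finset.sum_ite_eq']
  split_ifs with h4
  · rfl
  · rw [Finset.mem_range, not_lt] at h4
    rw [homogeneousComponent_eq_zero _ _ (by omega), zero_mul]

theorem lowDeg_reduce {F : Type*} [Field F] {ι κ : Type*}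
    [Fintype ι] [Fintype κ] (P : Ideal (MvPolynomial ι F))
    (hP : IsHomog P) (A : κ → ι → F) (M : ℕ)
    (hcen : ∀ m, X m ^ (M + 1) ∈ affIdeal P A 0) (p : κ → F) (m : ι) :
    ∃ r : MvPolynomial ι F, r.totalDegree ≤ M ∧ X m ^ (M + 1) - r ∈ affIdeal P A p := by
  have h := hcen m
  rw [affIdeal, Submodule.mem_sup] at h
  obtain ⟨G, hG, w, hw, hGw⟩ := h
  rw [Ideal.mem_span_range_iff_exists_fun] at hw
  obtain ⟨c, hc⟩ := hw
  -- take the homogeneous component of degree `M + 1`
  have hX : homogeneousComponent (M + 1) (X m ^ (M + 1) : MvPolynomial ι F) = X m ^ (M + 1) := by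
    have : (X m ^ (M + 1) : MvPolynomial ι F).IsHomogeneous (M + 1) := by
      simpa using (isHomogeneous_X F m).pow (M + 1)
    rw [homogeneousComponent_of_mem this, if_pos rfl]
  have hlin : ∀ i : κ, (lin A i).IsHomogeneous 1 := by
    intro i
    refine IsHomogeneous.sum _ _ _ fun j _ => ?_
    simpa using (isHomogeneous_C ι (A i j)).mul (isHomogeneous_X F j)
  have hcomp : ∀ i : κ, homogeneousComponent (M + 1) (c i * (lin A i - C ((0 : κ → F) i)))
      = homogeneousComponent M (c i) * lin A i := by
    intro i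
    rw [Pi.zero_apply, C_0, sub_zero]
    exact lowDeg_component_mul (c i) (lin A i) (hlin i) M
  refine ⟨∑ i, homogeneousComponent M (c i) * C (p i), ?_, ?_⟩
  · refine totalDegree_finsetSum_le fun i _ => ?_
    refine (totalDegree_mul _ _).trans ?_
    rw [totalDegree_C, add_zero]
    exact (homogeneousComponent_isHomogeneous M (c i)).totalDegree_le
  · have e1 : (X m ^ (M + 1) : MvPolynomial ι F) =
        homogeneousComponent (M + 1) G + ∑ i, homogeneousComponent M (c i) * lin A i := by
      rw [← hX, ← hGw, ← hc, map_add, map_sum]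
      congr 1
      exact Finset.sum_congr rfl fun i _ => hcomp i
    rw [e1, affIdeal]
    have e2 : homogeneousComponent (M + 1) G + ∑ i, homogeneousComponent M (c i) * lin A i
        - ∑ i, homogeneousComponent M (c i) * C (p i)
        = homogeneousComponent (M + 1) G
          + ∑ i, homogeneousComponent M (c i) * (lin A i - C (p i)) := by
      rw [add_sub_assoc, ← Finset.sum_sub_distrib]
      congr 1
      exact Finset.sum_congr rfl fun i _ => by ring
    rw [e2]
    refine Ideal.add_mem _ (Ideal.mem_sup_left (hP G hG _)) (Ideal.mem_sup_right ?_)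
    exact Ideal.sum_mem _ fun i _ => Ideal.mul_mem_left _ _ (Ideal.subset_span ⟨i, rfl⟩)

theorem lowDeg_span {F : Type*} [Field F] {ι : Type*} [Fintype ι]
    (I : Ideal (MvPolynomial ι F)) (M : ℕ)
    (hred : ∀ m : ι, ∃ r : MvPolynomial ι F, r.totalDegree ≤ M ∧ X m ^ (M + 1) - r ∈ I) :
    ∀ (n : ℕ) (h : MvPolynomial ι F), h.totalDegree ≤ n →
      Ideal.Quotient.mkₐ F I h ∈ Submodule.span F
        ((fun b : ι →₀ ℕ => Ideal.Quotient.mkₐ F I (monomial b (1 : F))) ''
          {b | ∀ i, b i ≤ M}) := by
  classical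
  choose r hr1 hr2 using hred
  intro n
  induction n using Nat.strong_induction_on with
  | _ n ih =>
    intro h hn
    rw [h.as_sum, map_sum]
    refine Submodule.sum_mem _ fun b hb => ?_
    have hbn : b.degree ≤ n := by
      refine le_trans ?_ hn
      have := le_totalDegree hb
      exact this
    have hsm : (monomial b (coeff b h) : MvPolynomial ι F) = coeff b h • monomial b 1 := by
      rw [smul_monomial, smul_eq_mul, mul_one]
    rw [hsm, map_smul]
    refine Submodule.smul_mem _ _ ?_
    by_cases hsmall : ∀ i, b i ≤ M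
    · exact Submodule.subset_span ⟨b, hsmall, rfl⟩
    · push Not at hsmall
      obtain ⟨m, hm⟩ := hsmall
      -- split off `X m ^ (M + 1)`
      set b' : ι →₀ ℕ := b - Finsupp.single m (M + 1) with hb'
      have hle : Finsupp.single m (M + 1) ≤ b := by
        rw [Finsupp.single_le_iff]; exact hm
      have hbb : b' + Finsupp.single m (M + 1) = b := tsub_add_cancel_of_le hle
      have hdeg : b'.degree + (M + 1) = b.degree := by
        have := congrArg Finsupp.degree hbb
        rwa [map_add, Finsupp.degree_single] at this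
      have hmon : (monomial b (1 : F) : MvPolynomial ι F)
          = monomial b' 1 * X m ^ (M + 1) := by
        rw [X_pow_eq_monomial, monomial_mul, hbb, mul_one]
      have heq : Ideal.Quotient.mkₐ F I (monomial b (1 : F))
          = Ideal.Quotient.mkₐ F I (monomial b' 1 * r m) := by
        rw [hmon, Ideal.Quotient.mkₐ_eq_mk, Ideal.Quotient.eq, ← mul_sub]
        exact Ideal.mul_mem_left _ _ (hr2 m)
      rw [heq]
      have hd : (monomial b' (1 : F) * r m).totalDegree ≤ b'.degree + M := by
        refine (totalDegree_mul _ _).trans (add_le_add ?_ (hr1 m))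
        rw [totalDegree_monomial _ one_ne_zero]
        exact le_rfl
      exact ih (b'.degree + M) (by omega) _ hd

theorem affIdeal_finite {F : Type*} [Field F] {ι κ : Type*}
    [Fintype ι] [Fintype κ] (P : Ideal (MvPolynomial ι F))
    (hP : IsHomog P) (A : κ → ι → F) (M : ℕ)
    (hcen : ∀ m, X m ^ M ∈ affIdeal P A 0) (p : κ → F) :
    Module.Finite F (MvPolynomial ι F ⧸ affIdeal P A p) := by
  classical
  have hcen' : ∀ m, X m ^ (M + 1) ∈ affIdeal P A 0 := fun m => by
    rw [pow_succ]; exact Ideal.mul_mem_right _ _ (hcen m)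
  have hred := lowDeg_reduce P hP A M hcen' p
  have hspan := lowDeg_span (affIdeal P A p) M hred
  have hfin : Set.Finite {b : ι →₀ ℕ | ∀ i, b i ≤ M} := by
    refine Set.Finite.subset (Set.finite_Iic (Finsupp.equivFunOnFinite.symm fun _ => M)) ?_
    intro b hb i
    exact hb i
  refine ⟨?_⟩
  rw [Submodule.fg_def]
  refine ⟨_, hfin.image (fun b : ι →₀ ℕ =>
    Ideal.Quotient.mkₐ F (affIdeal P A p) (monomial b (1 : F))), ?_⟩
  rw [eq_top_iff]
  rintro y -
  obtain ⟨h, rfl⟩ := Ideal.Quotient.mkₐ_surjective F (affIdeal P A p) y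
  exact hspan _ h le_rfl

end FibReg
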