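import Pool.Agent.FibReg.Defs

/-! Module LinAlg: linear algebra over the Hahn series field. -/

open MvPolynomial

namespace FibReg

universe u

section Val

variable {K : Type u} [Field K]

/-- the valuation ring -/
noncomputable def linAlgO (K : Type u) [Field K] : Subring (HS K) where
  carrier := {x | 0 ≤ x.orderTop}
  mul_mem' := by
    intro a b ha hb
    show 0 ≤ (a * b).orderTop
    rw [HahnSeries.orderTop_mul]
    exact add_nonneg ha hb
  one_mem' := by
    show 0 ≤ (1 : HS K).orderTop
    rw [HahnSeries.orderTop_one]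
  add_mem' := by
    intro a b ha hb
    have h : min a.orderTop b.orderTop ≤ (a + b).orderTop :=
      HahnSeries.min_orderTop_le_orderTop_add
    exact le_trans (le_min ha hb) h
  zero_mem' := by
    show 0 ≤ (0 : HS K).orderTop
    simp
  neg_mem' := by
    intro a ha
    show 0 ≤ (-a).orderTop
    rwa [HahnSeries.orderTop_neg]

theorem linAlg_mem (x : HS K) : x ∈ linAlgO K ↔ 0 ≤ x.orderTop := Iff.rfl

theorem linAlg_sub {x y : HS K} (hx : 0 ≤ x.orderTop) (hy : 0 ≤ y.orderTop) :
    0 ≤ (x - y).orderTop := (linAlgO K).sub_mem hx hy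

theorem linAlg_mul {x y : HS K} (hx : 0 ≤ x.orderTop) (hy : 0 ≤ y.orderTop) :
    0 ≤ (x * y).orderTop := (linAlgO K).mul_mem hx hy

theorem linAlg_det {n : Type*} [Fintype n] [DecidableEq n] (M : Matrix n n (HS K))
    (hM : ∀ i j, 0 ≤ (M i j).orderTop) : 0 ≤ M.det.orderTop := by
  have : M.det ∈ linAlgO K := by
    rw [Matrix.det_apply]
    refine Subring.sum_mem _ fun σ _ => ?_
    have h1 : ∏ i, M (σ i) i ∈ linAlgO K := Subring.prod_mem _ fun i _ => hM _ _
    rcases Int.units_eq_one_or (Equiv.Perm.sign σ) with h | h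
    · rw [h, one_smul]; exact h1
    · rw [h, Units.neg_smul, one_smul]; exact (linAlgO K).neg_mem h1
  exact this

theorem linAlg_adjugate {n : Type*} [Fintype n] [DecidableEq n] (M : Matrix n n (HS K))
    (hM : ∀ i j, 0 ≤ (M i j).orderTop) (i j : n) : 0 ≤ (M.adjugate i j).orderTop := by
  rw [Matrix.adjugate_apply]
  refine linAlg_det _ fun a b => ?_
  rw [Matrix.updateRow_apply]
  split_ifs with h
  · rw [Pi.single_apply]
    split_ifs
    · rw [HahnSeries.orderTop_one]
    · simp
  · exact hM a b

/-- `v (∑ x_i) ≥ g` if all `v x_i ≥ g` -/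
theorem linAlg_sum {α : Type*} (s : Finset α) (f : α → HS K) (g : WithTop ℚ)
    (h : ∀ a ∈ s, g ≤ (f a).orderTop) : g ≤ (∑ a ∈ s, f a).orderTop := by
  classical
  induction s using Finset.induction_on with
  | empty => simp
  | insert a s ha ih =>
    rw [Finset.sum_insert ha]
    exact le_trans (le_min (h a (Finset.mem_insert_self _ _))
      (ih fun b hb => h b (Finset.mem_insert_of_mem hb))) HahnSeries.min_orderTop_le_orderTop_add

end Val

/-- echelon form -/
theorem linAlg_echelon {K : Type u} [Field K] {κ : Type*} [Fintype κ]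
    (T : Submodule (HS K) (κ → HS K)) (m : ℕ) (hm : m ≤ Module.finrank (HS K) T) :
    ∃ (q : Fin m → κ → HS K) (js : Fin m → κ), (∀ s j, 0 ≤ (q s j).orderTop) ∧
      (∀ s, q s ∈ T) ∧ (∀ s t, q s (js t) = if s = t then 1 else 0) := by
  classical
  induction m with
  | zero => exact ⟨fun s => s.elim0, fun s => s.elim0, fun s => s.elim0, fun s => s.elim0,
      fun s => s.elim0⟩
  | succ m ih =>
    obtain ⟨q, js, hq, hqT, hqj⟩ := ih (by omega)
    have hw : ∃ w ∈ T, w ∉ Submodule.span (HS K) (Set.range q) := by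
      by_contra hcon
      push Not at hcon
      have h1 := Submodule.finrank_mono (show T ≤ Submodule.span (HS K) (Set.range q) from hcon)
      have h2 := finrank_range_le_card (R := HS K) q
      rw [Fintype.card_fin] at h2
      unfold Set.finrank at h2
      omega
    obtain ⟨w, hwT, hwq⟩ := hw
    set w' : κ → HS K := w - ∑ s, w (js s) • q s with hw'
    have hw'T : w' ∈ T := T.sub_mem hwT (T.sum_mem fun s _ => T.smul_mem _ (hqT s))
    have hw'0 : w' ≠ 0 := by
      intro h0
      apply hwq
      rw [sub_eq_zero.1 h0]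
      exact Submodule.sum_mem _ fun s _ => Submodule.smul_mem _ _
        (Submodule.subset_span ⟨s, rfl⟩)
    have hw'j : ∀ t, w' (js t) = 0 := by
      intro t
      rw [hw', Pi.sub_apply, Finset.sum_apply, Finset.sum_eq_single t]
      · simp [hqj]
      · intro s _ hs
        simp [hqj, hs]
      · simp
    have hne : Nonempty κ := by
      by_contra hcon
      rw [not_nonempty_iff] at hcon
      exact hw'0 (Subsingleton.elim _ _)
    obtain ⟨j₀, hj₀⟩ := Finite.exists_min fun j => (w' j).orderTop
    have hj0 : w' j₀ ≠ 0 := by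
      intro h0
      apply hw'0
      funext j
      have := hj₀ j
      rw [h0, HahnSeries.orderTop_zero, top_le_iff, HahnSeries.orderTop_eq_top] at this
      exact this
    have hj0' : (w' j₀).orderTop ≠ ⊤ := by
      rwa [Ne, HahnSeries.orderTop_eq_top]
    set w'' : κ → HS K := (w' j₀)⁻¹ • w' with hw''
    have hint : ∀ j, 0 ≤ (w'' j).orderTop := by
      intro j
      have h1 : w' j = w' j₀ * w'' j := by
        rw [hw'', Pi.smul_apply, smul_eq_mul, mul_inv_cancel_left₀ hj0]
      have h2 := hj₀ j
      rw [h1, HahnSeries.orderTop_mul] at h2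
      have h3 : (w' j₀).orderTop + 0 ≤ (w' j₀).orderTop + (w'' j).orderTop := by
        rwa [add_zero]
      exact (WithTop.add_le_add_iff_left hj0').1 h3
    have hone : w'' j₀ = 1 := by
      rw [hw'', Pi.smul_apply, smul_eq_mul, inv_mul_cancel₀ hj0]
    have hzero : ∀ t, w'' (js t) = 0 := by
      intro t
      rw [hw'', Pi.smul_apply, hw'j, smul_zero]
    have hw''T : w'' ∈ T := T.smul_mem _ hw'T
    refine ⟨Fin.cons w'' fun s => q s - q s j₀ • w'', Fin.cons j₀ js, ?_, ?_, ?_⟩
    · intro s
      refine Fin.cases ?_ (fun s => ?_) s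
      · intro j
        simpa using hint j
      · intro j
        simp only [Fin.cons_succ, Pi.sub_apply, Pi.smul_apply, smul_eq_mul]
        exact linAlg_sub (hq s j) (linAlg_mul (hq s j₀) (hint j))
    · intro s
      refine Fin.cases ?_ (fun s => ?_) s
      · simpa using hw''T
      · simp only [Fin.cons_succ]
        exact T.sub_mem (hqT s) (T.smul_mem _ hw''T)
    · intro s t
      refine Fin.cases ?_ (fun s => ?_) s
      · refine Fin.cases ?_ (fun t => ?_) t
        · simp [hone]
        · simp only [Fin.cons_zero, Fin.cons_succ, hzero]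
          rw [if_neg (Fin.succ_ne_zero t).symm]
      · refine Fin.cases ?_ (fun t => ?_) t
        · simp only [Fin.cons_zero, Fin.cons_succ, Pi.sub_apply, Pi.smul_apply, hone, smul_eq_mul,
            mul_one, sub_self]
          rw [if_neg (Fin.succ_ne_zero s)]
        · simp only [Fin.cons_succ, Pi.sub_apply, Pi.smul_apply, hzero, smul_zero, sub_zero, hqj,
            Fin.succ_inj]

theorem exists_integral_annihilators {K : Type u} [Field K] {κ : Type*} [Fintype κ]
    (S : Submodule (HS K) (κ → HS K)) (n c : ℕ) (hS : Module.finrank (HS K) S ≤ n + 1)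
    (hκ : Fintype.card κ = n + 1 + c) :
    ∃ q : Fin c → κ → HS K, (∀ s j, 0 ≤ (q s j).orderTop) ∧
      (∀ s, ∀ w ∈ S, ∑ j, q s j * w j = 0) ∧
      LinearIndependent K (fun s => fun j => (q s j).coeff 0) := by
  classical
  let B : (κ → HS K) →ₗ[HS K] (S →ₗ[HS K] HS K) :=
    LinearMap.mk₂ (HS K) (fun q w => ∑ j, q j * (w : κ → HS K) j)
      (fun a b w => by simp [add_mul, Finset.sum_add_distrib])
      (fun r a w => by simp [Finset.mul_sum, mul_assoc])
      (fun a w w' => by simp [mul_add, Finset.sum_add_distrib])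
      (fun r a w => by simp [Finset.mul_sum, mul_left_comm])
  have h1 := LinearMap.finrank_range_add_finrank_ker B
  have h2 : Module.finrank (HS K) (LinearMap.range B) ≤ Module.finrank (HS K) S := by
    have h3 := Submodule.finrank_le (LinearMap.range B)
    have h4 : Module.finrank (HS K) (S →ₗ[HS K] HS K) = Module.finrank (HS K) S :=
      Subspace.dual_finrank_eq
    omega
  rw [Module.finrank_fintype_fun_eq_card, hκ] at h1
  obtain ⟨q, js, hq, hqT, hqj⟩ := linAlg_echelon (LinearMap.ker B) c (by omega)
  refine ⟨q, hq, fun s w hw => ?_, ?_⟩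
  · have h3 := LinearMap.mem_ker.1 (hqT s)
    have h4 := LinearMap.congr_fun h3 ⟨w, hw⟩
    simpa [B] using h4
  · rw [Fintype.linearIndependent_iff]
    intro a ha t
    have h3 := congrFun ha (js t)
    rw [Finset.sum_apply, Finset.sum_eq_single t] at h3
    · simpa [hqj] using h3
    · intro s _ hs
      simp [hqj, hs]
    · simp

theorem exists_common_complement {F K : Type*} [Field F] [Infinite F] [Field K] [Algebra F K]
    {V κ : Type*} [Finite V] [Fintype κ] (c : ℕ) (Q : V → Fin c → κ → K)
    (hQ : ∀ v, LinearIndependent K (Q v)) :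
    ∃ w : κ → Fin c → F, ∀ v,
      (Matrix.of fun s t => ∑ j, Q v s j * algebraMap F K (w j t)).det ≠ 0 := by
  classical
  have := Fintype.ofFinite V
  let p : V → MvPolynomial (κ × Fin c) K := fun v =>
    (Matrix.of fun s t => ∑ j, C (Q v s j) * X (j, t)).det
  have hev : ∀ v (x : κ × Fin c → K), eval x (p v) =
      (Matrix.of fun s t => ∑ j, Q v s j * x (j, t)).det := by
    intro v x
    rw [RingHom.map_det]
    congr 1
    ext s t
    simp
  have hp : ∀ v, p v ≠ 0 := by
    intro v hv
    obtain ⟨g, hg⟩ := LinearMap.exists_leftInverse_of_injective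
      (Fintype.linearCombination K (Q v)) (by
        rw [LinearMap.ker_eq_bot]
        exact hQ v |>.fintypeLinearCombination_injective)
    have h1 := hev v fun jt => g (Pi.single jt.1 1) jt.2
    rw [hv, map_zero] at h1
    have h2 : (Matrix.of fun s t => ∑ j, Q v s j * g (Pi.single j 1) t) =
        (1 : Matrix (Fin c) (Fin c) K) := by
      ext s t
      have h3 : Fintype.linearCombination K (Q v) (Pi.single s 1) = Q v s := by
        simp
      have h4 := LinearMap.congr_fun hg (Pi.single s 1)
      rw [LinearMap.comp_apply, h3, LinearMap.id_apply] at h4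
      have h5 : Q v s = ∑ j, Q v s j • (Pi.single j (1 : K) : κ → K) := by
        ext j
        rw [Finset.sum_apply, Finset.sum_eq_single j]
        · simp
        · intro i _ hi
          simp [hi.symm]
        · simp
      rw [h5, map_sum] at h4
      have h6 := congrFun h4 t
      rw [Finset.sum_apply] at h6
      simp only [map_smul, Pi.smul_apply, smul_eq_mul] at h6
      rw [Matrix.of_apply, h6, Matrix.one_apply, Pi.single_apply]
      exact if_congr eq_comm rfl rfl
    rw [h2, Matrix.det_one] at h1
    exact zero_ne_one h1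
  have hprod : ∏ v, p v ≠ 0 := Finset.prod_ne_zero_iff.2 fun v _ => hp v
  by_contra hcon
  push Not at hcon
  apply hprod
  refine MvPolynomial.funext_set (fun _ => Set.range (algebraMap F K)) (fun _ =>
    Set.infinite_range_of_injective (algebraMap F K).injective) ?_
  intro x hx
  have hx' : ∀ jt, ∃ a, algebraMap F K a = x jt := fun jt => hx jt (Set.mem_univ _)
  choose a ha using hx'
  obtain ⟨v, hv⟩ := hcon fun j t => a (j, t)
  rw [map_prod, map_zero]
  refine Finset.prod_eq_zero (Finset.mem_univ v) ?_
  rw [hev v, ← hv]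
  congr 1
  ext s t
  simp [ha]

theorem exists_exact_kernel {K : Type u} [Field K] {ι : Type*} [Fintype ι] [DecidableEq ι]
    {q : ℕ} (M : Matrix (Fin q) ι (HS K)) (hM : ∀ l j, 0 ≤ (M l j).orderTop) (js : Fin q → ι)
    (hdet : (Matrix.det (M.submatrix id js)).orderTop = 0) (η : ι → HS K)
    (hη : ∀ j, 0 ≤ (η j).orderTop) (hMη : ∀ l, 1 ≤ ((M.mulVec η) l).orderTop) :
    ∃ η' : ι → HS K, M.mulVec η' = 0 ∧ ∀ j, 1 ≤ (η j - η' j).orderTop := by
  classical
  set N := M.submatrix id js with hN
  have hdet0 : N.det ≠ 0 := by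
    intro h
    rw [h, HahnSeries.orderTop_zero] at hdet
    exact absurd hdet (by simp)
  have hunit : IsUnit N.det := isUnit_iff_ne_zero.2 hdet0
  have hinv : (N.det⁻¹).orderTop = 0 := by
    have h1 : (N.det * N.det⁻¹).orderTop = 0 := by
      rw [mul_inv_cancel₀ hdet0, HahnSeries.orderTop_one]
    rwa [HahnSeries.orderTop_mul, hdet, zero_add] at h1
  set δ : Fin q → HS K := N⁻¹.mulVec (M.mulVec η) with hδ
  have hδ1 : ∀ s, 1 ≤ (δ s).orderTop := by
    intro s
    rw [hδ, Matrix.mulVec, dotProduct]
    refine linAlg_sum _ _ _ fun l _ => ?_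
    rw [HahnSeries.orderTop_mul]
    have h1 : 0 ≤ (N⁻¹ s l).orderTop := by
      rw [Matrix.inv_def, Ring.inverse_eq_inv', Matrix.smul_apply, smul_eq_mul,
        HahnSeries.orderTop_mul, hinv, zero_add]
      exact linAlg_adjugate _ (fun a b => hM _ _) _ _
    calc (1 : WithTop ℚ) = 0 + 1 := (zero_add 1).symm
      _ ≤ _ := add_le_add h1 (hMη l)
  set ζ : ι → HS K := ∑ s, δ s • Pi.single (js s) 1 with hζ
  have hMζ : M.mulVec ζ = M.mulVec η := by
    have h1 : M.mulVec ζ = N.mulVec δ := by
      rw [hζ]
      funext l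
      rw [Matrix.mulVec_sum, Finset.sum_apply]
      simp only [Matrix.mulVec, dotProduct, Pi.smul_apply, smul_eq_mul]
      refine Finset.sum_congr rfl fun s _ => ?_
      rw [Finset.sum_eq_single (js s)]
      · simp [hN, Matrix.submatrix_apply]
      · intro j _ hj
        simp [hj]
      · simp
    rw [h1, hδ, Matrix.mulVec_mulVec, Matrix.mul_nonsing_inv N hunit, Matrix.one_mulVec]
  refine ⟨η - ζ, ?_, fun j => ?_⟩
  · rw [Matrix.mulVec_sub, hMζ, sub_self]
  · rw [Pi.sub_apply, sub_sub_cancel, hζ, Finset.sum_apply]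
    refine linAlg_sum _ _ _ fun s _ => ?_
    rw [Pi.smul_apply, smul_eq_mul, Pi.single_apply]
    split_ifs
    · rw [mul_one]; exact hδ1 s
    · simp

theorem finrank_ker_of_minor {K : Type u} [Field K] {ι : Type*} [Fintype ι] [DecidableEq ι]
    {q : ℕ} (M : Matrix (Fin q) ι (HS K)) (js : Fin q → ι)
    (hdet : Matrix.det (M.submatrix id js) ≠ 0) :
    Module.finrank (HS K) (LinearMap.ker M.mulVecLin) + q = Fintype.card ι := by
  classical
  set N := M.submatrix id js with hN
  have hunit : IsUnit N.det := isUnit_iff_ne_zero.2 hdet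
  have hr : LinearMap.range M.mulVecLin = ⊤ := by
    rw [LinearMap.range_eq_top]
    intro y
    refine ⟨∑ s, (N⁻¹.mulVec y) s • Pi.single (js s) 1, ?_⟩
    have h1 : M.mulVec (∑ s, (N⁻¹.mulVec y) s • Pi.single (js s) 1) = N.mulVec (N⁻¹.mulVec y) := by
      funext l
      rw [Matrix.mulVec_sum, Finset.sum_apply]
      simp only [Matrix.mulVec, dotProduct, Pi.smul_apply, smul_eq_mul]
      refine Finset.sum_congr rfl fun s _ => ?_
      rw [Finset.sum_eq_single (js s)]
      · simp [hN, Matrix.submatrix_apply]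
      · intro j _ hj
        simp [hj]
      · simp
    rw [Matrix.mulVecLin_apply, h1, Matrix.mulVec_mulVec, Matrix.mul_nonsing_inv N hunit,
      Matrix.one_mulVec]
  have h2 := LinearMap.finrank_range_add_finrank_ker M.mulVecLin
  rw [hr, finrank_top, Module.finrank_fintype_fun_eq_card, Module.finrank_fintype_fun_eq_card,
    Fintype.card_fin] at h2
  omega

end FibReg
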