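import Pool.Agent.FibReg.Defs
import Pool.Agent.FibReg.LinAlg

open MvPolynomial

namespace FibReg

universe u

set_option linter.unusedSectionVars false

section Val

variable {K : Type u} [Field K]

theorem partA_sum_ge {α : Type*} (s : Finset α) (f : α → HS K) (i : WithTop ℚ)
    (hf : ∀ a ∈ s, i ≤ (f a).orderTop) : i ≤ (∑ a ∈ s, f a).orderTop := by
  classical
  induction s using Finset.induction_on with
  | empty => simp
  | insert a s ha ih =>
    rw [Finset.sum_insert ha]
    exact le_trans (le_min (hf a (Finset.mem_insert_self a s))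
      (ih fun b hb => hf b (Finset.mem_insert_of_mem hb))) HahnSeries.min_orderTop_le_orderTop_add

theorem partA_add_ge {x y : HS K} {i : WithTop ℚ} (hx : i ≤ x.orderTop) (hy : i ≤ y.orderTop) :
    i ≤ (x + y).orderTop :=
  le_trans (le_min hx hy) HahnSeries.min_orderTop_le_orderTop_add

theorem partA_sub_ge {x y : HS K} {i : WithTop ℚ} (hx : i ≤ x.orderTop) (hy : i ≤ y.orderTop) :
    i ≤ (x - y).orderTop :=
  le_trans (le_min hx hy) HahnSeries.min_orderTop_le_orderTop_sub

theorem partA_neg_ge {x : HS K} {i : WithTop ℚ} (hx : i ≤ x.orderTop) : i ≤ (-x).orderTop := by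
  rwa [HahnSeries.orderTop_neg]

theorem partA_mul_ge {x y : HS K} {i j : WithTop ℚ} (hx : i ≤ x.orderTop) (hy : j ≤ y.orderTop) :
    i + j ≤ (x * y).orderTop := by
  rw [HahnSeries.orderTop_mul]
  exact add_le_add hx hy

theorem partA_mul_left {x y : HS K} (hx : 0 ≤ x.orderTop) (hy : 1 ≤ y.orderTop) :
    1 ≤ (x * y).orderTop := by
  simpa using partA_mul_ge hx hy

theorem partA_mul_right {x y : HS K} (hx : 1 ≤ x.orderTop) (hy : 0 ≤ y.orderTop) :
    1 ≤ (x * y).orderTop := by
  simpa using partA_mul_ge hx hy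

theorem partA_mul_int {x y : HS K} (hx : 0 ≤ x.orderTop) (hy : 0 ≤ y.orderTop) :
    0 ≤ (x * y).orderTop := by
  simpa using partA_mul_ge hx hy

theorem partA_C_int (a : K) : 0 ≤ (HahnSeries.C a : HS K).orderTop := by
  rw [HahnSeries.C_apply]
  exact HahnSeries.orderTop_single_le

theorem partA_algebraMap_eq {F : Type*} [Field F] [Algebra F K] (a : F) :
    algebraMap F (HS K) a = HahnSeries.C (algebraMap F K a) := rfl

theorem partA_algebraMap_int {F : Type*} [Field F] [Algebra F K] (a : F) :
    0 ≤ (algebraMap F (HS K) a).orderTop := by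
  rw [partA_algebraMap_eq]
  exact partA_C_int (algebraMap F K a)

theorem partA_aeval_int {F : Type*} [Field F] [Algebra F K] {ι : Type*} (γ : ι → HS K)
    (hγ : ∀ i, 0 ≤ (γ i).orderTop) (h : MvPolynomial ι F) : 0 ≤ (aeval γ h).orderTop := by
  induction h using MvPolynomial.induction_on with
  | C a =>
    rw [aeval_C]
    exact partA_algebraMap_int a
  | add p q hp hq =>
    rw [map_add]
    exact partA_add_ge hp hq
  | mul_X p i hp =>
    rw [map_mul, aeval_X]
    exact partA_mul_int hp (hγ i)

theorem partA_coeff_zero_mul {x y : HS K} (hx : 0 ≤ x.orderTop) (hy : 0 ≤ y.orderTop) :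
    (x * y).coeff 0 = x.coeff 0 * y.coeff 0 := by
  classical
  rw [HahnSeries.coeff_mul]
  by_cases h : x.coeff 0 * y.coeff 0 = 0
  · rw [h]
    refine Finset.sum_eq_zero fun ij hij => ?_
    rw [Finset.mem_antidiagonal] at hij
    obtain ⟨h1, h2, h3⟩ := hij
    by_cases hi : ij.1 < 0
    · rw [HahnSeries.coeff_eq_zero_of_lt_orderTop (lt_of_lt_of_le (WithTop.coe_lt_coe.2 hi) hx),
        zero_mul]
    · by_cases hj : ij.2 < 0
      · rw [HahnSeries.coeff_eq_zero_of_lt_orderTop (lt_of_lt_of_le (WithTop.coe_lt_coe.2 hj) hy),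
          mul_zero]
      · have e1 : ij.1 = 0 := by linarith
        have e2 : ij.2 = 0 := by linarith
        rw [e1, e2, h]
  · rw [Finset.sum_eq_single (0, 0)]
    · rintro ⟨i, j⟩ hij hne
      rw [Finset.mem_antidiagonal] at hij
      obtain ⟨h1, h2, h3⟩ := hij
      simp only at h1 h2 h3 ⊢
      by_cases hi : i < 0
      · rw [HahnSeries.coeff_eq_zero_of_lt_orderTop (lt_of_lt_of_le (WithTop.coe_lt_coe.2 hi) hx),
          zero_mul]
      · by_cases hj : j < 0
        · rw [HahnSeries.coeff_eq_zero_of_lt_orderTop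
            (lt_of_lt_of_le (WithTop.coe_lt_coe.2 hj) hy), mul_zero]
        · exact absurd (Prod.ext (by simp; linarith) (by simp; linarith)) hne
    · intro hn
      rw [Finset.mem_antidiagonal] at hn
      by_contra hne
      exact hn ⟨left_ne_zero_of_mul h, right_ne_zero_of_mul h, by simp⟩

end Val

section Der

variable {K : Type u} [Field K]

/-- Coefficientwise extension of a derivation. -/
noncomputable def partA_der (δ : Derivation ℤ K K) (x : HS K) : HS K where
  coeff q := δ (x.coeff q)
  isPWO_support' := x.isPWO_support.mono (by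
    intro q hq
    simp only [Function.mem_support] at hq
    rw [HahnSeries.mem_support]
    intro h
    exact hq (by rw [h, map_zero]))

theorem partA_der_coeff (δ : Derivation ℤ K K) (x : HS K) (q : ℚ) :
    (partA_der δ x).coeff q = δ (x.coeff q) := rfl

theorem partA_der_support (δ : Derivation ℤ K K) (x : HS K) :
    (partA_der δ x).support ⊆ x.support := by
  intro q hq
  rw [HahnSeries.mem_support] at hq ⊢
  intro h
  exact hq (by rw [partA_der_coeff, h, map_zero])

theorem partA_der_ge (δ : Derivation ℤ K K) {x : HS K} {i : WithTop ℚ} (hx : i ≤ x.orderTop) :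
    i ≤ (partA_der δ x).orderTop := by
  rw [HahnSeries.le_orderTop_iff_forall] at hx ⊢
  intro j hj
  rw [partA_der_coeff, hx j hj, map_zero]

theorem partA_der_add (δ : Derivation ℤ K K) (x y : HS K) :
    partA_der δ (x + y) = partA_der δ x + partA_der δ y := by
  ext q
  simp [partA_der_coeff]

theorem partA_der_sub (δ : Derivation ℤ K K) (x y : HS K) :
    partA_der δ (x - y) = partA_der δ x - partA_der δ y := by
  ext q
  simp [partA_der_coeff]

theorem partA_der_zero (δ : Derivation ℤ K K) : partA_der δ (0 : HS K) = 0 := by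
  ext q
  simp [partA_der_coeff]

theorem partA_der_sum (δ : Derivation ℤ K K) {α : Type*} (s : Finset α) (f : α → HS K) :
    partA_der δ (∑ a ∈ s, f a) = ∑ a ∈ s, partA_der δ (f a) := by
  classical
  induction s using Finset.induction_on with
  | empty => simp [partA_der_zero]
  | insert a s ha ih => rw [Finset.sum_insert ha, Finset.sum_insert ha, partA_der_add, ih]

theorem partA_der_mul (δ : Derivation ℤ K K) (x y : HS K) :
    partA_der δ (x * y) = x * partA_der δ y + y * partA_der δ x := by
  ext q
  rw [partA_der_coeff, HahnSeries.coeff_add, mul_comm y, HahnSeries.coeff_mul,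
    HahnSeries.coeff_mul_right' y.isPWO_support (partA_der_support δ y),
    HahnSeries.coeff_mul_left' x.isPWO_support (partA_der_support δ x), map_sum,
    ← Finset.sum_add_distrib]
  refine Finset.sum_congr rfl fun ij _ => ?_
  rw [Derivation.leibniz, smul_eq_mul, smul_eq_mul, partA_der_coeff, partA_der_coeff]
  ring

theorem partA_der_C (δ : Derivation ℤ K K) (a : K) :
    partA_der δ (HahnSeries.C a : HS K) = HahnSeries.C (δ a) := by
  ext q
  rw [partA_der_coeff, HahnSeries.C_apply, HahnSeries.C_apply]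
  by_cases h : q = 0
  · subst h
    rw [HahnSeries.coeff_single_same, HahnSeries.coeff_single_same]
  · rw [HahnSeries.coeff_single_of_ne h, HahnSeries.coeff_single_of_ne h, map_zero]

theorem partA_der_aeval {k F : Type*} [Field k] [Field F] [Algebra k F] [Algebra F K] {ι : Type*}
    [Fintype ι] [DecidableEq ι] (δ : Derivation ℤ K K)
    (hδ : ∀ a : k, δ (algebraMap F K (algebraMap k F a)) = 0) (γ : ι → HS K)
    (G : MvPolynomial ι k) :
    partA_der δ (aeval γ (map (algebraMap k F) G)) =
      ∑ j, aeval γ (pderiv j (map (algebraMap k F) G)) * partA_der δ (γ j) := by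
  induction G using MvPolynomial.induction_on with
  | C a =>
    rw [map_C, aeval_C, partA_algebraMap_eq, partA_der_C, hδ, map_zero]
    symm
    refine Finset.sum_eq_zero fun j _ => ?_
    rw [pderiv_C, map_zero, zero_mul]
  | add p q hp hq =>
    rw [map_add, map_add, partA_der_add, hp, hq, ← Finset.sum_add_distrib]
    refine Finset.sum_congr rfl fun j _ => ?_
    rw [map_add, map_add, add_mul]
  | mul_X p i hp =>
    rw [map_mul, map_X, map_mul, aeval_X, partA_der_mul, hp]
    have h1 : ∀ j, aeval γ (pderiv j (map (algebraMap k F) p * X i)) * partA_der δ (γ j) =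
        γ i * (aeval γ (pderiv j (map (algebraMap k F) p)) * partA_der δ (γ j)) +
        (if j = i then aeval γ (map (algebraMap k F) p) * partA_der δ (γ i) else 0) := by
      intro j
      rw [Derivation.leibniz, map_add, smul_eq_mul, smul_eq_mul, map_mul, map_mul, aeval_X,
        pderiv_X]
      by_cases hji : j = i
      · subst hji
        simp
        ring
      · rw [if_neg hji, Pi.single_eq_of_ne (Ne.symm hji)]
        simp
        ring
    simp_rw [h1]
    rw [Finset.sum_add_distrib, ← Finset.mul_sum, Finset.sum_ite_eq' Finset.univ i]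
    simp
    ring

end Der

section Kv

variable {k F K : Type u} [Field k] [Field F] [Field K] [Algebra k F] [Algebra F K]
  {ι κ : Type} [Fintype ι] [DecidableEq ι] [Fintype κ] [DecidableEq κ]

/-- Integral vectors which are tangent modulo `λ` at the arc `γ`. -/
def partA_K (F : Type u) [Field F] [Algebra k F] [Algebra F K] (P : Ideal (MvPolynomial ι k))
    (γ η : ι → HS K) : Prop :=
  (∀ j, 0 ≤ (η j).orderTop) ∧
    ∀ G ∈ P, 1 ≤ (∑ j, aeval γ (pderiv j (map (algebraMap k F) G)) * η j).orderTop

theorem partA_K_zero (P : Ideal (MvPolynomial ι k)) (γ : ι → HS K) :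
    partA_K F P γ 0 := by
  refine ⟨fun j => by simp, fun G _ => by simp⟩

theorem partA_K_add {P : Ideal (MvPolynomial ι k)} {γ η θ : ι → HS K}
    (h1 : partA_K F P γ η) (h2 : partA_K F P γ θ) : partA_K F P γ (fun l => η l + θ l) := by
  refine ⟨fun j => partA_add_ge (h1.1 j) (h2.1 j), fun G hG => ?_⟩
  have h : ∑ j, aeval γ (pderiv j (map (algebraMap k F) G)) * (η j + θ j) =
      ∑ j, aeval γ (pderiv j (map (algebraMap k F) G)) * η j +
      ∑ j, aeval γ (pderiv j (map (algebraMap k F) G)) * θ j := by
    rw [← Finset.sum_add_distrib]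
    exact Finset.sum_congr rfl fun j _ => by ring
  rw [h]
  exact partA_add_ge (h1.2 G hG) (h2.2 G hG)

theorem partA_K_mul {P : Ideal (MvPolynomial ι k)} {γ η : ι → HS K} {a : HS K}
    (ha : 0 ≤ a.orderTop) (h1 : partA_K F P γ η) : partA_K F P γ (fun l => a * η l) := by
  refine ⟨fun j => partA_mul_int ha (h1.1 j), fun G hG => ?_⟩
  have h : ∑ j, aeval γ (pderiv j (map (algebraMap k F) G)) * (a * η j) =
      a * ∑ j, aeval γ (pderiv j (map (algebraMap k F) G)) * η j := by
    rw [Finset.mul_sum]
    exact Finset.sum_congr rfl fun j _ => by ring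
  rw [h]
  exact partA_mul_left ha (h1.2 G hG)

theorem partA_K_neg {P : Ideal (MvPolynomial ι k)} {γ η : ι → HS K}
    (h1 : partA_K F P γ η) : partA_K F P γ (fun l => -η l) := by
  refine ⟨fun j => partA_neg_ge (h1.1 j), fun G hG => ?_⟩
  have h : ∑ j, aeval γ (pderiv j (map (algebraMap k F) G)) * (-η j) =
      -∑ j, aeval γ (pderiv j (map (algebraMap k F) G)) * η j := by
    rw [← Finset.sum_neg_distrib]
    exact Finset.sum_congr rfl fun j _ => by ring
  rw [h]
  exact partA_neg_ge (h1.2 G hG)

theorem partA_K_sum {α : Type*} (s : Finset α) {P : Ideal (MvPolynomial ι k)} {γ : ι → HS K}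
    {η : α → ι → HS K} (h1 : ∀ a ∈ s, partA_K F P γ (η a)) :
    partA_K F P γ (fun l => ∑ a ∈ s, η a l) := by
  classical
  induction s using Finset.induction_on with
  | empty =>
    simp only [Finset.sum_empty]
    exact partA_K_zero P γ
  | insert a s ha ih =>
    simp only [Finset.sum_insert ha]
    exact partA_K_add (h1 a (Finset.mem_insert_self a s))
      (ih fun b hb => h1 b (Finset.mem_insert_of_mem hb))

theorem partA_K_der {P : Ideal (MvPolynomial ι k)} {γ : ι → HS K}
    (hγ : ∀ i, 0 ≤ (γ i).orderTop) (δ : Derivation ℤ K K)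
    (hδ : ∀ a : k, δ (algebraMap F K (algebraMap k F a)) = 0)
    (hG : ∀ G ∈ extIdeal F P, 1 ≤ (aeval γ G).orderTop) :
    partA_K F P γ (fun l => partA_der δ (γ l)) := by
  refine ⟨fun j => partA_der_ge δ (hγ j), fun G hG' => ?_⟩
  rw [← partA_der_aeval δ hδ γ G]
  exact partA_der_ge δ (hG _ (Ideal.mem_map_of_mem _ hG'))

theorem partA_euler (P : Ideal (MvPolynomial ι k)) (hP : IsHomog P) {G : MvPolynomial ι k}
    (hG : G ∈ P) : ∑ j, X j * pderiv j G ∈ P := by
  have h : ∑ j, X j * pderiv j G =
      ∑ d ∈ Finset.range (G.totalDegree + 1), d • homogeneousComponent d G := by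
    conv_lhs => rw [← sum_homogeneousComponent G]
    simp_rw [map_sum, Finset.mul_sum]
    rw [Finset.sum_comm]
    refine Finset.sum_congr rfl fun d _ => ?_
    exact (homogeneousComponent_isHomogeneous d G).sum_X_mul_pderiv
  rw [h]
  exact Ideal.sum_mem _ fun d _ => nsmul_mem (hP G hG d) d

theorem partA_K_self {P : Ideal (MvPolynomial ι k)} (hP : IsHomog P) {γ : ι → HS K}
    (hγ : ∀ i, 0 ≤ (γ i).orderTop)
    (hG : ∀ G ∈ extIdeal F P, 1 ≤ (aeval γ G).orderTop) :
    partA_K F P γ γ := by
  refine ⟨hγ, fun G hG' => ?_⟩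
  have h : ∑ j, aeval γ (pderiv j (map (algebraMap k F) G)) * γ j =
      aeval γ (map (algebraMap k F) (∑ j, X j * pderiv j G)) := by
    rw [map_sum, map_sum]
    refine Finset.sum_congr rfl fun j _ => ?_
    rw [map_mul, map_mul, map_X, aeval_X, pderiv_map, mul_comm]
  rw [h]
  exact hG _ (Ideal.mem_map_of_mem _ (partA_euler P hP hG'))

theorem partA_step {P : Ideal (MvPolynomial ι k)} (A : κ → ι → F) (p : κ → F)
    (δ : Derivation ℤ K K) (i : κ) (m : ι)
    (hδ : ∀ a : k, δ (algebraMap F K (algebraMap k F a)) = 0)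
    (hδF : ∀ (a : F), ∃ b : F, δ (algebraMap F K a) = algebraMap F K b)
    (hδA : ∀ j l, δ (algebraMap F K (A j l)) = if j = i ∧ l = m then 1 else 0)
    {V : Type*} (γ : V → ι → HS K) (hγ : ∀ v i, 0 ≤ (γ v i).orderTop)
    (hG : ∀ v, ∀ G ∈ affIdeal (extIdeal F P) A p, 1 ≤ (aeval (γ v) G).orderTop) :
    ∃ (b : κ → F) (η : V → ι → HS K), (∀ v, partA_K F P (γ v) (η v)) ∧
      ∀ v j, 1 ≤ ((if j = i then γ v m else 0) - algebraMap F (HS K) (b j) -
        ∑ l, algebraMap F (HS K) (A j l) * η v l).orderTop := by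
  choose b hb using fun j => hδF (p j)
  refine ⟨b, fun v l => -partA_der δ (γ v l), fun v => ?_, fun v j => ?_⟩
  · exact partA_K_neg (partA_K_der (hγ v) δ hδ fun G hG' =>
      hG v G (Ideal.mem_sup_left hG'))
  · have h1 : 1 ≤ (aeval (γ v) (lin A j - C (p j))).orderTop :=
      hG v _ (Ideal.mem_sup_right (Ideal.subset_span ⟨j, rfl⟩))
    have h2 := partA_der_ge δ h1
    have h3 : partA_der δ (aeval (γ v) (lin A j - C (p j))) =
        (if j = i then γ v m else 0) - algebraMap F (HS K) (b j) -
        ∑ l, algebraMap F (HS K) (A j l) * -partA_der δ (γ v l) := by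
      rw [lin, map_sub, map_sum, partA_der_sub, partA_der_sum, aeval_C, partA_algebraMap_eq,
        partA_der_C, hb, ← partA_algebraMap_eq]
      have h4 : ∀ l, partA_der δ (aeval (γ v) (C (A j l) * X l)) =
          algebraMap F (HS K) (A j l) * partA_der δ (γ v l) +
            (if j = i ∧ l = m then γ v l else 0) := by
        intro l
        rw [map_mul, aeval_C, aeval_X, partA_der_mul, partA_algebraMap_eq, partA_der_C, hδA]
        by_cases hc : j = i ∧ l = m
        · rw [if_pos hc, if_pos hc, map_one, mul_one]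
        · rw [if_neg hc, if_neg hc, map_zero, mul_zero]
      simp_rw [h4]
      rw [Finset.sum_add_distrib]
      have h5 : ∑ l, (if j = i ∧ l = m then γ v l else 0) = if j = i then γ v m else 0 := by
        by_cases hji : j = i
        · simp [hji]
        · simp [hji]
      rw [h5]
      simp only [mul_neg, Finset.sum_neg_distrib]
      ring
    rw [← h3]
    exact h2

theorem partA_span {P : Ideal (MvPolynomial ι k)} (A : κ → ι → F)
    {V : Type*} (γ : V → ι → HS K) (hγ : ∀ v i, 0 ≤ (γ v i).orderTop)
    (hstep : ∀ i m, ∃ (b : κ → F) (η : V → ι → HS K), (∀ v, partA_K F P (γ v) (η v)) ∧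
      ∀ v j, 1 ≤ ((if j = i then γ v m else 0) - algebraMap F (HS K) (b j) -
        ∑ l, algebraMap F (HS K) (A j l) * η v l).orderTop)
    (h : MvPolynomial ι F) (i : κ) :
    ∃ (w : κ → F) (η : V → ι → HS K), (∀ v, partA_K F P (γ v) (η v)) ∧
      ∀ v j, 1 ≤ ((if j = i then aeval (γ v) h else 0) - algebraMap F (HS K) (w j) -
        ∑ l, algebraMap F (HS K) (A j l) * η v l).orderTop := by
  induction h using MvPolynomial.induction_on with
  | C a =>
    refine ⟨fun j => if j = i then a else 0, fun v => 0, fun v => partA_K_zero P _, fun v j => ?_⟩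
    have h : ((if j = i then aeval (γ v) (C a : MvPolynomial ι F) else 0) -
        algebraMap F (HS K) (if j = i then a else 0) -
        ∑ l, algebraMap F (HS K) (A j l) * (0 : ι → HS K) l) = 0 := by
      by_cases hji : j = i
      · simp [hji]
      · simp [hji]
    rw [h]
    simp
  | add p q hp hq =>
    obtain ⟨w1, η1, h1, h1'⟩ := hp
    obtain ⟨w2, η2, h2, h2'⟩ := hq
    refine ⟨fun j => w1 j + w2 j, fun v l => η1 v l + η2 v l, fun v => partA_K_add (h1 v) (h2 v),
      fun v j => ?_⟩
    have h := partA_add_ge (h1' v j) (h2' v j)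
    refine le_of_le_of_eq h (congrArg _ ?_)
    have e1 : ∑ l, algebraMap F (HS K) (A j l) * (η1 v l + η2 v l) =
        ∑ l, algebraMap F (HS K) (A j l) * η1 v l + ∑ l, algebraMap F (HS K) (A j l) * η2 v l := by
      rw [← Finset.sum_add_distrib]
      exact Finset.sum_congr rfl fun l _ => by ring
    rw [e1, map_add, map_add]
    by_cases hji : j = i
    · simp only [if_pos hji]
      ring
    · simp only [if_neg hji]
      ring
  | mul_X p m hp =>
    obtain ⟨w', η', h1, h1'⟩ := hp
    choose b θ h2 h2' using fun i => hstep i m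
    refine ⟨fun j => ∑ j', w' j' * b j' j,
      fun v l => γ v m * η' v l + ∑ j', algebraMap F (HS K) (w' j') * θ j' v l,
      fun v => partA_K_add (partA_K_mul (hγ v m) (h1 v))
        (partA_K_sum _ fun j' _ => partA_K_mul (partA_algebraMap_int _) (h2 j' v)),
      fun v j => ?_⟩
    have h := partA_add_ge (partA_mul_left (hγ v m) (h1' v j))
      (partA_sum_ge Finset.univ _ 1 fun j' _ => partA_mul_left
        (partA_algebraMap_int (F := F) (K := K) (w' j')) (h2' j' v j))
    refine le_of_le_of_eq h (congrArg _ ?_)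
    have e1 : ∑ l, algebraMap F (HS K) (A j l) *
        (γ v m * η' v l + ∑ j', algebraMap F (HS K) (w' j') * θ j' v l) =
        γ v m * ∑ l, algebraMap F (HS K) (A j l) * η' v l +
        ∑ j', algebraMap F (HS K) (w' j') * ∑ l, algebraMap F (HS K) (A j l) * θ j' v l := by
      simp_rw [mul_add, Finset.mul_sum, Finset.sum_add_distrib]
      congr 1
      · exact Finset.sum_congr rfl fun l _ => by ring
      · rw [Finset.sum_comm]
        exact Finset.sum_congr rfl fun l _ => Finset.sum_congr rfl fun _ _ => by ring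
    have e2 : ∑ j', algebraMap F (HS K) (w' j') * ((if j = j' then γ v m else 0) -
        algebraMap F (HS K) (b j' j) - ∑ l, algebraMap F (HS K) (A j l) * θ j' v l) =
        algebraMap F (HS K) (w' j) * γ v m -
        ∑ j', algebraMap F (HS K) (w' j') * algebraMap F (HS K) (b j' j) -
        ∑ j', algebraMap F (HS K) (w' j') * ∑ l, algebraMap F (HS K) (A j l) * θ j' v l := by
      simp_rw [mul_sub, Finset.sum_sub_distrib]
      congr 2
      simp
    rw [e1, e2, map_sum, map_mul, aeval_X]
    simp_rw [map_mul]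
    by_cases hji : j = i
    · simp only [if_pos hji]
      ring
    · simp only [if_neg hji]
      ring

end Kv

section Residue

variable {K : Type u} [Field K]

theorem partA_prod {α : Type*} (s : Finset α) (f : α → HS K)
    (hf : ∀ a ∈ s, 0 ≤ (f a).orderTop) :
    0 ≤ (∏ a ∈ s, f a).orderTop ∧ (∏ a ∈ s, f a).coeff 0 = ∏ a ∈ s, (f a).coeff 0 := by
  classical
  induction s using Finset.induction_on with
  | empty =>
    simp only [Finset.prod_empty]
    refine ⟨?_, ?_⟩
    · rw [HahnSeries.orderTop_one]
    · simp [HahnSeries.coeff_one]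
  | insert a s ha ih =>
    rw [Finset.prod_insert ha, Finset.prod_insert ha]
    obtain ⟨h1, h2⟩ := ih fun b hb => hf b (Finset.mem_insert_of_mem hb)
    have h3 := hf a (Finset.mem_insert_self a s)
    exact ⟨partA_mul_int h3 h1, by rw [partA_coeff_zero_mul h3 h1, h2]⟩

theorem partA_det {n : Type*} [Fintype n] [DecidableEq n] (M : Matrix n n (HS K))
    (hM : ∀ i j, 0 ≤ (M i j).orderTop) :
    0 ≤ M.det.orderTop ∧ M.det.coeff 0 = (Matrix.of fun i j => (M i j).coeff 0).det := by
  rw [Matrix.det_apply, Matrix.det_apply]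
  constructor
  · refine partA_sum_ge _ _ 0 fun σ _ => ?_
    rw [Units.smul_def, zsmul_eq_mul]
    refine partA_mul_int ?_ (partA_prod _ _ fun i _ => hM _ _).1
    rcases Int.units_eq_one_or (Equiv.Perm.sign σ) with h | h <;> rw [h] <;> simp
  · rw [HahnSeries.coeff_sum]
    refine Finset.sum_congr rfl fun σ _ => ?_
    have h := (partA_prod Finset.univ (fun i => M (σ i) i) fun i _ => hM _ _).2
    rcases Int.units_eq_one_or (Equiv.Perm.sign σ) with h' | h' <;> rw [h'] <;> simp [h]

theorem partA_det_orderTop {n : Type*} [Fintype n] [DecidableEq n] (M : Matrix n n (HS K))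
    (hM : ∀ i j, 0 ≤ (M i j).orderTop)
    (h : (Matrix.of fun i j => (M i j).coeff 0).det ≠ 0) : M.det.orderTop = 0 := by
  obtain ⟨h1, h2⟩ := partA_det M hM
  refine le_antisymm ?_ h1
  exact HahnSeries.orderTop_le_of_coeff_ne_zero (by rw [h2]; exact h)

theorem partA_eval_coeff {F : Type*} [Field F] [Algebra F K] {ι : Type*} (x : ι → F)
    (ξ : ι → HS K) (hξ : ∀ i, 0 < (ξ i).orderTop) (g : MvPolynomial ι F) :
    (aeval (fun i => algebraMap F (HS K) (x i) + ξ i) g).coeff 0 = algebraMap F K (eval x g) := by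
  have hγ : ∀ i, 0 ≤ ((fun i => algebraMap F (HS K) (x i) + ξ i) i).orderTop := fun i =>
    partA_add_ge (partA_algebraMap_int _) (hξ i).le
  induction g using MvPolynomial.induction_on with
  | C a =>
    rw [aeval_C, eval_C, partA_algebraMap_eq, HahnSeries.C_apply, HahnSeries.coeff_single_same]
  | add p q hp hq => rw [map_add, HahnSeries.coeff_add, hp, hq, map_add, map_add]
  | mul_X p i hp =>
    rw [map_mul, aeval_X, partA_coeff_zero_mul (partA_aeval_int _ hγ p) (hγ i), hp, map_mul,
      eval_X, map_mul]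
    congr 1
    rw [HahnSeries.coeff_add, partA_algebraMap_eq, HahnSeries.C_apply,
      HahnSeries.coeff_single_same, HahnSeries.coeff_eq_zero_of_lt_orderTop (hξ i), add_zero]

end Residue

section Annih

variable {k F K : Type u} [Field k] [Field F] [Field K] [Algebra k F] [Algebra F K]
  {ι κ : Type} [Fintype ι] [DecidableEq ι] [Fintype κ] [DecidableEq κ]

theorem partA_annih (n c q : ℕ) (hι : Fintype.card ι = n + 1 + q)
    (hκ : Fintype.card κ = n + 1 + c) (P : Ideal (MvPolynomial ι k)) (A : κ → ι → F)
    (x : ι → F) (hx : MinorAt q P x) (ξ : ι → HS K) (hξ : ∀ i, 0 < (ξ i).orderTop) :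
    ∃ Q : Fin c → κ → HS K, (∀ s j, 0 ≤ (Q s j).orderTop) ∧
      (LinearIndependent K (fun s => fun j => (Q s j).coeff 0)) ∧
      ∀ η, partA_K F P (fun i => algebraMap F (HS K) (x i) + ξ i) η → ∀ s,
        1 ≤ (∑ j, Q s j * ∑ l, algebraMap F (HS K) (A j l) * η l).orderTop := by
  obtain ⟨G, js, hGP, hdet⟩ := hx
  set γ : ι → HS K := fun i => algebraMap F (HS K) (x i) + ξ i with hγdef
  have hγ : ∀ i, 0 ≤ (γ i).orderTop := fun i =>
    partA_add_ge (partA_algebraMap_int _) (hξ i).le
  set M : Matrix (Fin q) ι (HS K) :=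
    Matrix.of fun l j => aeval γ (pderiv j (map (algebraMap k F) (G l))) with hM
  have hMint : ∀ l j, 0 ≤ (M l j).orderTop := fun l j => partA_aeval_int γ hγ _
  have hdM : (Matrix.det (M.submatrix id js)).orderTop = 0 := by
    refine partA_det_orderTop _ (fun l s => hMint _ _) ?_
    have h1 : (Matrix.of fun i j => ((M.submatrix id js) i j).coeff 0) =
        (algebraMap F K).mapMatrix (Matrix.of fun l s => aeval x (pderiv (js s) (G l))) := by
      ext l s
      simp only [Matrix.of_apply, Matrix.submatrix_apply, id, hM, RingHom.mapMatrix_apply,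
        Matrix.map_apply]
      rw [hγdef, partA_eval_coeff x ξ hξ, pderiv_map, eval_map]
      rfl
    rw [h1, ← RingHom.map_det]
    exact (map_ne_zero _).2 hdet
  have hdM' : Matrix.det (M.submatrix id js) ≠ 0 := by
    intro h
    rw [h, HahnSeries.orderTop_zero] at hdM
    exact absurd hdM (by simp)
  have hker := finrank_ker_of_minor M js hdM'
  set Am : Matrix κ ι (HS K) := Matrix.of fun j l => algebraMap F (HS K) (A j l) with hAm
  obtain ⟨Q, hQ1, hQ2, hQ3⟩ := exists_integral_annihilators
    ((LinearMap.ker M.mulVecLin).map Am.mulVecLin) n c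
    (le_trans (Submodule.finrank_map_le _ _) (by omega)) hκ
  refine ⟨Q, hQ1, hQ3, fun η hη s => ?_⟩
  obtain ⟨η', h1, h2⟩ := exists_exact_kernel M hMint js hdM η hη.1 (fun l => hη.2 _ (hGP l))
  have h3 : ∑ j, Q s j * ∑ l, algebraMap F (HS K) (A j l) * η' l = 0 := by
    refine hQ2 s (Am.mulVecLin η') ⟨η', ?_, rfl⟩
    rw [SetLike.mem_coe, LinearMap.mem_ker]
    exact h1
  have h4 : ∑ j, Q s j * ∑ l, algebraMap F (HS K) (A j l) * η l =
      ∑ j, Q s j * ∑ l, algebraMap F (HS K) (A j l) * (η l - η' l) := by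
    rw [← sub_zero (∑ j, Q s j * ∑ l, algebraMap F (HS K) (A j l) * η l), ← h3,
      ← Finset.sum_sub_distrib]
    refine Finset.sum_congr rfl fun j _ => ?_
    rw [← mul_sub, ← Finset.sum_sub_distrib]
    congr 1
    exact Finset.sum_congr rfl fun l _ => by ring
  rw [h4]
  exact partA_sum_ge _ _ 1 fun j _ => partA_mul_left (hQ1 s j)
    (partA_sum_ge _ _ 1 fun l _ => partA_mul_left (partA_algebraMap_int _) (h2 l))

end Annih

section Final

theorem partA_smul {F K : Type u} [Field F] [Field K] [Algebra F K] (a : F) (x : HS K) :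
    a • x = algebraMap F (HS K) a * x := by
  rw [partA_algebraMap_eq, HahnSeries.C_mul_eq_smul]
  ext q
  rw [HahnSeries.coeff_smul, HahnSeries.coeff_smul, algebraMap_smul]

/-- The multiples of `λ` as an `F`-submodule. -/
noncomputable def partA_N (F K : Type u) [Field F] [Field K] [Algebra F K] :
    Submodule F (HS K) where
  carrier := {x | 1 ≤ x.orderTop}
  zero_mem' := by simp
  add_mem' := fun hx hy => partA_add_ge hx hy
  smul_mem' := by
    intro a x hx
    simp only [Set.mem_ofPred_eq] at hx ⊢
    rw [partA_smul]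
    exact partA_mul_left (partA_algebraMap_int a) hx

theorem partA_mem_N {F K : Type u} [Field F] [Field K] [Algebra F K] (x : HS K) :
    x ∈ partA_N F K ↔ 1 ≤ x.orderTop := Iff.rfl

theorem partA_mem_arcIdeal {F K : Type u} [Field F] [Field K] [Algebra F K] {ι : Type*}
    {γ : ι → HS K} (hγ : ∀ i, 0 ≤ (γ i).orderTop) {h : MvPolynomial ι F}
    (hh : 1 ≤ (aeval γ h).orderTop) : h ∈ arcIdeal F γ := by
  intro g
  rw [map_mul]
  exact partA_mul_left (partA_aeval_int γ hγ g) hh

theorem partA_pi_finrank {F B : Type*} [Field F] [AddCommGroup B] [Module F B] (c m : ℕ)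
    (h : Module.finrank F (Fin c → B) ≤ m) : c * Module.finrank F B ≤ m := by
  by_cases hB : Module.Finite F B
  · rw [Module.finrank_pi_fintype] at h
    simpa using h
  · rw [Module.finrank_of_not_finite hB, mul_zero]
    exact Nat.zero_le m

theorem partA_finrank_aux {F E T B Y : Type*} [Field F] [AddCommGroup E] [Module F E]
    [AddCommGroup T] [Module F T] [AddCommGroup B] [Module F B] [AddCommGroup Y] [Module F Y]
    [Module.Finite F Y] (Φ : E →ₗ[F] T) (Ψ : Y →ₗ[F] T) (π : E →ₗ[F] B)
    (hπ : Function.Surjective π) (hker : LinearMap.ker Φ ≤ LinearMap.ker π)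
    (hrange : LinearMap.range Φ ≤ LinearMap.range Ψ) (p : Y) (hp : p ≠ 0) (hΨp : Ψ p = 0) (m : ℕ)
    (hm : Module.finrank F Y = m + 1) : Module.finrank F B ≤ m := by
  have h1 := LinearMap.finrank_range_add_finrank_ker Ψ
  have h2 : 0 < Module.finrank F (LinearMap.ker Ψ) := by
    have hnt : Nontrivial (LinearMap.ker Ψ) :=
      ⟨⟨⟨p, hΨp⟩, 0, fun h => hp (congrArg Subtype.val h)⟩⟩
    exact Module.finrank_pos
  have h3 : Module.finrank F (LinearMap.range Φ) ≤ Module.finrank F (LinearMap.range Ψ) :=
    Submodule.finrank_mono hrange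
  have hfin : Module.Finite F (LinearMap.range Φ) := Submodule.finiteDimensional_of_le hrange
  let e := Φ.quotKerEquivRange
  have hfin' : Module.Finite F (E ⧸ LinearMap.ker Φ) := Module.Finite.equiv e.symm
  let ψ : (E ⧸ LinearMap.ker Φ) →ₗ[F] B := (LinearMap.ker Φ).liftQ π hker
  have hψ : Function.Surjective ψ := by
    intro b
    obtain ⟨x, rfl⟩ := hπ b
    exact ⟨Submodule.Quotient.mk x, Submodule.liftQ_apply _ _ _⟩
  have h4 : Module.finrank F B ≤ Module.finrank F (E ⧸ LinearMap.ker Φ) := by
    have h5 := LinearMap.finrank_range_le ψ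
    rwa [LinearMap.range_eq_top.2 hψ, finrank_top] at h5
  rw [e.finrank_eq] at h4
  omega

end Final

theorem partA {k F K : Type u} [Field k] [Field F] [Field K] [Algebra k F] [Algebra F K]
    [CharZero K] [Infinite F] {ι κ : Type} [Fintype ι] [DecidableEq ι] [Fintype κ] [DecidableEq κ]
    (n c q : ℕ) (hc : 1 ≤ c) (hι : Fintype.card ι = n + 1 + q)
    (hκ : Fintype.card κ = n + 1 + c)
    (P : Ideal (MvPolynomial ι k)) (hP : IsHomog P)
    (A : κ → ι → F) (p : κ → F) (hp : p ≠ 0) (D : κ → ι → Derivation ℤ K K)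
    (hDk : ∀ i m (a : k), D i m (algebraMap F K (algebraMap k F a)) = 0)
    (hDF : ∀ i m (a : F), ∃ b : F, D i m (algebraMap F K a) = algebraMap F K b)
    (hDA : ∀ i m j l, D i m (algebraMap F K (A j l)) = if j = i ∧ l = m then 1 else 0)
    {V : Type*} [Fintype V] (x : V → ι → F)
    (hx : ∀ v, MinorAt q P (x v)) (ξ : V → ι → HS K) (hξ : ∀ v i, 0 < (ξ v i).orderTop)
    (hG : ∀ v, ∀ G ∈ affIdeal (extIdeal F P) A p,
      1 ≤ (aeval (fun i => algebraMap F (HS K) (x v i) + ξ v i) G).orderTop) :
    c * Module.finrank F (MvPolynomial ι F ⧸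
      ⨅ v, arcIdeal F (fun i => algebraMap F (HS K) (x v i) + ξ v i)) ≤ n + c := by
  set γ : V → ι → HS K := fun v i => algebraMap F (HS K) (x v i) + ξ v i with hγdef
  have hγ : ∀ v i, 0 ≤ (γ v i).orderTop := fun v i =>
    partA_add_ge (partA_algebraMap_int _) (hξ v i).le
  have hspan := partA_span (P := P) A γ hγ fun i m =>
    partA_step A p (D i m) i m (hDk i m) (hDF i m) (hDA i m) γ hγ hG
  choose Q hQint hQind hQK using fun v => partA_annih n c q hι hκ P A (x v) (hx v) (ξ v) (hξ v)
  have hself : ∀ v, partA_K F P (γ v) (γ v) := fun v =>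
    partA_K_self hP (hγ v) fun G hG' => hG v G (Ideal.mem_sup_left hG')
  obtain ⟨w, hw⟩ := exists_common_complement (F := F) c (fun v s j => (Q v s j).coeff 0) hQind
  -- the matrices
  let W : V → Matrix (Fin c) (Fin c) (HS K) := fun v =>
    Matrix.of fun s t => ∑ j, Q v s j * algebraMap F (HS K) (w j t)
  have hWint : ∀ v s t, 0 ≤ (W v s t).orderTop := fun v s t =>
    partA_sum_ge _ _ 0 fun j _ => partA_mul_int (hQint v s j) (partA_algebraMap_int _)
  have hWdet : ∀ v, (W v).det.orderTop = 0 := by
    intro v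
    refine partA_det_orderTop _ (hWint v) ?_
    have h1 : (Matrix.of fun i j => (W v i j).coeff 0) =
        Matrix.of fun s t => ∑ j, (Q v s j).coeff 0 * algebraMap F K (w j t) := by
      ext s t
      simp only [W, Matrix.of_apply]
      rw [HahnSeries.coeff_sum]
      refine Finset.sum_congr rfl fun j _ => ?_
      rw [partA_coeff_zero_mul (hQint v s j) (partA_algebraMap_int _), partA_algebraMap_eq,
        HahnSeries.C_apply, HahnSeries.coeff_single_same]
    rw [h1]
    exact hw v
  let Φ : (Fin c → MvPolynomial ι F) →ₗ[F] (V → Fin c → HS K ⧸ partA_N F K) :=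
    { toFun := fun h v s => (partA_N F K).mkQ (∑ t, aeval (γ v) (h t) * W v s t)
      map_add' := by
        intro h h'
        ext v s
        simp only [Pi.add_apply, map_add, add_mul, Finset.sum_add_distrib]
      map_smul' := by
        intro a h
        ext v s
        simp only [Pi.smul_apply, RingHom.id_apply]
        rw [← map_smul, partA_smul, Finset.mul_sum]
        congr 1
        refine Finset.sum_congr rfl fun t _ => ?_
        rw [MvPolynomial.smul_eq_C_mul, map_mul, aeval_C, mul_assoc] }
  let Ψ : (κ → F) →ₗ[F] (V → Fin c → HS K ⧸ partA_N F K) :=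
    { toFun := fun y v s => (partA_N F K).mkQ (∑ j, Q v s j * algebraMap F (HS K) (y j))
      map_add' := by
        intro h h'
        ext v s
        simp only [Pi.add_apply, map_add, mul_add, Finset.sum_add_distrib]
      map_smul' := by
        intro a h
        ext v s
        simp only [Pi.smul_apply, RingHom.id_apply]
        rw [← map_smul, partA_smul, Finset.mul_sum]
        congr 1
        refine Finset.sum_congr rfl fun t _ => ?_
        rw [smul_eq_mul, map_mul]
        ring }
  refine partA_pi_finrank c (n + c) ?_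
  let I : Ideal (MvPolynomial ι F) := ⨅ v, arcIdeal F (γ v)
  let π : (Fin c → MvPolynomial ι F) →ₗ[F] (Fin c → MvPolynomial ι F ⧸ I) :=
    LinearMap.pi fun t => (Ideal.Quotient.mkₐ F I).toLinearMap.comp (LinearMap.proj t)
  have hπ : Function.Surjective π := by
    intro y
    choose g hg using fun t => Ideal.Quotient.mk_surjective (y t)
    exact ⟨g, funext hg⟩
  refine partA_finrank_aux Φ Ψ π hπ ?_ ?_ p hp ?_ (n + c) (by
    rw [Module.finrank_fintype_fun_eq_card, hκ]; omega)
  · -- kernel
    intro h hh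
    rw [LinearMap.mem_ker] at hh ⊢
    have h1 : ∀ v s, 1 ≤ (∑ t, aeval (γ v) (h t) * W v s t).orderTop := by
      intro v s
      have h2 := congrFun (congrFun hh v) s
      exact (Submodule.Quotient.mk_eq_zero _).1 h2
    have h3 : ∀ v t, h t ∈ arcIdeal F (γ v) := by
      intro v t
      refine partA_mem_arcIdeal (hγ v) ?_
      have h4 : (W v).adjugate.mulVec ((W v).mulVec fun t => aeval (γ v) (h t)) =
          (W v).det • fun t => aeval (γ v) (h t) := by
        rw [Matrix.mulVec_mulVec, Matrix.adjugate_mul, Matrix.smul_mulVec, Matrix.one_mulVec]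
      have h5 : (W v).det * aeval (γ v) (h t) =
          ∑ s, (W v).adjugate t s * ∑ t', aeval (γ v) (h t') * W v s t' := by
        have h6 := congrFun h4 t
        rw [Pi.smul_apply, smul_eq_mul] at h6
        rw [← h6]
        simp only [Matrix.mulVec, dotProduct]
        refine Finset.sum_congr rfl fun s _ => ?_
        congr 1
        exact Finset.sum_congr rfl fun t' _ => mul_comm _ _
      have hadj : ∀ i j, 0 ≤ ((W v).adjugate i j).orderTop := by
        intro i j
        rw [Matrix.adjugate_apply]
        refine (partA_det _ fun a b => ?_).1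
        rw [Matrix.updateRow_apply]
        by_cases haj : a = j
        · rw [if_pos haj]
          by_cases hib : b = i
          · subst hib
            simp
          · rw [Pi.single_eq_of_ne hib]
            simp
        · rw [if_neg haj]
          exact hWint v a b
      have h7 : 1 ≤ ((W v).det * aeval (γ v) (h t)).orderTop := by
        rw [h5]
        exact partA_sum_ge _ _ 1 fun s _ => partA_mul_left (hadj t s) (h1 v s)
      rwa [HahnSeries.orderTop_mul, hWdet, zero_add] at h7
    funext t
    exact Ideal.Quotient.eq_zero_iff_mem.2 (by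
      rw [Submodule.mem_iInf]
      exact fun v => h3 v t)
  · -- range
    rintro _ ⟨h, rfl⟩
    choose ww θ hθK hθ using fun j => hspan (∑ t, C (w j t) * h t) j
    refine ⟨fun i => ∑ j, ww j i, ?_⟩
    funext v s
    refine (Submodule.Quotient.eq _).2 ?_
    rw [partA_mem_N]
    have h1 : ∀ j, 1 ≤ (∑ i, Q v s i * ((if i = j then
        aeval (γ v) (∑ t, C (w j t) * h t) else 0) - algebraMap F (HS K) (ww j i) -
        ∑ l, algebraMap F (HS K) (A i l) * θ j v l)).orderTop := fun j =>
      partA_sum_ge _ _ 1 fun i _ => partA_mul_left (hQint v s i) (hθ j v i)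
    have h2 : ∀ j, 1 ≤ (∑ i, Q v s i * ∑ l, algebraMap F (HS K) (A i l) * θ j v l).orderTop :=
      fun j => hQK v _ (hθK j v) s
    have h3 := partA_sum_ge Finset.univ _ 1 fun j _ => partA_neg_ge (partA_add_ge (h1 j) (h2 j))
    refine le_of_le_of_eq h3 (congrArg _ ?_)
    have h4 : ∀ j, -((∑ i, Q v s i * ((if i = j then
        aeval (γ v) (∑ t, C (w j t) * h t) else 0) - algebraMap F (HS K) (ww j i) -
        ∑ l, algebraMap F (HS K) (A i l) * θ j v l)) +
        ∑ i, Q v s i * ∑ l, algebraMap F (HS K) (A i l) * θ j v l) =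
        ∑ i, Q v s i * algebraMap F (HS K) (ww j i) -
          Q v s j * aeval (γ v) (∑ t, C (w j t) * h t) := by
      intro j
      simp_rw [mul_sub, Finset.sum_sub_distrib]
      have h5 : ∑ i, Q v s i * (if i = j then aeval (γ v) (∑ t, C (w j t) * h t) else 0) =
          Q v s j * aeval (γ v) (∑ t, C (w j t) * h t) := by
        simp
      rw [h5]
      ring
    simp_rw [h4]
    rw [Finset.sum_sub_distrib]
    congr 1
    · rw [Finset.sum_comm]
      refine Finset.sum_congr rfl fun i _ => ?_
      rw [map_sum, Finset.mul_sum]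
    · simp only [W, Matrix.of_apply, map_sum, map_mul, aeval_C, Finset.mul_sum]
      rw [Finset.sum_comm]
      exact Finset.sum_congr rfl fun t _ => Finset.sum_congr rfl fun j _ => by ring
  · -- the vector p
    funext v s
    refine (Submodule.Quotient.mk_eq_zero _).2 ?_
    rw [partA_mem_N]
    have h1 := hQK v _ (hself v) s
    have h2 : 1 ≤ (∑ j, Q v s j * aeval (γ v) (lin A j - C (p j))).orderTop :=
      partA_sum_ge _ _ 1 fun j _ => partA_mul_left (hQint v s j)
        (hG v _ (Ideal.mem_sup_right (Ideal.subset_span ⟨j, rfl⟩)))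
    have h3 := partA_sub_ge h1 h2
    refine le_of_le_of_eq h3 (congrArg _ ?_)
    rw [← Finset.sum_sub_distrib]
    refine Finset.sum_congr rfl fun j _ => ?_
    rw [← mul_sub]
    congr 1
    simp only [lin, map_sub, map_sum, map_mul, aeval_C, aeval_X]
    ring

end FibReg
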