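import Pool.Agent.FibReg.Defs

/-!
# The Puiseux field inside the Hahn series field is algebraically closed
-/

namespace FibReg

universe u

section Hensel

open Polynomial

variable {K : Type u} [Field K]

/-- Solving `g₀ v + h₀ u = c` with degree bounds. -/
theorem puiseux_step (g₀ h₀ : K[X]) (hg : g₀.Monic) (hh : h₀.Monic)
    (hcop : IsCoprime g₀ h₀) (c : K[X]) (hc : c.degree < ((g₀.natDegree + h₀.natDegree : ℕ) : WithBot ℕ)) :
    ∃ p : K[X] × K[X], p.1.degree < (g₀.natDegree : WithBot ℕ) ∧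
      p.2.degree < (h₀.natDegree : WithBot ℕ) ∧ g₀ * p.2 + h₀ * p.1 = c := by
  obtain ⟨a, b, hab⟩ := hcop
  set v := (c * a) %ₘ h₀ with hv
  set q := (c * a) /ₘ h₀ with hq
  have h1 : v + h₀ * q = c * a := modByMonic_add_div _ h₀
  have hvdeg : v.degree < h₀.degree := degree_modByMonic_lt _ hh
  have hh' : h₀.degree = (h₀.natDegree : WithBot ℕ) := degree_eq_natDegree hh.ne_zero
  have hg' : g₀.degree = (g₀.natDegree : WithBot ℕ) := degree_eq_natDegree hg.ne_zero
  refine ⟨(g₀ * q + c * b, v), ?_, by rw [← hh']; exact hvdeg, ?_⟩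
  · have h2 : h₀ * (g₀ * q + c * b) = c - g₀ * v := by
      have h3 : c = c * (a * g₀ + b * h₀) := by rw [hab, mul_one]
      linear_combination g₀ * h1 - h3
    have h4 : (h₀ * (g₀ * q + c * b)).degree < ((g₀.natDegree + h₀.natDegree : ℕ) : WithBot ℕ) := by
      rw [h2]
      refine lt_of_le_of_lt (degree_sub_le _ _) (max_lt hc ?_)
      by_cases hv0 : v = 0
      · rw [hv0, mul_zero, degree_zero]
        exact WithBot.bot_lt_coe _
      · rw [degree_mul, hg', degree_eq_natDegree hv0]
        rw [degree_eq_natDegree hv0, hh'] at hvdeg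
        have : v.natDegree < h₀.natDegree := by exact_mod_cast hvdeg
        exact_mod_cast (by omega : g₀.natDegree + v.natDegree < g₀.natDegree + h₀.natDegree)
    by_cases hu0 : g₀ * q + c * b = 0
    · simp only [hu0, degree_zero]
      exact WithBot.bot_lt_coe _
    · rw [degree_mul, hh', degree_eq_natDegree hu0] at h4
      have h5 : h₀.natDegree + (g₀ * q + c * b).natDegree < g₀.natDegree + h₀.natDegree := by
        exact_mod_cast h4
      simp only [degree_eq_natDegree hu0]
      exact_mod_cast (by omega : (g₀ * q + c * b).natDegree < g₀.natDegree)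
  · have h3 : c = c * (a * g₀ + b * h₀) := by rw [hab, mul_one]
    simp only
    linear_combination g₀ * h1 - h3

open Classical in
/-- the chosen solution -/
noncomputable def puiseuxStep (g₀ h₀ c : K[X]) : K[X] × K[X] :=
  if h : ∃ p : K[X] × K[X], p.1.degree < (g₀.natDegree : WithBot ℕ) ∧
      p.2.degree < (h₀.natDegree : WithBot ℕ) ∧ g₀ * p.2 + h₀ * p.1 = c then h.choose else (0, 0)

/-- the recursive construction of the factors -/
noncomputable def puiseuxSeq (F : ℕ → K[X]) (g₀ h₀ : K[X]) : ℕ → K[X] × K[X]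
  | 0 => (g₀, h₀)
  | n + 1 => puiseuxStep g₀ h₀ (F (n + 1) - ∑ i : Fin n,
      (puiseuxSeq F g₀ h₀ (i.1 + 1)).1 * (puiseuxSeq F g₀ h₀ (n - i.1)).2)
  decreasing_by
    all_goals omega

theorem puiseuxSeq_spec (F : ℕ → K[X]) (g₀ h₀ : K[X]) (hg : g₀.Monic) (hh : h₀.Monic)
    (hcop : IsCoprime g₀ h₀)
    (hF : ∀ n, (F (n + 1)).degree < ((g₀.natDegree + h₀.natDegree : ℕ) : WithBot ℕ)) (n : ℕ) :
    (puiseuxSeq F g₀ h₀ (n + 1)).1.degree < (g₀.natDegree : WithBot ℕ) ∧
      (puiseuxSeq F g₀ h₀ (n + 1)).2.degree < (h₀.natDegree : WithBot ℕ) ∧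
      g₀ * (puiseuxSeq F g₀ h₀ (n + 1)).2 + h₀ * (puiseuxSeq F g₀ h₀ (n + 1)).1 =
        F (n + 1) - ∑ i : Fin n,
      (puiseuxSeq F g₀ h₀ (i.1 + 1)).1 * (puiseuxSeq F g₀ h₀ (n - i.1)).2 := by
  induction n using Nat.strong_induction_on with
  | _ n ih =>
    have key : ∃ p : K[X] × K[X], p.1.degree < (g₀.natDegree : WithBot ℕ) ∧
      p.2.degree < (h₀.natDegree : WithBot ℕ) ∧ g₀ * p.2 + h₀ * p.1 = F (n + 1) - ∑ i : Fin n,
      (puiseuxSeq F g₀ h₀ (i.1 + 1)).1 * (puiseuxSeq F g₀ h₀ (n - i.1)).2 := by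
      apply puiseux_step g₀ h₀ hg hh hcop
      refine lt_of_le_of_lt (degree_sub_le _ _) (max_lt (hF n) ?_)
      refine lt_of_le_of_lt (degree_sum_le _ _) ?_
      rw [Finset.sup_lt_iff (WithBot.bot_lt_coe _)]
      intro i _
      have h1 := (ih i.1 i.2).1
      have h2 := (ih (n - i.1 - 1) (by omega)).2.1
      have hi : n - i.1 - 1 + 1 = n - i.1 := by have := i.2; omega
      rw [hi] at h2
      by_cases hz1 : (puiseuxSeq F g₀ h₀ (i.1 + 1)).1 = 0
      · rw [hz1, zero_mul, degree_zero]; exact WithBot.bot_lt_coe _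
      by_cases hz2 : (puiseuxSeq F g₀ h₀ (n - i.1)).2 = 0
      · rw [hz2, mul_zero, degree_zero]; exact WithBot.bot_lt_coe _
      rw [degree_mul, degree_eq_natDegree hz1, degree_eq_natDegree hz2]
      rw [degree_eq_natDegree hz1] at h1
      rw [degree_eq_natDegree hz2] at h2
      have h1' : (puiseuxSeq F g₀ h₀ (i.1 + 1)).1.natDegree < g₀.natDegree := by exact_mod_cast h1
      have h2' : (puiseuxSeq F g₀ h₀ (n - i.1)).2.natDegree < h₀.natDegree := by exact_mod_cast h2
      exact_mod_cast add_lt_add h1' h2'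
    have hdef : puiseuxSeq F g₀ h₀ (n + 1) = key.choose := by
      rw [puiseuxSeq, puiseuxStep, dif_pos key]
    rw [hdef]
    exact key.choose_spec

/-- Hensel factorisation over `K⟦t⟧`. -/
theorem puiseux_hensel (f : Polynomial (PowerSeries K)) (hf : f.Monic) (g₀ h₀ : K[X])
    (hg : g₀.Monic) (hh : h₀.Monic) (hcop : IsCoprime g₀ h₀)
    (hfac : f.map PowerSeries.constantCoeff = g₀ * h₀) :
    ∃ g h : Polynomial (PowerSeries K), g.Monic ∧ h.Monic ∧ g.natDegree = g₀.natDegree ∧
      h.natDegree = h₀.natDegree ∧ f = g * h := by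
  classical
  have hfd : f.natDegree = g₀.natDegree + h₀.natDegree := by
    rw [← hg.natDegree_mul hh, ← hfac, hf.natDegree_map]
  set F : ℕ → K[X] := fun n => ∑ k ∈ Finset.range (f.natDegree + 1),
    monomial k (PowerSeries.coeff n (f.coeff k)) with hFdef
  have hFc : ∀ n k, (F n).coeff k = PowerSeries.coeff n (f.coeff k) := by
    intro n k
    rw [hFdef]
    simp only [finsetSum_coeff, coeff_monomial]
    rw [Finset.sum_ite_eq' (Finset.range (f.natDegree + 1)) k]
    split_ifs with h
    · rfl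
    · rw [coeff_eq_zero_of_natDegree_lt (by rw [Finset.mem_range] at h; omega), map_zero]
  have hF0 : F 0 = g₀ * h₀ := by
    rw [← hfac]
    ext k
    rw [hFc, coeff_map, PowerSeries.coeff_zero_eq_constantCoeff_apply]
  have hFd : ∀ n, (F (n + 1)).degree < ((g₀.natDegree + h₀.natDegree : ℕ) : WithBot ℕ) := by
    intro n
    rw [degree_lt_iff_coeff_zero]
    intro m hm
    rw [hFc]
    rcases eq_or_lt_of_le hm with hm | hm
    · rw [← hm, ← hfd, hf.coeff_natDegree]
      simp [PowerSeries.coeff_one]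
    · rw [coeff_eq_zero_of_natDegree_lt (by omega), map_zero]
  set P := puiseuxSeq F g₀ h₀ with hP
  have hP0 : P 0 = (g₀, h₀) := by rw [hP, puiseuxSeq]
  have hspec := puiseuxSeq_spec F g₀ h₀ hg hh hcop hFd
  have hconv : ∀ n, ∑ ij ∈ Finset.HasAntidiagonal.antidiagonal n, (P ij.1).1 * (P ij.2).2 = F n := by
    intro n
    rw [Finset.Nat.sum_antidiagonal_eq_sum_range_succ (fun i j => (P i).1 * (P j).2) n]
    rcases n with _ | n
    · simp [hP0, hF0]
    · rw [Nat.succ_eq_add_one, Finset.sum_range_succ, Finset.sum_range_succ']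
      have h1 := (hspec n).2.2
      rw [← hP] at h1
      rw [Finset.sum_fin_eq_sum_range] at h1
      have h2 : ∑ k ∈ Finset.range n, (P (k + 1)).1 * (P (n + 1 - (k + 1))).2 =
        ∑ i ∈ Finset.range n, (if h : i < n then (P (i + 1)).1 * (P (n - i)).2 else 0) := by
        refine Finset.sum_congr rfl fun k hk => ?_
        rw [Finset.mem_range] at hk
        rw [dif_pos hk]
        congr 3
        omega
      rw [h2]
      simp only [hP0, Nat.sub_zero, Nat.sub_self]
      linear_combination h1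
  have hgc : ∀ n, ∀ k, g₀.natDegree ≤ k → (P n).1.coeff k = if n = 0 ∧ k = g₀.natDegree then 1 else 0 := by
    intro n k hk
    rcases n with _ | n
    · simp only [hP0, true_and]
      rcases eq_or_lt_of_le hk with hk | hk
      · rw [if_pos hk.symm, ← hk]; exact hg.coeff_natDegree
      · rw [if_neg (by omega), coeff_eq_zero_of_natDegree_lt hk]
    · rw [if_neg (by omega)]
      exact (degree_lt_iff_coeff_zero _ _).1 (hspec n).1 k hk
  have hhc : ∀ n, ∀ k, h₀.natDegree ≤ k → (P n).2.coeff k = if n = 0 ∧ k = h₀.natDegree then 1 else 0 := by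
    intro n k hk
    rcases n with _ | n
    · simp only [hP0, true_and]
      rcases eq_or_lt_of_le hk with hk | hk
      · rw [if_pos hk.symm, ← hk]; exact hh.coeff_natDegree
      · rw [if_neg (by omega), coeff_eq_zero_of_natDegree_lt hk]
    · rw [if_neg (by omega)]
      exact (degree_lt_iff_coeff_zero _ _).1 (hspec n).2.1 k hk
  set g : Polynomial (PowerSeries K) := ∑ k ∈ Finset.range (g₀.natDegree + 1),
    monomial k (PowerSeries.mk fun n => (P n).1.coeff k) with hgdef
  set h : Polynomial (PowerSeries K) := ∑ k ∈ Finset.range (h₀.natDegree + 1),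
    monomial k (PowerSeries.mk fun n => (P n).2.coeff k) with hhdef
  have hgcoeff : ∀ k, g.coeff k = PowerSeries.mk fun n => (P n).1.coeff k := by
    intro k
    rw [hgdef]
    simp only [finsetSum_coeff, coeff_monomial]
    rw [Finset.sum_ite_eq' (Finset.range (g₀.natDegree + 1)) k]
    split_ifs with h
    · rfl
    · ext n
      rw [PowerSeries.coeff_mk, hgc n k (by rw [Finset.mem_range] at h; omega), if_neg, map_zero]
      rw [Finset.mem_range] at h; omega
  have hhcoeff : ∀ k, h.coeff k = PowerSeries.mk fun n => (P n).2.coeff k := by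
    intro k
    rw [hhdef]
    simp only [finsetSum_coeff, coeff_monomial]
    rw [Finset.sum_ite_eq' (Finset.range (h₀.natDegree + 1)) k]
    split_ifs with h
    · rfl
    · ext n
      rw [PowerSeries.coeff_mk, hhc n k (by rw [Finset.mem_range] at h; omega), if_neg, map_zero]
      rw [Finset.mem_range] at h; omega
  have hgm : g.coeff g₀.natDegree = 1 := by
    rw [hgcoeff]
    ext n
    rw [PowerSeries.coeff_mk, hgc n _ le_rfl, PowerSeries.coeff_one]
    simp
  have hhm : h.coeff h₀.natDegree = 1 := by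
    rw [hhcoeff]
    ext n
    rw [PowerSeries.coeff_mk, hhc n _ le_rfl, PowerSeries.coeff_one]
    simp
  have hgn : g.natDegree ≤ g₀.natDegree := by
    rw [natDegree_le_iff_coeff_eq_zero]
    intro k hk
    rw [hgcoeff]
    ext n
    rw [PowerSeries.coeff_mk, hgc n k hk.le, if_neg (by omega), map_zero]
  have hhn : h.natDegree ≤ h₀.natDegree := by
    rw [natDegree_le_iff_coeff_eq_zero]
    intro k hk
    rw [hhcoeff]
    ext n
    rw [PowerSeries.coeff_mk, hhc n k hk.le, if_neg (by omega), map_zero]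
  have hgn' : g.natDegree = g₀.natDegree :=
    le_antisymm hgn (le_natDegree_of_ne_zero (by rw [hgm]; exact one_ne_zero))
  have hhn' : h.natDegree = h₀.natDegree :=
    le_antisymm hhn (le_natDegree_of_ne_zero (by rw [hhm]; exact one_ne_zero))
  refine ⟨g, h, ?_, ?_, hgn', hhn', ?_⟩
  · rw [Monic, leadingCoeff, hgn', hgm]
  · rw [Monic, leadingCoeff, hhn', hhm]
  · ext k n
    rw [← hFc, ← hconv n, coeff_mul, finsetSum_coeff]
    simp only [coeff_mul, map_sum, hgcoeff, hhcoeff, PowerSeries.coeff_mul, PowerSeries.coeff_mk]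
    rw [Finset.sum_comm]

end Hensel

section Field

variable (K : Type u) [Field K]

/-- the additive map `n ↦ n / N` -/
noncomputable def puiseuxAdd (N : ℕ+) : ℤ →+ ℚ :=
  (AddMonoidHom.mulRight ((N : ℚ)⁻¹)).comp (Int.castAddHom ℚ)

theorem puiseuxAdd_apply (N : ℕ+) (n : ℤ) : puiseuxAdd N n = (n : ℚ) * (N : ℚ)⁻¹ := rfl

theorem puiseux_inv_pos (N : ℕ+) : (0 : ℚ) < ((N : ℕ) : ℚ)⁻¹ :=
  inv_pos.2 (by exact_mod_cast N.pos)

theorem puiseuxAdd_le (N : ℕ+) (g g' : ℤ) : puiseuxAdd N g ≤ puiseuxAdd N g' ↔ g ≤ g' := by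
  rw [puiseuxAdd_apply, puiseuxAdd_apply, mul_le_mul_iff_left₀ (puiseux_inv_pos N)]
  exact Int.cast_le

theorem puiseuxAdd_injective (N : ℕ+) : Function.Injective (puiseuxAdd N) := by
  intro a b h
  exact le_antisymm ((puiseuxAdd_le N a b).1 h.le) ((puiseuxAdd_le N b a).1 h.ge)

/-- `K((λ^(1/N))) → HS K` -/
noncomputable def puiseuxHom (N : ℕ+) : HahnSeries ℤ K →+* HS K :=
  HahnSeries.embDomainRingHom (puiseuxAdd N) (puiseuxAdd_injective N) (puiseuxAdd_le N)

theorem puiseuxHom_coeff (N : ℕ+) (y : HahnSeries ℤ K) (n : ℤ) :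
    (puiseuxHom K N y).coeff (puiseuxAdd N n) = y.coeff n :=
  HahnSeries.embDomain_mk_coeff (puiseuxAdd_injective N) (puiseuxAdd_le N)

theorem puiseuxHom_coeff_of_notMem (N : ℕ+) (y : HahnSeries ℤ K) (q : ℚ)
    (h : ∀ n, puiseuxAdd N n ≠ q) : (puiseuxHom K N y).coeff q = 0 := by
  refine HahnSeries.embDomain_of_notMem_range ?_
  rintro ⟨n, hn⟩
  exact h n hn

theorem puiseuxHom_range_le (N M : ℕ+) : (puiseuxHom K N).fieldRange ≤ (puiseuxHom K (N * M)).fieldRange := by
  rintro x ⟨y, rfl⟩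
  have hM : ∀ n : ℤ, puiseuxAdd (N * M) (M * n) = puiseuxAdd N n := by
    intro n
    rw [puiseuxAdd_apply, puiseuxAdd_apply]
    push_cast
    have hN : ((N : ℕ) : ℚ) ≠ 0 := by exact_mod_cast N.ne_zero
    have hM : ((M : ℕ) : ℚ) ≠ 0 := by exact_mod_cast M.ne_zero
    field_simp
  have hMpos : (0 : ℤ) < ((M : ℕ) : ℤ) := by exact_mod_cast M.pos
  let e : ℤ ↪o ℤ := ⟨⟨fun n => ((M : ℕ) : ℤ) * n, fun a b h => mul_left_cancel₀ hMpos.ne' h⟩, by
    intro a b
    exact mul_le_mul_iff_right₀ hMpos⟩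
  refine ⟨HahnSeries.embDomain e y, ?_⟩
  ext q
  by_cases hq : ∃ n, puiseuxAdd (N * M) n = q
  · obtain ⟨n, rfl⟩ := hq
    rw [puiseuxHom_coeff]
    by_cases hn : ∃ m, e m = n
    · obtain ⟨m, rfl⟩ := hn
      rw [HahnSeries.embDomain_coeff]
      have : puiseuxAdd (N * M) (e m) = puiseuxAdd N m := hM m
      rw [this, puiseuxHom_coeff]
    · rw [HahnSeries.embDomain_of_notMem_range (by rintro ⟨m, hm⟩; exact hn ⟨m, hm⟩)]
      rw [puiseuxHom_coeff_of_notMem]
      intro m hm
      rw [← hM m] at hm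
      exact hn ⟨m, puiseuxAdd_injective _ hm⟩
  · rw [puiseuxHom_coeff_of_notMem, puiseuxHom_coeff_of_notMem]
    · intro n hn
      exact hq ⟨_, (hM n).trans hn⟩
    · intro n hn
      exact hq ⟨n, hn⟩

/-- the Puiseux field -/
noncomputable def puiseuxField : Subfield (HS K) := ⨆ N : ℕ+, (puiseuxHom K N).fieldRange

theorem mem_puiseuxField (x : HS K) :
    x ∈ puiseuxField K ↔ ∃ N : ℕ+, x ∈ (puiseuxHom K N).fieldRange := by
  rw [puiseuxField, Subfield.mem_iSup_of_directed]
  intro N M
  refine ⟨N * M, puiseuxHom_range_le K N M, ?_⟩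
  rw [mul_comm]
  exact puiseuxHom_range_le K M N

theorem puiseux_C_mem (a : K) : HahnSeries.C a ∈ puiseuxField K := by
  rw [mem_puiseuxField]
  exact ⟨1, HahnSeries.C a, HahnSeries.embDomainRingHom_C⟩

theorem puiseux_single_mem (q : ℚ) : HahnSeries.single q (1 : K) ∈ puiseuxField K := by
  rw [mem_puiseuxField]
  refine ⟨⟨q.den, q.den_pos⟩, HahnSeries.single q.num 1, ?_⟩
  refine HahnSeries.embDomain_single.trans ?_
  have hq : puiseuxAdd (⟨q.den, q.den_pos⟩ : ℕ+) q.num = q := by
    refine (puiseuxAdd_apply _ _).trans ?_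
    rw [PNat.mk_coe, ← div_eq_mul_inv, Rat.num_div_den]
  exact congrArg (fun t => HahnSeries.single t (1 : K)) hq

/-- `K⟦λ^(1/N)⟧ → Ω` -/
noncomputable def puiseuxRho (N : ℕ+) : PowerSeries K →+* puiseuxField K :=
  ((puiseuxHom K N).comp (HahnSeries.ofPowerSeries ℤ K)).codRestrict (puiseuxField K) (by
    intro x
    rw [mem_puiseuxField]
    exact ⟨N, _, rfl⟩)

theorem puiseuxRho_coeff_zero (N : ℕ+) (x : PowerSeries K) :
    ((puiseuxRho K N x : puiseuxField K) : HS K).coeff 0 = PowerSeries.constantCoeff x := by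
  have h := puiseuxHom_coeff K N (HahnSeries.ofPowerSeries ℤ K x) 0
  rw [map_zero] at h
  refine h.trans ?_
  have h2 := HahnSeries.ofPowerSeries_apply_coeff (Γ := ℤ) x 0
  rw [Nat.cast_zero] at h2
  rw [h2, PowerSeries.coeff_zero_eq_constantCoeff_apply]

theorem puiseux_integral (N : ℕ+) (b : puiseuxField K) (hb : (b : HS K) ∈ (puiseuxHom K N).fieldRange)
    (hv : 0 ≤ (b : HS K).orderTop) : ∃ P : PowerSeries K, puiseuxRho K N P = b := by
  obtain ⟨y, hy⟩ := hb
  have hneg : ∀ n : ℤ, n < 0 → y.coeff n = 0 := by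
    intro n hn
    rw [← puiseuxHom_coeff K N y n, hy]
    refine HahnSeries.coeff_eq_zero_of_lt_orderTop (lt_of_lt_of_le ?_ hv)
    have : puiseuxAdd N n < 0 := by
      rw [puiseuxAdd_apply]
      exact mul_neg_of_neg_of_pos (by exact_mod_cast hn) (puiseux_inv_pos N)
    exact_mod_cast this
  refine ⟨PowerSeries.mk fun n => y.coeff n, ?_⟩
  apply Subtype.ext
  rw [← hy]
  change puiseuxHom K N (HahnSeries.ofPowerSeries ℤ K _) = puiseuxHom K N y
  congr 1
  ext n
  rcases lt_or_ge n 0 with hn | hn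
  · rw [hneg n hn, HahnSeries.ofPowerSeries_apply]
    refine HahnSeries.embDomain_of_notMem_range ?_
    rintro ⟨m, hm⟩
    have : (m : ℤ) = n := hm
    omega
  · obtain ⟨m, rfl⟩ := Int.eq_ofNat_of_zero_le hn
    rw [HahnSeries.ofPowerSeries_apply_coeff, PowerSeries.coeff_mk]

end Field

section Main

open Polynomial

variable {K : Type u} [Field K] [IsAlgClosed K] [CharZero K]

omit [IsAlgClosed K] [CharZero K] in
/-- common denominators -/
theorem puiseux_common (s : Finset (puiseuxField K)) :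
    ∃ N : ℕ+, ∀ b ∈ s, (b : HS K) ∈ (puiseuxHom K N).fieldRange := by
  classical
  induction s using Finset.induction_on with
  | empty => exact ⟨1, by simp⟩
  | insert a s ha ih =>
    obtain ⟨N, hN⟩ := ih
    obtain ⟨M, hM⟩ := (mem_puiseuxField K _).1 a.2
    refine ⟨N * M, ?_⟩
    intro b hb
    rw [Finset.mem_insert] at hb
    rcases hb with rfl | hb
    · rw [mul_comm]
      exact puiseuxHom_range_le K M N hM
    · exact puiseuxHom_range_le K N M (hN b hb)

/-- factorisation step -/
theorem puiseux_factor (q : (puiseuxField K)[X]) (hq : q.Monic) (d : ℕ) (hd : q.natDegree = d)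
    (hint : ∀ i, 0 ≤ ((q.coeff i : puiseuxField K) : HS K).orderTop)
    (hd1 : q.coeff (d - 1) = 0) (i₀ : ℕ) (hi₀ : i₀ + 1 < d)
    (hne : ((q.coeff i₀ : puiseuxField K) : HS K).coeff 0 ≠ 0) :
    ∃ g h : (puiseuxField K)[X], g.Monic ∧ 0 < g.natDegree ∧ g.natDegree < d ∧ q = g * h := by
  classical
  obtain ⟨N, hN⟩ := puiseux_common (K := K) ((Finset.range (d + 1)).image q.coeff)
  have hex : ∀ i, ∃ P : PowerSeries K, puiseuxRho K N P = q.coeff i := by
    intro i
    apply puiseux_integral K N _ _ (hint i)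
    by_cases hi : i < d + 1
    · exact hN _ (Finset.mem_image_of_mem _ (Finset.mem_range.2 hi))
    · rw [coeff_eq_zero_of_natDegree_lt (by omega)]
      exact (puiseuxHom K N).fieldRange.zero_mem
  choose P hP using hex
  set f : Polynomial (PowerSeries K) := X ^ d + ∑ k ∈ Finset.range d, monomial k (P k) with hf
  have hlt : (∑ k ∈ Finset.range d, monomial k (P k)).degree < (d : WithBot ℕ) := by
    rw [degree_lt_iff_coeff_zero]
    intro m hm
    simp only [finsetSum_coeff, coeff_monomial]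
    rw [Finset.sum_ite_eq' (Finset.range d) m, if_neg (by rw [Finset.mem_range]; omega)]
  have hfm : f.Monic := monic_X_pow_add hlt
  have hfd : f.natDegree = d := by
    rw [hf, natDegree_add_eq_left_of_degree_lt, natDegree_X_pow]
    rw [degree_X_pow]
    exact hlt
  have hfc : ∀ k, k < d → f.coeff k = P k := by
    intro k hk
    rw [hf, coeff_add, coeff_X_pow, if_neg (by omega), zero_add]
    simp only [finsetSum_coeff, coeff_monomial]
    rw [Finset.sum_ite_eq' (Finset.range d) k, if_pos (Finset.mem_range.2 hk)]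
  have hmap : f.map (puiseuxRho K N) = q := by
    ext1 k
    rw [coeff_map]
    rcases lt_trichotomy k d with hk | hk | hk
    · rw [hfc k hk, hP]
    · subst hk
      have h1 : f.coeff k = 1 := by
        have := hfm.coeff_natDegree
        rwa [hfd] at this
      have h2 : q.coeff k = 1 := by
        have := hq.coeff_natDegree
        rwa [hd] at this
      rw [h1, h2, map_one]
    · rw [coeff_eq_zero_of_natDegree_lt (by omega), coeff_eq_zero_of_natDegree_lt (by omega),
        map_zero]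
  set fb : K[X] := f.map PowerSeries.constantCoeff with hfb
  have hfbm : fb.Monic := hfm.map _
  have hfbd : fb.natDegree = d := by rw [hfb, hfm.natDegree_map, hfd]
  have hfbc : ∀ k, k < d → fb.coeff k = ((q.coeff k : puiseuxField K) : HS K).coeff 0 := by
    intro k hk
    rw [hfb, coeff_map, hfc k hk, ← hP k, puiseuxRho_coeff_zero]
  have hdeg : fb.degree ≠ 0 := by
    rw [degree_eq_natDegree hfbm.ne_zero, hfbd]
    exact_mod_cast (by omega : d ≠ 0)
  obtain ⟨a, ha⟩ := IsAlgClosed.exists_root fb hdeg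
  obtain ⟨h₀, hh₀, hndvd⟩ := exists_eq_pow_rootMultiplicity_mul_and_not_dvd fb hfbm.ne_zero a
  set m := fb.rootMultiplicity a with hm
  have hmpos : 0 < m := (rootMultiplicity_pos hfbm.ne_zero).2 ha
  have hg₀ : ((X - C a) ^ m : K[X]).Monic := (monic_X_sub_C a).pow m
  have hh₀m : h₀.Monic := by
    have := hfbm
    rw [hh₀] at this
    exact hg₀.of_mul_monic_left this
  have hcop : IsCoprime ((X - C a) ^ m : K[X]) h₀ := by
    apply IsCoprime.pow_left
    exact ((irreducible_X_sub_C a).coprime_iff_not_dvd).2 hndvd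
  have hgd : ((X - C a) ^ m : K[X]).natDegree = m := by
    rw [(monic_X_sub_C a).natDegree_pow, natDegree_X_sub_C, mul_one]
  have hsum : m + h₀.natDegree = d := by
    rw [← hfbd, hh₀, hg₀.natDegree_mul hh₀m, hgd]
  have hmd : m < d := by
    rcases Nat.lt_or_ge m d with h | h
    · exact h
    exfalso
    have hh0 : h₀.natDegree = 0 := by omega
    have hh1 : h₀ = 1 := hh₀m.natDegree_eq_zero.1 hh0
    have hmd' : m = d := by omega
    rw [hh1, mul_one, hmd'] at hh₀
    have hc1 : fb.coeff (d - 1) = 0 := by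
      rw [hfbc (d - 1) (by omega), hd1]
      rfl
    have hXa : (X - C a : K[X]) = X + C (-a) := by rw [C_neg, sub_eq_add_neg]
    rw [hh₀, hXa, coeff_X_add_C_pow] at hc1
    have hdd : d - (d - 1) = 1 := by omega
    have hch : d.choose (d - 1) = d := by
      have := Nat.choose_symm (n := d) (k := 1) (by omega)
      rw [this, Nat.choose_one_right]
    rw [hdd, hch, pow_one] at hc1
    have hd0 : (d : K) ≠ 0 := by exact_mod_cast (by omega : d ≠ 0)
    have ha0 : a = 0 := by
      rcases mul_eq_zero.1 hc1 with h | h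
      · simpa using h
      · exact absurd h hd0
    apply hne
    rw [← hfbc i₀ (by omega), hh₀, ha0, C_0, sub_zero, coeff_X_pow, if_neg (by omega)]
  obtain ⟨g, h, hgm, hhm, hgn, hhn, hfgh⟩ := puiseux_hensel f hfm _ h₀ hg₀ hh₀m hcop hh₀
  refine ⟨g.map (puiseuxRho K N), h.map (puiseuxRho K N), hgm.map _, ?_, ?_, ?_⟩
  · rw [hgm.natDegree_map, hgn, hgd]; exact hmpos
  · rw [hgm.natDegree_map, hgn, hgd]; exact hmd
  · rw [← Polynomial.map_mul, ← hfgh, hmap]

/-- Tschirnhaus -/
theorem puiseux_taylor {F : Type*} [Field F] [CharZero F] (p : F[X]) (hp : p.Monic) (d : ℕ)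
    (hd : p.natDegree = d) (hd2 : 2 ≤ d) :
    (taylor (-(p.coeff (d - 1)) / d) p).coeff (d - 1) = 0 := by
  rw [taylor_coeff]
  have h1 : (hasseDeriv (d - 1) p).natDegree < 2 := by
    have := natDegree_hasseDeriv_le p (d - 1)
    omega
  rw [eval_eq_sum_range' h1]
  simp only [Finset.sum_range_succ, Finset.sum_range_zero, hasseDeriv_coeff]
  have h2 : 1 + (d - 1) = d := by omega
  have h3 : p.coeff d = 1 := by
    have := hp.coeff_natDegree
    rwa [hd] at this
  have hch : d.choose (d - 1) = d := by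
    have := Nat.choose_symm (n := d) (k := 1) (by omega)
    rw [this, Nat.choose_one_right]
  rw [h2, h3, hch]
  simp only [zero_add, Nat.choose_self]
  have hd0 : (d : F) ≠ 0 := by exact_mod_cast (by omega : d ≠ 0)
  field_simp
  ring

theorem puiseux_root (d : ℕ) : ∀ p : (puiseuxField K)[X], p.Monic → p.natDegree = d → d ≠ 0 →
    ∃ x, p.eval x = 0 := by
  classical
  induction d using Nat.strong_induction_on with
  | _ d ih =>
  intro p hp hd hd0
  rcases Nat.lt_or_ge d 2 with hd2 | hd2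
  · have hd1 : d = 1 := by omega
    have hdeg : p.degree = 1 := by
      rw [degree_eq_natDegree hp.ne_zero, hd, hd1]; rfl
    obtain ⟨x, hx⟩ := exists_root_of_degree_eq_one hdeg
    exact ⟨x, hx⟩
  have : CharZero (puiseuxField K) := by
    refine ⟨fun a b hab => ?_⟩
    have h1 := congrArg (fun x : puiseuxField K => ((x : HS K)).coeff 0) hab
    have h2 : ∀ n : ℕ, (((n : puiseuxField K)) : HS K).coeff 0 = (n : K) := by
      intro n
      have : (((n : puiseuxField K)) : HS K) = HahnSeries.C (n : K) := by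
        rw [map_natCast]; rfl
      rw [this, HahnSeries.C_apply, HahnSeries.coeff_single_same]
    simp only [h2] at h1
    exact_mod_cast h1
  set r : puiseuxField K := -(p.coeff (d - 1)) / d with hr
  set q := taylor r p with hq
  have hqm : q.Monic := by
    rw [hq, taylor_apply]
    exact hp.comp_X_add_C r
  have hqd : q.natDegree = d := by rw [hq, natDegree_taylor, hd]
  have hqc : q.coeff (d - 1) = 0 := puiseux_taylor p hp d hd hd2
  suffices hs : ∃ x, q.eval x = 0 by
    obtain ⟨x, hx⟩ := hs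
    refine ⟨x + r, ?_⟩
    rw [← hx, hq, taylor_eval]
  by_cases hq0 : q.coeff 0 = 0
  · refine ⟨0, ?_⟩
    rw [← coeff_zero_eq_eval_zero, hq0]
  set S := (Finset.range d).filter fun i => q.coeff i ≠ 0 with hS
  have hSne : S.Nonempty := ⟨0, by rw [hS, Finset.mem_filter, Finset.mem_range]; exact ⟨by omega, hq0⟩⟩
  obtain ⟨i₀, hi₀S, hmin⟩ := Finset.exists_min_image S
    (fun i => ((q.coeff i : puiseuxField K) : HS K).order / ((d : ℚ) - i)) hSne
  have hi₀ : i₀ < d ∧ q.coeff i₀ ≠ 0 := by
    rw [hS, Finset.mem_filter, Finset.mem_range] at hi₀S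
    exact hi₀S
  have hi₀' : i₀ + 1 < d := by
    rcases Nat.lt_or_ge (i₀ + 1) d with h | h
    · exact h
    exfalso
    have : i₀ = d - 1 := by omega
    exact hi₀.2 (by rw [this]; exact hqc)
  set γ : ℚ := ((q.coeff i₀ : puiseuxField K) : HS K).order / ((d : ℚ) - i₀) with hγ
  set s : puiseuxField K := ⟨HahnSeries.single (-γ) 1, puiseux_single_mem K _⟩ with hs
  have hsne : s ≠ 0 := by
    intro h
    have := congrArg (fun x : puiseuxField K => (x : HS K)) h
    simp only [hs] at this
    exact (HahnSeries.single_ne_zero one_ne_zero) this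
  set Q := q.scaleRoots s with hQ
  have hQm : Q.Monic := (monic_scaleRoots_iff s).2 hqm
  have hQd : Q.natDegree = d := by rw [hQ, natDegree_scaleRoots, hqd]
  suffices hs : ∃ x, Q.eval x = 0 by
    obtain ⟨x, hx⟩ := hs
    refine ⟨s⁻¹ * x, ?_⟩
    have h1 := scaleRoots_eval_mul q (s⁻¹ * x) s
    rw [← mul_assoc, mul_inv_cancel₀ hsne, one_mul, ← hQ, hx] at h1
    rcases mul_eq_zero.1 h1.symm with h | h
    · exact absurd ((pow_eq_zero_iff (by omega)).1 h) hsne
    · exact h
  have hQc : ∀ i, ((Q.coeff i : puiseuxField K) : HS K) =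
      ((q.coeff i : puiseuxField K) : HS K) * HahnSeries.single (-((d - i : ℕ) : ℚ) * γ) 1 := by
    intro i
    rw [hQ, coeff_scaleRoots, hqd]
    push_cast
    congr 1
    rw [hs]
    simp only [HahnSeries.single_pow, one_pow]
    have hexp : (d - i) • (-γ) = -((d - i : ℕ) : ℚ) * γ := by
      rw [nsmul_eq_mul]
      ring
    rw [hexp]
  have hord : ∀ i, q.coeff i ≠ 0 → ((Q.coeff i : puiseuxField K) : HS K).order =
      ((q.coeff i : puiseuxField K) : HS K).order - ((d - i : ℕ) : ℚ) * γ := by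
    intro i hi
    rw [hQc, HahnSeries.order_mul (by simpa using hi) (HahnSeries.single_ne_zero one_ne_zero),
      HahnSeries.order_single one_ne_zero]
    ring
  have hQne : ∀ i, q.coeff i ≠ 0 → ((Q.coeff i : puiseuxField K) : HS K) ≠ 0 := by
    intro i hi
    rw [hQc]
    exact mul_ne_zero (by simpa using hi) (HahnSeries.single_ne_zero one_ne_zero)
  have hint : ∀ i, 0 ≤ ((Q.coeff i : puiseuxField K) : HS K).orderTop := by
    intro i
    rw [HahnSeries.zero_le_orderTop_iff]
    by_cases hi : q.coeff i = 0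
    · rw [hQc, hi]
      simp
    rw [hord i hi]
    have hid : i ≤ d := by
      by_contra hcon
      exact hi (coeff_eq_zero_of_natDegree_lt (by omega))
    rcases Nat.lt_or_ge i d with hlt | hge
    · have h1 := hmin i (by rw [hS, Finset.mem_filter, Finset.mem_range]; exact ⟨hlt, hi⟩)
      have h2 : (0 : ℚ) < (d : ℚ) - i := by
        have : (i : ℚ) < d := by exact_mod_cast hlt
        linarith
      rw [le_div_iff₀ h2] at h1
      rw [Nat.cast_sub hid]
      linarith
    · have hieq : i = d := by omega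
      subst hieq
      have h2 : q.coeff i = 1 := by
        have := hqm.coeff_natDegree
        rwa [hqd] at this
      rw [h2]
      simp
  have hQ1 : Q.coeff (d - 1) = 0 := by
    rw [hQ, coeff_scaleRoots, hqc, zero_mul]
  have hne : ((Q.coeff i₀ : puiseuxField K) : HS K).coeff 0 ≠ 0 := by
    have h1 : ((Q.coeff i₀ : puiseuxField K) : HS K).order = 0 := by
      rw [hord i₀ hi₀.2, Nat.cast_sub hi₀.1.le, hγ]
      have h2 : (d : ℚ) - i₀ ≠ 0 := by
        have : (i₀ : ℚ) < d := by exact_mod_cast hi₀.1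
        linarith
      field_simp
      ring
    rw [← h1]
    exact fun h => (hQne i₀ hi₀.2) (HahnSeries.coeff_order_eq_zero.1 h)
  obtain ⟨g, h, hgm, hgpos, hgd, hQgh⟩ := puiseux_factor Q hQm d hQd hint hQ1 i₀ hi₀' hne
  obtain ⟨x, hx⟩ := ih g.natDegree hgd g hgm rfl hgpos.ne'
  exact ⟨x, by rw [hQgh, eval_mul, hx, zero_mul]⟩

end Main

theorem exists_puiseux (K : Type u) [Field K] [IsAlgClosed K] [CharZero K] :
    ∃ Ω : Subfield (HS K), IsAlgClosed Ω ∧ (∀ a : K, HahnSeries.C a ∈ Ω) ∧
      (∀ q : ℚ, HahnSeries.single q (1 : K) ∈ Ω) := by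
  refine ⟨puiseuxField K, ?_, puiseux_C_mem K, puiseux_single_mem K⟩
  apply IsAlgClosed.of_exists_root
  intro p hp hirr
  exact puiseux_root p.natDegree p hp rfl hirr.natDegree_pos.ne'

end FibReg
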