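import Pool.Agent.FibReg.Defs

/-!
# Zero dimensional ideals: product structure and local membership test
-/

open MvPolynomial

namespace FibReg

theorem zeroDim_eval_aeval {F : Type*} [Field F] {ι : Type*} (x : ι → F) (i : ι)
    (p : Polynomial F) : eval x (Polynomial.aeval (X i : MvPolynomial ι F) p) = p.eval (x i) := by
  have h1 : eval x (Polynomial.aeval (X i : MvPolynomial ι F) p) =
      (Polynomial.aeval (x i)) p := by
    have := Polynomial.aeval_algHom_apply (aeval x : MvPolynomial ι F →ₐ[F] F)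
      (X i : MvPolynomial ι F) p
    rw [aeval_X] at this
    rw [this, aeval_eq_eval]
  rw [h1, Polynomial.coe_aeval_eq_eval]

/-- every variable satisfies a monic equation modulo a zero dimensional ideal -/
theorem zeroDim_exists_poly {F : Type*} [Field F] {ι : Type*}
    (I : Ideal (MvPolynomial ι F)) (hI : Module.Finite F (MvPolynomial ι F ⧸ I)) (i : ι) :
    ∃ p : Polynomial F, p.Monic ∧ Polynomial.aeval (X i : MvPolynomial ι F) p ∈ I := by
  have h : IsIntegral F (Ideal.Quotient.mk I (X i : MvPolynomial ι F)) :=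
    IsIntegral.of_finite F _
  obtain ⟨p, hp, hp0⟩ := h
  refine ⟨p, hp, ?_⟩
  rw [← Ideal.Quotient.eq_zero_iff_mem]
  have h2 := Polynomial.aeval_algHom_apply (Ideal.Quotient.mkₐ F I)
      (X i : MvPolynomial ι F) p
  rw [Ideal.Quotient.mkₐ_eq_mk] at h2
  rw [← h2]
  exact hp0

theorem zero_dim {F : Type*} [Field F] [IsAlgClosed F] {ι : Type*} [Fintype ι]
    (I : Ideal (MvPolynomial ι F)) (hI : Module.Finite F (MvPolynomial ι F ⧸ I)) :
    {x : ι → F | ∀ G ∈ I, eval x G = 0}.Finite ∧
    ∀ x : ι → F, ∃ (s : MvPolynomial ι F) (M : ℕ), eval x s ≠ 0 ∧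
      ∀ i, s * (X i - C (x i)) ^ M ∈ I := by
  classical
  choose p hp hpI using zeroDim_exists_poly I hI
  constructor
  · refine Set.Finite.subset (Set.Finite.pi (fun i => (p i).roots.toFinset.finite_toSet)) ?_
    intro x hx
    rw [Set.mem_pi]
    intro i _
    have h1 := hx _ (hpI i)
    rw [zeroDim_eval_aeval] at h1
    simp only [Finset.mem_coe, Multiset.mem_toFinset]
    exact (Polynomial.mem_roots (hp i).ne_zero).2 h1
  · intro x
    have hq : ∀ i, ∃ q : Polynomial F, p i =
        (Polynomial.X - Polynomial.C (x i)) ^ ((p i).rootMultiplicity (x i)) * q ∧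
        q.eval (x i) ≠ 0 := by
      intro i
      obtain ⟨q, hq1, hq2⟩ := Polynomial.exists_eq_pow_rootMultiplicity_mul_and_not_dvd
        (p i) (hp i).ne_zero (x i)
      refine ⟨q, hq1, fun h0 => hq2 (Polynomial.dvd_iff_isRoot.2 h0)⟩
    choose q hq1 hq2 using hq
    refine ⟨∏ i, Polynomial.aeval (X i : MvPolynomial ι F) (q i),
      ∑ i, (p i).rootMultiplicity (x i), ?_, ?_⟩
    · rw [map_prod]
      refine Finset.prod_ne_zero_iff.2 fun i _ => ?_
      rw [zeroDim_eval_aeval]
      exact hq2 i
    · intro i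
      have hle : (p i).rootMultiplicity (x i) ≤ ∑ i, (p i).rootMultiplicity (x i) :=
        Finset.single_le_sum (f := fun i => (p i).rootMultiplicity (x i))
          (fun _ _ => Nat.zero_le _) (Finset.mem_univ i)
      obtain ⟨r, hr⟩ := Nat.exists_eq_add_of_le hle
      have h1 : Polynomial.aeval (X i : MvPolynomial ι F) (q i) *
          (X i - C (x i)) ^ ((p i).rootMultiplicity (x i)) ∈ I := by
        have h2 := hpI i
        rw [hq1 i, map_mul, map_pow, map_sub, Polynomial.aeval_X, Polynomial.aeval_C,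
          algebraMap_eq] at h2
        rw [mul_comm]
        convert h2 using 3
      rw [hr, pow_add, ← Finset.mul_prod_erase Finset.univ _ (Finset.mem_univ i)]
      have h3 := I.mul_mem_left ((∏ j ∈ Finset.univ.erase i,
        Polynomial.aeval (X j : MvPolynomial ι F) (q j)) * (X i - C (x i)) ^ r) h1
      convert h3 using 1
      ring

/-- coefficientwise extension of an `F`-linear retraction -/
noncomputable def zeroDimRetr {F K : Type*} [Field F] [Field K] [Algebra F K] {ι : Type*}
    (r : K →ₗ[F] F) (a : MvPolynomial ι K) : MvPolynomial ι F :=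
  AddMonoidAlgebra.ofCoeff (Finsupp.mapRange r (map_zero r) (AddMonoidAlgebra.coeff a))

theorem zeroDimRetr_coeff {F K : Type*} [Field F] [Field K] [Algebra F K] {ι : Type*}
    (r : K →ₗ[F] F) (a : MvPolynomial ι K) (m : ι →₀ ℕ) :
    coeff m (zeroDimRetr r a) = r (coeff m a) := by
  rfl

theorem zeroDimRetr_add {F K : Type*} [Field F] [Field K] [Algebra F K] {ι : Type*}
    (r : K →ₗ[F] F) (a b : MvPolynomial ι K) :
    zeroDimRetr r (a + b) = zeroDimRetr r a + zeroDimRetr r b := by
  ext m
  rw [coeff_add, zeroDimRetr_coeff, zeroDimRetr_coeff, zeroDimRetr_coeff, coeff_add, map_add]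

theorem zeroDimRetr_zero {F K : Type*} [Field F] [Field K] [Algebra F K] {ι : Type*}
    (r : K →ₗ[F] F) :
    zeroDimRetr r (0 : MvPolynomial ι K) = 0 := by
  ext m
  rw [zeroDimRetr_coeff, coeff_zero, coeff_zero, map_zero]

theorem zeroDimRetr_mul {F K : Type*} [Field F] [Field K] [Algebra F K] {ι : Type*}
    (r : K →ₗ[F] F) (a : MvPolynomial ι K) (g : MvPolynomial ι F) :
    zeroDimRetr r (a * map (algebraMap F K) g) = zeroDimRetr r a * g := by
  classical
  ext m
  rw [zeroDimRetr_coeff, coeff_mul, coeff_mul, map_sum]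
  refine Finset.sum_congr rfl fun uv _ => ?_
  rw [coeff_map, zeroDimRetr_coeff, mul_comm, ← Algebra.smul_def, map_smul, smul_eq_mul, mul_comm]

theorem zeroDim_descend {F K : Type*} [Field F] [Field K] [Algebra F K] {ι : Type*}
    (I : Ideal (MvPolynomial ι F)) (h : MvPolynomial ι F)
    (hh : map (algebraMap F K) h ∈ I.map (map (algebraMap F K))) : h ∈ I := by
  obtain ⟨r, hr⟩ := LinearMap.exists_leftInverse_of_injective (Algebra.linearMap F K)
    (LinearMap.ker_eq_bot.2 (algebraMap F K).injective)
  have hr1 : ∀ a : F, r (algebraMap F K a) = a := fun a => LinearMap.congr_fun hr a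
  have key : ∀ a ∈ I.map (map (algebraMap F K)), zeroDimRetr r a ∈ I := by
    intro a ha
    rw [Ideal.map] at ha
    refine Submodule.span_induction (p := fun a _ => ∀ c, zeroDimRetr r (c * a) ∈ I)
      ?_ ?_ ?_ ?_ ha 1 |> fun h => by simpa using h
    · rintro _ ⟨g, hg, rfl⟩ c
      change zeroDimRetr r (c * map (algebraMap F K) g) ∈ I
      rw [zeroDimRetr_mul]
      exact I.mul_mem_left _ hg
    · intro c
      rw [mul_zero, zeroDimRetr_zero]
      exact I.zero_mem
    · intro a b _ _ ha hb c
      rw [mul_add, zeroDimRetr_add]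
      exact I.add_mem (ha c) (hb c)
    · intro c a _ ha d
      rw [smul_eq_mul, ← mul_assoc]
      exact ha _
  have h1 := key _ hh
  have h2 : zeroDimRetr r (map (algebraMap F K) h) = h := by
    ext m
    rw [zeroDimRetr_coeff, coeff_map, hr1]
  rwa [h2] at h1

theorem mem_of_local {F K : Type*} [Field F] [Field K] [IsAlgClosed F] [IsAlgClosed K]
    [Algebra F K] {ι : Type*} [Fintype ι] (I : Ideal (MvPolynomial ι F))
    (hI : Module.Finite F (MvPolynomial ι F ⧸ I)) (h : MvPolynomial ι F)
    (hloc : ∀ x : ι → F, (∀ G ∈ I, eval x G = 0) → ∃ σ : MvPolynomial ι K,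
      eval (fun i => algebraMap F K (x i)) σ ≠ 0 ∧
      σ * map (algebraMap F K) h ∈ I.map (map (algebraMap F K))) :
    h ∈ I := by
  classical
  apply zeroDim_descend (K := K)
  by_contra hcon
  -- the colon ideal
  let N : Ideal (MvPolynomial ι K) :=
    { carrier := {σ | σ * map (algebraMap F K) h ∈ I.map (map (algebraMap F K))}
      zero_mem' := by
        rw [Set.mem_ofPred_eq, zero_mul]
        exact Ideal.zero_mem _
      add_mem' := by
        intro a b ha hb
        rw [Set.mem_ofPred_eq, add_mul]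
        exact Ideal.add_mem _ ha hb
      smul_mem' := by
        intro c a ha
        rw [Set.mem_ofPred_eq, smul_eq_mul, mul_assoc]
        exact Ideal.mul_mem_left _ c ha }
  have hN : ∀ σ, σ ∈ N ↔ σ * map (algebraMap F K) h ∈ I.map (map (algebraMap F K)) :=
    fun σ => Iff.rfl
  have hNtop : N ≠ ⊤ := by
    intro ht
    apply hcon
    have := (Ideal.eq_top_iff_one N).1 ht
    rw [hN, one_mul] at this
    exact this
  obtain ⟨J, hJ, hNJ⟩ := Ideal.exists_le_maximal N hNtop
  obtain ⟨y, hy⟩ := eq_vanishingIdeal_singleton_of_isMaximal K hJ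
  have hyN : ∀ σ ∈ N, eval y σ = 0 := by
    intro σ hσ
    have h1 := hNJ hσ
    rw [hy, mem_vanishingIdeal_singleton_iff] at h1
    rwa [aeval_eq_eval] at h1
  have hyI : ∀ G ∈ I, eval y (map (algebraMap F K) G) = 0 := by
    intro G hG
    apply hyN
    rw [hN]
    exact Ideal.mul_mem_right _ _ (Ideal.mem_map_of_mem _ hG)
  -- the coordinates of `y` lie in `F`
  have hyF : ∀ i, ∃ a : F, algebraMap F K a = y i := by
    intro i
    obtain ⟨p, hp, hpI⟩ := zeroDim_exists_poly I hI i
    have h1 := hyI _ hpI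
    have h2 : Polynomial.aeval (y i) p = 0 := by
      rw [← h1]
      have h3 := Polynomial.aeval_algHom_apply (aeval y : MvPolynomial ι F →ₐ[F] K)
        (X i : MvPolynomial ι F) p
      rw [aeval_X] at h3
      rw [h3, eval_map]
      rfl
    have h4 : IsIntegral F (y i) := ⟨p, hp, h2⟩
    exact minpoly.mem_range_of_degree_eq_one F (y i)
      (IsAlgClosed.degree_eq_one_of_irreducible F (minpoly.irreducible h4))
  choose x hx using hyF
  have hy' : y = fun i => algebraMap F K (x i) := by
    funext i
    exact (hx i).symm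
  obtain ⟨σ, hσ1, hσ2⟩ := hloc x (by
    intro G hG
    have h1 := hyI G hG
    rw [hy'] at h1
    rw [eval_map] at h1
    have h2 : eval₂ (algebraMap F K) (fun i => algebraMap F K (x i)) G =
        algebraMap F K (eval x G) := by
      rw [eval₂_comp]
      rfl
    rw [h2] at h1
    exact (map_eq_zero _).1 h1)
  apply hσ1
  rw [← hy']
  exact hyN σ hσ2

end FibReg
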