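import Pool.Agent.FibReg.Package
import Pool.Agent.FibReg.Puiseux
import Pool.Agent.FibReg.DerExt
import Pool.Agent.FibReg.PartA
import Pool.Agent.FibReg.ZeroDim
import Pool.Agent.FibReg.LowDeg

/-!
# The generic fibre theorem
-/

open MvPolynomial

namespace FibReg

universe u

section Shift

variable {F : Type*} [Field F] {ι : Type*}

theorem shift_X (x : ι → F) (i : ι) : shift x (X i) = X i + C (x i) := by
  unfold shift
  rw [aeval_X]

theorem shift_C (x : ι → F) (a : F) : shift x (C a) = C a := by
  unfold shift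
  rw [algHom_C]
  rfl

theorem shift_neg_shift (x : ι → F) (h : MvPolynomial ι F) :
    shift (fun i => -x i) (shift x h) = h := by
  have : (shift (fun i => -x i)).comp (shift x) = AlgHom.id F _ := by
    apply MvPolynomial.algHom_ext
    intro i
    rw [AlgHom.comp_apply, shift_X, map_add, shift_X, shift_C, AlgHom.id_apply, C_neg]
    ring
  exact DFunLike.congr_fun this h

theorem shift_shift_neg (x : ι → F) (h : MvPolynomial ι F) :
    shift x (shift (fun i => -x i) h) = h := by
  have := shift_neg_shift (fun i => -x i) h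
  simpa using this

theorem eval_shift (x y : ι → F) (h : MvPolynomial ι F) :
    eval y (shift x h) = eval (fun i => y i + x i) h := by
  induction h using MvPolynomial.induction_on with
  | C a => rw [shift_C, eval_C, eval_C]
  | add p q hp hq => rw [map_add, map_add, map_add, hp, hq]
  | mul_X p i hp =>
    rw [map_mul, map_mul, map_mul, shift_X, map_add, eval_X, eval_C, eval_X, hp]

theorem eval_zero_shift (x : ι → F) (h : MvPolynomial ι F) :
    eval 0 (shift x h) = eval x h := by
  rw [eval_shift]
  congr 1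
  have : (fun i => (0 : ι → F) i + x i) = x := by
    funext i
    simp
  rw [this]

/-- the shift as an algebra equivalence -/
noncomputable def shiftEquiv (x : ι → F) : MvPolynomial ι F ≃ₐ[F] MvPolynomial ι F :=
  AlgEquiv.ofAlgHom (shift x) (shift fun i => -x i)
    (AlgHom.ext fun h => shift_shift_neg x h) (AlgHom.ext fun h => shift_neg_shift x h)

theorem shiftEquiv_apply (x : ι → F) (h : MvPolynomial ι F) : shiftEquiv x h = shift x h := rfl

theorem map_shift {K : Type*} [Field K] [Algebra F K] (x : ι → F) (h : MvPolynomial ι F) :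
    map (algebraMap F K) (shift x h) =
      shift (fun i => algebraMap F K (x i)) (map (algebraMap F K) h) := by
  induction h using MvPolynomial.induction_on with
  | C a => rw [shift_C, map_C, shift_C]
  | add p q hp hq => rw [map_add, map_add, map_add, map_add, hp, hq]
  | mul_X p i hp =>
    rw [map_mul, map_mul, map_mul, map_mul, shift_X, map_add, map_X, map_C, shift_X, hp]

theorem shift_mem_originIdeal_pow (x : ι → F) (L : ℕ) {h : MvPolynomial ι F}
    (hh : h ∈ pointIdeal x ^ L) : shift x h ∈ originIdeal F ι ^ L := by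
  have h1 : (pointIdeal x).map (shift x) = originIdeal F ι := by
    unfold pointIdeal originIdeal
    rw [Ideal.map_span]
    congr 1
    rw [← Set.range_comp]
    congr 1
    funext i
    show shift x (X i - C (x i)) = X i
    rw [map_sub, shift_X, shift_C]
    ring
  rw [← h1, ← Ideal.map_pow]
  exact Ideal.mem_map_of_mem _ hh

end Shift

section ShiftArc

variable {F K : Type u} [Field F] [Field K] [Algebra F K] {ι : Type*}

theorem aeval_shift (x : ι → F) (ξ : ι → HS K) (h : MvPolynomial ι F) :
    aeval ξ (shift x h) = aeval (fun i => algebraMap F (HS K) (x i) + ξ i) h := by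
  induction h using MvPolynomial.induction_on with
  | C a => rw [shift_C, algHom_C, algHom_C]
  | add p q hp hq => rw [map_add, map_add, map_add, hp, hq]
  | mul_X p i hp =>
    rw [map_mul, map_mul, map_mul, shift_X, map_add, aeval_X, aeval_X, algHom_C, hp, add_comm]

theorem v_shift_nonneg (x : ι → F) {ξ : ι → HS K} (hξ : ∀ i, 0 ≤ (ξ i).orderTop) (i : ι) :
    0 ≤ (algebraMap F (HS K) (x i) + ξ i).orderTop :=
  le_v_add (v_algebraMap_nonneg (x i)) (hξ i)

theorem mem_arcIdeal_shift (x : ι → F) {ξ : ι → HS K} (hξ : ∀ i, 0 ≤ (ξ i).orderTop)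
    {h : MvPolynomial ι F} :
    h ∈ arcIdeal F (fun i => algebraMap F (HS K) (x i) + ξ i) ↔ shift x h ∈ arcIdeal F ξ := by
  rw [mem_arcIdeal (v_shift_nonneg x hξ), mem_arcIdeal hξ, aeval_shift]

theorem finrank_arcIdeal_shift (x : ι → F) {ξ : ι → HS K} (hξ : ∀ i, 0 ≤ (ξ i).orderTop) :
    Module.finrank F (MvPolynomial ι F ⧸
      arcIdeal F (fun i => algebraMap F (HS K) (x i) + ξ i)) =
    Module.finrank F (MvPolynomial ι F ⧸ arcIdeal F ξ) := by
  have hmap : arcIdeal F ξ =
      (arcIdeal F (fun i => algebraMap F (HS K) (x i) + ξ i)).map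
        ((shiftEquiv x : MvPolynomial ι F ≃ₐ[F] MvPolynomial ι F) :
          MvPolynomial ι F →+* MvPolynomial ι F) := by
    apply le_antisymm
    · intro h hh
      have h1 : h = (shiftEquiv x : MvPolynomial ι F ≃ₐ[F] MvPolynomial ι F)
          (shift (fun i => -x i) h) := by
        rw [shiftEquiv_apply, shift_shift_neg]
      rw [h1]
      refine Ideal.mem_map_of_mem ((shiftEquiv x : MvPolynomial ι F ≃ₐ[F] MvPolynomial ι F) :
          MvPolynomial ι F →+* MvPolynomial ι F) ?_
      rw [mem_arcIdeal_shift x hξ, shift_shift_neg]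
      exact hh
    · rw [Ideal.map_le_iff_le_comap]
      intro h hh
      rw [Ideal.mem_comap]
      exact (mem_arcIdeal_shift x hξ).1 hh
  exact (Ideal.quotientEquivAlg _ _ (shiftEquiv x) hmap).toLinearEquiv.finrank_eq

end ShiftArc

/-- Existence of generic constants with dual derivations. -/
theorem exists_genericData (F : Type u) [Field F] [CharZero F] (ι J : Type) [Finite ι] [Finite J]
    [DecidableEq ι] [DecidableEq J] :
    ∃ (K : Type u) (_ : Field K) (_ : Algebra F K) (_ : GenericData F K ι J), IsAlgClosed K ∧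
      ∀ δ : Derivation ℤ F F, ∃ D : Derivation ℤ K K,
        ∀ a, D (algebraMap F K a) = algebraMap F K (δ a) := by
  obtain ⟨K, _, _, c, hK, hD, hext⟩ := exists_generic_extension F ((ι × J) ⊕ ι)
  choose D hDF hD1 hD0 using hD
  refine ⟨K, inferInstance, inferInstance, ?_, hK, hext⟩
  exact
    { cc := fun i j => c (Sum.inl (i, j))
      uu := fun i => c (Sum.inr i)
      Dc := fun i j => D (Sum.inl (i, j))
      Du := fun i => D (Sum.inr i)
      Dc_F := fun i j a => hDF _ a
      Du_F := fun i a => hDF _ a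
      Dc_cc := by
        intro i j i' j'
        split_ifs with h
        · rw [h.1, h.2]
          exact hD1 _
        · refine hD0 _ _ ?_
          intro heq
          rw [Sum.inl.injEq, Prod.mk.injEq] at heq
          exact h heq
      Du_cc := fun l i j => hD0 _ _ (by simp)
      Du_uu := by
        intro l i
        split_ifs with h
        · rw [h]
          exact hD1 _
        · refine hD0 _ _ ?_
          intro heq
          rw [Sum.inr.injEq] at heq
          exact h heq }

/-- Coprimality of the arc ideals at different points. -/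
theorem arcIdeal_coprime {F K : Type u} [Field F] [Field K] [Algebra F K] {ι : Type*}
    {x y : ι → F} (hxy : x ≠ y) {ξ ζ : ι → HS K} (hξ : ∀ i, 0 < (ξ i).orderTop)
    (hζ : ∀ i, 0 < (ζ i).orderTop) :
    IsCoprime (arcIdeal F (fun i => algebraMap F (HS K) (x i) + ξ i))
      (arcIdeal F (fun i => algebraMap F (HS K) (y i) + ζ i)) := by
  have key : ∀ (x : ι → F) (ξ : ι → HS K), (∀ i, 0 < (ξ i).orderTop) → ∀ i, ∃ e : ℕ,
      (X i - C (x i)) ^ e ∈ arcIdeal F (fun i => algebraMap F (HS K) (x i) + ξ i) := by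
    intro x ξ hξ i
    obtain ⟨e, he⟩ : ∃ e : ℕ, (1 : WithTop ℚ) ≤ e • (ξ i).orderTop := by
      by_cases h0 : (ξ i).orderTop = ⊤
      · exact ⟨1, by rw [h0, one_nsmul]; exact le_top⟩
      · obtain ⟨v, hv⟩ := WithTop.ne_top_iff_exists.1 h0
        have hvpos : 0 < v := by
          have := hξ i
          rw [← hv] at this
          exact_mod_cast this
        obtain ⟨e, he⟩ := Archimedean.arch (1 : ℚ) hvpos
        refine ⟨e, ?_⟩
        rw [← hv]
        exact_mod_cast he
    refine ⟨e, ?_⟩
    rw [mem_arcIdeal (v_shift_nonneg x fun i => (hξ i).le), map_pow, map_sub, aeval_X, algHom_C,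
      add_sub_cancel_left, v_pow]
    exact he
  obtain ⟨i, hi⟩ := Function.ne_iff.1 hxy
  obtain ⟨e, he⟩ := key x ξ hξ i
  obtain ⟨e', he'⟩ := key y ζ hζ i
  have hcop : IsCoprime (X i - C (x i) : MvPolynomial ι F) (X i - C (y i)) := by
    refine ⟨C ((y i - x i)⁻¹), -C ((y i - x i)⁻¹), ?_⟩
    have h0 : y i - x i ≠ 0 := sub_ne_zero.2 (Ne.symm hi)
    have : C ((y i - x i)⁻¹) * (X i - C (x i)) + -C ((y i - x i)⁻¹) * (X i - C (y i)) =
        (C ((y i - x i)⁻¹ * (y i - x i)) : MvPolynomial ι F) := by
      rw [C_mul, C_sub]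
      ring
    rw [this, inv_mul_cancel₀ h0, C_1]
  obtain ⟨a, b, hab⟩ := hcop.pow (m := e) (n := e')
  rw [Ideal.isCoprime_iff_exists]
  exact ⟨a * (X i - C (x i)) ^ e, Ideal.mul_mem_left _ _ he, b * (X i - C (y i)) ^ e',
    Ideal.mul_mem_left _ _ he', hab⟩

attribute [local instance] MvPolynomial.gradedAlgebra in
theorem isHomog_extIdeal {k F : Type*} [Field k] [Field F] [Algebra k F] {ι : Type*}
    {P : Ideal (MvPolynomial ι k)} (hP : IsHomog P) : IsHomog (extIdeal F P) := by
  have heq : extIdeal F P = Ideal.span {g | ∃ G ∈ P, ∃ d, G.IsHomogeneous d ∧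
      g = map (algebraMap k F) G} := by
    unfold extIdeal
    apply le_antisymm
    · rw [Ideal.map_le_iff_le_comap]
      intro G hG
      rw [Ideal.mem_comap, ← sum_homogeneousComponent G, map_sum]
      refine Ideal.sum_mem _ fun d _ => Ideal.subset_span ?_
      exact ⟨_, hP G hG d, d, homogeneousComponent_isHomogeneous d G, rfl⟩
    · rw [Ideal.span_le]
      rintro _ ⟨G, hG, d, _, rfl⟩
      exact Ideal.mem_map_of_mem _ hG
  have h1 : (extIdeal F P).IsHomogeneous (homogeneousSubmodule ι F) := by
    rw [heq]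
    refine Ideal.homogeneous_span _ _ ?_
    rintro _ ⟨G, hG, d, hd, rfl⟩
    exact ⟨d, hd.map _⟩
  exact fun G hG d => homogeneousComponent_mem_of_mem h1 hG d

/-- **The generic fibre theorem**: polynomials of degree at most `n / c` represent all functions on
the affine scheme `{x ∈ cone(X) : A x = p}`. -/
theorem generic_fiber {k F : Type u} [Field k] [Field F] [Algebra k F] [IsAlgClosed F] [CharZero F]
    {ι κ : Type} [Fintype ι] [DecidableEq ι] [Fintype κ] [DecidableEq κ]
    (n c q : ℕ) (hc : 1 ≤ c) (hι : Fintype.card ι = n + 1 + q)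
    (hκ : Fintype.card κ = n + 1 + c)
    (P : Ideal (MvPolynomial ι k)) (hP : IsHomog P)
    (A : κ → ι → F) (D : κ → ι → Derivation ℤ F F)
    (hDk : ∀ i m (a : k), D i m (algebraMap k F a) = 0)
    (hDA : ∀ i m j l, D i m (A j l) = if j = i ∧ l = m then 1 else 0)
    (hsm : ∀ x : ι → F, x ≠ 0 → (∀ G ∈ P, aeval x G = 0) → MinorAt q P x)
    (M : ℕ) (hcen : ∀ m, X m ^ M ∈ affIdeal (extIdeal F P) A 0)
    (hPext : IsHomog (extIdeal F P))
    (p : κ → F) (hp : p ≠ 0) (h : MvPolynomial ι F) :
    ∃ g : MvPolynomial ι F, g.totalDegree ≤ n / c ∧ h - g ∈ affIdeal (extIdeal F P) A p := by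
  classical
  set Q := affIdeal (extIdeal F P) A p with hQ
  have hfin : Module.Finite F (MvPolynomial ι F ⧸ Q) := affIdeal_finite _ hPext A M hcen p
  obtain ⟨hZfin, hloc⟩ := zero_dim Q hfin
  set Z : Set (ι → F) := {x | ∀ G ∈ Q, eval x G = 0} with hZ
  have : Fintype Z := hZfin.fintype
  -- generators of Q
  obtain ⟨S, hS⟩ := (isNoetherianRing_iff_ideal_fg _).1 (inferInstance : IsNoetherianRing
    (MvPolynomial ι F)) Q
  let J := Fin (Fintype.card S)
  let φ : J → MvPolynomial ι F := fun j => ((Fintype.equivFin S).symm j : MvPolynomial ι F)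
  have hφ : Ideal.span (Set.range φ) = Q := by
    rw [← hS]
    congr 1
    ext g
    constructor
    · rintro ⟨j, rfl⟩
      exact ((Fintype.equivFin S).symm j).2
    · intro hg
      refine ⟨Fintype.equivFin S ⟨g, hg⟩, ?_⟩
      show ((Fintype.equivFin S).symm (Fintype.equivFin S ⟨g, hg⟩) : MvPolynomial ι F) = g
      rw [Equiv.symm_apply_apply]
  obtain ⟨K, _, _, G, hK, hext⟩ := exists_genericData F ι J
  have : CharZero K := charZero_of_injective_algebraMap (algebraMap F K).injective
  obtain ⟨Ω, hΩ, hC, hq⟩ := exists_puiseux K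
  -- local packages
  have hpack : ∀ x : Z, ∃ ξ : ι → HS K, (∀ i, 0 < (ξ i).orderTop) ∧
      (∀ g ∈ Q, 1 ≤ (aeval (fun i => algebraMap F (HS K) (x.1 i) + ξ i) g).orderTop) ∧
      ∀ h ∈ pointIdeal x.1 ^ (Module.finrank F (MvPolynomial ι F ⧸ arcIdeal F ξ)),
        ∃ σ : MvPolynomial ι K, eval (fun i => algebraMap F K (x.1 i)) σ ≠ 0 ∧
          σ * map (algebraMap F K) h ∈ Q.map (map (algebraMap F K)) := by
    intro x
    obtain ⟨s, M', hs, hM'⟩ := hloc x.1
    have hspan : Ideal.span (Set.range fun j => shift x.1 (φ j)) = Q.map (shift x.1) := by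
      rw [← hφ, Ideal.map_span, ← Set.range_comp]
      rfl
    have hmem : ∀ g ∈ Q, shift x.1 g ∈ Ideal.span (Set.range fun j => shift x.1 (φ j)) := by
      intro g hg
      rw [hspan]
      exact Ideal.mem_map_of_mem _ hg
    have hfin' : Module.Finite F (MvPolynomial ι F ⧸
        Ideal.span (Set.range fun j => shift x.1 (φ j))) := by
      have hle : Q ≤ Ideal.comap (shift x.1)
          (Ideal.span (Set.range fun j => shift x.1 (φ j))) := fun g hg => hmem g hg
      refine Module.Finite.of_surjective (Ideal.quotientMapₐ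
        (Ideal.span (Set.range fun j => shift x.1 (φ j))) (I := Q) (shift x.1) hle).toLinearMap ?_
      intro y
      obtain ⟨g, rfl⟩ := Ideal.Quotient.mk_surjective y
      refine ⟨Ideal.Quotient.mk Q (shift (fun i => -x.1 i) g), ?_⟩
      show Ideal.Quotient.mk _ (shift x.1 (shift (fun i => -x.1 i) g)) = _
      rw [shift_shift_neg]
    obtain ⟨ξ, hξ, hξQ, hξL⟩ := local_package Ω hΩ hC hq G (fun j => shift x.1 (φ j))
      (by
        intro j
        show eval 0 (shift x.1 (φ j)) = 0
        rw [eval_zero_shift]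
        refine x.2 (φ j) ?_
        rw [← hφ]
        exact Ideal.subset_span ⟨j, rfl⟩) hfin' (shift x.1 s) (by rwa [eval_zero_shift]) M'
      (by
        intro i
        have h1 := hmem _ (hM' i)
        have h2 : shift x.1 (s * (X i - C (x.1 i)) ^ M') = shift x.1 s * X i ^ M' := by
          rw [map_mul, map_pow, map_sub, shift_X, shift_C, add_sub_cancel_right]
        rwa [h2] at h1)
    refine ⟨ξ, hξ, ?_, ?_⟩
    · intro g hg
      rw [← aeval_shift]
      exact hξQ _ (hmem g hg)
    · intro h hh
      obtain ⟨σ, hσ, hσm⟩ := hξL (shift x.1 h) (shift_mem_originIdeal_pow x.1 _ hh)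
      refine ⟨shift (fun i => -algebraMap F K (x.1 i)) σ, ?_, ?_⟩
      · rw [eval_shift]
        have : (fun i => algebraMap F K (x.1 i) + -algebraMap F K (x.1 i)) = (0 : ι → K) := by
          funext i
          simp
        rw [this]
        exact hσ
      · rw [map_shift, hspan] at hσm
        have h3 := Ideal.mem_map_of_mem (shift fun i => -algebraMap F K (x.1 i)) hσm
        rw [map_mul, shift_neg_shift] at h3
        refine (Ideal.map_le_iff_le_comap.2 ?_) h3
        rw [Ideal.map_le_iff_le_comap, Ideal.map_le_iff_le_comap]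
        intro g hg
        rw [Ideal.mem_comap, Ideal.mem_comap, Ideal.mem_comap]
        show shift (fun i => -algebraMap F K (x.1 i)) (map (algebraMap F K) (shift x.1 g)) ∈ _
        rw [map_shift, shift_neg_shift]
        exact Ideal.mem_map_of_mem _ hg
  choose ξ hξ hξQ hξL using hpack
  choose D' hD' using fun i m => hext (D i m)
  -- Part A
  have hnonneg : ∀ x : Z, ∀ i, 0 ≤ (ξ x i).orderTop := fun x i => (hξ x i).le
  have hxP : ∀ x : Z, ∀ G ∈ P, aeval x.1 G = 0 := by
    intro x G hG
    have h1 : map (algebraMap k F) G ∈ Q := by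
      rw [hQ]
      exact Ideal.mem_sup_left (Ideal.mem_map_of_mem _ hG)
    have h2 := x.2 _ h1
    rw [eval_map] at h2
    exact h2
  have hx0 : ∀ x : Z, x.1 ≠ 0 := by
    intro x h0
    apply hp
    funext i
    have h1 : lin A i - C (p i) ∈ Q := by
      rw [hQ]
      exact Ideal.mem_sup_right (Ideal.subset_span ⟨i, rfl⟩)
    have h2 := x.2 _ h1
    rw [h0] at h2
    unfold lin at h2
    simpa using h2
  have hA := partA (K := K) n c q hc hι hκ P hP A p hp D'
    (by
      intro i m a
      rw [hD', hDk, map_zero])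
    (by
      intro i m a
      exact ⟨D i m a, hD' i m a⟩)
    (by
      intro i m j l
      rw [hD', hDA]
      split_ifs
      · rw [map_one]
      · rw [map_zero])
    (fun x : Z => x.1) (fun x => hsm x.1 (hx0 x) (hxP x)) ξ hξ hξQ
  have hfinarc : ∀ x : Z, Module.Finite F (MvPolynomial ι F ⧸
      arcIdeal F (fun i => algebraMap F (HS K) (x.1 i) + ξ x i)) := by
    intro x
    have hle : Q ≤ arcIdeal F (fun i => algebraMap F (HS K) (x.1 i) + ξ x i) := by
      intro g hg
      rw [mem_arcIdeal (v_shift_nonneg x.1 (hnonneg x))]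
      exact hξQ x g hg
    exact Module.Finite.of_surjective (Ideal.Quotient.factorₐ F hle).toLinearMap
      (Ideal.Quotient.factor_surjective hle)
  rw [finrank_iInf_ideal _ (by
    intro x y hxy
    exact arcIdeal_coprime (fun h => hxy (Subtype.ext h)) (hξ x) (hξ y)) hfinarc,
    Finset.sum_congr rfl fun x _ => finrank_arcIdeal_shift x.1 (hnonneg x)] at hA
  -- the product of powers of the point ideals lies in Q
  have hprod : ∏ x : Z, pointIdeal x.1 ^
      (Module.finrank F (MvPolynomial ι F ⧸ arcIdeal F (ξ x))) ≤ Q := by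
    intro g hg
    refine mem_of_local (K := K) Q hfin g ?_
    intro x hx
    refine hξL ⟨x, hx⟩ g ?_
    have hle := Ideal.prod_le_inf (s := Finset.univ) (f := fun x : Z => pointIdeal x.1 ^
      (Module.finrank F (MvPolynomial ι F ⧸ arcIdeal F (ξ x))))
    have h1 := hle hg
    rw [Submodule.mem_finsetInf] at h1
    exact h1 ⟨x, hx⟩ (Finset.mem_univ _)
  obtain ⟨g, hg, hgQ⟩ := exists_low_degree (fun x : Z => x.1) _ Q hprod h
  refine ⟨g, le_trans hg ?_, hgQ⟩
  rw [Nat.le_div_iff_mul_le (by omega)]
  set T := ∑ x : Z, Module.finrank F (MvPolynomial ι F ⧸ arcIdeal F (ξ x)) with hT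
  rcases Nat.eq_zero_or_pos T with h0 | hpos
  · rw [h0]
    simp
  · rw [Nat.sub_mul, one_mul, mul_comm]
    omega

end FibReg
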