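import Pool.Agent.FibReg.Division

/-!
# Module Lagrange (MP_9e4267_ag)

Integrality of the solutions of `f_i = λ u_i`, and Lagrange interpolation with Bezoutians over the
valuation ring of the Puiseux field.
-/

open MvPolynomial
namespace FibReg
universe u

section
variable {K : Type u} [Field K]

theorem lagr_val_C (a : K) : 0 ≤ (algebraMap K (HS K) a).orderTop := by
  rw [algebraMap_HS]
  exact HahnSeries.orderTop_single_le

theorem lagr_orderTop_pow (x : HS K) (n : ℕ) : (x ^ n).orderTop = n • x.orderTop := by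
  rw [← HahnSeries.addVal_apply, AddValuation.map_pow, HahnSeries.addVal_apply]

theorem lagr_coe_nsmul (n : ℕ) (q : ℚ) : ((n * q : ℚ) : WithTop ℚ) = n • (q : WithTop ℚ) := by
  rw [← nsmul_eq_mul]; rfl

theorem lagr_orderTop_prod_ge {α : Type*} (t : Finset α) (x : α → HS K) (n : α → ℕ) (q : ℚ)
    (hx : ∀ i ∈ t, ((q : ℚ) : WithTop ℚ) ≤ (x i).orderTop) :
    (((∑ i ∈ t, n i : ℕ) * q : ℚ) : WithTop ℚ) ≤ (∏ i ∈ t, x i ^ n i).orderTop := by
  classical
  induction t using Finset.induction_on with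
  | empty => simp
  | insert a t ha ih =>
    rw [Finset.prod_insert ha, Finset.sum_insert ha, HahnSeries.orderTop_mul, lagr_orderTop_pow]
    have h1 := ih (fun i hi => hx i (Finset.mem_insert_of_mem hi))
    have h2 := hx a (Finset.mem_insert_self a t)
    have h3 : (((n a + ∑ i ∈ t, n i : ℕ) * q : ℚ) : WithTop ℚ)
        = n a • ((q : ℚ) : WithTop ℚ) + (((∑ i ∈ t, n i : ℕ) * q : ℚ) : WithTop ℚ) := by
      rw [← lagr_coe_nsmul, ← WithTop.coe_add, Nat.cast_add, add_mul]
    rw [h3]
    exact add_le_add (nsmul_le_nsmul_right h2 _) h1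

theorem lagr_bound {ι : Type*} [Finite ι] (q : ℚ) (hq : q ≤ 0) (s : ι → HS K)
    (hs : ∀ i, (q : WithTop ℚ) ≤ (s i).orderTop) (p : MvPolynomial ι K) (d : ℕ)
    (hp : p.totalDegree ≤ d) : ((d * q : ℚ) : WithTop ℚ) ≤ (aeval s p).orderTop := by
  classical
  have := Fintype.ofFinite ι
  rw [aeval_def, eval₂_eq', ← HahnSeries.addVal_apply]
  apply AddValuation.map_le_sum
  intro m hm
  rw [HahnSeries.addVal_apply, HahnSeries.orderTop_mul]
  have h1 := lagr_orderTop_prod_ge Finset.univ s m q (fun i _ => hs i)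
  have h2 := lagr_val_C (coeff m p)
  have h3 : (∑ i, m i) ≤ d := by
    have := le_totalDegree hm
    rw [Finsupp.sum_fintype _ _ (fun _ => rfl)] at this
    exact this.trans hp
  calc ((d * q : ℚ) : WithTop ℚ) ≤ (((∑ i, m i : ℕ) * q : ℚ) : WithTop ℚ) := by
        rw [WithTop.coe_le_coe]
        have : ((∑ i, m i : ℕ) : ℚ) ≤ (d : ℚ) := by exact_mod_cast h3
        nlinarith
    _ = 0 + (((∑ i, m i : ℕ) * q : ℚ) : WithTop ℚ) := by rw [zero_add]
    _ ≤ _ := add_le_add h2 h1

theorem isSol_integral {K : Type u} [Field K] {ι : Type*} [Finite ι]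
    {D : ℕ} {f : ι → MvPolynomial ι K} (hf : ∀ i, (f i - X i ^ D).totalDegree < D)
    {uu : ι → K} {s : ι → HS K} (hs : IsSol f uu s) (i : ι) : 0 ≤ (s i).orderTop := by
  classical
  by_contra hcon
  push Not at hcon
  have : Nonempty ι := ⟨i⟩
  obtain ⟨i₀, hi₀⟩ := Finite.exists_min (fun j => (s j).orderTop)
  have h0 : (s i₀).orderTop < 0 := lt_of_le_of_lt (hi₀ i) hcon
  obtain ⟨q, hq⟩ : ∃ q : ℚ, (s i₀).orderTop = (q : WithTop ℚ) := by
    have := ne_top_of_lt h0
    exact ⟨_, (WithTop.coe_untop _ this).symm⟩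
  have hq0 : q < 0 := by
    rw [hq] at h0
    exact_mod_cast h0
  have hD : 0 < D := lt_of_le_of_lt (Nat.zero_le _) (hf i)
  have hb := lagr_bound q hq0.le s (fun j => by rw [← hq]; exact hi₀ j) (f i₀ - X i₀ ^ D)
    (D - 1) (by have := hf i₀; omega)
  have h1 : (aeval s (f i₀)) = (s i₀) ^ D + aeval s (f i₀ - X i₀ ^ D) := by
    rw [map_sub, map_pow, aeval_X]; ring
  have h2 : ((s i₀) ^ D).orderTop = ((D * q : ℚ) : WithTop ℚ) := by
    rw [lagr_orderTop_pow, hq, lagr_coe_nsmul]
  have h3 : ((s i₀) ^ D).orderTop < (aeval s (f i₀ - X i₀ ^ D)).orderTop := by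
    rw [h2]
    refine lt_of_lt_of_le ?_ hb
    rw [WithTop.coe_lt_coe]
    have : ((D - 1 : ℕ) : ℚ) = D - 1 := by push_cast [hD]; ring
    rw [this]
    nlinarith
  have h4 := HahnSeries.orderTop_add_eq_left h3
  rw [← h1, hs i₀, h2] at h4
  have h5 : (1 : WithTop ℚ) ≤ (HahnSeries.single (1 : ℚ) (uu i₀)).orderTop :=
    HahnSeries.orderTop_single_le
  rw [h4] at h5
  have h6 : (1 : ℚ) ≤ D * q := by exact_mod_cast h5
  have h7 : (0:ℚ) < D := by exact_mod_cast hD
  nlinarith
end


theorem lagr_kaehler_chain {Ω A : Type*} [Field Ω] [CommRing A] [Algebra Ω A] {ι : Type*}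
    [Fintype ι] (π : MvPolynomial ι Ω →ₐ[Ω] A) (p : MvPolynomial ι Ω) :
    KaehlerDifferential.D Ω A (π p) =
      ∑ j, π (pderiv j p) • KaehlerDifferential.D Ω A (π (X j)) := by
  classical
  induction p using MvPolynomial.induction_on with
  | C a => simp [← MvPolynomial.algebraMap_eq]
  | add p q hp hq => simp [hp, hq, add_smul, Finset.sum_add_distrib]
  | mul_X p i hp =>
    rw [map_mul, Derivation.leibniz, hp]
    simp only [Derivation.leibniz, map_add, pderiv_X, smul_eq_mul, map_mul, add_smul,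
      Finset.sum_add_distrib, Finset.smul_sum, smul_smul]
    congr 1
    rw [Finset.sum_eq_single i]
    · simp
    · intro b _ hb
      simp [hb.symm]
    · simp

theorem lagr_isReduced {Ω A : Type*} [Field Ω] [CommRing A] [Algebra Ω A] {ι : Type*}
    [Fintype ι] [DecidableEq ι] (π : MvPolynomial ι Ω →ₐ[Ω] A) (hπ : Function.Surjective π)
    (g : ι → MvPolynomial ι Ω) (hg : ∀ i, π (g i) = 0) (hJ : IsUnit (π (jac g))) :
    IsReduced A := by
  have hd : ∀ k, KaehlerDifferential.D Ω A (π (X k)) = 0 := by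
    intro k
    have h1 : ∀ i, ∑ j, π (pderiv j (g i)) • KaehlerDifferential.D Ω A (π (X j)) = 0 := by
      intro i
      rw [← lagr_kaehler_chain, hg, map_zero]
    have hdet : π (jac g) = Matrix.det (Matrix.of fun i j => π (pderiv j (g i))) := by
      rw [jac, AlgHom.map_det]
      rfl
    rw [hdet] at hJ
    set M : Matrix ι ι A := Matrix.of fun i j => π (pderiv j (g i)) with hM
    have h2 : ∑ i, M.adjugate k i • (∑ j, M i j • KaehlerDifferential.D Ω A (π (X j))) = 0 := by
      apply Finset.sum_eq_zero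
      intro i _
      have := h1 i
      simp only [hM, Matrix.of_apply]
      rw [this, smul_zero]
    have h3 : M.det • KaehlerDifferential.D Ω A (π (X k)) = 0 := by
      rw [← h2]
      simp only [Finset.smul_sum, smul_smul]
      rw [Finset.sum_comm]
      simp only [← Finset.sum_smul]
      have h4 : ∀ j, ∑ i, M.adjugate k i * M i j = (M.adjugate * M) k j := fun j => by
        rw [Matrix.mul_apply]
      simp only [h4, Matrix.adjugate_mul, Matrix.smul_apply, Matrix.one_apply, smul_eq_mul]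
      simp
    obtain ⟨u, hu⟩ := hJ
    rw [← hu] at h3
    have h5 : ((u⁻¹ : Aˣ) : A) • ((u : A) • KaehlerDifferential.D Ω A (π (X k))) = 0 := by
      rw [h3, smul_zero]
    rwa [smul_smul, Units.inv_mul, one_smul] at h5
  have hD : ∀ a : A, KaehlerDifferential.D Ω A a = 0 := by
    intro a
    obtain ⟨p, rfl⟩ := hπ a
    rw [lagr_kaehler_chain]
    simp [hd]
  have hsub : Subsingleton (Ω[A⁄Ω]) := by
    rw [← Submodule.subsingleton_iff A, ← subsingleton_iff_bot_eq_top, eq_comm, eq_bot_iff,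
      ← KaehlerDifferential.span_range_derivation, Submodule.span_le]
    rintro _ ⟨a, rfl⟩
    simp [hD]
  have : Algebra.FormallyUnramified Ω A := ⟨hsub⟩
  have : Algebra.FiniteType Ω A := Algebra.FiniteType.of_surjective π hπ
  exact Algebra.FormallyUnramified.isReduced_of_field Ω A

theorem lagr_mem_of_vanish {Ω : Type*} [Field Ω] [IsAlgClosed Ω] {ι : Type*} [Fintype ι]
    [DecidableEq ι] (g : ι → MvPolynomial ι Ω)
    (hJ : ∀ s : ι → Ω, (∀ i, eval s (g i) = 0) → eval s (jac g) ≠ 0)
    (R : MvPolynomial ι Ω) (hR : ∀ s : ι → Ω, (∀ i, eval s (g i) = 0) → eval s R = 0) :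
    R ∈ Ideal.span (Set.range g) := by
  set I := Ideal.span (Set.range g) with hI
  have hgI : ∀ i, g i ∈ I := fun i => Ideal.subset_span ⟨i, rfl⟩
  -- jac is a unit mod I
  have htop : I ⊔ Ideal.span {jac g} = ⊤ := by
    have h1 : vanishingIdeal Ω (zeroLocus Ω (I ⊔ Ideal.span {jac g})) = ⊤ := by
      have h2 : zeroLocus Ω (I ⊔ Ideal.span {jac g}) = ∅ := by
        rw [Set.eq_empty_iff_forall_notMem]
        intro s hs
        rw [mem_zeroLocus_iff] at hs
        refine hJ s (fun i => ?_) ?_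
        · simpa using hs (g i) (Ideal.mem_sup_left (hgI i))
        · simpa using hs (jac g) (Ideal.mem_sup_right (Ideal.subset_span rfl))
      rw [h2, vanishingIdeal_empty]
    rw [vanishingIdeal_zeroLocus_eq_radical, Ideal.radical_eq_top] at h1
    exact h1
  have hunit : IsUnit (Ideal.Quotient.mkₐ Ω I (jac g)) := by
    have h1 : (1 : MvPolynomial ι Ω) ∈ I ⊔ Ideal.span {jac g} := by rw [htop]; trivial
    rw [Submodule.mem_sup] at h1
    obtain ⟨p, hp, q, hq, hpq⟩ := h1
    rw [Ideal.mem_span_singleton'] at hq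
    obtain ⟨a, rfl⟩ := hq
    apply IsUnit.of_mul_eq_one (Ideal.Quotient.mkₐ Ω I a)
    rw [← map_mul, ← map_one (Ideal.Quotient.mkₐ Ω I), ← hpq, map_add, mul_comm]
    have : Ideal.Quotient.mkₐ Ω I p = 0 := Ideal.Quotient.eq_zero_iff_mem.mpr hp
    rw [this, zero_add]
  have hred : IsReduced (MvPolynomial ι Ω ⧸ I) :=
    lagr_isReduced (Ideal.Quotient.mkₐ Ω I) (Ideal.Quotient.mkₐ_surjective Ω I) g
      (fun i => Ideal.Quotient.eq_zero_iff_mem.mpr (hgI i)) hunit
  have hrad : I.IsRadical := (Ideal.isRadical_iff_quotient_reduced I).mpr hred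
  have hRrad : R ∈ I.radical := by
    rw [← vanishingIdeal_zeroLocus_eq_radical (K := Ω), mem_vanishingIdeal_iff]
    intro s hs
    rw [mem_zeroLocus_iff] at hs
    have := hR s (fun i => by simpa using hs (g i) (hgI i))
    simpa using this
  exact hrad hRrad


/-- finitely many zeros. -/
theorem lagr_finite_zeros {Ω : Type*} [Field Ω] {ι : Type*} [Fintype ι]
    (g : ι → MvPolynomial ι Ω)
    (hfin : Module.Finite Ω (MvPolynomial ι Ω ⧸ Ideal.span (Set.range g))) :
    {s : ι → Ω | ∀ i, eval s (g i) = 0}.Finite := by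
  classical
  set I := Ideal.span (Set.range g) with hI
  have h1 : ∀ i : ι, ∃ P : Polynomial Ω, P ≠ 0 ∧ Polynomial.aeval (X i : MvPolynomial ι Ω) P ∈ I := by
    intro i
    have hint : IsIntegral Ω (Ideal.Quotient.mkₐ Ω I (X i)) := IsIntegral.of_finite _ _
    obtain ⟨P, hP, hP0⟩ := hint
    refine ⟨P, hP.ne_zero, ?_⟩
    have h2 : Ideal.Quotient.mkₐ Ω I (Polynomial.aeval (X i : MvPolynomial ι Ω) P) = 0 := by
      rw [← Polynomial.aeval_algHom_apply]
      exact hP0
    exact Ideal.Quotient.eq_zero_iff_mem.mp h2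
  choose P hP0 hPI using h1
  apply Set.Finite.subset (Set.Finite.pi (t := fun i => {x | x ∈ (P i).roots}) (fun i => ?_))
  · intro s hs
    rw [Set.mem_univ_pi]
    intro i
    simp only [Set.mem_ofPred_eq]
    rw [Polynomial.mem_roots (hP0 i), Polynomial.IsRoot.def]
    have h3 : ∀ p ∈ I, aeval s p = (0 : Ω) := by
      intro p hp
      have : I ≤ RingHom.ker (aeval s : MvPolynomial ι Ω →ₐ[Ω] Ω).toRingHom := by
        rw [hI, Ideal.span_le]
        rintro _ ⟨j, rfl⟩
        have := hs j
        simpa [RingHom.mem_ker] using this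
      exact this hp
    have h4 := h3 _ (hPI i)
    rw [← Polynomial.aeval_algHom_apply, aeval_X] at h4
    simpa using h4
  · exact (P i).roots.finite_toSet


theorem lagr_taylor {R : Type*} [CommRing R] {ι : Type*} [Fintype ι] (s : ι → R)
    (p : MvPolynomial ι R) (hp : eval s p = 0) :
    ∃ q : ι → MvPolynomial ι R, p = ∑ j, q j * (X j - C (s j)) := by
  classical
  have h1 : ∀ p : MvPolynomial ι R,
      p - C (eval s p) ∈ Ideal.span (Set.range fun j => X j - C (s j)) := by
    intro p
    induction p using MvPolynomial.induction_on with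
    | C a => simp
    | add p q hp hq =>
      have : p + q - C (eval s (p + q)) = (p - C (eval s p)) + (q - C (eval s q)) := by
        rw [map_add, C_add]; ring
      rw [this]
      exact Ideal.add_mem _ hp hq
    | mul_X p i hp =>
      have : p * X i - C (eval s (p * X i)) =
          X i * (p - C (eval s p)) + C (eval s p) * (X i - C (s i)) := by
        rw [map_mul, eval_X, C_mul]; ring
      rw [this]
      exact Ideal.add_mem _ (Ideal.mul_mem_left _ _ hp)
        (Ideal.mul_mem_left _ _ (Ideal.subset_span ⟨i, rfl⟩))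
  have h2 := h1 p
  rw [hp, C_0, sub_zero, Ideal.mem_span_range_iff_exists_fun] at h2
  obtain ⟨q, hq⟩ := h2
  exact ⟨q, hq.symm⟩

theorem lagr_bezout {R : Type*} [CommRing R] [IsDomain R] {ι : Type*} [Fintype ι] [DecidableEq ι]
    (g : ι → MvPolynomial ι R) (s : ι → R) (hs : ∀ i, eval s (g i) = 0) :
    ∃ Δ : MvPolynomial ι R, eval s Δ = eval s (jac g) ∧
      ∀ t : ι → R, (∀ i, eval t (g i) = 0) → t ≠ s → eval t Δ = 0 := by
  choose q hq using fun i => lagr_taylor s (g i) (hs i)
  refine ⟨Matrix.det (Matrix.of q), ?_, ?_⟩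
  · rw [jac, RingHom.map_det, RingHom.map_det]
    congr 1
    ext i j
    simp only [RingHom.mapMatrix_apply, Matrix.map_apply, Matrix.of_apply]
    conv_rhs => rw [hq i]
    rw [map_sum, map_sum, Finset.sum_eq_single j]
    · rw [pderiv_mul]
      simp
    · intro b _ hb
      rw [pderiv_mul]
      simp [pderiv_X_of_ne hb]
    · simp
  · intro t ht hts
    rw [RingHom.map_det, ← Matrix.exists_mulVec_eq_zero_iff]
    refine ⟨fun j => t j - s j, ?_, ?_⟩
    · intro h0
      apply hts
      ext j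
      have := congrFun h0 j
      simp only [Pi.zero_apply] at this
      exact sub_eq_zero.mp this
    · ext i
      simp only [Matrix.mulVec, dotProduct, RingHom.mapMatrix_apply, Matrix.map_apply,
        Matrix.of_apply, Pi.zero_apply]
      have := ht i
      rw [hq i, map_sum] at this
      simpa using this

section
variable {K : Type u} [Field K]

/-- integral elements of `Ω`. -/
def lagrO (Ω : Subfield (HS K)) : Subring (HS K) where
  carrier := {x | x ∈ Ω ∧ 0 ≤ x.orderTop}
  zero_mem' := ⟨Ω.zero_mem, by simp⟩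
  one_mem' := ⟨Ω.one_mem, by simp⟩
  add_mem' := fun {a b} ha hb => ⟨Ω.add_mem ha.1 hb.1,
    le_trans (le_min ha.2 hb.2) HahnSeries.min_orderTop_le_orderTop_add⟩
  mul_mem' := fun {a b} ha hb => ⟨Ω.mul_mem ha.1 hb.1, by
    rw [HahnSeries.orderTop_mul]; exact add_nonneg ha.2 hb.2⟩
  neg_mem' := fun {a} ha => ⟨Ω.neg_mem ha.1, by rw [HahnSeries.orderTop_neg]; exact ha.2⟩

theorem lagr_decomp (x : HS K) (hx : 0 ≤ x.orderTop) :
    0 < (x - HahnSeries.C (x.coeff 0)).orderTop := by
  apply lt_of_le_of_ne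
  · refine le_trans (le_min hx ?_) HahnSeries.min_orderTop_le_orderTop_sub
    exact HahnSeries.orderTop_single_le
  · have : (x - HahnSeries.C (x.coeff 0)).orderTop ≠ ((0 : ℚ) : WithTop ℚ) := by
      apply HahnSeries.orderTop_ne_of_coeff_eq_zero
      simp
    exact this.symm

theorem lagr_coeff_mul (x y : HS K) (hx : 0 ≤ x.orderTop) (hy : 0 ≤ y.orderTop) :
    (x * y).coeff 0 = x.coeff 0 * y.coeff 0 := by
  have h1 : x * y = HahnSeries.C (x.coeff 0 * y.coeff 0)
      + (HahnSeries.C (x.coeff 0) * (y - HahnSeries.C (y.coeff 0))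
        + (x - HahnSeries.C (x.coeff 0)) * y) := by
    rw [map_mul]; ring
  have h2 : (0 : WithTop ℚ) < (HahnSeries.C (x.coeff 0) * (y - HahnSeries.C (y.coeff 0))
        + (x - HahnSeries.C (x.coeff 0)) * y).orderTop := by
    refine lt_of_lt_of_le (lt_min ?_ ?_) HahnSeries.min_orderTop_le_orderTop_add
    · rw [HahnSeries.orderTop_mul]
      exact lt_of_lt_of_le (lagr_decomp y hy) (le_add_of_nonneg_left HahnSeries.orderTop_single_le)
    · rw [HahnSeries.orderTop_mul]
      exact lt_of_lt_of_le (lagr_decomp x hx) (le_add_of_nonneg_right hy)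
  have h3 := HahnSeries.coeff_eq_zero_of_lt_orderTop (i := (0 : ℚ)) h2
  rw [h1, HahnSeries.coeff_add, h3, add_zero]
  simp

/-- residue -/
noncomputable def lagrRes (Ω : Subfield (HS K)) : lagrO Ω →+* K where
  toFun x := (x : HS K).coeff 0
  map_one' := by simp
  map_mul' x y := lagr_coeff_mul _ _ x.2.2 y.2.2
  map_zero' := by simp
  map_add' x y := by simp

/-- inclusion -/
noncomputable def lagrIncl (Ω : Subfield (HS K)) : lagrO Ω →+* Ω where
  toFun x := ⟨(x : HS K), x.2.1⟩
  map_one' := rfl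
  map_mul' _ _ := rfl
  map_zero' := rfl
  map_add' _ _ := rfl

/-- constants -/
noncomputable def lagrK (Ω : Subfield (HS K)) (hC : ∀ a : K, HahnSeries.C a ∈ Ω) : K →+* lagrO Ω where
  toFun a := ⟨HahnSeries.C a, hC a, HahnSeries.orderTop_single_le⟩
  map_one' := by ext1; simp
  map_mul' x y := by ext1; simp
  map_zero' := by ext1; simp
  map_add' x y := by ext1; simp

theorem lagr_coe_eval {Ω : Subfield (HS K)} (hC : ∀ a : K, HahnSeries.C a ∈ Ω) {ι : Type*}
    (s : ι → lagrO Ω) (p : MvPolynomial ι K) :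
    ((eval s (map (lagrK Ω hC) p) : lagrO Ω) : HS K) = aeval (fun i => (s i : HS K)) p := by
  have : ((lagrO Ω).subtype).comp ((eval s).comp (map (lagrK Ω hC)))
      = (aeval (fun i => (s i : HS K)) : MvPolynomial ι K →ₐ[K] HS K).toRingHom := by
    apply MvPolynomial.ringHom_ext
    · intro a
      simp [lagrK, algebraMap_HS]
    · intro i
      simp
  exact RingHom.congr_fun this p

theorem lagr_coe_eval' {Ω : Subfield (HS K)} (hC : ∀ a : K, HahnSeries.C a ∈ Ω) {ι : Type*}
    (t : ι → Ω) (p : MvPolynomial ι K) :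
    ((eval t (map (lagrIncl Ω) (map (lagrK Ω hC) p)) : Ω) : HS K)
      = aeval (fun i => (t i : HS K)) p := by
  have : (Ω.subtype).comp ((eval t).comp ((map (lagrIncl Ω)).comp (map (lagrK Ω hC))))
      = (aeval (fun i => (t i : HS K)) : MvPolynomial ι K →ₐ[K] HS K).toRingHom := by
    apply MvPolynomial.ringHom_ext
    · intro a
      simp [lagrK, lagrIncl, algebraMap_HS]
    · intro i
      simp
  exact RingHom.congr_fun this p

end

theorem lagr_eta {K : Type u} [Field K] {ι : Type*} [Finite ι] (s : ι → HS K)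
    (hs : ∀ i, 0 ≤ (s i).orderTop) (J : HS K) (hJ0 : J ≠ 0) (h : MvPolynomial ι K)
    (hh : (∀ i, 0 < (s i).orderTop) → J.orderTop < (aeval s h).orderTop) :
    ∃ η : MvPolynomial ι K, eval 0 η ≠ 0 ∧ J.orderTop < (aeval s (η * h)).orderTop := by
  by_cases hall : ∀ i, 0 < (s i).orderTop
  · exact ⟨1, by simp, by simpa using hh hall⟩
  · push Not at hall
    obtain ⟨i, hi⟩ := hall
    have hi0 : (s i).orderTop = ((0 : ℚ) : WithTop ℚ) := le_antisymm hi (hs i)
    set a := (s i).coeff 0 with ha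
    have ha0 : a ≠ 0 := HahnSeries.coeff_orderTop_ne hi0
    have hpos := lagr_decomp (s i) (hs i)
    rw [← ha] at hpos
    obtain ⟨r, hr⟩ : ∃ r : ℚ, J.orderTop = (r : WithTop ℚ) :=
      ⟨_, (WithTop.coe_untop _ (HahnSeries.orderTop_ne_top.mpr hJ0)).symm⟩
    obtain ⟨ε, hε, hεle⟩ : ∃ ε : ℚ, 0 < ε ∧ (ε : WithTop ℚ) ≤ (s i - HahnSeries.C a).orderTop := by
      cases hc : (s i - HahnSeries.C a).orderTop with
      | top => exact ⟨1, one_pos, le_top⟩
      | coe q =>
        refine ⟨q, ?_, le_refl _⟩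
        rw [hc] at hpos
        exact_mod_cast hpos
    obtain ⟨E, hE⟩ := exists_nat_gt (r / ε)
    have hEr : r < E * ε := by
      rwa [div_lt_iff₀ hε] at hE
    refine ⟨(X i - C a) ^ E, ?_, ?_⟩
    · rw [map_pow, map_sub, eval_X, eval_C]
      apply pow_ne_zero
      simpa using ha0
    · have h1 : aeval s ((X i - C a) ^ E * h) = (s i - HahnSeries.C a) ^ E * aeval s h := by
        rw [map_mul, map_pow, map_sub, aeval_X, aeval_C, algebraMap_HS]
        rfl
      have h2 : 0 ≤ (aeval s h).orderTop := by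
        have := lagr_bound 0 le_rfl s hs h h.totalDegree le_rfl
        simpa using this
      rw [h1, HahnSeries.orderTop_mul, lagr_orderTop_pow, hr]
      have hlt : (r : WithTop ℚ) < E • (s i - HahnSeries.C a).orderTop :=
        calc (r : WithTop ℚ) < ((E * ε : ℚ) : WithTop ℚ) := by exact_mod_cast hEr
          _ = E • (ε : WithTop ℚ) := lagr_coe_nsmul _ _
          _ ≤ E • (s i - HahnSeries.C a).orderTop := nsmul_le_nsmul_right hεle _
      exact lt_of_lt_of_le hlt (le_add_of_nonneg_right h2)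

theorem lagr_totalDegree_map_le {A B : Type*} [CommRing A] [CommRing B] (φ : A →+* B) {ι : Type*}
    (p : MvPolynomial ι A) : (map φ p).totalDegree ≤ p.totalDegree :=
  Finset.sup_mono (support_map_subset φ p)

theorem lagr_eval_map {A B : Type*} [CommRing A] [CommRing B] (φ : A →+* B) {ι : Type*}
    (s : ι → A) (p : MvPolynomial ι A) : eval (fun i => φ (s i)) (map φ p) = φ (eval s p) := by
  have : (eval (fun i => φ (s i))).comp (map φ) = φ.comp (eval s) := by
    apply MvPolynomial.ringHom_ext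
    · intro a; simp
    · intro i; simp
  exact RingHom.congr_fun this p

theorem exists_mul_mem {K : Type u} [Field K] [IsAlgClosed K] [CharZero K]
    (Ω : Subfield (HS K)) (hΩ : IsAlgClosed Ω) (hC : ∀ a : K, HahnSeries.C a ∈ Ω)
    (hq : ∀ q : ℚ, HahnSeries.single q (1 : K) ∈ Ω)
    {ι : Type*} [Fintype ι] [DecidableEq ι] (D : ℕ) (f : ι → MvPolynomial ι K)
    (hf : ∀ i, (f i - X i ^ D).totalDegree < D) (uu : ι → K)
    (hJ : ∀ s : ι → HS K, (∀ i, s i ∈ Ω) → IsSol f uu s → aeval s (jac f) ≠ 0)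
    (h : MvPolynomial ι K)
    (hh : ∀ s : ι → HS K, (∀ i, s i ∈ Ω) → IsSol f uu s → (∀ i, 0 < (s i).orderTop) →
      (aeval s (jac f)).orderTop < (aeval s h).orderTop) :
    ∃ η : MvPolynomial ι K, eval 0 η ≠ 0 ∧ η * h ∈ Ideal.span (Set.range f) := by
  classical
  -- the system over `O`
  have hlam : ∀ a : K, (HahnSeries.single (1 : ℚ) a : HS K) ∈ Ω ∧
      0 ≤ (HahnSeries.single (1 : ℚ) a : HS K).orderTop := by
    intro a
    constructor
    · have : (HahnSeries.single (1 : ℚ) a : HS K) = HahnSeries.C a * HahnSeries.single 1 1 := by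
        rw [HahnSeries.C_apply, HahnSeries.single_mul_single]
        simp
      rw [this]
      exact Ω.mul_mem (hC a) (hq 1)
    · exact le_trans zero_le_one HahnSeries.orderTop_single_le
  set lam : ι → lagrO Ω := fun i => ⟨HahnSeries.single (1 : ℚ) (uu i), hlam (uu i)⟩ with hlamdef
  set g : ι → MvPolynomial ι (lagrO Ω) := fun i => map (lagrK Ω hC) (f i) - C (lam i) with hg
  set φ := lagrIncl Ω with hφ
  have hφinj : Function.Injective φ := by
    intro x y hxy
    apply Subtype.ext
    exact congrArg (fun z : Ω => (z : HS K)) hxy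
  have hgD : ∀ i, (g i - X i ^ D).totalDegree < D := by
    intro i
    have : g i - X i ^ D = map (lagrK Ω hC) (f i - X i ^ D) - C (lam i) := by
      simp only [hg, map_sub, map_pow, map_X]
      ring
    rw [this]
    refine lt_of_le_of_lt (totalDegree_sub _ _) (max_lt ?_ ?_)
    · exact lt_of_le_of_lt (lagr_totalDegree_map_le _ _) (hf i)
    · rw [totalDegree_C]
      exact lt_of_le_of_lt (Nat.zero_le _) (hf i)
  -- jacobian of g
  have hjac : jac g = map (lagrK Ω hC) (jac f) := by
    rw [jac, jac, RingHom.map_det]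
    congr 1
    ext1 i j
    simp only [Matrix.of_apply, RingHom.mapMatrix_apply, Matrix.map_apply, hg, map_sub, pderiv_C,
      sub_zero, pderiv_map]
  have hjac' : jac (fun i => map φ (g i)) = map φ (jac g) := by
    rw [jac, jac, RingHom.map_det]
    congr 1
    ext1 i j
    simp only [Matrix.of_apply, RingHom.mapMatrix_apply, Matrix.map_apply, pderiv_map]
  -- solutions
  have hsolO : ∀ s : ι → lagrO Ω, (∀ i, eval s (g i) = 0) → IsSol f uu (fun i => (s i : HS K)) := by
    intro s hs i
    rw [← lagr_coe_eval hC s (f i)]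
    have := hs i
    simp only [hg, map_sub, eval_C, sub_eq_zero] at this
    rw [this]
  have hsolΩ : ∀ t : ι → Ω, (∀ i, eval t (map φ (g i)) = 0) → IsSol f uu (fun i => (t i : HS K)) := by
    intro s hs i
    rw [← lagr_coe_eval' hC s (f i)]
    have := hs i
    simp only [hg, map_sub, map_C, eval_C, sub_eq_zero] at this
    rw [this]
    rfl
  have hlift : ∀ t : ι → Ω, (∀ i, eval t (map φ (g i)) = 0) →
      ∃ s : ι → lagrO Ω, (∀ i, eval s (g i) = 0) ∧ t = fun i => φ (s i) := by
    intro t ht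
    have hint := isSol_integral hf (hsolΩ t ht)
    refine ⟨fun i => ⟨(t i : HS K), (t i).2, hint i⟩, ?_, ?_⟩
    · intro i
      apply hφinj
      rw [map_zero, ← ht i, ← lagr_eval_map]
      rfl
    · ext i
      rfl
  have hfinΩ : {t : ι → Ω | ∀ i, eval t (map φ (g i)) = 0}.Finite := by
    apply lagr_finite_zeros
    apply finite_quotient_span D
    intro i
    have : map φ (g i) - X i ^ D = map φ (g i - X i ^ D) := by simp
    rw [this]
    exact lt_of_le_of_lt (lagr_totalDegree_map_le _ _) (hgD i)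
  have hfinO : {s : ι → lagrO Ω | ∀ i, eval s (g i) = 0}.Finite := by
    have hinj : Function.Injective (fun (s : ι → lagrO Ω) (i : ι) => φ (s i)) := by
      intro s s' hss
      ext1 i
      exact hφinj (congrFun hss i)
    refine Set.Finite.subset (hfinΩ.preimage (f := fun (s : ι → lagrO Ω) (i : ι) => φ (s i))
      hinj.injOn) ?_
    intro s hs i
    rw [lagr_eval_map, hs i, map_zero]
  set S : Finset (ι → lagrO Ω) := hfinO.toFinset with hS
  have hmemS : ∀ s, s ∈ S ↔ ∀ i, eval s (g i) = 0 := by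
    intro s
    rw [hS, Set.Finite.mem_toFinset]
    rfl
  -- values of the jacobian
  have hJs : ∀ s ∈ S, aeval (fun i => (s i : HS K)) (jac f) ≠ 0 := by
    intro s hs
    exact hJ _ (fun i => (s i).2.1) (hsolO s ((hmemS s).mp hs))
  have hJe : ∀ s : ι → lagrO Ω, ((eval s (jac g) : lagrO Ω) : HS K)
      = aeval (fun i => (s i : HS K)) (jac f) := by
    intro s
    rw [hjac, lagr_coe_eval]
  -- Bezoutians
  have hbez : ∀ s ∈ S, ∃ Δ : MvPolynomial ι (lagrO Ω), eval s Δ = eval s (jac g) ∧
      ∀ t : ι → lagrO Ω, (∀ i, eval t (g i) = 0) → t ≠ s → eval t Δ = 0 := by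
    intro s hs
    exact lagr_bezout g s ((hmemS s).mp hs)
  choose! Δ hΔ1 hΔ2 using hbez
  -- `η`
  have heta : ∀ s ∈ S, ∃ η : MvPolynomial ι K, eval 0 η ≠ 0 ∧
      (aeval (fun i => (s i : HS K)) (jac f)).orderTop
        < (aeval (fun i => (s i : HS K)) (η * h)).orderTop := by
    intro s hs
    have hsol := hsolO s ((hmemS s).mp hs)
    exact lagr_eta _ (isSol_integral hf hsol) _ (hJs s hs) h
      (hh _ (fun i => (s i).2.1) hsol)
  choose! ηs hη0 hη1 using heta
  set η : MvPolynomial ι K := ∏ s ∈ S, ηs s with hη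
  have hηv : ∀ s ∈ S, (aeval (fun i => (s i : HS K)) (jac f)).orderTop
        < (aeval (fun i => (s i : HS K)) (η * h)).orderTop := by
    intro s hs
    refine lt_of_lt_of_le (hη1 s hs) ?_
    have h1 : η * h = (∏ t ∈ S.erase s, ηs t) * (ηs s * h) := by
      rw [hη, ← Finset.mul_prod_erase S ηs hs]; ring
    have h2 : aeval (fun i => (s i : HS K)) (η * h) =
        aeval (fun i => (s i : HS K)) (∏ t ∈ S.erase s, ηs t) *
          aeval (fun i => (s i : HS K)) (ηs s * h) := by
      rw [h1]; exact map_mul _ _ _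
    rw [h2, HahnSeries.orderTop_mul]
    apply le_add_of_nonneg_left
    have := lagr_bound 0 le_rfl _ (fun i => (s i).2.2) (∏ t ∈ S.erase s, ηs t) _ le_rfl
    simpa using this
  -- the coefficients
  have hcs : ∀ s ∈ S, ∃ c : lagrO Ω, c * eval s (jac g) = eval s (map (lagrK Ω hC) (η * h)) ∧
      lagrRes Ω c = 0 := by
    intro s hs
    set J := aeval (fun i => (s i : HS K)) (jac f) with hJdef
    set y := aeval (fun i => (s i : HS K)) (η * h) with hy
    have hJ0 : J ≠ 0 := hJs s hs
    have hJΩ : J ∈ Ω := by rw [hJdef, ← hJe]; exact (eval s (jac g)).2.1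
    have hyΩ : y ∈ Ω := by rw [hy, ← lagr_coe_eval hC]; exact (eval s _).2.1
    have hmul : (y * J⁻¹) * J = y := by field_simp
    have hv : 0 < (y * J⁻¹).orderTop := by
      by_contra hcon
      push Not at hcon
      have h1 := hηv s hs
      rw [← hy, ← hmul, HahnSeries.orderTop_mul, ← hJdef] at h1
      have h2 : (y * J⁻¹).orderTop + J.orderTop ≤ 0 + J.orderTop := add_le_add hcon le_rfl
      rw [zero_add] at h2
      exact absurd (lt_of_lt_of_le h1 h2) (lt_irrefl _)
    refine ⟨⟨y * J⁻¹, Ω.mul_mem hyΩ (Ω.inv_mem hJΩ), hv.le⟩, ?_, ?_⟩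
    · apply Subtype.ext
      rw [lagr_coe_eval, ← hy, Subring.coe_mul, hJe]
      exact hmul
    · exact HahnSeries.coeff_eq_zero_of_lt_orderTop (i := (0 : ℚ)) hv
  choose! c hc1 hc2 using hcs
  set R : MvPolynomial ι (lagrO Ω) := map (lagrK Ω hC) (η * h) - ∑ s ∈ S, C (c s) * Δ s with hR
  have hR0 : ∀ s ∈ S, eval s R = 0 := by
    intro s hs
    rw [hR, map_sub, map_sum, Finset.sum_eq_single s]
    · rw [map_mul (eval s) (C (c s)), eval_C, hΔ1 s hs, hc1 s hs, sub_self]
    · intro t ht hts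
      rw [map_mul, hΔ2 t ht s ((hmemS s).mp hs) (Ne.symm hts), mul_zero]
    · intro hn; exact absurd hs hn
  have hRmem : map φ R ∈ Ideal.span (Set.range fun i => map φ (g i)) := by
    apply lagr_mem_of_vanish
    · intro t ht
      obtain ⟨s, hs, rfl⟩ := hlift t ht
      rw [hjac', lagr_eval_map]
      intro h0
      have h1 : eval s (jac g) = 0 := hφinj (by rw [h0, map_zero])
      apply hJs s ((hmemS s).mpr hs)
      rw [← hJe, h1]
      rfl
    · intro t ht
      obtain ⟨s, hs, rfl⟩ := hlift t ht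
      rw [lagr_eval_map, hR0 s ((hmemS s).mpr hs), map_zero]
  have hRO : R ∈ Ideal.span (Set.range g) := mem_span_of_map_mem φ hφinj D g hgD R hRmem
  -- reduce
  refine ⟨η, ?_, ?_⟩
  · rw [hη, map_prod]
    exact Finset.prod_ne_zero_iff.mpr hη0
  · have h1 := Ideal.mem_map_of_mem (map (lagrRes Ω)) hRO
    rw [Ideal.map_span, ← Set.range_comp] at h1
    have hres : (lagrRes Ω).comp (lagrK Ω hC) = RingHom.id K := by
      ext a
      simp [lagrRes, lagrK]
    have h2 : map (lagrRes Ω) R = η * h := by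
      rw [hR, map_sub, map_map, hres, map_id, map_sum]
      rw [Finset.sum_eq_zero, sub_zero]
      intro s hs
      rw [map_mul, map_C, hc2 s hs, C_0, zero_mul]
    have h3 : (map (lagrRes Ω)) ∘ g = f := by
      ext1 i
      simp only [Function.comp_apply, hg]
      rw [map_sub, map_map, hres, map_id, map_C]
      have : lagrRes Ω (lam i) = 0 := by
        change (HahnSeries.single (1 : ℚ) (uu i) : HS K).coeff 0 = 0
        exact HahnSeries.coeff_single_of_ne (by norm_num)
      rw [this, C_0, sub_zero]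
    rw [h2, h3] at h1
    exact h1

end FibReg
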