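import Pool.Agent.FibReg.LocalB2

/-! Module LocalB1: the values of the equations at a solution near the origin are divisible by
`λ`. -/

open MvPolynomial

namespace FibReg

universe u

set_option linter.unusedSectionVars false

section Local

variable {F K : Type u} [Field F] [Field K] [Algebra F K] [CharZero K] {ι J : Type}
  [Fintype ι] [DecidableEq ι] [Fintype J] [DecidableEq J]

theorem lb1_lt_add {e : ℚ} {b : WithTop ℚ} (hb : 0 < b) : (e : WithTop ℚ) < e + b := by
  induction b using WithTop.recTopCoe with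
  | top => rw [add_top]; exact WithTop.coe_lt_top e
  | coe b =>
    have hb' : (0 : ℚ) < b := by exact_mod_cast hb
    have : e < e + b := by linarith
    exact_mod_cast this

omit [CharZero K] in
theorem lb1_coeff_mul {x y : HS K} {e : ℚ} (hx : 0 ≤ x.orderTop) (hy : (e : WithTop ℚ) ≤ y.orderTop) :
    (x * y).coeff e = x.coeff 0 * y.coeff e := by
  have h1 : x * y = HahnSeries.C (x.coeff 0) * y + (x - HahnSeries.C (x.coeff 0)) * y := by ring
  have h2 : (e : WithTop ℚ) < ((x - HahnSeries.C (x.coeff 0)) * y).orderTop := by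
    rw [mul_comm, HahnSeries.orderTop_mul]
    exact lt_of_lt_of_le (lb1_lt_add (LRes.of_nonneg hx)) (by gcongr)
  rw [h1, HahnSeries.coeff_add, HahnSeries.coeff_eq_zero_of_lt_orderTop h2, add_zero,
    HahnSeries.C_apply, HahnSeries.coeff_single_zero_mul]

omit [CharZero K] in
theorem lb1_pow_nonneg {x : HS K} (hx : 0 ≤ x.orderTop) (n : ℕ) : 0 ≤ (x ^ n).orderTop :=
  (linAlgO K).pow_mem hx n

theorem lb1_theta_algebraMap (a : F) : ldTheta K (algebraMap F (HS K) a) = 0 := by
  ext q
  rw [ldTheta_coeff, ld_algebraMap, HahnSeries.C_apply, HahnSeries.coeff_single]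
  split_ifs with h
  · simp [h]
  · simp

theorem local_B1 (G : GenericData F K ι J) (ψ : J → MvPolynomial ι F)
    (hψ0 : ∀ j, eval 0 (ψ j) = 0) (s : MvPolynomial ι F) (hs : eval 0 s ≠ 0) (M D : ℕ)
    (hM : ∀ i, s * X i ^ M ∈ Ideal.span (Set.range ψ)) (hD : M < D)
    {ξ : ι → HS K} (hsol : IsSol (sysPoly ψ G.cc D) G.uu ξ) (hξ : ∀ i, 0 < (ξ i).orderTop) :
    ∀ j, 1 ≤ (aeval ξ (ψ j)).orderTop := by
  by_contra hcon
  push Not at hcon
  obtain ⟨j₁, hj₁⟩ := hcon
  have hne : Nonempty J := ⟨j₁⟩
  obtain ⟨l, hl⟩ := Finite.exists_min fun j => (aeval ξ (ψ j)).orderTop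
  have hl1 : (aeval ξ (ψ l)).orderTop < 1 := lt_of_le_of_lt (hl j₁) hj₁
  obtain ⟨e, he⟩ := WithTop.ne_top_iff_exists.1 (ne_top_of_lt hl1)
  rw [← he] at hl1
  have he1 : e < 1 := by exact_mod_cast hl1
  have hmin : ∀ j, (e : WithTop ℚ) ≤ (aeval ξ (ψ j)).orderTop := fun j => he ▸ hl j
  have he0 : 0 < e := by
    have h1 := LRes.aeval (F := F) hξ (ψ l)
    rw [hψ0, map_zero] at h1
    unfold LRes at h1
    rw [map_zero, sub_zero, ← he] at h1
    exact_mod_cast h1
  set g : J → K := fun j => (aeval ξ (ψ j)).coeff e with hg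
  have hgl : g l ≠ 0 := HahnSeries.coeff_orderTop_ne he.symm
  -- step A
  have hint : ∀ p : MvPolynomial ι F, 0 ≤ (aeval ξ p).orderTop :=
    fun p => (LRes.aeval hξ p).nonneg
  have hA : ∀ i, (e : WithTop ℚ) < (ξ i ^ D).orderTop := by
    intro i
    obtain ⟨c, hc⟩ := Ideal.mem_span_range_iff_exists_fun.1 (hM i)
    have h1 : (e : WithTop ℚ) ≤ (aeval ξ (s * X i ^ M)).orderTop := by
      rw [← hc, map_sum]
      refine linAlg_sum _ _ _ fun j _ => ?_
      rw [map_mul, HahnSeries.orderTop_mul]
      calc (e : WithTop ℚ) = 0 + e := (zero_add _).symm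
        _ ≤ _ := add_le_add (hint _) (hmin j)
    have h2 : (aeval ξ s).orderTop = 0 := (LRes.aeval hξ s).orderTop_eq (by simpa using hs)
    rw [map_mul, HahnSeries.orderTop_mul, h2, zero_add, map_pow, aeval_X] at h1
    obtain ⟨r, rfl⟩ := Nat.exists_eq_add_of_lt hD
    have h3 : ξ i ^ (M + r + 1) = ξ i ^ M * (ξ i ^ r * ξ i) := by ring
    rw [h3, HahnSeries.orderTop_mul]
    exact lt_of_lt_of_le (lb1_lt_add (ld_mul_pos (lb1_pow_nonneg (hξ i).le r) (hξ i)))
      (by gcongr)
  -- step B
  have hB : ∀ i, ∑ j, G.cc i j * g j = 0 := by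
    intro i
    have h1 := congrArg (fun x : HS K => x.coeff e) (hsol i)
    rw [lb2_aeval_sys, HahnSeries.coeff_add, HahnSeries.coeff_eq_zero_of_lt_orderTop (hA i),
      add_zero, HahnSeries.coeff_single_of_ne he1.ne, HahnSeries.coeff_sum] at h1
    rw [← h1]
    refine Finset.sum_congr rfl fun j _ => ?_
    rw [HahnSeries.C_apply, HahnSeries.coeff_single_zero_mul]
  -- step C
  let E : Option ι → HS K →+ HS K := fun a => match a with
    | none => ldTheta K
    | some i => ldD (G.Dc i l)
  have hE : ∀ a x y, E a (x * y) = x * E a y + y * E a x := by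
    intro a x y
    rcases a with _ | i
    · exact ldTheta_mul x y
    · exact ldD_mul _ x y
  have hEF : ∀ a (b : F), E a (algebraMap F (HS K) b) = 0 := by
    intro a b
    rcases a with _ | i
    · exact lb1_theta_algebraMap b
    · exact lb2_algebraMap _ (G.Dc_F i l) b
  obtain ⟨α, hα0, hα⟩ : ∃ α : Option ι → HS K, α ≠ 0 ∧ ∀ k, ∑ a, α a * E a (ξ k) = 0 := by
    let T : (Option ι → HS K) →ₗ[HS K] (ι → HS K) :=
      { toFun := fun α k => ∑ a, α a * E a (ξ k)
        map_add' := by
          intro α β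
          ext1 k
          simp [add_mul, Finset.sum_add_distrib]
        map_smul' := by
          intro c α
          ext1 k
          simp only [Pi.smul_apply, smul_eq_mul, mul_assoc, RingHom.id_apply]
          rw [← Finset.mul_sum] }
    have h1 : LinearMap.ker T ≠ ⊥ := by
      apply LinearMap.ker_ne_bot_of_finrank_lt
      rw [Module.finrank_fintype_fun_eq_card, Module.finrank_fintype_fun_eq_card,
        Fintype.card_option]
      omega
    obtain ⟨α, hα, hα0⟩ := Submodule.exists_mem_ne_zero_of_ne_bot h1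
    exact ⟨α, hα0, fun k => congrFun (LinearMap.mem_ker.1 hα) k⟩
  obtain ⟨a₀, ha₀⟩ := Finite.exists_min fun a => (α a).orderTop
  have ha0 : α a₀ ≠ 0 := by
    intro h0
    apply hα0
    funext a
    have := ha₀ a
    rw [h0, HahnSeries.orderTop_zero, top_le_iff, HahnSeries.orderTop_eq_top] at this
    exact this
  set β : Option ι → HS K := fun a => (α a₀)⁻¹ * α a with hβ
  have hβint : ∀ a, 0 ≤ (β a).orderTop := by
    intro a
    have h1 : α a = α a₀ * β a := by rw [hβ, mul_inv_cancel_left₀ ha0]
    have h2 := ha₀ a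
    rw [h1, HahnSeries.orderTop_mul] at h2
    have h3 : (α a₀).orderTop + 0 ≤ (α a₀).orderTop + (β a).orderTop := by rwa [add_zero]
    exact (WithTop.add_le_add_iff_left (by rwa [Ne, HahnSeries.orderTop_eq_top])).1 h3
  have hβ1 : β a₀ = 1 := inv_mul_cancel₀ ha0
  have hβE : ∀ j, ∑ a, β a * E a (aeval ξ (ψ j)) = 0 := by
    intro j
    have h1 : ∀ k, ∑ a, β a * E a (ξ k) = 0 := by
      intro k
      simp only [hβ, mul_assoc]
      rw [← Finset.mul_sum, hα k, mul_zero]
    calc ∑ a, β a * E a (aeval ξ (ψ j))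
        = ∑ a, ∑ k, aeval ξ (pderiv k (ψ j)) * (β a * E a (ξ k)) := by
          refine Finset.sum_congr rfl fun a _ => ?_
          rw [ld_chain (E a) (hE a) (hEF a), Finset.mul_sum]
          exact Finset.sum_congr rfl fun k _ => by ring
      _ = 0 := by
          rw [Finset.sum_comm]
          refine Finset.sum_eq_zero fun k _ => ?_
          rw [← Finset.mul_sum, h1 k, mul_zero]
  -- step D
  set b : Option ι → K := fun a => (β a).coeff 0 with hb
  have hEv : ∀ a j, (e : WithTop ℚ) ≤ (E a (aeval ξ (ψ j))).orderTop := by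
    intro a j
    rcases a with _ | i
    · exact (hmin j).trans (ldHom_orderTop _ _)
    · exact (hmin j).trans (ldHom_orderTop _ _)
  have hDd : ∀ j, b none * ((e : K) * g j) + ∑ i, b (some i) * G.Dc i l (g j) = 0 := by
    intro j
    have h1 := congrArg (fun x : HS K => x.coeff e) (hβE j)
    rw [HahnSeries.coeff_sum, HahnSeries.coeff_zero, Fintype.sum_option] at h1
    rw [← h1]
    have h2 : ∀ a, (β a * E a (aeval ξ (ψ j))).coeff e = b a * (E a (aeval ξ (ψ j))).coeff e :=
      fun a => lb1_coeff_mul (hβint a) (hEv a j)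
    exact (congrArg₂ (· + ·) (h2 none) (Finset.sum_congr rfl fun i _ => h2 (some i))).symm
  -- step E
  have hbi : ∀ i', b (some i') = 0 := by
    intro i'
    have h1 : ∀ i, ∑ j, G.cc i' j * G.Dc i l (g j) = -(if i' = i then g l else 0) := by
      intro i
      have h2 := congrArg (G.Dc i l) (hB i')
      rw [map_zero, map_sum] at h2
      have h3 : ∑ j, G.Dc i l (G.cc i' j * g j) =
          ∑ j, G.cc i' j * G.Dc i l (g j) + ∑ j, g j * G.Dc i l (G.cc i' j) := by
        rw [← Finset.sum_add_distrib]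
        refine Finset.sum_congr rfl fun j _ => ?_
        rw [Derivation.leibniz, smul_eq_mul, smul_eq_mul]
      have h4 : ∑ j, g j * G.Dc i l (G.cc i' j) = if i' = i then g l else 0 := by
        rw [Finset.sum_eq_single l]
        · rw [G.Dc_cc]
          by_cases h : i' = i <;> simp [h]
        · intro j _ hj
          rw [G.Dc_cc, if_neg (fun h => hj h.2), mul_zero]
        · simp
      rw [h3, h4] at h2
      linear_combination h2
    have h5 : ∑ j, G.cc i' j * (b none * ((e : K) * g j) +
        ∑ i, b (some i) * G.Dc i l (g j)) = 0 := by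
      simp only [hDd, mul_zero, Finset.sum_const_zero]
    have h6 : ∑ j, G.cc i' j * (b none * ((e : K) * g j) +
        ∑ i, b (some i) * G.Dc i l (g j)) =
        b none * (e : K) * ∑ j, G.cc i' j * g j +
          ∑ i, b (some i) * ∑ j, G.cc i' j * G.Dc i l (g j) := by
      simp only [mul_add, Finset.sum_add_distrib, Finset.mul_sum]
      congr 1
      · exact Finset.sum_congr rfl fun j _ => by ring
      · rw [Finset.sum_comm]
        exact Finset.sum_congr rfl fun i _ => Finset.sum_congr rfl fun j _ => by ring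
    rw [h6, hB, mul_zero, zero_add, Finset.sum_congr rfl fun i _ => by rw [h1 i]] at h5
    rw [Finset.sum_eq_single i'] at h5
    · rw [if_pos rfl] at h5
      have h7 : b (some i') * g l = 0 := by linear_combination -h5
      exact (mul_eq_zero.1 h7).resolve_right hgl
    · intro i _ hi
      rw [if_neg (Ne.symm hi)]
      simp
    · simp
  have hbn : b none = 0 := by
    have h1 := hDd l
    simp only [hbi, zero_mul, Finset.sum_const_zero, add_zero] at h1
    have he' : (e : K) ≠ 0 := by
      have : e ≠ 0 := he0.ne'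
      exact_mod_cast this
    exact (mul_eq_zero.1 h1).resolve_right (mul_ne_zero he' hgl)
  have hfin : b a₀ = 1 := by
    rw [hb]
    simp only
    rw [hβ1]
    simp
  rcases ha : a₀ with _ | i
  · rw [ha, hbn] at hfin
    exact zero_ne_one hfin
  · rw [ha, hbi] at hfin
    exact zero_ne_one hfin

end Local

end FibReg
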