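import Pool.Agent.FibReg.LocalDer

/-! Module LocalB2: the Jacobian at a solution of the generic system. -/

open MvPolynomial

namespace FibReg

universe u

set_option linter.unusedSectionVars false

section Local

variable {F K : Type u} [Field F] [Field K] [Algebra F K] [CharZero K] {ι J : Type}
  [Fintype ι] [DecidableEq ι] [Fintype J] [DecidableEq J]

omit [CharZero K] in
theorem lb2_algebraMap (D : Derivation ℤ K K) (hD : ∀ a : F, D (algebraMap F K a) = 0) (a : F) :
    ldD D (algebraMap F (HS K) a) = 0 := by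
  ext q
  rw [ldD_coeff, ld_algebraMap, HahnSeries.C_apply, HahnSeries.coeff_single]
  split_ifs
  · exact hD a
  · exact map_zero D

omit [CharZero K] in
theorem lb2_C (D : Derivation ℤ K K) (a : K) :
    ldD D (HahnSeries.C a : HS K) = HahnSeries.C (D a) := by
  ext q
  rw [ldD_coeff, HahnSeries.C_apply, HahnSeries.C_apply, HahnSeries.coeff_single,
    HahnSeries.coeff_single]
  split_ifs
  · rfl
  · exact map_zero D

omit [CharZero K] in
theorem lb2_aeval_map (ξ : ι → HS K) (p : MvPolynomial ι F) :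
    aeval ξ (map (algebraMap F K) p) = aeval ξ p := by
  induction p using MvPolynomial.induction_on with
  | C a => rw [map_C, aeval_C, aeval_C, ld_algebraMap, ld_algebraMap]; rfl
  | add p q hp hq => rw [map_add, map_add, map_add, hp, hq]
  | mul_X p i hp => rw [map_mul, map_mul, map_mul, map_X, aeval_X, aeval_X, hp]

omit [CharZero K] in
/-- value of the system at an arc -/
theorem lb2_aeval_sys (ψ : J → MvPolynomial ι F) (cc : ι → J → K) (D : ℕ) (i : ι) (ξ : ι → HS K) :
    aeval ξ (sysPoly ψ cc D i) = ∑ j, HahnSeries.C (cc i j) * aeval ξ (ψ j) + ξ i ^ D := by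
  unfold sysPoly
  rw [map_add, map_sum, map_pow, aeval_X]
  congr 1
  refine Finset.sum_congr rfl fun j _ => ?_
  rw [map_mul, aeval_C, lb2_aeval_map, ld_algebraMap]
  rfl

omit [CharZero K] in
/-- chain rule for the system: `E` kills `F` and the `c_ij` -/
theorem lb2_chain (ψ : J → MvPolynomial ι F) (cc : ι → J → K) (D : ℕ) (i : ι) (ξ : ι → HS K)
    (E : HS K →+ HS K) (hE : ∀ x y, E (x * y) = x * E y + y * E x)
    (hF : ∀ a : F, E (algebraMap F (HS K) a) = 0) (hc : ∀ j, E (HahnSeries.C (cc i j)) = 0) :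
    E (aeval ξ (sysPoly ψ cc D i)) =
      ∑ j, aeval ξ (pderiv j (sysPoly ψ cc D i)) * E (ξ j) := by
  have hpd : ∀ l, aeval ξ (pderiv l (sysPoly ψ cc D i)) =
      ∑ j, HahnSeries.C (cc i j) * aeval ξ (pderiv l (ψ j)) + aeval ξ (pderiv l (X i ^ D :
        MvPolynomial ι F)) := by
    intro l
    unfold sysPoly
    rw [map_add, map_add, map_sum, map_sum]
    congr 1
    · refine Finset.sum_congr rfl fun j _ => ?_
      rw [Derivation.leibniz, pderiv_C, smul_zero, add_zero, smul_eq_mul, map_mul, aeval_C,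
        MvPolynomial.pderiv_map, lb2_aeval_map, ld_algebraMap]
      rfl
    · rw [← map_X (algebraMap F K), ← map_pow, MvPolynomial.pderiv_map, lb2_aeval_map]
  rw [lb2_aeval_sys, map_add, map_sum]
  simp only [hpd, add_mul, Finset.sum_add_distrib]
  have h1 : E (ξ i ^ D) = ∑ l, aeval ξ (pderiv l (X i ^ D : MvPolynomial ι F)) * E (ξ l) := by
    rw [← ld_chain E hE hF ξ (X i ^ D), map_pow (aeval ξ), aeval_X]
  rw [h1]
  congr 1
  simp only [Finset.sum_mul]
  rw [Finset.sum_comm]
  refine Finset.sum_congr rfl fun j _ => ?_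
  rw [hE, hc, mul_zero, add_zero, ld_chain E hE hF, Finset.mul_sum]
  exact Finset.sum_congr rfl fun l _ => by ring

/-- the matrix `J(ξ)` times the matrix `(Du_l ξ_j)` is `λ` times the identity -/
theorem lb2_matrix (G : GenericData F K ι J) (ψ : J → MvPolynomial ι F) (D : ℕ)
    {ξ : ι → HS K} (hsol : IsSol (sysPoly ψ G.cc D) G.uu ξ) :
    (Matrix.of fun i j => aeval ξ (pderiv j (sysPoly ψ G.cc D i))) *
      (Matrix.of fun j l => ldD (G.Du l) (ξ j)) =
      (HahnSeries.single (1 : ℚ) (1 : K)) • (1 : Matrix ι ι (HS K)) := by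
  ext1 i l
  rw [Matrix.mul_apply]
  simp only [Matrix.of_apply]
  rw [← lb2_chain ψ G.cc D i ξ (ldD (G.Du l)) (ldD_mul _) (lb2_algebraMap _ (G.Du_F l))
    (fun j => by rw [lb2_C, G.Du_cc, map_zero]), hsol i, Matrix.smul_apply, Matrix.one_apply]
  ext q
  rw [ldD_coeff, HahnSeries.coeff_single]
  split_ifs with h1 h2 h2
  · subst h2
    rw [G.Du_uu, if_pos rfl]
    simp [h1]
  · rw [G.Du_uu, if_neg h2]
    simp
  · subst h2
    rw [map_zero]
    simp [h1]
  · rw [map_zero]
    simp

theorem lb2_det (G : GenericData F K ι J) (ψ : J → MvPolynomial ι F) (D : ℕ)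
    {ξ : ι → HS K} (hsol : IsSol (sysPoly ψ G.cc D) G.uu ξ) :
    aeval ξ (jac (sysPoly ψ G.cc D)) * (Matrix.of fun j l => ldD (G.Du l) (ξ j)).det =
      HahnSeries.single ((Fintype.card ι : ℕ) : ℚ) (1 : K) := by
  have h1 : aeval ξ (jac (sysPoly ψ G.cc D)) =
      (Matrix.of fun i j => aeval ξ (pderiv j (sysPoly ψ G.cc D i))).det := by
    unfold jac
    rw [AlgHom.map_det]
    rfl
  rw [h1, ← Matrix.det_mul, lb2_matrix G ψ D hsol, Matrix.det_smul, Matrix.det_one, mul_one,
    HahnSeries.single_pow]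
  simp

theorem local_J (G : GenericData F K ι J) (ψ : J → MvPolynomial ι F) (D : ℕ)
    {ξ : ι → HS K} (hsol : IsSol (sysPoly ψ G.cc D) G.uu ξ) :
    aeval ξ (jac (sysPoly ψ G.cc D)) ≠ 0 := by
  intro h
  have h1 := lb2_det G ψ D hsol
  rw [h, zero_mul] at h1
  exact (HahnSeries.single_ne_zero one_ne_zero) h1.symm

omit [CharZero K] in
theorem lb2_orderTop_prod {α : Type*} (s : Finset α) (f : α → HS K) :
    (∏ i ∈ s, f i).orderTop = ∑ i ∈ s, (f i).orderTop := by
  classical
  induction s using Finset.induction_on with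
  | empty => rw [Finset.prod_empty, Finset.sum_empty, HahnSeries.orderTop_one]
  | insert a s ha ih => rw [Finset.prod_insert ha, Finset.sum_insert ha, HahnSeries.orderTop_mul, ih]

theorem local_B2 (G : GenericData F K ι J) (ψ : J → MvPolynomial ι F) (D : ℕ)
    {ξ : ι → HS K} (hsol : IsSol (sysPoly ψ G.cc D) G.uu ξ) (hξ : ∀ i, 0 < (ξ i).orderTop)
    (z : ι → MvPolynomial ι F) (hz : (linPart z).det ≠ 0) :
    (aeval ξ (jac (sysPoly ψ G.cc D))).orderTop + ∑ k, (aeval ξ (z k)).orderTop
      ≤ ((Fintype.card ι : ℚ) : WithTop ℚ) := by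
  set E : Matrix ι ι (HS K) := Matrix.of fun j l => ldD (G.Du l) (ξ j) with hE
  set Z : Matrix ι ι (HS K) := Matrix.of fun k j => aeval ξ (pderiv j (z k)) with hZ
  have hZE : Z * E = Matrix.of fun k l => ldD (G.Du l) (aeval ξ (z k)) := by
    ext1 k l
    rw [Matrix.mul_apply]
    simp only [hZ, hE, Matrix.of_apply]
    rw [ld_chain (ldD (G.Du l)) (ldD_mul _) (lb2_algebraMap _ (G.Du_F l))]
  have hZdet : Z.det.orderTop = 0 := by
    have h1 : LRes Z.det ((linPart z).map (algebraMap F K)).det :=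
      LRes.det _ _ fun k j => LRes.aeval hξ (pderiv j (z k))
    refine h1.orderTop_eq ?_
    rw [← RingHom.mapMatrix_apply, ← RingHom.map_det]
    simpa using hz
  have hW : ∑ k, (aeval ξ (z k)).orderTop ≤
      (Matrix.of fun k l => ldD (G.Du l) (aeval ξ (z k))).det.orderTop := by
    rw [Matrix.det_apply]
    refine linAlg_sum _ _ _ fun σ _ => ?_
    have h2 : ∑ k, (aeval ξ (z k)).orderTop ≤
        (∏ i, (Matrix.of fun k l => ldD (G.Du l) (aeval ξ (z k))) (σ i) i).orderTop := by
      have h3 : (∏ i, (Matrix.of fun k l => ldD (G.Du l) (aeval ξ (z k))) (σ i) i).orderTop =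
          ∑ i, (ldD (G.Du i) (aeval ξ (z (σ i)))).orderTop := lb2_orderTop_prod _ _
      rw [h3, ← Equiv.sum_comp σ fun k => (aeval ξ (z k)).orderTop]
      exact Finset.sum_le_sum fun i _ => ldHom_orderTop _ _
    rcases Int.units_eq_one_or (Equiv.Perm.sign σ) with h | h
    · rw [h, one_smul]; exact h2
    · rw [h, Units.neg_smul, one_smul, HahnSeries.orderTop_neg]; exact h2
  have h5 : (Z * E).det.orderTop = E.det.orderTop := by
    rw [Matrix.det_mul, HahnSeries.orderTop_mul, hZdet, zero_add]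
  have h6 := congrArg HahnSeries.orderTop (lb2_det G ψ D hsol)
  rw [HahnSeries.orderTop_mul, HahnSeries.orderTop_single one_ne_zero] at h6
  rw [← hZE, h5] at hW
  calc (aeval ξ (jac (sysPoly ψ G.cc D))).orderTop + ∑ k, (aeval ξ (z k)).orderTop
      ≤ (aeval ξ (jac (sysPoly ψ G.cc D))).orderTop + E.det.orderTop := by gcongr
    _ = _ := h6

end Local

end FibReg
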