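import Pool.Agent.FibReg.Defs

/-!
# MP_9e4267_ag, module LocalB3: counting with maximal regular parameters
-/

open MvPolynomial

namespace FibReg

universe u

namespace LB3

section

variable {F K : Type u} [Field F] [Field K] [Algebra F K] {ι : Type}

/-- valuation of the value at the arc -/
noncomputable def vv (ξ : ι → HS K) (h : MvPolynomial ι F) : WithTop ℚ := (aeval ξ h).orderTop

theorem vv_mul (ξ : ι → HS K) (g h : MvPolynomial ι F) : vv ξ (g * h) = vv ξ g + vv ξ h := by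
  unfold vv
  rw [map_mul, HahnSeries.orderTop_mul]

theorem vv_add (ξ : ι → HS K) (g h : MvPolynomial ι F) : min (vv ξ g) (vv ξ h) ≤ vv ξ (g + h) := by
  unfold vv
  rw [map_add]
  exact HahnSeries.min_orderTop_le_orderTop_add

theorem vv_C_ne (ξ : ι → HS K) {c : F} (hc : c ≠ 0) : vv ξ (C c) = 0 := by
  unfold vv
  rw [aeval_C, algebraMap_HS, HahnSeries.C_apply, HahnSeries.orderTop_single]
  · rfl
  · intro h
    exact hc ((map_eq_zero (algebraMap F K)).mp h)

theorem vv_C_nonneg (ξ : ι → HS K) (c : F) : 0 ≤ vv ξ (C c) := by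
  by_cases hc : c = 0
  · rw [hc, C_0]; unfold vv; rw [map_zero, HahnSeries.orderTop_zero]; exact le_top
  · rw [vv_C_ne ξ hc]

theorem vv_one (ξ : ι → HS K) : vv ξ (1 : MvPolynomial ι F) = 0 := by
  rw [← C_1]; exact vv_C_ne ξ one_ne_zero

theorem vv_X (ξ : ι → HS K) (i : ι) : vv ξ (X i : MvPolynomial ι F) = (ξ i).orderTop := by
  unfold vv; rw [aeval_X]

theorem vv_nonneg {ξ : ι → HS K} (hξ : ∀ i, 0 < (ξ i).orderTop) (h : MvPolynomial ι F) :
    0 ≤ vv ξ h := by
  induction h using MvPolynomial.induction_on with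
  | C a => exact vv_C_nonneg ξ a
  | add p q hp hq => exact (le_min hp hq).trans (vv_add ξ p q)
  | mul_X p i hp =>
    rw [vv_mul, vv_X]
    exact add_nonneg hp (hξ i).le

theorem vv_sub_pos {ξ : ι → HS K} (hξ : ∀ i, 0 < (ξ i).orderTop) (h : MvPolynomial ι F) :
    0 < vv ξ (h - C (eval 0 h)) := by
  induction h using MvPolynomial.induction_on with
  | C a =>
    rw [eval_C, sub_self]; unfold vv; rw [map_zero, HahnSeries.orderTop_zero]
    exact WithTop.coe_lt_top 0
  | add p q hp hq =>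
    have e : p + q - C (eval 0 (p + q)) = (p - C (eval 0 p)) + (q - C (eval 0 q)) := by
      rw [map_add, map_add]; ring
    rw [e]
    exact (lt_min hp hq).trans_le (vv_add ξ _ _)
  | mul_X p i hp =>
    have e : p * X i - C (eval 0 (p * X i)) = p * X i := by
      rw [map_mul, eval_X]; simp
    rw [e, vv_mul, vv_X]
    have h1 := vv_nonneg hξ p
    exact lt_of_lt_of_le (hξ i) (le_add_of_nonneg_left h1)

theorem eval_zero_of_pos {ξ : ι → HS K} (hξ : ∀ i, 0 < (ξ i).orderTop) {h : MvPolynomial ι F}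
    (hh : 0 < vv ξ h) : eval 0 h = 0 := by
  by_contra hc
  have h1 := vv_sub_pos hξ h
  have e : C (eval 0 h) = h + (C (-1) : MvPolynomial ι F) * (h - C (eval 0 h)) := by
    rw [C_neg, C_1]; ring
  have h2 : 0 < vv ξ (C (eval 0 h) : MvPolynomial ι F) := by
    rw [e]
    refine (lt_min hh ?_).trans_le (vv_add ξ _ _)
    rw [vv_mul, vv_C_ne ξ (by norm_num), zero_add]
    exact h1
  rw [vv_C_ne ξ hc] at h2
  exact lt_irrefl _ h2

/-- truncated valuation -/
noncomputable def ww (ξ : ι → HS K) (h : MvPolynomial ι F) : ℚ := (min (vv ξ h) 1).untopD 0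

theorem coe_ww (ξ : ι → HS K) (h : MvPolynomial ι F) :
    ((ww ξ h : ℚ) : WithTop ℚ) = min (vv ξ h) 1 := by
  unfold ww
  have h1 : min (vv ξ h) 1 ≠ ⊤ := by
    apply ne_top_of_le_ne_top _ (min_le_right _ _)
    exact WithTop.coe_ne_top
  obtain ⟨a, ha⟩ := WithTop.ne_top_iff_exists.mp h1
  rw [← ha]; rfl

theorem ww_le_one (ξ : ι → HS K) (h : MvPolynomial ι F) : ww ξ h ≤ 1 := by
  have := coe_ww ξ h
  have h1 : ((ww ξ h : ℚ) : WithTop ℚ) ≤ ((1 : ℚ) : WithTop ℚ) := by
    rw [this]; exact min_le_right _ _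
  exact_mod_cast h1

theorem ww_le_vv (ξ : ι → HS K) (h : MvPolynomial ι F) : ((ww ξ h : ℚ) : WithTop ℚ) ≤ vv ξ h := by
  rw [coe_ww]; exact min_le_left _ _

theorem ww_nonneg {ξ : ι → HS K} (hξ : ∀ i, 0 < (ξ i).orderTop) (h : MvPolynomial ι F) :
    0 ≤ ww ξ h := by
  have h1 : ((0 : ℚ) : WithTop ℚ) ≤ ((ww ξ h : ℚ) : WithTop ℚ) := by
    rw [coe_ww]
    refine le_min (vv_nonneg hξ h) ?_
    exact_mod_cast (zero_le_one : (0 : ℚ) ≤ 1)
  exact_mod_cast h1

theorem le_ww {ξ : ι → HS K} {h : MvPolynomial ι F} {a : ℚ} (h1 : (a : WithTop ℚ) ≤ vv ξ h)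
    (h2 : a ≤ 1) : a ≤ ww ξ h := by
  have h3 : ((a : ℚ) : WithTop ℚ) ≤ ((ww ξ h : ℚ) : WithTop ℚ) := by
    rw [coe_ww]
    exact le_min h1 (by exact_mod_cast h2)
  exact_mod_cast h3

theorem ww_one (ξ : ι → HS K) : ww ξ (1 : MvPolynomial ι F) = 0 := by
  have h : ((ww ξ (1 : MvPolynomial ι F) : ℚ) : WithTop ℚ) = ((0 : ℚ) : WithTop ℚ) := by
    rw [coe_ww, vv_one]
    exact min_eq_left (by exact_mod_cast (zero_le_one : (0 : ℚ) ≤ 1))
  exact_mod_cast h

theorem one_le_of_mem {ξ : ι → HS K} {h : MvPolynomial ι F} (hh : h ∈ arcIdeal F ξ) :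
    1 ≤ vv ξ h := by
  have := hh 1
  rwa [one_mul] at this

/-- linear coefficient at the origin -/
noncomputable def ell (j : ι) (f : MvPolynomial ι F) : F := eval 0 (pderiv j f)

theorem ell_mul (j : ι) (f g : MvPolynomial ι F) :
    ell j (f * g) = eval 0 f * ell j g + ell j f * eval 0 g := by
  unfold ell
  rw [pderiv_mul, map_add, map_mul, map_mul]; ring

theorem ell_C_mul (j : ι) (c : F) (g : MvPolynomial ι F) : ell j (C c * g) = c * ell j g := by
  rw [ell_mul, eval_C]
  have : ell j (C c : MvPolynomial ι F) = 0 := by unfold ell; rw [pderiv_C, map_zero]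
  rw [this, zero_mul, add_zero]

theorem ell_sum {α : Type} (j : ι) (s : Finset α) (f : α → MvPolynomial ι F) :
    ell j (∑ i ∈ s, f i) = ∑ i ∈ s, ell j (f i) := by
  unfold ell; rw [map_sum, map_sum]

theorem ell_one (j : ι) : ell j (1 : MvPolynomial ι F) = 0 := by
  unfold ell; rw [← C_1, pderiv_C, map_zero]

theorem ell_pow_mul (j i₀ : ι) (a : ℕ) (y : MvPolynomial ι F) (hy : eval 0 y = 0) :
    ell j (X i₀ ^ a * y) = if a = 0 then ell j y else 0 := by
  rw [ell_mul, hy, mul_zero, add_zero, map_pow, eval_X]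
  split_ifs with h
  · rw [h, pow_zero, one_mul]
  · rw [Pi.zero_apply, zero_pow h, zero_mul]

theorem ell_pow (j i₀ : ι) (a : ℕ) :
    ell j (X i₀ ^ a * 1 : MvPolynomial ι F) = if a = 1 then ell j (X i₀ : MvPolynomial ι F) else 0 := by
  rw [mul_one]
  cases a with
  | zero => rw [pow_zero, ell_one, if_neg (by norm_num)]
  | succ a =>
    rw [pow_succ, ell_mul, map_pow, eval_X, Pi.zero_apply, mul_zero, add_zero]
    split_ifs with h
    · have : a = 0 := by omega
      rw [this, pow_zero, one_mul]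
    · have : a ≠ 0 := by omega
      rw [zero_pow this, zero_mul]

/-- sum over a range with a coefficient vanishing below `j₀` and outside the range -/
theorem sum_shift (n j₀ m : ℕ) (c : ℕ → F) (hc1 : ∀ j < j₀, c j = 0) (hc2 : ∀ j, n ≤ j → c j = 0)
    (e : F) : ∑ j ∈ Finset.range n, c j * (if j - j₀ = m then e else 0) = c (j₀ + m) * e := by
  by_cases hn : j₀ + m < n
  · rw [Finset.sum_eq_single (j₀ + m)]
    · rw [if_pos (by omega)]
    · intro j _ hj
      by_cases hjj : j < j₀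
      · rw [hc1 j hjj, zero_mul]
      · rw [if_neg (by omega), mul_zero]
    · intro h
      exact absurd (Finset.mem_range.mpr hn) h
  · rw [hc2 (j₀ + m) (by omega), zero_mul]
    apply Finset.sum_eq_zero
    intro j hj
    rw [Finset.mem_range] at hj
    by_cases hjj : j < j₀
    · rw [hc1 j hjj, zero_mul]
    · rw [if_neg (by omega), mul_zero]

end

section

variable {F K : Type u} [Field F] [Field K] [Algebra F K] {ι : Type} [Fintype ι] [DecidableEq ι]

/-- admissible families -/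
structure Adm (i₀ : ι) (y : ι → MvPolynomial ι F) : Prop where
  one : y i₀ = 1
  zero : ∀ k, k ≠ i₀ → eval 0 (y k) = 0
  det : (linPart (Function.update y i₀ (X i₀))).det ≠ 0

theorem linPart_apply (z : ι → MvPolynomial ι F) (k j : ι) : linPart z k j = ell j (z k) := rfl

theorem adm_init (i₀ : ι) : Adm (F := F) i₀ (Function.update X i₀ 1) := by
  refine ⟨by simp, ?_, ?_⟩
  · intro k hk
    rw [Function.update_of_ne hk, eval_X]; rfl
  · have e : Function.update (Function.update (X : ι → MvPolynomial ι F) i₀ 1) i₀ (X i₀) = X := by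
      rw [Function.update_idem, Function.update_eq_self]
    rw [e]
    have : linPart (X : ι → MvPolynomial ι F) = 1 := by
      ext k j
      rw [linPart_apply]
      unfold ell
      rw [pderiv_X, Matrix.one_apply]
      by_cases h : k = j
      · subst h; simp
      · rw [if_neg h, Pi.single_eq_of_ne h, map_zero]
    rw [this, Matrix.det_one]
    exact one_ne_zero

/-- number of basis elements -/
noncomputable def nn (ξ : ι → HS K) (v₀ : ℚ) (y : ι → MvPolynomial ι F) (k : ι) : ℕ :=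
  ⌈(1 - ww ξ (y k)) / v₀⌉₊

/-- replacing one member of the family -/
theorem adm_update {i₀ : ι} {y : ι → MvPolynomial ι F} (hy : Adm i₀ y) {k₁ : ι} (hk : k₁ ≠ i₀)
    {h' : MvPolynomial ι F} (h0 : eval 0 h' = 0) (CC : ι → F) (hCC : CC k₁ ≠ 0)
    (hell : ∀ j, ell j h' = ∑ k, CC k * ell j (Function.update y i₀ (X i₀) k)) :
    Adm i₀ (Function.update y k₁ h') := by
  refine ⟨?_, ?_, ?_⟩
  · rw [Function.update_of_ne hk.symm]; exact hy.one
  · intro k hki
    by_cases hkk : k = k₁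
    · rw [hkk, Function.update_self]; exact h0
    · rw [Function.update_of_ne hkk]; exact hy.zero k hki
  · rw [Function.update_comm hk.symm.symm]
    set z := Function.update y i₀ (X i₀) with hz
    have e : linPart (Function.update z k₁ h') =
        (linPart z).updateRow k₁ (∑ k, CC k • linPart z k) := by
      ext k j
      by_cases hkk : k = k₁
      · rw [hkk, Matrix.updateRow_self, linPart_apply, Function.update_self, hell j,
          Finset.sum_apply]
        rfl
      · rw [Matrix.updateRow_ne hkk, linPart_apply, linPart_apply, Function.update_of_ne hkk]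
    rw [e, Matrix.det_updateRow_sum]
    exact smul_ne_zero hCC hy.det

end

end LB3

open LB3

section Local

variable {F K : Type u} [Field F] [Field K] [Algebra F K] [CharZero K] {ι J : Type}
  [Fintype ι] [DecidableEq ι] [Fintype J] [DecidableEq J]

theorem LB3.indep (ξ : ι → HS K) (hξ : ∀ i, 0 < (ξ i).orderTop) (i₀ : ι) (v₀ : ℚ)
    (hv₀ : (ξ i₀).orderTop = (v₀ : WithTop ℚ)) (y : ι → MvPolynomial ι F) (hy : Adm i₀ y)
    (hmin : ∀ y' : ι → MvPolynomial ι F, Adm i₀ y' → ∑ k, nn ξ v₀ y k ≤ ∑ k, nn ξ v₀ y' k) :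
    LinearIndependent F (fun p : (Σ k : ι, Fin (nn ξ v₀ y k)) =>
      Ideal.Quotient.mkₐ F (arcIdeal F ξ) (X i₀ ^ (p.2 : ℕ) * y p.1)) := by
  classical
  have hv : 0 < v₀ := by
    have := hξ i₀
    rw [hv₀] at this
    exact_mod_cast this
  set n := nn ξ v₀ y with hn
  rw [Fintype.linearIndependent_iff]
  intro g hg
  by_contra hcon
  push Not at hcon
  obtain ⟨p₀, hp₀⟩ := hcon
  set c : ι → ℕ → F := fun k j => if hj : j < n k then g ⟨k, ⟨j, hj⟩⟩ else 0 with hc
  have hcout : ∀ k j, n k ≤ j → c k j = 0 := by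
    intro k j hj
    simp only [hc]
    rw [dif_neg (by omega)]
  have hex : ∃ j, ∃ k, c k j ≠ 0 := by
    refine ⟨p₀.2, p₀.1, ?_⟩
    simp only [hc]
    rw [dif_pos p₀.2.2]
    exact hp₀
  set j₀ := Nat.find hex with hj₀
  obtain ⟨k₁, hk₁⟩ := Nat.find_spec hex
  have hclow : ∀ k, ∀ j < j₀, c k j = 0 := by
    intro k j hj
    by_contra h
    exact Nat.find_min hex hj ⟨k, h⟩
  set h : MvPolynomial ι F := ∑ k, ∑ j ∈ Finset.range (n k), C (c k j) * (X i₀ ^ j * y k) with hh
  set h' : MvPolynomial ι F :=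
    ∑ k, ∑ j ∈ Finset.range (n k), C (c k j) * (X i₀ ^ (j - j₀) * y k) with hh'
  have hmem : h ∈ arcIdeal F ξ := by
    rw [← Ideal.Quotient.eq_zero_iff_mem]
    have e : (Ideal.Quotient.mk (arcIdeal F ξ)) h = ∑ p : (Σ k : ι, Fin (n k)), g p •
        Ideal.Quotient.mkₐ F (arcIdeal F ξ) (X i₀ ^ (p.2 : ℕ) * y p.1) := by
      rw [hh, map_sum, Fintype.sum_sigma]
      refine Finset.sum_congr rfl (fun k _ => ?_)
      rw [map_sum, Finset.sum_range]
      refine Finset.sum_congr rfl (fun j _ => ?_)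
      have e1 : c k j = g ⟨k, j⟩ := by
        simp only [hc]
        rw [dif_pos j.2]
      rw [e1, ← map_smul, MvPolynomial.smul_eq_C_mul]
      rfl
    rw [e]; exact hg
  have hfac : X i₀ ^ j₀ * h' = h := by
    rw [hh, hh', Finset.mul_sum]
    refine Finset.sum_congr rfl (fun k _ => ?_)
    rw [Finset.mul_sum]
    refine Finset.sum_congr rfl (fun j _ => ?_)
    by_cases hj : j < j₀
    · rw [hclow k j hj, C_0, zero_mul, zero_mul, mul_zero]
    · have : (X i₀ : MvPolynomial ι F) ^ j = X i₀ ^ j₀ * X i₀ ^ (j - j₀) := by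
        rw [← pow_add]; congr 1; omega
      rw [this]; ring
  have hpow : ∀ j : ℕ, vv ξ (X i₀ ^ j : MvPolynomial ι F) = ((j * v₀ : ℚ) : WithTop ℚ) := by
    intro j
    induction j with
    | zero => rw [pow_zero, vv_one, Nat.cast_zero, zero_mul]; rfl
    | succ j ih =>
      rw [pow_succ, vv_mul, ih, vv_X, hv₀, ← WithTop.coe_add]
      congr 1; push_cast; ring
  have hval : ((1 - j₀ * v₀ : ℚ) : WithTop ℚ) ≤ vv ξ h' := by
    have h1 := one_le_of_mem hmem
    rw [← hfac, vv_mul, hpow] at h1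
    rcases eq_or_ne (vv ξ h') ⊤ with ht | ht
    · rw [ht]; exact le_top
    · obtain ⟨a, ha⟩ := WithTop.ne_top_iff_exists.mp ht
      rw [← ha] at h1 ⊢
      have h2 : (1 : ℚ) ≤ j₀ * v₀ + a := by exact_mod_cast h1
      have h3 : (1 - j₀ * v₀ : ℚ) ≤ a := by linarith
      exact_mod_cast h3
  -- the pair `(k₁, j₀)` is in the index set
  have hin : ∀ k, c k j₀ ≠ 0 → j₀ < n k := by
    intro k hk
    by_contra hlt
    exact hk (hcout k j₀ (by omega))
  have hlt : ∀ k, c k j₀ ≠ 0 → (j₀ : ℚ) * v₀ + ww ξ (y k) < 1 := by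
    intro k hk
    have h1 := hin k hk
    rw [hn] at h1
    unfold nn at h1
    rw [Nat.lt_ceil, lt_div_iff₀ hv] at h1
    linarith
  have hpos : 0 < vv ξ h' := by
    refine lt_of_lt_of_le ?_ hval
    have h1 := hlt k₁ hk₁
    have h2 := ww_nonneg hξ (y k₁)
    have h3 : (0 : ℚ) < 1 - j₀ * v₀ := by linarith
    exact_mod_cast h3
  have hev := eval_zero_of_pos hξ hpos
  -- the constant term
  have hc0 : c i₀ j₀ = 0 := by
    have e : eval 0 h' = c i₀ j₀ := by
      rw [hh', map_sum]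
      rw [Finset.sum_eq_single i₀]
      · rw [map_sum]
        have := sum_shift (n i₀) j₀ 0 (c i₀) (hclow i₀) (hcout i₀) 1
        rw [add_zero, mul_one] at this
        rw [← this]
        refine Finset.sum_congr rfl (fun j _ => ?_)
        rw [map_mul, eval_C, map_mul, map_pow, eval_X, hy.one, map_one, mul_one, Pi.zero_apply]
        by_cases h0 : j - j₀ = 0
        · rw [h0, pow_zero, if_pos rfl]
        · rw [zero_pow h0, if_neg h0]
      · intro k _ hk
        rw [map_sum]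
        apply Finset.sum_eq_zero
        intro j _
        rw [map_mul, map_mul, hy.zero k hk, mul_zero, mul_zero]
      · intro h; exact absurd (Finset.mem_univ _) h
    rw [← e]; exact hev
  have hk1ne : k₁ ≠ i₀ := by
    rintro rfl
    exact hk₁ hc0
  set CC : ι → F := fun k => if k = i₀ then c i₀ (j₀ + 1) else c k j₀ with hCC
  have hell : ∀ j, ell j h' = ∑ k, CC k * ell j (Function.update y i₀ (X i₀) k) := by
    intro j
    rw [hh', ell_sum]
    refine Finset.sum_congr rfl (fun k _ => ?_)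
    rw [ell_sum]
    by_cases hk : k = i₀
    · rw [hk, Function.update_self, hCC]
      simp only [if_true]
      rw [← sum_shift (n i₀) j₀ 1 (c i₀) (hclow i₀) (hcout i₀)]
      refine Finset.sum_congr rfl (fun a _ => ?_)
      rw [ell_C_mul, hy.one, ell_pow]
    · rw [Function.update_of_ne hk, hCC]
      simp only [if_neg hk]
      have := sum_shift (n k) j₀ 0 (c k) (hclow k) (hcout k) (ell j (y k))
      rw [add_zero] at this
      rw [← this]
      refine Finset.sum_congr rfl (fun a _ => ?_)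
      rw [ell_C_mul, ell_pow_mul j i₀ _ _ (hy.zero k hk)]
  have hadm := adm_update hy hk1ne hev CC (by simp only [hCC, if_neg hk1ne]; exact hk₁) hell
  have hle := hmin _ hadm
  have hlt' : ∑ k, nn ξ v₀ (Function.update y k₁ h') k < ∑ k, n k := by
    have hk1 : nn ξ v₀ (Function.update y k₁ h') k₁ < n k₁ := by
      refine lt_of_le_of_lt ?_ (hin k₁ hk₁)
      unfold nn
      rw [Function.update_self, Nat.ceil_le, div_le_iff₀ hv]
      have h1 : 1 - (j₀ : ℚ) * v₀ ≤ ww ξ h' := by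
        refine le_ww hval ?_
        have : (0 : ℚ) ≤ j₀ * v₀ := by positivity
        linarith
      linarith
    refine Finset.sum_lt_sum (fun k _ => ?_) ⟨k₁, Finset.mem_univ _, hk1⟩
    by_cases hk : k = k₁
    · rw [hk]; exact hk1.le
    · rw [hn]; unfold nn; rw [Function.update_of_ne hk]
  omega

theorem local_B3 (ξ : ι → HS K) (hξ : ∀ i, 0 < (ξ i).orderTop) (i₀ : ι) (v₀ : ℚ)
    (hv₀ : (ξ i₀).orderTop = (v₀ : WithTop ℚ))
    (hfin : Module.Finite F (MvPolynomial ι F ⧸ arcIdeal F ξ)) (L : ℕ)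
    (hL : Module.finrank F (MvPolynomial ι F ⧸ arcIdeal F ξ) ≤ L) :
    ∃ z : ι → MvPolynomial ι F, (linPart z).det ≠ 0 ∧
      (((Fintype.card ι : ℚ) + v₀ : ℚ) : WithTop ℚ) ≤
        ((L * v₀ : ℚ) : WithTop ℚ) + ∑ k, (aeval ξ (z k)).orderTop := by
  classical
  have hv : 0 < v₀ := by
    have := hξ i₀
    rw [hv₀] at this
    exact_mod_cast this
  -- minimal admissible family
  have hexN : ∃ N : ℕ, ∃ y : ι → MvPolynomial ι F, Adm i₀ y ∧ ∑ k, nn ξ v₀ y k = N :=
    ⟨_, _, adm_init i₀, rfl⟩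
  obtain ⟨y, hy, hyN⟩ := Nat.find_spec hexN
  have hmin : ∀ y' : ι → MvPolynomial ι F, Adm i₀ y' → ∑ k, nn ξ v₀ y k ≤ ∑ k, nn ξ v₀ y' k := by
    intro y' hy'
    rw [hyN]
    exact Nat.find_min' hexN ⟨y', hy', rfl⟩
  have hind := LB3.indep ξ hξ i₀ v₀ hv₀ y hy hmin
  have hcard := hind.fintype_card_le_finrank
  rw [Fintype.card_sigma] at hcard
  simp only [Fintype.card_fin] at hcard
  have hNL : ((∑ k, nn ξ v₀ y k : ℕ) : ℚ) ≤ L := by exact_mod_cast hcard.trans hL
  have hsum : ∑ k, (1 - ww ξ (y k)) ≤ L * v₀ := by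
    have h1 : ∀ k ∈ (Finset.univ : Finset ι), 1 - ww ξ (y k) ≤ (nn ξ v₀ y k : ℚ) * v₀ := by
      intro k _
      have := Nat.le_ceil ((1 - ww ξ (y k)) / v₀)
      rw [div_le_iff₀ hv] at this
      exact this
    have h2 := Finset.sum_le_sum h1
    rw [← Finset.sum_mul] at h2
    push_cast at hNL
    exact h2.trans (mul_le_mul_of_nonneg_right hNL hv.le)
  refine ⟨Function.update y i₀ (X i₀), hy.det, ?_⟩
  set a : ι → ℚ := fun k => if k = i₀ then v₀ else ww ξ (y k) with ha
  have h1 : ((∑ k, a k : ℚ) : WithTop ℚ) ≤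
      ∑ k, (aeval ξ (Function.update y i₀ (X i₀) k)).orderTop := by
    rw [WithTop.coe_sum]
    refine Finset.sum_le_sum (fun k _ => ?_)
    by_cases hk : k = i₀
    · rw [hk, Function.update_self, aeval_X, hv₀, ha]
      simp
    · rw [Function.update_of_ne hk, ha]
      simp only [if_neg hk]
      exact ww_le_vv ξ (y k)
  have h2 : ∑ k, a k = v₀ + ∑ k, ww ξ (y k) := by
    rw [← Finset.add_sum_erase Finset.univ a (Finset.mem_univ i₀),
      ← Finset.add_sum_erase Finset.univ (fun k => ww ξ (y k)) (Finset.mem_univ i₀)]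
    have e1 : a i₀ = v₀ := by simp [ha]
    have e2 : ww ξ (y i₀) = 0 := by rw [hy.one, ww_one]
    rw [e1, e2, zero_add]
    congr 1
    refine Finset.sum_congr rfl (fun k hk => ?_)
    simp only [ha, if_neg (Finset.ne_of_mem_erase hk)]
  have h3 : ∑ k, (1 - ww ξ (y k)) = (Fintype.card ι : ℚ) - ∑ k, ww ξ (y k) := by
    rw [Finset.sum_sub_distrib, Finset.sum_const, Finset.card_univ, nsmul_eq_mul, mul_one]
  have h4 : (Fintype.card ι : ℚ) + v₀ ≤ L * v₀ + ∑ k, a k := by
    rw [h2]; linarith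
  calc (((Fintype.card ι : ℚ) + v₀ : ℚ) : WithTop ℚ) ≤ ((L * v₀ + ∑ k, a k : ℚ) : WithTop ℚ) := by
        exact_mod_cast h4
    _ = ((L * v₀ : ℚ) : WithTop ℚ) + ((∑ k, a k : ℚ) : WithTop ℚ) := WithTop.coe_add _ _
    _ ≤ _ := add_le_add le_rfl h1

end Local

end FibReg
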