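import Pool.Agent.FibReg.LinAlg

/-! Coefficientwise derivations of the Hahn series field, residues, chain rule (used by the
modules LocalB1 and LocalB2). -/

open MvPolynomial

namespace FibReg

universe u

section Der

variable {K : Type u} [Field K]

/-- the coefficientwise map `x ↦ ∑ δ_q (x_q) λ^q` -/
def ldMap (δ : ℚ → K →+ K) (x : HS K) : HS K where
  coeff q := δ q (x.coeff q)
  isPWO_support' := x.isPWO_support.mono (by
    intro q hq
    simp only [Function.mem_support] at hq
    intro h
    exact hq (by rw [h, map_zero]))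

theorem ldMap_support (δ : ℚ → K →+ K) (x : HS K) : (ldMap δ x).support ⊆ x.support := by
  intro q hq
  simp only [HahnSeries.mem_support] at hq ⊢
  intro h
  exact hq (by show δ q (x.coeff q) = 0; rw [h, map_zero])

/-- additive version of `ldMap` -/
def ldHom (δ : ℚ → K →+ K) : HS K →+ HS K where
  toFun := ldMap δ
  map_zero' := by
    ext q
    show δ q 0 = 0
    exact map_zero _
  map_add' := by
    intro x y
    ext q
    show δ q (x.coeff q + y.coeff q) = δ q (x.coeff q) + δ q (y.coeff q)
    exact map_add _ _ _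

/-- twisted Leibniz rule gives a derivation -/
theorem ldHom_mul (δ : ℚ → K →+ K)
    (hδ : ∀ p q a b, δ (p + q) (a * b) = a * δ q b + b * δ p a) (x y : HS K) :
    ldHom δ (x * y) = x * ldHom δ y + y * ldHom δ x := by
  ext g
  show δ g ((x * y).coeff g) = (x * ldMap δ y + y * ldMap δ x).coeff g
  rw [HahnSeries.coeff_add, mul_comm y, HahnSeries.coeff_mul,
    HahnSeries.coeff_mul_right' y.isPWO_support (ldMap_support δ y),
    HahnSeries.coeff_mul_left' x.isPWO_support (ldMap_support δ x), map_sum,
    ← Finset.sum_add_distrib]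
  refine Finset.sum_congr rfl fun ij hij => ?_
  have hij' : ij.1 + ij.2 = g := by simp_all
  rw [← hij', hδ]
  show _ = x.coeff ij.1 * δ ij.2 (y.coeff ij.2) + δ ij.1 (x.coeff ij.1) * y.coeff ij.2
  rw [mul_comm (y.coeff ij.2)]

theorem ldHom_coeff (δ : ℚ → K →+ K) (x : HS K) (q : ℚ) :
    (ldHom δ x).coeff q = δ q (x.coeff q) := rfl

theorem ldHom_orderTop (δ : ℚ → K →+ K) (x : HS K) : x.orderTop ≤ (ldHom δ x).orderTop := by
  by_cases h : ldHom δ x = 0
  · rw [h, HahnSeries.orderTop_zero]
    exact le_top
  · rw [HahnSeries.orderTop_of_ne_zero h]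
    by_contra hc
    push Not at hc
    have h1 : x.coeff ((ldHom δ x).isWF_support.min (HahnSeries.support_nonempty_iff.2 h)) = 0 :=
      HahnSeries.coeff_eq_zero_of_lt_orderTop hc
    have h2 := (ldHom δ x).isWF_support.min_mem (HahnSeries.support_nonempty_iff.2 h)
    rw [HahnSeries.mem_support, ldHom_coeff, h1, map_zero] at h2
    exact h2 rfl

/-- coefficientwise extension of a derivation -/
noncomputable def ldD (D : Derivation ℤ K K) : HS K →+ HS K := ldHom fun _ => D.toLinearMap.toAddMonoidHom

theorem ldD_coeff (D : Derivation ℤ K K) (x : HS K) (q : ℚ) :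
    (ldD D x).coeff q = D (x.coeff q) := rfl

theorem ldD_mul (D : Derivation ℤ K K) (x y : HS K) :
    ldD D (x * y) = x * ldD D y + y * ldD D x :=
  ldHom_mul _ (fun _ _ a b => D.leibniz a b) x y

/-- the Euler derivation `λ d/dλ` -/
noncomputable def ldTheta (K : Type u) [Field K] : HS K →+ HS K :=
  ldHom fun q => AddMonoidHom.mulLeft ((q : ℚ) : K)

theorem ldTheta_coeff (x : HS K) (q : ℚ) : (ldTheta K x).coeff q = (q : K) * x.coeff q := rfl

theorem ldTheta_mul [CharZero K] (x y : HS K) :
    ldTheta K (x * y) = x * ldTheta K y + y * ldTheta K x :=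
  ldHom_mul _ (fun p q a b => by
    simp only [AddMonoidHom.coe_mulLeft, Rat.cast_add]
    ring) x y

/-- chain rule for polynomials over a ring killed by the derivation -/
theorem ld_chain {R : Type*} [CommRing R] [Algebra R (HS K)] {ι : Type*} [Fintype ι]
    [DecidableEq ι] (E : HS K →+ HS K) (hE : ∀ x y, E (x * y) = x * E y + y * E x)
    (hR : ∀ r : R, E (algebraMap R (HS K) r) = 0) (ξ : ι → HS K) (p : MvPolynomial ι R) :
    E (aeval ξ p) = ∑ j, aeval ξ (pderiv j p) * E (ξ j) := by
  induction p using MvPolynomial.induction_on with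
  | C a => simp [hR]
  | add p q hp hq => simp [hp, hq, add_mul, Finset.sum_add_distrib]
  | mul_X p i hp =>
    rw [map_mul, hE, hp, aeval_X]
    have h1 : ∀ j, aeval ξ (pderiv j (p * X i)) * E (ξ j) =
        ξ i * (aeval ξ (pderiv j p) * E (ξ j)) + if j = i then aeval ξ p * E (ξ i) else 0 := by
      intro j
      rw [Derivation.leibniz, map_add, smul_eq_mul, smul_eq_mul, map_mul, map_mul, aeval_X,
        pderiv_X]
      by_cases hj : j = i
      · subst hj
        simp
        ring
      · simp [hj, Ne.symm hj]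
        ring
    rw [Finset.sum_congr rfl fun j _ => h1 j, Finset.sum_add_distrib, ← Finset.mul_sum]
    simp
    ring

/-! ### residues -/

/-- `x` has residue `a` -/
def LRes (x : HS K) (a : K) : Prop := 0 < (x - HahnSeries.C a).orderTop

theorem LRes.C (a : K) : LRes (HahnSeries.C a : HS K) a := by
  unfold LRes
  simp

theorem ld_add_pos {x y : HS K} {g : WithTop ℚ} (hx : g < x.orderTop) (hy : g < y.orderTop) :
    g < (x + y).orderTop := by
  have h : min x.orderTop y.orderTop ≤ (x + y).orderTop :=
    HahnSeries.min_orderTop_le_orderTop_add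
  exact lt_of_lt_of_le (lt_min hx hy) h

theorem LRes.add {x y : HS K} {a b : K} (hx : LRes x a) (hy : LRes y b) :
    LRes (x + y) (a + b) := by
  unfold LRes at *
  have h : x + y - HahnSeries.C (a + b) = (x - HahnSeries.C a) + (y - HahnSeries.C b) := by
    rw [map_add]; ring
  rw [h]
  exact ld_add_pos hx hy

theorem ld_C_nonneg (a : K) : 0 ≤ (HahnSeries.C a : HS K).orderTop := by
  by_cases h : a = 0
  · rw [h, map_zero, HahnSeries.orderTop_zero]; exact le_top
  · rw [HahnSeries.C_apply, HahnSeries.orderTop_single h]; rfl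

theorem LRes.nonneg {x : HS K} {a : K} (hx : LRes x a) : 0 ≤ x.orderTop := by
  have h : x = (x - HahnSeries.C a) + HahnSeries.C a := by ring
  rw [h]
  exact (linAlgO K).add_mem (le_of_lt hx) (ld_C_nonneg a)

theorem ld_mul_pos {x y : HS K} (hx : 0 ≤ x.orderTop) (hy : 0 < y.orderTop) :
    0 < (x * y).orderTop := by
  rw [HahnSeries.orderTop_mul]
  exact lt_of_lt_of_le hy (le_add_of_nonneg_left hx)

theorem LRes.mul {x y : HS K} {a b : K} (hx : LRes x a) (hy : LRes y b) :
    LRes (x * y) (a * b) := by
  have h : x * y - HahnSeries.C (a * b) = y * (x - HahnSeries.C a) +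
      HahnSeries.C a * (y - HahnSeries.C b) := by
    rw [map_mul]; ring
  unfold LRes
  rw [h]
  exact ld_add_pos (ld_mul_pos hy.nonneg hx) (ld_mul_pos (ld_C_nonneg a) hy)

theorem LRes.of_pos {x : HS K} (hx : 0 < x.orderTop) : LRes x 0 := by
  unfold LRes
  rwa [map_zero, sub_zero]

theorem LRes.coeff {x : HS K} {a : K} (hx : LRes x a) : x.coeff 0 = a := by
  have h := HahnSeries.coeff_eq_zero_of_lt_orderTop (x := x - HahnSeries.C a) (i := 0) hx
  rw [HahnSeries.coeff_sub, sub_eq_zero] at h
  rw [h]
  simp

theorem LRes.of_nonneg {x : HS K} (hx : 0 ≤ x.orderTop) : LRes x (x.coeff 0) := by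
  unfold LRes
  have h1 := linAlg_sub hx (ld_C_nonneg (x.coeff 0))
  refine lt_of_le_of_ne h1 fun h => ?_
  have hne : x - HahnSeries.C (x.coeff 0) ≠ 0 := by
    intro h0
    rw [h0, HahnSeries.orderTop_zero] at h
    exact absurd h (by simp)
  have h2 : (x - HahnSeries.C (x.coeff 0)).coeff 0 ≠ 0 :=
    HahnSeries.coeff_orderTop_ne h.symm
  apply h2
  simp

theorem LRes.orderTop_eq {x : HS K} {a : K} (hx : LRes x a) (ha : a ≠ 0) : x.orderTop = 0 := by
  refine le_antisymm ?_ hx.nonneg
  by_contra h
  push Not at h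
  exact ha (hx.coeff ▸ HahnSeries.coeff_eq_zero_of_lt_orderTop h)

theorem LRes.neg {x : HS K} {a : K} (hx : LRes x a) : LRes (-x) (-a) := by
  have h := (LRes.C (-1 : K)).mul hx
  simpa using h

theorem LRes.sum {α : Type*} (s : Finset α) (f : α → HS K) (a : α → K)
    (h : ∀ i ∈ s, LRes (f i) (a i)) : LRes (∑ i ∈ s, f i) (∑ i ∈ s, a i) := by
  classical
  induction s using Finset.induction_on with
  | empty => simpa using LRes.C (0 : K)
  | insert i s hi ih =>
    rw [Finset.sum_insert hi, Finset.sum_insert hi]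
    exact (h i (Finset.mem_insert_self _ _)).add (ih fun j hj => h j (Finset.mem_insert_of_mem hj))

theorem LRes.prod {α : Type*} (s : Finset α) (f : α → HS K) (a : α → K)
    (h : ∀ i ∈ s, LRes (f i) (a i)) : LRes (∏ i ∈ s, f i) (∏ i ∈ s, a i) := by
  classical
  induction s using Finset.induction_on with
  | empty => simpa using LRes.C (1 : K)
  | insert i s hi ih =>
    rw [Finset.prod_insert hi, Finset.prod_insert hi]
    exact (h i (Finset.mem_insert_self _ _)).mul (ih fun j hj => h j (Finset.mem_insert_of_mem hj))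

theorem LRes.det {n : Type*} [Fintype n] [DecidableEq n] (M : Matrix n n (HS K))
    (N : Matrix n n K) (h : ∀ i j, LRes (M i j) (N i j)) : LRes M.det N.det := by
  rw [Matrix.det_apply, Matrix.det_apply]
  refine LRes.sum _ _ _ fun σ _ => ?_
  have h1 : LRes (∏ i, M (σ i) i) (∏ i, N (σ i) i) := LRes.prod _ _ _ fun i _ => h _ _
  rcases Int.units_eq_one_or (Equiv.Perm.sign σ) with h2 | h2
  · rw [h2, one_smul, one_smul]; exact h1
  · rw [h2, Units.neg_smul, one_smul, Units.neg_smul, one_smul]; exact h1.neg

/-- The algebra structure found by instance search on `HS K` goes through power series, it is the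
expected one. -/
theorem ld_algebraMap {F : Type*} [Field F] [Algebra F K] (a : F) :
    algebraMap F (HS K) a = HahnSeries.C (algebraMap F K a) := rfl

/-- the residue of the value of a polynomial at an arc through the origin -/
theorem LRes.aeval {F : Type*} [Field F] [Algebra F K] {ι : Type*} {ξ : ι → HS K}
    (hξ : ∀ i, 0 < (ξ i).orderTop) (p : MvPolynomial ι F) :
    LRes (aeval ξ p) (algebraMap F K (eval 0 p)) := by
  induction p using MvPolynomial.induction_on with
  | C a =>
    rw [aeval_C, eval_C, ld_algebraMap]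
    exact LRes.C _
  | add p q hp hq =>
    rw [map_add, map_add, map_add]
    exact hp.add hq
  | mul_X p i hp =>
    rw [map_mul, map_mul, map_mul, aeval_X, eval_X, Pi.zero_apply, map_zero]
    exact hp.mul (LRes.of_pos (hξ i))

end Der

end FibReg
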