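import Pool.Agent.FibReg.Defs

/-!
# Regularity of fibres of general linear projections: transfer of the Jacobian condition
-/

open MvPolynomial

namespace FibReg

universe u

/-- A nonvanishing minor from a span of gradients of dimension at least `q`. -/
theorem Smooth_exists_minor {k : Type*} [Field k] {ι : Type*} [Fintype ι] (q : ℕ)
    (S : Set (ι → k)) (hS : q ≤ Module.finrank k (Submodule.span k S)) :
    ∃ (f : Fin q → ι → k) (js : Fin q → ι), (∀ l, f l ∈ S) ∧
      Matrix.det (Matrix.of fun l s => f l (js s)) ≠ 0 := by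
  classical
  obtain ⟨g, hgS, -, hgi⟩ := Submodule.exists_fun_fin_finrank_span_eq k S
  set f : Fin q → ι → k := fun l => g (Fin.castLE hS l) with hf
  have hfi : LinearIndependent k f :=
    hgi.comp (Fin.castLE hS) (Fin.castLE_injective hS)
  set M : Matrix (Fin q) ι k := Matrix.of f with hM
  have hrank : M.rank = q := by
    have h1 : LinearIndependent k M.row := hfi
    have := h1.rank_matrix
    simpa using this
  have hcol : q = Module.finrank k (Submodule.span k (Set.range M.col)) := by
    rw [← Matrix.rank_eq_finrank_span_cols]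
    exact hrank.symm
  obtain ⟨c, hc, -, hci⟩ := Submodule.exists_fun_fin_finrank_span_eq k (Set.range M.col)
  choose js0 hjs0 using hc
  let js : Fin q → ι := fun s => js0 (Fin.cast hcol s)
  refine ⟨f, js, fun l => hgS _, ?_⟩
  have hli : LinearIndependent k (fun s : Fin q => M.col (js s)) := by
    have h2 : (fun s : Fin q => M.col (js s)) = c ∘ Fin.cast hcol := by
      funext s
      simp only [js, Function.comp]
      exact hjs0 _
    rw [h2]
    exact hci.comp _ (Fin.cast_injective hcol)
  have h3 : IsUnit (Matrix.of fun l s => f l (js s)) := by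
    rw [← Matrix.linearIndependent_cols_iff_isUnit]
    exact hli
  exact ((Matrix.isUnit_iff_isUnit_det _).1 h3).ne_zero

theorem minor_transfer {k F : Type*} [Field k] [Field F] [Algebra k F] [IsAlgClosed k]
    {ι : Type*} [Fintype ι] (q : ℕ) (P : Ideal (MvPolynomial ι k))
    (hsm : ∀ x : ι → k, x ≠ 0 → (∀ G ∈ P, eval x G = 0) →
      q ≤ Module.finrank k (Submodule.span k {v : ι → k | ∃ G ∈ P, v = fun j => eval x (pderiv j G)}))
    (x : ι → F) (hx : x ≠ 0) (hxP : ∀ G ∈ P, aeval x G = 0) : MinorAt q P x := by
  classical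
  by_contra hcon
  have hcon' : ∀ (G : Fin q → MvPolynomial ι k) (js : Fin q → ι), (∀ l, G l ∈ P) →
      Matrix.det (Matrix.of fun l s => aeval x (pderiv (js s) (G l))) = 0 := by
    intro G js hG
    by_contra hne
    exact hcon ⟨G, js, hG, hne⟩
  set S : Set (MvPolynomial ι k) := {m | ∃ (G : Fin q → MvPolynomial ι k) (js : Fin q → ι),
    (∀ l, G l ∈ P) ∧ m = Matrix.det (Matrix.of fun l s => pderiv (js s) (G l))} with hSdef
  set I : Ideal (MvPolynomial ι k) := P ⊔ Ideal.span S with hI
  -- the zero locus of I over k is contained in {0}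
  have hzero : ∀ y ∈ zeroLocus k I, y = 0 := by
    intro y hy
    by_contra hy0
    have hyP : ∀ G ∈ P, eval y G = 0 := by
      intro G hG
      have := hy G (Ideal.mem_sup_left hG)
      simpa [aeval_eq_eval] using this
    obtain ⟨f, js, hf, hdet⟩ := Smooth_exists_minor q _ (hsm y hy0 hyP)
    choose G hGP hG using hf
    apply hdet
    have hmem : Matrix.det (Matrix.of fun l s => pderiv (js s) (G l)) ∈ I :=
      Ideal.mem_sup_right (Ideal.subset_span ⟨G, js, hGP, rfl⟩)
    have h1 := hy _ hmem
    rw [AlgHom.map_det] at h1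
    rw [← h1]
    congr 1
    ext l s
    simp [hG l, aeval_eq_eval]
  -- hence every variable is in the radical of I
  have hX : ∀ m, (X m : MvPolynomial ι k) ∈ I.radical := by
    intro m
    rw [← vanishingIdeal_zeroLocus_eq_radical (K := k) I]
    intro y hy
    rw [hzero y hy]
    simp
  -- evaluation at x kills I
  have hker : ∀ G ∈ I, aeval x G = 0 := by
    have hle : I ≤ RingHom.ker (aeval x : MvPolynomial ι k →ₐ[k] F) := by
      rw [hI, sup_le_iff]
      refine ⟨fun G hG => by simpa [RingHom.mem_ker] using hxP G hG, ?_⟩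
      rw [Ideal.span_le]
      rintro m ⟨G, js, hG, rfl⟩
      rw [SetLike.mem_coe, RingHom.mem_ker]
      rw [AlgHom.map_det, ← hcon' G js hG]
      congr 1
    intro G hG
    exact hle hG
  apply hx
  funext m
  obtain ⟨N, hN⟩ := hX m
  have h1 := hker _ hN
  rw [map_pow, aeval_X] at h1
  exact eq_zero_of_pow_eq_zero h1

end FibReg
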