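import Pool.Agent.FibReg.Defs

/-!
# MP_9e4267_ag, module Ultra: ultraproducts
-/

open MvPolynomial

namespace FibReg

universe u

theorem exists_ultra {k : Type u} [Field k] {τ : Type} [Finite τ] (Bad : (τ → k) → Prop)
    (hbad : ∀ P : MvPolynomial τ k, P ≠ 0 → ∃ a, eval a P ≠ 0 ∧ Bad a) :
    ∃ (I : Type u) (U : Ultrafilter I) (a : I → τ → k), (∀ i, Bad (a i)) ∧
      ∀ P : MvPolynomial τ k, P ≠ 0 → ∀ᶠ i in (U : Filter I), eval (a i) P ≠ 0 := by
  choose! a ha1 ha2 using hbad
  let I := {P : MvPolynomial τ k // P ≠ 0}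
  let f : I → Filter I := fun P => Filter.principal {Q | P.1 ∣ Q.1}
  have hf : Filter.NeBot (iInf f) := by
    have : Nonempty I := ⟨⟨1, one_ne_zero⟩⟩
    refine Filter.iInf_neBot_of_directed' ?_ ?_
    · intro P Q
      refine ⟨⟨P.1 * Q.1, mul_ne_zero P.2 Q.2⟩, ?_, ?_⟩
      · exact Filter.principal_mono.2 fun R hR => (dvd_mul_right _ _).trans hR
      · exact Filter.principal_mono.2 fun R hR => (dvd_mul_left _ _).trans hR
    · intro P
      exact Filter.principal_neBot_iff.2 ⟨P, dvd_rfl⟩
  refine ⟨I, Ultrafilter.of (iInf f), fun P => a P.1, fun P => ha2 P.1 P.2, fun P hP => ?_⟩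
  have h1 : {Q : I | P ∣ Q.1} ∈ iInf f :=
    Filter.mem_iInf_of_mem (⟨P, hP⟩ : I) (Filter.mem_principal_self _)
  have h2 := Ultrafilter.of_le (iInf f) h1
  filter_upwards [h2] with Q hQ h0
  obtain ⟨R, hR⟩ := hQ
  apply ha1 Q.1 Q.2
  rw [hR, map_mul, ← hR, h0, zero_mul]

theorem good_of_monomials {F : Type*} [Field F] {ι : Type*} (I : Ideal (MvPolynomial ι F)) (e : ℕ)
    (h : ∀ d : ι →₀ ℕ, d.degree = e + 1 → ∃ g : MvPolynomial ι F, g.totalDegree ≤ e ∧
      monomial d 1 - g ∈ I) (H : MvPolynomial ι F) :
    ∃ g : MvPolynomial ι F, g.totalDegree ≤ e ∧ H - g ∈ I := by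
  let 𝒢 : Submodule F (MvPolynomial ι F) :=
    { carrier := {H | ∃ g : MvPolynomial ι F, g.totalDegree ≤ e ∧ H - g ∈ I}
      zero_mem' := ⟨0, by simp, by simp⟩
      add_mem' := by
        rintro a b ⟨g, hg, hg'⟩ ⟨g₂, hg₂, hg₂'⟩
        refine ⟨g + g₂, (totalDegree_add _ _).trans (max_le hg hg₂), ?_⟩
        have : a + b - (g + g₂) = (a - g) + (b - g₂) := by ring
        rw [this]
        exact I.add_mem hg' hg₂'
      smul_mem' := by
        rintro c a ⟨g, hg, hg'⟩
        refine ⟨c • g, (totalDegree_smul_le _ _).trans hg, ?_⟩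
        rw [← smul_sub, smul_eq_C_mul]
        exact I.mul_mem_left _ hg' }
  have key : ∀ N : ℕ, ∀ H : MvPolynomial ι F, H.totalDegree ≤ N → H ∈ 𝒢 := by
    intro N
    induction N with
    | zero => intro H hH; exact ⟨H, by omega, by simp⟩
    | succ N ih =>
      intro H hH
      by_cases hNe : N + 1 ≤ e
      · exact ⟨H, by omega, by simp⟩
      · have hmon : ∀ d : ι →₀ ℕ, d.degree ≤ N + 1 → monomial d (1 : F) ∈ 𝒢 := by
          intro d hd
          by_cases hd' : d.degree ≤ N
          · refine ih _ ((totalDegree_monomial_le _ _).trans ?_)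
            exact hd'
          · obtain ⟨d', hd'd, hd'e⟩ := Finsupp.exists_le_degree_eq d (e + 1) (by omega)
            obtain ⟨g, hg, hg'⟩ := h d' hd'e
            obtain ⟨d'', rfl⟩ := exists_add_of_le hd'd
            have h1 : monomial (d' + d'') (1 : F) =
                (monomial d' 1 - g) * monomial d'' 1 + g * monomial d'' 1 := by
              rw [sub_mul, monomial_mul, one_mul]
              ring
            rw [h1]
            refine 𝒢.add_mem ⟨0, by simp, ?_⟩ (ih _ ?_)
            · rw [sub_zero]
              exact I.mul_mem_right _ hg'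
            · refine (totalDegree_mul _ _).trans ?_
              have h2 : (monomial d'' (1 : F)).totalDegree ≤ d''.degree := by
                exact totalDegree_monomial_le _ _
              rw [map_add] at hd
              omega
        rw [H.as_sum]
        refine 𝒢.sum_mem fun d hd => ?_
        have h1 : monomial d (coeff d H) = coeff d H • monomial d (1 : F) := by
          rw [smul_monomial, smul_eq_mul, mul_one]
        rw [h1]
        refine 𝒢.smul_mem _ (hmon d ?_)
        have := le_totalDegree hd
        exact le_trans le_rfl (this.trans hH)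
  exact key _ H le_rfl

/-! ### the ultraproduct field -/

section UltraField

variable {k : Type u} [Field k] {I : Type u} (U : Ultrafilter I)

/-- the ultrapower of `k` -/
abbrev UltraF (k : Type u) [Field k] {I : Type u} (U : Ultrafilter I) : Type u :=
  Filter.Germ (U : Filter I) k

/-- the ring homomorphism from the full product to the ultraproduct -/
noncomputable def ultra_phi : (I → k) →+* UltraF k U := Filter.Germ.coeRingHom (U : Filter I)

theorem ultra_phi_surj : Function.Surjective (ultra_phi (k := k) U) := Quotient.mk_surjective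

theorem ultra_phi_eq_zero {f : I → k} : ultra_phi U f = 0 ↔ ∀ᶠ t in (U : Filter I), f t = 0 :=
  Filter.Germ.coe_eq (g := 0)

/-- the structure of a `k`-algebra on the ultraproduct -/
@[reducible] noncomputable def ultra_algebra : Algebra k (UltraF k U) :=
  ((ultra_phi U).comp (Pi.constRingHom I k)).toAlgebra

attribute [local instance] ultra_algebra

theorem ultra_algebraMap (a : k) : algebraMap k (UltraF k U) a = ultra_phi U (fun _ => a) := rfl

theorem ultra_isAlgClosed [IsAlgClosed k] : IsAlgClosed (UltraF k U) := by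
  refine IsAlgClosed.of_exists_root _ fun p hp hirr => ?_
  obtain ⟨q, hq, hqd, hqm⟩ := Polynomial.lifts_and_natDegree_eq_and_monic
    (f := ultra_phi (k := k) U) (p := p) (by
      rw [Polynomial.lifts_iff_coeff_lifts]
      intro n
      exact ultra_phi_surj U _) hp
  have hroot : ∀ t : I, ∃ r : k, (q.map (Pi.evalRingHom (fun _ => k) t)).eval r = 0 := by
    intro t
    have hmon : (q.map (Pi.evalRingHom (fun _ : I => k) t)).Monic := hqm.map _
    have hdeg : (q.map (Pi.evalRingHom (fun _ : I => k) t)).natDegree = p.natDegree := by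
      rw [hqm.natDegree_map, hqd]
    have h1 : 0 < p.natDegree := hirr.natDegree_pos
    refine IsAlgClosed.exists_root _ ?_
    intro h0
    have h2 := Polynomial.natDegree_eq_zero_iff_degree_le_zero.2 (le_of_eq h0)
    rw [hdeg] at h2
    exact absurd h2 (Nat.pos_iff_ne_zero.1 h1)
  choose r hr using hroot
  refine ⟨ultra_phi U r, ?_⟩
  have h2 : q.eval r = 0 := by
    funext t
    have h3 := hr t
    rw [Polynomial.eval_map] at h3
    have h4 : (Pi.evalRingHom (fun _ : I => k) t) (q.eval r) =
        q.eval₂ (Pi.evalRingHom (fun _ : I => k) t) (r t) :=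
      Polynomial.hom_eval₂ q (RingHom.id _) (Pi.evalRingHom (fun _ : I => k) t) r |>.trans (by
        rw [RingHom.comp_id]
        rfl)
    exact h4.trans h3
  rw [← hq, Polynomial.eval_map, Polynomial.eval₂_hom, h2, map_zero]

variable {ι : Type} 

theorem ultra_map_eq_zero {D : MvPolynomial ι (I → k)} (hD : map (ultra_phi U) D = 0) :
    ∀ᶠ t in (U : Filter I), map (Pi.evalRingHom (fun _ : I => k) t) D = 0 := by
  have h1 : ∀ d ∈ D.support, ∀ᶠ t in (U : Filter I), coeff d D t = 0 := by
    intro d _
    rw [← ultra_phi_eq_zero]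
    have := congrArg (coeff d) hD
    rwa [coeff_map, coeff_zero] at this
  have h2 : ∀ᶠ t in (U : Filter I), ∀ d ∈ D.support, coeff d D t = 0 :=
    (Filter.eventually_all_finset _).2 h1
  filter_upwards [h2] with t ht
  ext d
  rw [coeff_map, coeff_zero]
  by_cases hd : d ∈ D.support
  · exact ht d hd
  · rw [notMem_support_iff.1 hd, map_zero]

theorem ultra_exists_lift (g : MvPolynomial ι (UltraF k U)) :
    ∃ g' : MvPolynomial ι (I → k), map (ultra_phi U) g' = g ∧ g'.support ⊆ g.support := by
  classical
  choose s hs using ultra_phi_surj (k := k) U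
  refine ⟨∑ d ∈ g.support, monomial d (s (coeff d g)), ?_, ?_⟩
  · rw [map_sum]
    conv_rhs => rw [g.as_sum]
    exact Finset.sum_congr rfl fun d _ => by rw [map_monomial, hs]
  · refine (support_sum).trans ?_
    intro d hd
    rw [Finset.mem_biUnion] at hd
    obtain ⟨d', hd', hd⟩ := hd
    have := support_monomial_subset hd
    rw [Finset.mem_singleton] at this
    rwa [this]

variable [Fintype ι] {κ : Type} (P : Ideal (MvPolynomial ι k)) (A : I → κ → ι → k) (p : I → κ → k)

/-- the ideal over the full product ring -/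
noncomputable def ultra_ideal : Ideal (MvPolynomial ι (I → k)) :=
  P.map (map (Pi.constRingHom I k)) ⊔ Ideal.span (Set.range fun i : κ =>
    (∑ m, C (fun t => A t i m) * X m) - C (fun t => p t i))

theorem ultra_ideal_map : (ultra_ideal P A p).map (map (ultra_phi U)) =
    affIdeal (extIdeal (UltraF k U) P) (fun i m => ultra_phi U fun t => A t i m)
      (fun i => ultra_phi U fun t => p t i) := by
  rw [ultra_ideal, Ideal.map_sup, Ideal.map_map, affIdeal, extIdeal, Ideal.map_span,
    ← Set.range_comp]
  congr 2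
  · refine RingHom.ext fun G => ?_
    rw [RingHom.comp_apply, map_map]
    rfl
  · congr 1
    funext i
    simp only [Function.comp, lin, map_sub, map_sum, map_mul, map_C, map_X]

theorem ultra_ideal_ev (t : I) {x : MvPolynomial ι (I → k)} (hx : x ∈ ultra_ideal P A p) :
    map (Pi.evalRingHom (fun _ : I => k) t) x ∈ affIdeal P (A t) (p t) := by
  have h1 : (ultra_ideal P A p).map (map (Pi.evalRingHom (fun _ : I => k) t)) ≤
      affIdeal P (A t) (p t) := by
    rw [ultra_ideal, Ideal.map_sup, Ideal.map_map, affIdeal, Ideal.map_span, ← Set.range_comp]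
    refine sup_le_sup ?_ ?_
    · rw [Ideal.map_le_iff_le_comap]
      intro G hG
      rw [Ideal.mem_comap]
      have : ((map (Pi.evalRingHom (fun _ : I => k) t)).comp
          (map (σ := ι) (Pi.constRingHom I k))) G = G := by
        rw [RingHom.comp_apply, map_map]
        exact map_id _
      rwa [this]
    · refine Ideal.span_mono ?_
      rintro _ ⟨i, rfl⟩
      refine ⟨i, ?_⟩
      simp only [Function.comp, lin, map_sub, map_sum, map_mul, map_C, map_X]
      rfl
  exact h1 (Ideal.mem_map_of_mem _ hx)

theorem ultra_transfer (x : MvPolynomial ι (I → k))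
    (hx : map (ultra_phi U) x ∈ affIdeal (extIdeal (UltraF k U) P)
      (fun i m => ultra_phi U fun t => A t i m) (fun i => ultra_phi U fun t => p t i)) :
    ∀ᶠ t in (U : Filter I), map (Pi.evalRingHom (fun _ : I => k) t) x ∈
      affIdeal P (A t) (p t) := by
  rw [← ultra_ideal_map, Ideal.mem_map_iff_of_surjective _
    (map_surjective _ (ultra_phi_surj U))] at hx
  obtain ⟨y, hy, hyx⟩ := hx
  have h1 : map (ultra_phi U) (x - y) = 0 := by rw [map_sub, hyx, sub_self]
  filter_upwards [ultra_map_eq_zero U h1] with t ht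
  rw [map_sub, sub_eq_zero] at ht
  rw [ht]
  exact ultra_ideal_ev P A p t hy

end UltraField

attribute [local instance] ultra_algebra

theorem exists_ultra_field {k : Type u} [Field k] [IsAlgClosed k] {ι κ : Type}
    [Fintype ι] [Fintype κ] (P : Ideal (MvPolynomial ι k)) (I : Type u) (U : Ultrafilter I)
    (A : I → κ → ι → k) :
    ∃ (F : Type u) (_ : Field F) (_ : Algebra k F) (A' : κ → ι → F), IsAlgClosed F ∧
      (∀ Q : MvPolynomial (κ × ι) k, aeval (fun im => A' im.1 im.2) Q = 0 →
        ∀ᶠ t in (U : Filter I), eval (fun im => A t im.1 im.2) Q = 0) ∧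
      ∀ p : I → κ → k, ∃ p' : κ → F, ((∀ t, p t = 0) → p' = 0) ∧
        ((∀ᶠ t in (U : Filter I), p t ≠ 0) → p' ≠ 0) ∧
        (∀ H : MvPolynomial ι k, map (algebraMap k F) H ∈ affIdeal (extIdeal F P) A' p' →
          ∀ᶠ t in (U : Filter I), H ∈ affIdeal P (A t) (p t)) ∧
        (∀ (H : MvPolynomial ι k) (e : ℕ),
          (∃ g : MvPolynomial ι F, g.totalDegree ≤ e ∧
            map (algebraMap k F) H - g ∈ affIdeal (extIdeal F P) A' p') →
          ∀ᶠ t in (U : Filter I), ∃ g : MvPolynomial ι k, g.totalDegree ≤ e ∧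
            H - g ∈ affIdeal P (A t) (p t)) := by
  have hconst : ∀ H : MvPolynomial ι k, map (algebraMap k (UltraF k U)) H =
      map (ultra_phi U) (map (Pi.constRingHom I k) H) := by
    intro H
    rw [map_map]
    rfl
  have hev : ∀ (t : I) (H : MvPolynomial ι k), map (Pi.evalRingHom (fun _ : I => k) t)
      (map (Pi.constRingHom I k) H) = H := by
    intro t H
    rw [map_map]
    exact map_id _
  refine ⟨UltraF k U, inferInstance, inferInstance, fun i m => ultra_phi U fun t => A t i m,
    ultra_isAlgClosed U, ?_, fun p => ⟨fun i => ultra_phi U fun t => p t i, ?_, ?_, ?_, ?_⟩⟩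
  · intro Q hQ
    rw [← ultra_phi_eq_zero, ← hQ]
    have h1 := eval₂_comp_left (ultra_phi (k := k) U) (Pi.constRingHom I k)
      (fun (im : κ × ι) (t : I) => A t im.1 im.2) Q
    have h2 : (fun t => eval (fun im : κ × ι => A t im.1 im.2) Q) =
        eval₂ (Pi.constRingHom I k) (fun (im : κ × ι) (t : I) => A t im.1 im.2) Q := by
      funext t
      exact (eval₂_comp_left (Pi.evalRingHom (fun _ : I => k) t) (Pi.constRingHom I k)
        (fun (im : κ × ι) (t : I) => A t im.1 im.2) Q).symm
    rw [h2]
    exact h1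
  · intro h
    funext i
    have : (fun t => p t i) = 0 := by
      funext t
      rw [h t]
      rfl
    simp only [this, map_zero]
    rfl
  · intro h h0
    have h1 : ∀ᶠ t in (U : Filter I), ∀ i, p t i = 0 := by
      refine Filter.eventually_all.2 fun i => ?_
      rw [← ultra_phi_eq_zero]
      exact congrFun h0 i
    obtain ⟨t, ht, ht'⟩ := (h.and h1).exists
    exact ht (funext ht')
  · intro H hH
    rw [hconst] at hH
    filter_upwards [ultra_transfer U P A p _ hH] with t ht
    rwa [hev] at ht
  · rintro H e ⟨g, hg, hgH⟩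
    obtain ⟨g', hg', hgs⟩ := ultra_exists_lift U g
    rw [hconst, ← hg', ← map_sub] at hgH
    filter_upwards [ultra_transfer U P A p _ hgH] with t ht
    rw [map_sub, hev] at ht
    refine ⟨map (Pi.evalRingHom (fun _ : I => k) t) g', ?_, ht⟩
    refine (Finset.sup_le fun d hd => ?_ : (map (Pi.evalRingHom (fun _ : I => k) t) g').totalDegree
      ≤ g.totalDegree).trans hg
    exact le_totalDegree (hgs (support_map_subset _ _ hd))

end FibReg
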