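import Pool.Agent.FibReg.Generic
import Pool.Agent.FibReg.Center
import Pool.Agent.FibReg.Smooth
import Pool.Agent.FibReg.Ultra

/-!
# From the generic projection to the general projection
-/

open MvPolynomial

namespace FibReg

universe u

/-- The projection with matrix `a` is good. -/
def GoodMatrix {k : Type u} [Field k] {ι κ : Type} [Fintype ι] (P : Ideal (MvPolynomial ι k))
    (e : ℕ) (A : κ → ι → k) : Prop :=
  (∃ M : ℕ, ∀ m, X m ^ M ∈ affIdeal P A 0) ∧
    ∀ p : κ → k, p ≠ 0 → ∀ h : MvPolynomial ι k, ∃ g : MvPolynomial ι k,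
      g.totalDegree ≤ e ∧ h - g ∈ affIdeal P A p

theorem exists_good {k : Type u} [Field k] [IsAlgClosed k] [CharZero k] {ι κ : Type} [Fintype ι]
    [DecidableEq ι] [Fintype κ] [DecidableEq κ] (n c q : ℕ) (hc : 1 ≤ c)
    (hι : Fintype.card ι = n + 1 + q) (hκ : Fintype.card κ = n + 1 + c)
    (P : Ideal (MvPolynomial ι k)) (hP : IsHomog P)
    (hsm : ∀ x : ι → k, x ≠ 0 → (∀ G ∈ P, eval x G = 0) →
      q ≤ Module.finrank k (Submodule.span k
        {v : ι → k | ∃ G ∈ P, v = fun j => eval x (pderiv j G)})) :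
    ∃ Φ : MvPolynomial (κ × ι) k, Φ ≠ 0 ∧ ∀ a : κ × ι → k, eval a Φ ≠ 0 →
      GoodMatrix P (n / c) (fun i m => a (i, m)) := by
  classical
  by_contra hno
  push Not at hno
  obtain ⟨I, U, a, hbad, hgen⟩ := exists_ultra
    (fun a : κ × ι → k => ¬ GoodMatrix P (n / c) (fun i m => a (i, m))) hno
  obtain ⟨F, _, _, A', hF, hQ, htr⟩ := exists_ultra_field P I U (fun t i m => a t (i, m))
  have : CharZero F := charZero_of_injective_algebraMap (algebraMap k F).injective
  have hind : AlgebraicIndependent k (fun im : κ × ι => A' im.1 im.2) := by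
    rw [algebraicIndependent_iff]
    intro Q hQ0
    by_contra hne
    have h1 := hQ Q hQ0
    have h2 := hgen Q hne
    obtain ⟨t, ht1, ht2⟩ := (h1.and h2).exists
    exact ht2 ht1
  choose D hDk hD1 hD0 using fun im : κ × ι => exists_dual_derivation hind im
  have hDA : ∀ i m j l, D (i, m) (A' j l) = if j = i ∧ l = m then 1 else 0 := by
    intro i m j l
    split_ifs with h
    · rw [h.1, h.2]
      exact hD1 (i, m)
    · refine hD0 (i, m) (j, l) ?_
      intro heq
      rw [Prod.mk.injEq] at heq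
      exact h heq
  have hsm' : ∀ x : ι → F, x ≠ 0 → (∀ G ∈ P, aeval x G = 0) → MinorAt q P x :=
    fun x hx hxP => minor_transfer q P hsm x hx hxP
  obtain ⟨M, hM⟩ := generic_center n q hι (by omega) P A' (fun i m => D (i, m))
    (fun i m b => hDk (i, m) b) hDA hsm'
  -- the centre
  obtain ⟨p₀, hp₀, -, hmem₀, -⟩ := htr (fun _ => 0)
  have hp₀' : p₀ = 0 := hp₀ fun _ => rfl
  have hcen : ∀ᶠ t in (U : Filter I), ∀ m, X m ^ M ∈ affIdeal P (fun i m => a t (i, m)) 0 := by
    rw [Filter.eventually_all]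
    intro m
    refine hmem₀ (X m ^ M) ?_
    rw [map_pow, map_X, hp₀']
    exact hM m
  -- the bad fibres
  let p : I → κ → k := fun t =>
    if h : ∃ p : κ → k, p ≠ 0 ∧ ¬ ∀ h : MvPolynomial ι k, ∃ g : MvPolynomial ι k,
      g.totalDegree ≤ n / c ∧ h - g ∈ affIdeal P (fun i m => a t (i, m)) p then h.choose else 0
  have hp : ∀ t, (∀ m, X m ^ M ∈ affIdeal P (fun i m => a t (i, m)) 0) →
      p t ≠ 0 ∧ ¬ ∀ h : MvPolynomial ι k, ∃ g : MvPolynomial ι k,
        g.totalDegree ≤ n / c ∧ h - g ∈ affIdeal P (fun i m => a t (i, m)) (p t) := by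
    intro t ht
    have hb := hbad t
    unfold GoodMatrix at hb
    rw [not_and_or] at hb
    rcases hb with hb | hb
    · exact absurd ⟨M, ht⟩ hb
    · have hex : ∃ p : κ → k, p ≠ 0 ∧ ¬ ∀ h : MvPolynomial ι k, ∃ g : MvPolynomial ι k,
          g.totalDegree ≤ n / c ∧ h - g ∈ affIdeal P (fun i m => a t (i, m)) p := by
        by_contra hnex
        apply hb
        intro p hp
        by_contra hcon
        exact hnex ⟨p, hp, hcon⟩
      have hpt : p t = hex.choose := dif_pos hex
      rw [hpt]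
      exact hex.choose_spec
  obtain ⟨p', -, hp'ne, -, htrans⟩ := htr p
  have hp' : p' ≠ 0 := hp'ne (hcen.mono fun t ht => (hp t ht).1)
  have hgood := generic_fiber n c q hc hι hκ P hP A' (fun i m => D (i, m))
    (fun i m b => hDk (i, m) b) hDA hsm' M hM (isHomog_extIdeal hP) p' hp'
  have hfinset : {d : ι →₀ ℕ | d.degree = n / c + 1}.Finite := by
    have : {d : ι →₀ ℕ | d.degree = n / c + 1} =
        ↑(Finset.finsuppAntidiag (Finset.univ : Finset ι) (n / c + 1)) := by
      ext d
      simp [Finsupp.degree_eq_sum]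
    rw [this]
    exact Finset.finite_toSet _
  have hev : ∀ᶠ t in (U : Filter I), ∀ d ∈ {d : ι →₀ ℕ | d.degree = n / c + 1},
      ∃ g : MvPolynomial ι k, g.totalDegree ≤ n / c ∧
        monomial d 1 - g ∈ affIdeal P (fun i m => a t (i, m)) (p t) := by
    rw [Filter.eventually_all_finite hfinset]
    intro d _
    refine htrans (monomial d 1) (n / c) ?_
    exact hgood _
  obtain ⟨t, ht1, ht2⟩ := (hcen.and hev).exists
  exact (hp t ht1).2 (good_of_monomials _ (n / c) ht2)

end FibReg
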