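import Pool.Agent.FibReg.Basic
import Pool.Agent.FibReg.LocalB1
import Pool.Agent.FibReg.LocalB2
import Pool.Agent.FibReg.LocalB3
import Pool.Agent.FibReg.Lagrange

/-!
# The local package at a point of the fibre
-/

open MvPolynomial

namespace FibReg

universe u

theorem eval_map_pt {F K : Type*} [Field F] [Field K] [Algebra F K] {ι : Type*} (x : ι → F)
    (h : MvPolynomial ι F) :
    eval (fun i => algebraMap F K (x i)) (map (algebraMap F K) h) =
      algebraMap F K (eval x h) := by
  induction h using MvPolynomial.induction_on with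
  | C a => rw [map_C, eval_C, eval_C]
  | add p q hp hq => rw [map_add, map_add, map_add, map_add, hp, hq]
  | mul_X p i hp => rw [map_mul, map_mul, map_mul, map_mul, map_X, eval_X, eval_X, hp]

theorem eval_map_zero {F K : Type*} [Field F] [Field K] [Algebra F K] {ι : Type*}
    (h : MvPolynomial ι F) :
    eval (0 : ι → K) (map (algebraMap F K) h) = algebraMap F K (eval 0 h) := by
  rw [← eval_map_pt (K := K) (0 : ι → F) h]
  congr 1
  have : (0 : ι → K) = fun i => algebraMap F K ((0 : ι → F) i) :=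
    funext fun i => (map_zero (algebraMap F K)).symm
  rw [← this]

/-- `sysPoly` has the required leading forms. -/
theorem sysPoly_sub_totalDegree {F K : Type*} [Field F] [Field K] [Algebra F K] {ι J : Type*}
    [Fintype J] (ψ : J → MvPolynomial ι F) (cc : ι → J → K) (D : ℕ) (hD0 : 0 < D)
    (hD : ∀ j, (ψ j).totalDegree < D) (i : ι) :
    (sysPoly ψ cc D i - X i ^ D).totalDegree < D := by
  unfold sysPoly
  rw [add_sub_cancel_right]
  refine lt_of_le_of_lt (totalDegree_finsetSum _ _) ?_
  rw [Finset.sup_lt_iff (by exact hD0)]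
  intro j _
  refine lt_of_le_of_lt (totalDegree_mul _ _) ?_
  rw [totalDegree_C, zero_add]
  refine lt_of_le_of_lt ?_ (hD j)
  rw [totalDegree, totalDegree]
  exact Finset.sup_mono (support_map_subset _ _)

/-- the system lies in the ideal generated by the `ψ` and the `X i ^ D`. -/
theorem sysPoly_mem {F K : Type*} [Field F] [Field K] [Algebra F K] {ι J : Type*}
    [Fintype J] (ψ : J → MvPolynomial ι F) (cc : ι → J → K) (D : ℕ) (s : MvPolynomial ι F) (M : ℕ)
    (hM : ∀ i, s * X i ^ M ∈ Ideal.span (Set.range ψ)) (hMD : M ≤ D) (i : ι) :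
    map (algebraMap F K) s * sysPoly ψ cc D i ∈
      (Ideal.span (Set.range ψ)).map (map (algebraMap F K)) := by
  unfold sysPoly
  rw [mul_add]
  refine Ideal.add_mem _ ?_ ?_
  · refine Ideal.mul_mem_left _ _ (Ideal.sum_mem _ fun j _ => Ideal.mul_mem_left _ _ ?_)
    exact Ideal.mem_map_of_mem _ (Ideal.subset_span ⟨j, rfl⟩)
  · have h1 : map (algebraMap F K) (s * X i ^ D) = map (algebraMap F K) s * X i ^ D := by
      rw [map_mul, map_pow, map_X]
    rw [← h1]
    apply Ideal.mem_map_of_mem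
    obtain ⟨e, rfl⟩ := Nat.exists_eq_add_of_le hMD
    rw [pow_add, ← mul_assoc]
    exact Ideal.mul_mem_right _ _ (hM i)

variable {F K : Type u} [Field F] [Field K] [Algebra F K] [CharZero K] [IsAlgClosed K]
  {ι J : Type} [Fintype ι] [DecidableEq ι] [Fintype J] [DecidableEq J]

omit [CharZero K] [IsAlgClosed K] [Fintype ι] [DecidableEq ι] in
/-- elements of the `L`-th power of the ideal of the origin have large value. -/
theorem le_v_of_mem_pow {ξ : ι → HS K} (hξ : ∀ i, 0 < (ξ i).orderTop) {w : WithTop ℚ}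
    (hmin : ∀ i, w ≤ (ξ i).orderTop) (L : ℕ) {h : MvPolynomial ι F}
    (hh : h ∈ originIdeal F ι ^ L) : L • w ≤ (aeval ξ h).orderTop := by
  induction L generalizing h with
  | zero =>
    rw [zero_nsmul]
    exact v_aeval_nonneg (fun i => (hξ i).le) h
  | succ L ih =>
    rw [pow_succ] at hh
    refine Submodule.mul_induction_on hh ?_ ?_
    · intro a ha b hb
      rw [map_mul, v_mul, succ_nsmul]
      refine add_le_add (ih ha) ?_
      unfold originIdeal at hb
      refine Submodule.span_induction ?_ ?_ ?_ ?_ hb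
      · rintro _ ⟨i, rfl⟩
        rw [aeval_X]
        exact hmin i
      · simp
      · intro x y _ _ hx hy
        rw [map_add]
        exact le_v_add hx hy
      · intro a x _ hx
        rw [smul_eq_mul, map_mul]
        exact le_v_mul_left (v_aeval_nonneg (fun i => (hξ i).le) a) hx
    · intro x y hx hy
      rw [map_add]
      exact le_v_add hx hy

omit [IsAlgClosed K] in
/-- **The local bound**: the value of the Jacobian is smaller than the value of every element of
the `L`-th power of the ideal of the origin. -/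
theorem local_bound (G : GenericData F K ι J) (ψ : J → MvPolynomial ι F)
    (hψ0 : ∀ j, eval 0 (ψ j) = 0)
    (D : ℕ) (hD0 : 0 < D)
    {ξ : ι → HS K} (hsol : IsSol (sysPoly ψ G.cc D) G.uu ξ) (hξ : ∀ i, 0 < (ξ i).orderTop)
    (hfin : Module.Finite F (MvPolynomial ι F ⧸ arcIdeal F ξ)) (L : ℕ)
    (hL : Module.finrank F (MvPolynomial ι F ⧸ arcIdeal F ξ) ≤ L)
    {h : MvPolynomial ι F} (hh : h ∈ originIdeal F ι ^ L) :
    (aeval ξ (jac (sysPoly ψ G.cc D))).orderTop < (aeval ξ h).orderTop := by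
  have hJ := local_J G ψ D hsol
  rcases isEmpty_or_nonempty ι with hempty | hne
  · -- no variables: `arcIdeal = ⊥`, `L ≥ 1`, `originIdeal = ⊥`
    have h1 : 1 ≤ L := by
      refine le_trans ?_ hL
      rw [Nat.one_le_iff_ne_zero]
      intro h0
      have : Subsingleton (MvPolynomial ι F ⧸ arcIdeal F ξ) := by
        rw [← Module.finrank_eq_zero_iff_of_free (R := F)]
        exact h0
      have hone : (1 : MvPolynomial ι F) ∈ arcIdeal F ξ := by
        rw [← Ideal.Quotient.eq_zero_iff_mem]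
        exact Subsingleton.elim _ _
      rw [mem_arcIdeal (fun i => (hξ i).le), map_one, HahnSeries.orderTop_one] at hone
      exact absurd hone (by norm_num)
    have h0 : h = 0 := by
      have hbot : originIdeal F ι = ⊥ := by
        unfold originIdeal
        rw [Set.range_eq_empty, Ideal.span_empty]
      rw [hbot, ← Ideal.zero_eq_bot, zero_pow (by omega), Ideal.zero_eq_bot, Ideal.mem_bot] at hh
      exact hh
    rw [h0, map_zero, HahnSeries.orderTop_zero]
    exact HahnSeries.orderTop_lt_top.2 hJ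
  · -- a coordinate of minimal valuation
    obtain ⟨i₀, hi₀⟩ := Finite.exists_min (fun i => (ξ i).orderTop)
    have hne0 : ξ i₀ ≠ 0 := by
      intro h0
      have hall : ∀ i, ξ i = 0 := by
        intro i
        have := hi₀ i
        rw [h0, HahnSeries.orderTop_zero, top_le_iff, HahnSeries.orderTop_eq_top] at this
        exact this
      have hsol0 := hsol i₀
      have hz : aeval ξ (sysPoly ψ G.cc D i₀) = 0 := by
        unfold sysPoly
        rw [map_add, map_pow, aeval_X, hall i₀, zero_pow hD0.ne', add_zero, map_sum]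
        refine Finset.sum_eq_zero fun j _ => ?_
        rw [map_mul, aeval_map_HS]
        have : ξ = 0 := funext hall
        rw [this]
        have h2 : aeval (0 : ι → HS K) (ψ j) = algebraMap F (HS K) (eval 0 (ψ j)) := by
          have h3 := MvPolynomial.aeval_algebraMap_apply (A := F) (HS K) (0 : ι → F) (ψ j)
          rw [show (algebraMap F (HS K) ∘ (0 : ι → F)) = (0 : ι → HS K) from
            funext fun i => map_zero _] at h3
          rw [h3]
          rfl
        rw [h2, hψ0 j, map_zero, mul_zero]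
      rw [hz] at hsol0
      have hu : G.uu i₀ = 0 := by
        have := congrArg (fun y => HahnSeries.coeff y (1 : ℚ)) hsol0
        simpa using this.symm
      have := G.Du_uu i₀ i₀
      rw [hu, map_zero, if_pos rfl] at this
      exact one_ne_zero this.symm
    obtain ⟨v₀, hv₀⟩ : ∃ v₀ : ℚ, (ξ i₀).orderTop = (v₀ : WithTop ℚ) := by
      obtain ⟨v₀, hv₀⟩ := WithTop.ne_top_iff_exists.1 (HahnSeries.orderTop_ne_top.2 hne0)
      exact ⟨v₀, hv₀.symm⟩
    have hv₀pos : 0 < v₀ := by
      have := hξ i₀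
      rw [hv₀] at this
      exact_mod_cast this
    obtain ⟨z, hz, hzL⟩ := local_B3 (F := F) ξ hξ i₀ v₀ hv₀ hfin L hL
    have hB2 := local_B2 G ψ D hsol hξ z hz
    have hpow : L • (v₀ : WithTop ℚ) ≤ (aeval ξ h).orderTop :=
      le_v_of_mem_pow hξ (fun i => hv₀ ▸ hi₀ i) L hh
    refine lt_of_lt_of_le ?_ hpow
    -- everything is finite
    have hsumtop : ∑ k, (aeval ξ (z k)).orderTop ≠ ⊤ := by
      intro htop
      rw [htop, add_top] at hB2
      exact WithTop.coe_ne_top (top_le_iff.1 hB2)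
    obtain ⟨S, hS⟩ := WithTop.ne_top_iff_exists.1 hsumtop
    obtain ⟨w, hw⟩ := WithTop.ne_top_iff_exists.1 (HahnSeries.orderTop_ne_top.2 hJ)
    rw [← hS, ← hw] at hB2
    rw [← hS] at hzL
    rw [← hw]
    have h1 : w + S ≤ (Fintype.card ι : ℚ) := by exact_mod_cast hB2
    have h2 : (Fintype.card ι : ℚ) + v₀ ≤ L * v₀ + S := by exact_mod_cast hzL
    have h3 : w < L * v₀ := by linarith
    have h4 : (L • (v₀ : WithTop ℚ)) = ((L * v₀ : ℚ) : WithTop ℚ) := by
      rw [← nsmul_eq_mul]
      norm_cast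
    rw [h4]
    exact_mod_cast h3

/-- **The local package** at a point of the fibre (translated to the origin). -/
theorem local_package (Ω : Subfield (HS K)) (hΩ : IsAlgClosed Ω)
    (hC : ∀ a : K, HahnSeries.C a ∈ Ω) (hq : ∀ q : ℚ, HahnSeries.single q (1 : K) ∈ Ω)
    (G : GenericData F K ι J) (ψ : J → MvPolynomial ι F) (hψ0 : ∀ j, eval 0 (ψ j) = 0)
    (hfin : Module.Finite F (MvPolynomial ι F ⧸ Ideal.span (Set.range ψ)))
    (s : MvPolynomial ι F) (hs : eval 0 s ≠ 0) (M : ℕ)
    (hM : ∀ i, s * X i ^ M ∈ Ideal.span (Set.range ψ)) :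
    ∃ ξ : ι → HS K, (∀ i, 0 < (ξ i).orderTop) ∧
      (∀ g ∈ Ideal.span (Set.range ψ), 1 ≤ (aeval ξ g).orderTop) ∧
      ∀ h ∈ originIdeal F ι ^ (Module.finrank F (MvPolynomial ι F ⧸ arcIdeal F ξ)),
        ∃ σ : MvPolynomial ι K, eval 0 σ ≠ 0 ∧
          σ * map (algebraMap F K) h ∈
            (Ideal.span (Set.range ψ)).map (map (algebraMap F K)) := by
  classical
  set D : ℕ := 1 + M + ∑ j, (ψ j).totalDegree with hDdef
  have hMD : M < D := by omega
  have hD0 : 0 < D := by omega
  have hDψ : ∀ j, (ψ j).totalDegree < D := by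
    intro j
    have := Finset.single_le_sum (f := fun j => (ψ j).totalDegree) (fun _ _ => Nat.zero_le _)
      (Finset.mem_univ j)
    omega
  set f := sysPoly ψ G.cc D with hf
  have hflead : ∀ i, (f i - X i ^ D).totalDegree < D := sysPoly_sub_totalDegree ψ G.cc D hD0 hDψ
  set N : Set (ι → HS K) := {ξ | (∀ i, ξ i ∈ Ω) ∧ IsSol f G.uu ξ ∧ ∀ i, 0 < (ξ i).orderTop}
    with hN
  have hB1 : ∀ ξ ∈ N, ∀ g ∈ Ideal.span (Set.range ψ), 1 ≤ (aeval ξ g).orderTop := by
    rintro ξ ⟨_, hsol, hξ⟩ g hg
    rw [← mem_arcIdeal (fun i => (hξ i).le)]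
    refine (Ideal.span_le.2 ?_) hg
    rintro _ ⟨j, rfl⟩
    show ψ j ∈ arcIdeal F ξ
    rw [mem_arcIdeal (fun i => (hξ i).le)]
    exact local_B1 G ψ hψ0 s hs M D hM hMD hsol hξ j
  have hle : ∀ ξ ∈ N, Ideal.span (Set.range ψ) ≤ arcIdeal F ξ := by
    intro ξ hξ g hg
    rw [mem_arcIdeal (fun i => (hξ.2.2 i).le)]
    exact hB1 ξ hξ g hg
  have hfinξ : ∀ ξ ∈ N, Module.Finite F (MvPolynomial ι F ⧸ arcIdeal F ξ) := by
    intro ξ hξ
    exact Module.Finite.of_surjective (Ideal.Quotient.factorₐ F (hle ξ hξ)).toLinearMap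
      (Ideal.Quotient.factor_surjective (hle ξ hξ))
  have hbound : ∀ ξ ∈ N, Module.finrank F (MvPolynomial ι F ⧸ arcIdeal F ξ) ≤
      Module.finrank F (MvPolynomial ι F ⧸ Ideal.span (Set.range ψ)) := by
    intro ξ hξ
    exact LinearMap.finrank_le_finrank_of_surjective
      (f := (Ideal.Quotient.factorₐ F (hle ξ hξ)).toLinearMap)
      (Ideal.Quotient.factor_surjective (hle ξ hξ))
  have hJne : ∀ s' : ι → HS K, (∀ i, s' i ∈ Ω) → IsSol f G.uu s' → aeval s' (jac f) ≠ 0 :=
    fun s' _ hsol => local_J G ψ D hsol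
  have hNne : N.Nonempty := by
    by_contra hemp
    obtain ⟨η, hη, hmem⟩ := exists_mul_mem Ω hΩ hC hq D f hflead G.uu hJne 1
      (fun s' h1 h2 h3 => absurd ⟨s', h1, h2, h3⟩ hemp)
    rw [mul_one] at hmem
    apply hη
    have hker : Ideal.span (Set.range f) ≤ RingHom.ker (eval (0 : ι → K)) := by
      rw [Ideal.span_le]
      rintro _ ⟨i, rfl⟩
      show eval 0 (f i) = 0
      rw [hf]
      unfold sysPoly
      rw [map_add, map_pow, eval_X, Pi.zero_apply, zero_pow hD0.ne', add_zero, map_sum]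
      refine Finset.sum_eq_zero fun j _ => ?_
      have h0 : eval (0 : ι → K) (map (algebraMap F K) (ψ j)) = 0 := by
        rw [eval_map_zero, hψ0 j, map_zero]
      rw [map_mul, h0, mul_zero]
    exact hker hmem
  set S : Set ℕ := (fun ξ => Module.finrank F (MvPolynomial ι F ⧸ arcIdeal F ξ)) '' N with hS
  have hSne : S.Nonempty := hNne.image _
  have hSbdd : BddAbove S := ⟨_, by
    rintro _ ⟨ξ, hξ, rfl⟩
    exact hbound ξ hξ⟩
  obtain ⟨ξ, hξN, hξmax⟩ := Nat.sSup_mem hSne hSbdd
  refine ⟨ξ, hξN.2.2, hB1 ξ hξN, ?_⟩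
  intro h hh
  obtain ⟨η, hη, hmem⟩ := exists_mul_mem Ω hΩ hC hq D f hflead G.uu hJne
    (map (algebraMap F K) h) (by
      intro s' h1 h2 h3
      have hs'N : s' ∈ N := ⟨h1, h2, h3⟩
      rw [aeval_map_HS]
      refine local_bound G ψ hψ0 D hD0 h2 h3 (hfinξ s' hs'N) _ ?_ hh
      show _ ≤ Module.finrank F (MvPolynomial ι F ⧸ arcIdeal F ξ)
      have : Module.finrank F (MvPolynomial ι F ⧸ arcIdeal F ξ) = sSup S := hξmax
      rw [this]
      exact le_csSup hSbdd ⟨s', hs'N, rfl⟩)
  refine ⟨map (algebraMap F K) s * η, ?_, ?_⟩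
  · rw [map_mul]
    refine mul_ne_zero ?_ hη
    intro h0
    apply hs
    rw [eval_map_zero] at h0
    exact (algebraMap F K).injective (by rw [map_zero]; exact h0)
  · rw [mul_assoc]
    have : ∀ g ∈ Ideal.span (Set.range f), map (algebraMap F K) s * g ∈
        (Ideal.span (Set.range ψ)).map (map (algebraMap F K)) := by
      intro g hg
      refine Submodule.span_induction ?_ ?_ ?_ ?_ hg
      · rintro _ ⟨i, rfl⟩
        exact sysPoly_mem ψ G.cc D s M hM hMD.le i
      · rw [mul_zero]
        exact Ideal.zero_mem _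
      · intro x y _ _ hx hy
        rw [mul_add]
        exact Ideal.add_mem _ hx hy
      · intro a x _ hx
        rw [smul_eq_mul, mul_left_comm]
        exact Ideal.mul_mem_left _ _ hx
    exact this _ hmem

end FibReg
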