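import Pool.Agent.FibReg.RegDefs

/-!
# MP_9e4267_ag, module Reg: regularity of the fibre from surjectivity in degree `e`
-/

open MvPolynomial

namespace FibReg

section Reg

attribute [local instance] MvPolynomial.gradedAlgebra

variable {k : Type*} [Field k] {ι κ : Type*} [Fintype ι]

theorem reg_lin_homog (A : κ → ι → k) (i : κ) : (lin A i).IsHomogeneous 1 := by
  unfold lin
  exact IsHomogeneous.sum _ _ _ fun m _ => isHomogeneous_C_mul_X _ _

omit [Fintype ι] in
theorem reg_isHomog (P : Ideal (MvPolynomial ι k)) (hP : IsHomog P) :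
    P.IsHomogeneous (homogeneousSubmodule ι k) := by
  intro i r hr
  have h := hP r hr i
  rwa [← decomposition.decompose'_apply] at h

theorem reg_fibre_homog (P : Ideal (MvPolynomial ι k)) (hP : IsHomog P) (A : κ → ι → k)
    (p : κ → k) : IsHomog (fibreIdeal P A p) := by
  have h1 : (fibreIdeal P A p).IsHomogeneous (homogeneousSubmodule ι k) := by
    refine Ideal.IsHomogeneous.sup (reg_isHomog P hP) (Ideal.homogeneous_span _ _ ?_)
    rintro x ⟨i, j, rfl⟩
    exact ⟨1, (((reg_lin_homog A i).C_mul _).sub ((reg_lin_homog A j).C_mul _))⟩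
  intro G hG d
  exact homogeneousComponent_mem_of_mem h1 hG d

omit [Fintype ι] in
theorem reg_comp_mul (l g : MvPolynomial ι k) (hl : l.IsHomogeneous 1) (t : ℕ) :
    homogeneousComponent (t + 1) (l * g) = l * homogeneousComponent t g := by
  conv_lhs => rw [← sum_homogeneousComponent g, Finset.mul_sum, map_sum]
  have h1 : ∀ i, homogeneousComponent (t + 1) (l * homogeneousComponent i g) =
      if i = t then l * homogeneousComponent t g else 0 := by
    intro i
    have h2 : l * homogeneousComponent i g ∈ homogeneousSubmodule ι k (1 + i) :=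
      hl.mul (homogeneousComponent_isHomogeneous i g)
    rw [homogeneousComponent_of_mem h2]
    by_cases h : i = t
    · subst h
      rw [if_pos (by ring), if_pos rfl]
    · rw [if_neg (by omega), if_neg h]
  rw [Finset.sum_congr rfl fun i _ => h1 i, Finset.sum_ite_eq']
  split
  · rfl
  · rename_i h
    rw [homogeneousComponent_eq_zero _ _ (by simpa using h), mul_zero]

omit [Fintype ι] in
theorem reg_comp_mul_zero (l g : MvPolynomial ι k) (hl : l.IsHomogeneous 1) :
    homogeneousComponent 0 (l * g) = 0 := by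
  rw [homogeneousComponent_zero]
  have h1 : coeff 0 l = 0 := hl.coeff_eq_zero (by simp)
  have h2 : coeff 0 (l * g) = coeff 0 l * coeff 0 g := by
    have := map_mul (constantCoeff (R := k) (σ := ι)) l g
    simpa [constantCoeff_eq] using this
  rw [h2, h1]
  simp

omit [Fintype ι] in
theorem reg_pow_mul_mem (J : Ideal (MvPolynomial ι k)) (hJ : IsHomog J)
    (l : MvPolynomial ι k) (hl : l.IsHomogeneous 1) (d : ℕ) (G : MvPolynomial ι k)
    (hG : G.IsHomogeneous d) (f : MvPolynomial ι k) (hf : f ∈ J) (g : MvPolynomial ι k)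
    (h : G = f + (l - 1) * g) : ∃ N : ℕ, l ^ N * G ∈ J := by
  have hc : ∀ t, homogeneousComponent t G = homogeneousComponent t f +
      homogeneousComponent t (l * g) - homogeneousComponent t g := by
    intro t
    rw [h]
    have : f + (l - 1) * g = f + l * g - g := by ring
    rw [this, map_sub, map_add]
  have hG' : ∀ t, homogeneousComponent t G = if t = d then G else 0 := fun t =>
    homogeneousComponent_of_mem hG
  have hA : ∀ t < d, homogeneousComponent t g ∈ J := by
    intro t
    induction t with
    | zero =>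
      intro ht
      have h1 := hc 0
      rw [hG', if_neg (by omega), reg_comp_mul_zero l g hl] at h1
      have h2 : homogeneousComponent 0 g = homogeneousComponent 0 f := by
        linear_combination h1
      rw [h2]
      exact hJ f hf 0
    | succ t ih =>
      intro ht
      have h1 := hc (t + 1)
      rw [hG', if_neg (by omega), reg_comp_mul l g hl] at h1
      have h2 : homogeneousComponent (t + 1) g = homogeneousComponent (t + 1) f +
          l * homogeneousComponent t g := by
        linear_combination h1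
      rw [h2]
      exact J.add_mem (hJ f hf _) (J.mul_mem_left _ (ih (by omega)))
  have hB : homogeneousComponent d g + G ∈ J := by
    have h1 := hc d
    rw [hG', if_pos rfl] at h1
    rcases Nat.eq_zero_or_pos d with h0 | h0
    · subst h0
      rw [reg_comp_mul_zero l g hl] at h1
      have h2 : homogeneousComponent 0 g + G = homogeneousComponent 0 f := by
        linear_combination h1
      rw [h2]
      exact hJ f hf 0
    · obtain ⟨t, rfl⟩ : ∃ t, d = t + 1 := ⟨d - 1, by omega⟩
      rw [reg_comp_mul l g hl] at h1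
      have h2 : homogeneousComponent (t + 1) g + G = homogeneousComponent (t + 1) f +
          l * homogeneousComponent t g := by
        linear_combination h1
      rw [h2]
      exact J.add_mem (hJ f hf _) (J.mul_mem_left _ (hA t (by omega)))
  have hC : ∀ N, homogeneousComponent (d + N) g + l ^ N * G ∈ J := by
    intro N
    induction N with
    | zero => simpa using hB
    | succ N ih =>
      have h1 := hc (d + N + 1)
      rw [hG', if_neg (by omega), reg_comp_mul l g hl] at h1
      have h2 : homogeneousComponent (d + (N + 1)) g + l ^ (N + 1) * G =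
          homogeneousComponent (d + N + 1) f +
            l * (homogeneousComponent (d + N) g + l ^ N * G) := by
        rw [← add_assoc d N 1]
        linear_combination h1
      rw [h2]
      exact J.add_mem (hJ f hf _) (J.mul_mem_left _ ih)
  refine ⟨g.totalDegree + 1, ?_⟩
  have h1 := hC (g.totalDegree + 1)
  rwa [homogeneousComponent_eq_zero _ _ (by omega), zero_add] at h1

section Main

variable (P : Ideal (MvPolynomial ι k)) (A : κ → ι → k) (p : κ → k)

theorem reg_lin_sub_mem (i : κ) : lin A i - C (p i) ∈ affIdeal P A p :=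
  Ideal.mem_sup_right (Ideal.subset_span ⟨i, rfl⟩)

theorem reg_fibre_le : fibreIdeal P A p ≤ affIdeal P A p := by
  refine sup_le le_sup_left (Ideal.span_le.2 ?_)
  rintro _ ⟨i, j, rfl⟩
  have h : C (p j) * lin A i - C (p i) * lin A j =
      C (p j) * (lin A i - C (p i)) - C (p i) * (lin A j - C (p j)) := by ring
  rw [SetLike.mem_coe, h]
  exact Ideal.sub_mem _ (Ideal.mul_mem_left _ _ (reg_lin_sub_mem P A p i))
    (Ideal.mul_mem_left _ _ (reg_lin_sub_mem P A p j))

theorem reg_minor_mem (i j : κ) :
    C (p j) * lin A i - C (p i) * lin A j ∈ fibreIdeal P A p :=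
  Ideal.mem_sup_right (Ideal.subset_span ⟨i, j, rfl⟩)

theorem reg_mem_iff (hP : IsHomog P) (M : ℕ) (hcen : ∀ m, X m ^ M ∈ affIdeal P A 0)
    (j : κ) (hj : p j ≠ 0) (d : ℕ) (G : MvPolynomial ι k) (hG : G.IsHomogeneous d) :
    G ∈ saturation (fibreIdeal P A p) ↔ G ∈ affIdeal P A p := by
  have hJ := reg_fibre_homog P hP A p
  set l : MvPolynomial ι k := C (p j)⁻¹ * lin A j with hl
  have hl1 : l.IsHomogeneous 1 := (reg_lin_homog A j).C_mul _
  have hCC : (C (p j)⁻¹ * C (p j) : MvPolynomial ι k) = 1 := by
    rw [← C_mul, inv_mul_cancel₀ hj, C_1]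
  have hlaff : l - 1 ∈ affIdeal P A p := by
    have h : l - 1 = C (p j)⁻¹ * (lin A j - C (p j)) := by
      rw [hl]
      linear_combination hCC
    rw [h]
    exact Ideal.mul_mem_left _ _ (reg_lin_sub_mem P A p j)
  constructor
  · rintro ⟨N, hN⟩
    have hlo : l ∈ originIdeal k ι := by
      rw [hl, lin]
      refine Ideal.mul_mem_left _ _ (Ideal.sum_mem _ fun m _ => Ideal.mul_mem_left _ _ ?_)
      exact Ideal.subset_span ⟨m, rfl⟩
    have h1 := reg_fibre_le P A p (hN (l ^ N) (Ideal.pow_mem_pow hlo N))
    have h2 : l ^ N - 1 ∈ affIdeal P A p := by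
      have := sub_dvd_pow_sub_pow l 1 N
      rw [one_pow] at this
      exact Ideal.mem_of_dvd _ this hlaff
    have h3 : G = l ^ N * G - (l ^ N - 1) * G := by ring
    rw [h3]
    exact Ideal.sub_mem _ h1 (Ideal.mul_mem_right _ _ h2)
  · intro hGa
    have hle : affIdeal P A p ≤ fibreIdeal P A p ⊔ Ideal.span {l - 1} := by
      refine sup_le (le_sup_left.trans le_sup_left) (Ideal.span_le.2 ?_)
      rintro _ ⟨i, rfl⟩
      have h : lin A i - C (p i) = C (p j)⁻¹ * (C (p j) * lin A i - C (p i) * lin A j) +
          C (p i) * (l - 1) := by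
        rw [hl]
        linear_combination (-lin A i) * hCC
      change lin A i - C _ ∈ _
      rw [h]
      exact Ideal.add_mem _ (Ideal.mem_sup_left (Ideal.mul_mem_left _ _ (reg_minor_mem P A p i j)))
        (Ideal.mem_sup_right (Ideal.mul_mem_left _ _ (Ideal.subset_span rfl)))
    obtain ⟨f, hf, g', hg', hfg⟩ := Submodule.mem_sup.1 (hle hGa)
    obtain ⟨g, rfl⟩ := Ideal.mem_span_singleton'.1 hg'
    obtain ⟨N, hN⟩ := reg_pow_mul_mem _ hJ l hl1 d G hG f hf g (by rw [← hfg]; ring)
    have hle2 : affIdeal P A 0 ≤ fibreIdeal P A p ⊔ Ideal.span {l} := by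
      refine sup_le (le_sup_left.trans le_sup_left) (Ideal.span_le.2 ?_)
      rintro _ ⟨i, rfl⟩
      have h : lin A i - C ((0 : κ → k) i) =
          C (p j)⁻¹ * (C (p j) * lin A i - C (p i) * lin A j) + C (p i) * l := by
        rw [hl]
        simp only [Pi.zero_apply, C_0]
        linear_combination (-lin A i) * hCC
      change lin A i - C _ ∈ _
      rw [h]
      exact Ideal.add_mem _ (Ideal.mem_sup_left (Ideal.mul_mem_left _ _ (reg_minor_mem P A p i j)))
        (Ideal.mem_sup_right (Ideal.mul_mem_left _ _ (Ideal.subset_span rfl)))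
    obtain ⟨Q, hQ⟩ : ∃ Q : ℕ, originIdeal k ι ^ Q ≤ fibreIdeal P A p ⊔ Ideal.span {l} := by
      refine Ideal.exists_pow_le_of_le_radical_of_fg ?_ ?_
      · refine Ideal.span_le.2 ?_
        rintro _ ⟨m, rfl⟩
        exact ⟨M, hle2 (hcen m)⟩
      · exact ⟨(Set.finite_range X).toFinset, by simp [originIdeal]⟩
    refine ⟨Q * (1 + N), fun g hg => ?_⟩
    rw [pow_mul] at hg
    have h1 : g ∈ fibreIdeal P A p ^ 1 ⊔ Ideal.span {l} ^ N :=
      Ideal.sup_pow_add_le_pow_sup_pow (Ideal.pow_right_mono hQ _ hg)
    rw [pow_one, Ideal.span_singleton_pow] at h1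
    obtain ⟨a, ha, b', hb', hab⟩ := Submodule.mem_sup.1 h1
    obtain ⟨b, rfl⟩ := Ideal.mem_span_singleton'.1 hb'
    rw [← hab]
    have h2 : (a + b * l ^ N) * G = a * G + b * (l ^ N * G) := by ring
    rw [h2]
    exact Ideal.add_mem _ (Ideal.mul_mem_right _ _ ha) (Ideal.mul_mem_left _ _ hN)

end Main

theorem reg_finrank_map_eq {V W₁ W₂ : Type*} [AddCommGroup V] [Module k V] [AddCommGroup W₁]
    [Module k W₁] [AddCommGroup W₂] [Module k W₂] (f₁ : V →ₗ[k] W₁) (f₂ : V →ₗ[k] W₂)
    (S : Submodule k V) (h : ∀ x ∈ S, f₁ x = 0 ↔ f₂ x = 0) :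
    Module.finrank k (S.map f₁) = Module.finrank k (S.map f₂) := by
  have hker : LinearMap.ker (f₁.domRestrict S) = LinearMap.ker (f₂.domRestrict S) := by
    ext x
    simpa using h x.1 x.2
  rw [← LinearMap.range_domRestrict, ← LinearMap.range_domRestrict,
    ← (f₁.domRestrict S).quotKerEquivRange.finrank_eq,
    ← (f₂.domRestrict S).quotKerEquivRange.finrank_eq, hker]

end Reg

theorem exists_regularity {k : Type*} [Field k] {ι κ : Type*} [Fintype ι] [Fintype κ]
    (P : Ideal (MvPolynomial ι k)) (hP : IsHomog P) (A : κ → ι → k) (M : ℕ)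
    (hcen : ∀ m, X m ^ M ∈ affIdeal P A 0) (p : κ → k) (hp : p ≠ 0) (e : ℕ)
    (hsurj : ∀ h : MvPolynomial ι k, ∃ g : MvPolynomial ι k, g.totalDegree ≤ e ∧
      h - g ∈ affIdeal P A p) :
    ∃ ρ, IsRegularity (fibreIdeal P A p) ρ ∧ ρ ≤ e + 1 := by
  obtain ⟨j, hj⟩ : ∃ j, p j ≠ 0 := by
    by_contra hcon
    push Not at hcon
    exact hp (funext hcon)
  set l : MvPolynomial ι k := C (p j)⁻¹ * lin A j with hl
  have hl1 : l.IsHomogeneous 1 := (reg_lin_homog A j).C_mul _
  have hCC : (C (p j)⁻¹ * C (p j) : MvPolynomial ι k) = 1 := by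
    rw [← C_mul, inv_mul_cancel₀ hj, C_1]
  have hlaff : l - 1 ∈ affIdeal P A p := by
    have h : l - 1 = C (p j)⁻¹ * (lin A j - C (p j)) := by
      rw [hl]
      linear_combination hCC
    rw [h]
    exact Ideal.mul_mem_left _ _ (reg_lin_sub_mem P A p j)
  have hH : ∀ t, e ≤ t → hilbFun (fibreIdeal P A p) t =
      Module.finrank k (MvPolynomial ι k ⧸ affIdeal P A p) := by
    intro t ht
    rw [hilbFun, reg_finrank_map_eq _ (Ideal.Quotient.mkₐ k (affIdeal P A p)).toLinearMap
      (homogeneousSubmodule ι k t) ?_]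
    · have htop : (homogeneousSubmodule ι k t).map
          (Ideal.Quotient.mkₐ k (affIdeal P A p)).toLinearMap = ⊤ := by
        rw [eq_top_iff]
        rintro x -
        obtain ⟨h, rfl⟩ := Ideal.Quotient.mk_surjective x
        obtain ⟨g, hg, hgh⟩ := hsurj h
        refine ⟨∑ s ∈ Finset.range (g.totalDegree + 1),
          l ^ (t - s) * homogeneousComponent s g, ?_, ?_⟩
        · refine IsHomogeneous.sum _ _ _ fun s hs => ?_
          rw [Finset.mem_range] at hs
          have h1 := (hl1.pow (t - s)).mul (homogeneousComponent_isHomogeneous s g)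
          have h2 : 1 * (t - s) + s = t := by omega
          rwa [h2] at h1
        · change Ideal.Quotient.mk _ _ = Ideal.Quotient.mk _ _
          rw [Ideal.Quotient.eq]
          have h1 : ∑ s ∈ Finset.range (g.totalDegree + 1),
              l ^ (t - s) * homogeneousComponent s g - h =
              ∑ s ∈ Finset.range (g.totalDegree + 1),
                (l ^ (t - s) - 1) * homogeneousComponent s g - (h - g) := by
            have h2 := sum_homogeneousComponent g
            simp only [sub_mul, one_mul, Finset.sum_sub_distrib]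
            rw [h2]
            ring
          rw [h1]
          refine Ideal.sub_mem _ (Ideal.sum_mem _ fun s _ => Ideal.mul_mem_right _ _ ?_) hgh
          have := sub_dvd_pow_sub_pow l 1 (t - s)
          rw [one_pow] at this
          exact Ideal.mem_of_dvd _ this hlaff
      rw [htop, finrank_top]
    · intro x hx
      change Ideal.Quotient.mk _ x = 0 ↔ Ideal.Quotient.mk _ x = 0
      rw [Ideal.Quotient.eq_zero_iff_mem, Ideal.Quotient.eq_zero_iff_mem]
      exact reg_mem_iff P A p hP M hcen j hj t x hx
  have himp : ImposesIndependentConditions (fibreIdeal P A p) e :=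
    ⟨_, ⟨e, fun t ht => hH t ht⟩, hH e le_rfl⟩
  have hne : ∃ m, 1 ≤ m ∧ ImposesIndependentConditions (fibreIdeal P A p) (m - 1) :=
    ⟨e + 1, by omega, by simpa using himp⟩
  classical
  refine ⟨Nat.find hne, ⟨Nat.find_spec hne, fun m hm => Nat.find_min' hne hm⟩,
    Nat.find_min' hne ⟨by omega, by simpa using himp⟩⟩

end FibReg
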