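import Pool.Agent.FibReg.Defs

/-!
# The definitions of the final statement are in `StatementDefs`
-/
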