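import Mathlib

/-!
# Regularity of fibres of linear projections: the definitions of the final statement
-/

open MvPolynomial

namespace FibReg

/-- `P` is a homogeneous ideal: it contains the homogeneous components of its elements. -/
def IsHomog {R : Type*} [CommRing R] {ι : Type*} (P : Ideal (MvPolynomial ι R)) : Prop :=
  ∀ G ∈ P, ∀ d : ℕ, homogeneousComponent d G ∈ P

/-- The ideal generated by all the variables `X_i` (the irrelevant ideal). -/
noncomputable def originIdeal (F : Type*) [Field F] (ι : Type*) : Ideal (MvPolynomial ι F) :=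
  Ideal.span (Set.range X)

/-- The linear form `L_i = ∑_m a_{im} X_m` given by the `i`-th row of `A`. -/
noncomputable def lin {F : Type*} [Field F] {ι κ : Type*} [Fintype ι] (A : κ → ι → F) (i : κ) :
    MvPolynomial ι F :=
  ∑ m, C (A i m) * X m

/-- `P` is the homogeneous prime ideal of a smooth projective variety `X ⊆ ℙ^r` of dimension `n`:
the coordinate ring of the affine cone over `X` has dimension `n + 1`, and at every point `[x]` of
`X` the gradients at `x` of the elements of `P` span a space of dimension `r - n` (Jacobian
criterion). -/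
structure IsSmoothVariety {k : Type*} [Field k] {r : ℕ}
    (P : Ideal (MvPolynomial (Fin (r + 1)) k)) (n : ℕ) : Prop where
  homogeneous : IsHomog P
  prime : P.IsPrime
  dim : ringKrullDim (MvPolynomial (Fin (r + 1)) k ⧸ P) = n + 1
  smooth : ∀ x : Fin (r + 1) → k, x ≠ 0 → (∀ G ∈ P, eval x G = 0) →
    Module.finrank k (Submodule.span k
      {v : Fin (r + 1) → k | ∃ G ∈ P, v = fun j => eval x (pderiv j G)}) = r - n

/-- The homogeneous ideal of the fibre over `[p]` of the linear projection `[x] ↦ [A x]` restricted
to the closed subscheme with homogeneous ideal `P`: generated by `P` and the `2 × 2` minors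
`p_j L_i - p_i L_j`. -/
noncomputable def fibreIdeal {k : Type*} [Field k] {ι κ : Type*} [Fintype ι]
    (P : Ideal (MvPolynomial ι k)) (A : κ → ι → k) (p : κ → k) : Ideal (MvPolynomial ι k) :=
  P ⊔ Ideal.span {f | ∃ i j, f = C (p j) * lin A i - C (p i) * lin A j}

/-- The saturation of `I` with respect to the irrelevant ideal `(X_i)`. -/
noncomputable def saturation {k : Type*} [Field k] {ι : Type*} (I : Ideal (MvPolynomial ι k)) :
    Ideal (MvPolynomial ι k) where
  carrier := {f | ∃ N : ℕ, ∀ g ∈ originIdeal k ι ^ N, g * f ∈ I}
  zero_mem' := ⟨0, fun g _ => by simp⟩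
  add_mem' := by
    rintro a b ⟨N, hN⟩ ⟨M, hM⟩
    refine ⟨N + M, fun g hg => ?_⟩
    rw [mul_add]
    exact I.add_mem (hN g (Ideal.pow_le_pow_right (Nat.le_add_right N M) hg))
      (hM g (Ideal.pow_le_pow_right (Nat.le_add_left M N) hg))
  smul_mem' := by
    rintro c a ⟨N, hN⟩
    refine ⟨N, fun g hg => ?_⟩
    rw [smul_eq_mul, mul_left_comm]
    exact I.mul_mem_left c (hN g hg)

/-- The Hilbert function of the closed subscheme of projective space defined by the homogeneous
ideal `I`: the dimension of the space of forms of degree `e` modulo the saturation of `I`. -/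
noncomputable def hilbFun {k : Type*} [Field k] {ι : Type*} (I : Ideal (MvPolynomial ι k))
    (e : ℕ) : ℕ :=
  Module.finrank k ((homogeneousSubmodule ι k e).map
    (Ideal.Quotient.mkₐ k (saturation I)).toLinearMap)

/-- The subscheme defined by `I` is finite of degree `d`: its Hilbert function is `d` in all large
degrees. -/
def HasDegree {k : Type*} [Field k] {ι : Type*} (I : Ideal (MvPolynomial ι k)) (d : ℕ) : Prop :=
  ∃ e₀ : ℕ, ∀ e ≥ e₀, hilbFun I e = d

/-- The finite subscheme `Z` defined by `I` imposes independent conditions on forms of degree `e`: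
the value of its Hilbert function at `e` is the degree of `Z`. -/
def ImposesIndependentConditions {k : Type*} [Field k] {ι : Type*}
    (I : Ideal (MvPolynomial ι k)) (e : ℕ) : Prop :=
  ∃ d, HasDegree I d ∧ hilbFun I e = d

/-- The finite subscheme `Z` defined by `I` has Castelnuovo-Mumford regularity `ρ`: `ρ` is the
least `m ≥ 1` such that `Z` imposes independent conditions on forms of degree `m - 1`. -/
def IsRegularity {k : Type*} [Field k] {ι : Type*} (I : Ideal (MvPolynomial ι k)) (ρ : ℕ) : Prop :=
  IsLeast {m | 1 ≤ m ∧ ImposesIndependentConditions I (m - 1)} ρ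

end FibReg
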